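import Pool.Agent.Lib.MP_16285c_agS.Hrx.SpecB
import Mathlib.FieldTheory.SeparableDegree
import Mathlib.RingTheory.Polynomial.UniqueFactorization
import Mathlib.RingTheory.Polynomial.RationalRoot

/-!
# The theorems on fibres in the format of a polynomial in three variables
-/

set_option autoImplicit false

namespace Pool.Agent.Lib.MP_16285c_agS.Bez

namespace ThrM

open MvPolynomial

open scoped IntermediateField

section ring

variable {F K : Type} [CommRing F] [CommRing K] [Algebra F K] {r : ℕ}

theorem fse_C (c : F) : finSuccEquiv F r (C c) = Polynomial.C (C c) := by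
  exact (finSuccEquiv F r).commutes c

theorem fse_pderiv (G : MvPolynomial (Fin (r + 1)) F) :
    finSuccEquiv F r (pderiv 0 G) = Polynomial.derivative (finSuccEquiv F r G) := by
  induction G using MvPolynomial.induction_on with
  | C a => rw [pderiv_C, map_zero, fse_C, Polynomial.derivative_C]
  | add p q hp hq => simp only [map_add, hp, hq]
  | mul_X p i hp =>
    rw [Derivation.leibniz, map_add, map_mul, Polynomial.derivative_mul, smul_eq_mul, smul_eq_mul,
      map_mul, map_mul, hp, mul_comm (finSuccEquiv F r (X i)), add_comm]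
    congr 2
    refine Fin.cases ?_ (fun j => ?_) i
    · rw [pderiv_X_self, map_one, finSuccEquiv_X_zero, Polynomial.derivative_X]
    · rw [pderiv_X_of_ne (Fin.succ_ne_zero j), map_zero, finSuccEquiv_X_succ,
        Polynomial.derivative_C]

theorem aeval_fse (y : Fin (r + 1) → K) (G : MvPolynomial (Fin (r + 1)) F) :
    aeval y G = (Polynomial.map (aeval (fun i => y i.succ) : MvPolynomial (Fin r) F →ₐ[F] K).toRingHom
      (finSuccEquiv F r G)).eval (y 0) := by
  rw [Polynomial.eval_map]
  induction G using MvPolynomial.induction_on with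
  | C a =>
    rw [fse_C, Polynomial.eval₂_C, aeval_C]
    change _ = aeval (fun i : Fin r => y i.succ) (C a)
    rw [aeval_C]
  | add p q hp hq => rw [map_add, map_add, hp, hq, Polynomial.eval₂_add]
  | mul_X p i hp =>
    rw [map_mul, map_mul, hp, Polynomial.eval₂_mul, aeval_X]
    congr 1
    refine Fin.cases ?_ (fun j => ?_) i
    · rw [finSuccEquiv_X_zero, Polynomial.eval₂_X]
    · rw [finSuccEquiv_X_succ, Polynomial.eval₂_C]
      change _ = aeval (fun i => y i.succ) (X j)
      rw [aeval_X]

theorem fse_map {S : Type} [CommRing S] (φ : F →+* S) (G : MvPolynomial (Fin (r + 1)) F) :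
    finSuccEquiv S r (map φ G) = (finSuccEquiv F r G).map (map φ) := by
  induction G using MvPolynomial.induction_on with
  | C a => rw [map_C, fse_C, fse_C, Polynomial.map_C, map_C]
  | add p q hp hq => rw [map_add, map_add, map_add, hp, hq, Polynomial.map_add]
  | mul_X p i hp =>
    rw [map_mul, map_mul, map_mul, hp, Polynomial.map_mul, map_X]
    congr 1
    refine Fin.cases ?_ (fun j => ?_) i
    · rw [finSuccEquiv_X_zero, finSuccEquiv_X_zero, Polynomial.map_X]
    · rw [finSuccEquiv_X_succ, finSuccEquiv_X_succ, Polynomial.map_C, map_X]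

theorem irr_fse (G : MvPolynomial (Fin (r + 1)) F) :
    Irreducible (finSuccEquiv F r G) ↔ Irreducible G :=
  MulEquiv.irreducible_iff (finSuccEquiv F r).toMulEquiv

end ring

section gen

variable {κ E : Type} [Field κ] [Field E] [Algebra κ E] {P : MvPolynomial (Fin 3) κ} {ξ : Fin 3 → E}

theorem deg_pos (hP : Irreducible P) (hm : (finSuccEquiv κ 2 P).Monic) :
    0 < (finSuccEquiv κ 2 P).natDegree := by
  rw [Nat.pos_iff_ne_zero]
  intro h0
  have h1 := (Polynomial.Monic.natDegree_eq_zero hm).1 h0
  have h2 := (irr_fse P).2 hP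
  rw [h1] at h2
  exact h2.1 isUnit_one

theorem algInd (hP : Irreducible P) (hm : (finSuccEquiv κ 2 P).Monic)
    (hξ : ∀ A : MvPolynomial (Fin 3) κ, aeval ξ A = 0 ↔ P ∣ A) :
    AlgebraicIndependent κ (fun i : Fin 2 => ξ i.succ) := by
  rw [algebraicIndependent_iff]
  intro A hA
  have h1 : aeval ξ ((finSuccEquiv κ 2).symm (Polynomial.C A)) = 0 := by
    rw [aeval_fse, AlgEquiv.apply_symm_apply, Polynomial.map_C, Polynomial.eval_C]
    exact hA
  rw [hξ] at h1
  have h2 : finSuccEquiv κ 2 P ∣ Polynomial.C A := by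
    obtain ⟨S, hS⟩ := h1
    refine ⟨finSuccEquiv κ 2 S, ?_⟩
    rw [← map_mul, ← hS, AlgEquiv.apply_symm_apply]
  by_contra hA0
  have h3 : (Polynomial.C A : Polynomial (MvPolynomial (Fin 2) κ)) ≠ 0 := by
    rwa [Ne, Polynomial.C_eq_zero]
  have h4 := Polynomial.natDegree_le_of_dvd h2 h3
  rw [Polynomial.natDegree_C] at h4
  have := deg_pos hP hm
  omega

theorem root (hξ : ∀ A : MvPolynomial (Fin 3) κ, aeval ξ A = 0 ↔ P ∣ A) :
    ((finSuccEquiv κ 2 P).map
      (aeval (fun i : Fin 2 => ξ i.succ) : MvPolynomial (Fin 2) κ →ₐ[κ] E).toRingHom).eval (ξ 0) = 0 := by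
  rw [← aeval_fse]
  exact (hξ P).2 dvd_rfl

theorem der_ne (hs : ¬ P ∣ pderiv 0 P) : Polynomial.derivative (finSuccEquiv κ 2 P) ≠ 0 := by
  rw [← fse_pderiv]
  intro h
  apply hs
  rw [EmbeddingLike.map_eq_zero_iff] at h
  rw [h]
  exact dvd_zero P

theorem map_sp {F : Type} [Field F] [Algebra κ F] (η : F) (P : MvPolynomial (Fin 3) κ) :
    (finSuccEquiv κ 2 P).map
      (eval₂Hom (Polynomial.C.comp (algebraMap κ F)) ![Polynomial.C η, Polynomial.X]) = sp η P := by
  unfold sp
  induction P using MvPolynomial.induction_on with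
  | C a =>
    rw [fse_C, Polynomial.map_C, coe_eval₂Hom, eval₂_C, aeval_C]
    rfl
  | add p q hp hq => rw [map_add, Polynomial.map_add, map_add, hp, hq]
  | mul_X p i hp =>
    rw [map_mul, Polynomial.map_mul, map_mul, hp, aeval_X]
    congr 1
    fin_cases i
    · exact (congrArg _ (finSuccEquiv_X_zero (R := κ) (n := 2))).trans (Polynomial.map_X _)
    · refine (congrArg _ (finSuccEquiv_X_succ (R := κ) (n := 2) (j := 0))).trans ?_
      rw [Polynomial.map_C, coe_eval₂Hom, eval₂_X]
      rfl
    · refine (congrArg _ (finSuccEquiv_X_succ (R := κ) (n := 2) (j := 1))).trans ?_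
      rw [Polynomial.map_C, coe_eval₂Hom, eval₂_X]
      rfl

end gen

end ThrM

open ThrM

open scoped IntermediateField

theorem tBN3 : StmtBN → StmtBN3 := by
  intro hBN R Ω _ _ _ _ ι hι P hm hP
  have h1 : Irreducible ((MvPolynomial.finSuccEquiv R 2 P).map (MvPolynomial.map ι)) := by
    rw [← fse_map]
    exact (irr_fse _).2 hP
  obtain ⟨g, hg, h⟩ := hBN R Ω ι hι 2 (MvPolynomial.finSuccEquiv R 2 P) hm h1
  refine ⟨g, hg, fun F _ φ hφ => ?_⟩
  have h2 := h F φ hφ
  rw [← fse_map] at h2
  exact (irr_fse _).1 h2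

theorem tFib3 : StmtFib → StmtFib3 := by
  intro hF κ E _ _ _ _ P hP hm hs ξ hξ hacl
  obtain ⟨h, hh, hirr⟩ := hF κ E (fun i : Fin 2 => ξ i.succ) (ξ 0) (algInd hP hm hξ)
    (MvPolynomial.finSuccEquiv κ 2 P) hm ((irr_fse P).2 hP) (root hξ) (der_ne hs) hacl
  refine ⟨h, hh, fun F _ _ η hη => ?_⟩
  have h1 := hirr F (algebraMap κ F) η hη
  rw [map_sp] at h1
  exact h1

open MvPolynomial in
theorem tBert3 : StmtBert0 → StmtBert3 := by
  intro hB κ E _ _ _ _ P hP hm hs ξ hξ htop
  have hai := algInd hP hm hξ
  let x : Fin 2 → E := fun i => ξ i.succ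
  let M : IntermediateField κ E := IntermediateField.adjoin κ (Set.range x)
  let x' : Fin 2 → M := fun i => ⟨x i, IntermediateField.subset_adjoin _ _ ⟨i, rfl⟩⟩
  let Q := finSuccEquiv κ 2 P
  let φ : MvPolynomial (Fin 2) κ →+* M := (aeval x' : MvPolynomial (Fin 2) κ →ₐ[κ] M).toRingHom
  have hφ : (algebraMap M E).comp φ = (aeval x : MvPolynomial (Fin 2) κ →ₐ[κ] E).toRingHom := by
    apply MvPolynomial.ringHom_ext
    · intro c
      change algebraMap M E (aeval x' (C c)) = aeval x (C c)
      rw [aeval_C, aeval_C]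
      rfl
    · intro i
      change algebraMap M E (aeval x' (X i)) = aeval x (X i)
      rw [aeval_X, aeval_X]
      rfl
  have hinj : Function.Injective φ := by
    have h1 : Function.Injective ((algebraMap M E).comp φ) := by
      rw [hφ]
      exact hai
    rw [RingHom.coe_comp] at h1
    exact Function.Injective.of_comp h1
  have hsep : (Q.map φ).Separable := by
    let Fr := FractionRing (MvPolynomial (Fin 2) κ)
    have h1 : Irreducible (Q.map (algebraMap (MvPolynomial (Fin 2) κ) Fr)) :=
      (Polynomial.Monic.irreducible_iff_irreducible_map_fraction_map hm).1 ((irr_fse P).2 hP)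
    have h2 : (Q.map (algebraMap (MvPolynomial (Fin 2) κ) Fr)).Separable := by
      rw [Polynomial.separable_iff_derivative_ne_zero h1, Polynomial.derivative_map]
      intro h
      exact der_ne hs ((Polynomial.map_eq_zero_iff (IsFractionRing.injective _ Fr)).1 h)
    have h3 := h2.map (f := IsFractionRing.lift (K := Fr) hinj)
    rw [Polynomial.map_map] at h3
    have h4 : (IsFractionRing.lift (K := Fr) hinj).comp (algebraMap (MvPolynomial (Fin 2) κ) Fr) = φ := by
      refine RingHom.ext fun a => ?_
      rw [RingHom.comp_apply, IsFractionRing.lift_algebraMap]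
    rwa [h4] at h3
  have hroot : Polynomial.aeval (ξ 0) (Q.map φ) = 0 := by
    rw [Polynomial.aeval_def, ← Polynomial.eval_map, Polynomial.map_map, hφ]
    exact root hξ
  have hint : IsIntegral M (ξ 0) := ⟨Q.map φ, hm.map φ, by rwa [← Polynomial.aeval_def]⟩
  have hsepx : IsSeparable M (ξ 0) := Polynomial.Separable.of_dvd hsep (minpoly.dvd M _ hroot)
  have htop' : IntermediateField.adjoin M {ξ 0} = ⊤ := by
    apply IntermediateField.restrictScalars_injective κ
    rw [IntermediateField.adjoin_adjoin_left, IntermediateField.restrictScalars_top, ← htop]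
    congr 1
    ext y
    simp only [Set.mem_union, Set.mem_range, Set.mem_singleton_iff, x]
    constructor
    · rintro (⟨i, hi⟩ | h)
      · exact ⟨i.succ, hi⟩
      · exact ⟨0, h.symm⟩
    · rintro ⟨i, hi⟩
      revert hi
      refine Fin.cases ?_ (fun j => ?_) i
      · intro h
        exact Or.inr h.symm
      · intro h
        exact Or.inl ⟨j, h⟩
  have hfin : Module.Finite M E := by
    have h1 := IntermediateField.adjoin.finiteDimensional hint
    rw [htop'] at h1
    exact Module.Finite.equiv (IntermediateField.topEquiv (F := M) (E := E)).toLinearEquiv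
  have hsepE : Algebra.IsSeparable M E := by
    have h1 := (IntermediateField.isSeparable_adjoin_simple_iff_isSeparable M E).2 hsepx
    rw [htop'] at h1
    exact (IntermediateField.isSeparable_top M E).1 h1
  exact hB κ E x hai hfin hsepE

end Pool.Agent.Lib.MP_16285c_agS.Bez
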