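import Pool.Agent.Lib.MP_16285c_agS.Bez.Spec
import Mathlib.Algebra.MvPolynomial.PDeriv

/-!
# The theorems on fibres in the format of a polynomial in three variables: statements

`P : MvPolynomial (Fin 3) κ`, `Z = X 0`, `P` is irreducible and monic in `X 0`, `ξ : Fin 3 → E` is the generic point of `P = 0`.
-/

set_option autoImplicit false

namespace Pool.Agent.Lib.MP_16285c_agS.Bez

open scoped IntermediateField

/-- The fibre over `x₁ = η`: `P(Z, η, X)` with `Z` the variable of `Polynomial (Polynomial F)`, `X` the variable of `Polynomial F`. -/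
noncomputable def sp {κ F : Type} [Field κ] [Field F] [Algebra κ F] (η : F) (P : MvPolynomial (Fin 3) κ) :
    Polynomial (Polynomial F) :=
  MvPolynomial.aeval ![Polynomial.X, Polynomial.C (Polynomial.C η), Polynomial.C Polynomial.X] P

/-- (Y1) Bertini for a surface in three-space. PROOF (uses `StmtBert0`). Let `Q = finSuccEquiv κ 2 P`, irreducible, monic, of positive degree, with derivative
`finSuccEquiv (pderiv 0 P) ≠ 0` (`finSuccEquiv_pderiv_zero`-type lemma: `Pool/Agent/Lib/MP_410da7_agA/D6.lean`), `x i = ξ i.succ`. For all `A`: `aeval ξ A` is the value at `ξ 0` of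
`(finSuccEquiv A).map (aeval x)` (two algebra homomorphisms). `x` is algebraically independent: a relation `A` gives `Q ∣ C A` in
`MvPolynomial (Fin 2) κ [Z]`, so `A = 0`. `M = κ(x)`; `ξ 0` is a root of `Q^x ∈ M[Z]`, monic; `Q` is irreducible over the fraction field of
`MvPolynomial (Fin 2) κ` (`Polynomial.Monic.irreducible_iff_irreducible_map_fraction_map`) and has nonzero derivative, so `Q` and `Q'` are relatively prime over the
fraction field, and `Q^x` is separable (the fraction field embeds into `M`). So `E = M(ξ 0)` is finite and separable over `M`. -/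
def StmtBert3 : Prop :=
  ∀ (κ E : Type) [Field κ] [IsAlgClosed κ] [Field E] [Algebra κ E] (P : MvPolynomial (Fin 3) κ), Irreducible P →
    (MvPolynomial.finSuccEquiv κ 2 P).Monic → ¬ P ∣ MvPolynomial.pderiv 0 P →
    ∀ ξ : Fin 3 → E, (∀ A : MvPolynomial (Fin 3) κ, MvPolynomial.aeval ξ A = 0 ↔ P ∣ A) →
      IntermediateField.adjoin κ (Set.range ξ) = ⊤ →
      {t : κ | ¬ ∀ α : E, IsAlgebraic κ⟮ξ 1 + algebraMap κ E t * ξ 2⟯ α →
        α ∈ κ⟮ξ 1 + algebraMap κ E t * ξ 2⟯}.Finite

/-- (Y2) The fibres of a surface in three-space. PROOF (uses `StmtFib`). `Q`, `x` as in `StmtBert3`; the polynomial of `StmtFib` for `φ = algebraMap κ F` is `sp η P` (two ring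
homomorphisms on `MvPolynomial (Fin 3) κ`). -/
def StmtFib3 : Prop :=
  ∀ (κ E : Type) [Field κ] [IsAlgClosed κ] [Field E] [Algebra κ E] (P : MvPolynomial (Fin 3) κ), Irreducible P →
    (MvPolynomial.finSuccEquiv κ 2 P).Monic → ¬ P ∣ MvPolynomial.pderiv 0 P →
    ∀ ξ : Fin 3 → E, (∀ A : MvPolynomial (Fin 3) κ, MvPolynomial.aeval ξ A = 0 ↔ P ∣ A) →
      (∀ α : E, IsAlgebraic κ⟮ξ 1⟯ α → α ∈ κ⟮ξ 1⟯) →
      ∃ h : Polynomial κ, h ≠ 0 ∧ ∀ (F : Type) [Field F] [Algebra κ F] (η : F), Polynomial.aeval η h ≠ 0 →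
        Irreducible (sp η P)

/-- (Y3) Irreducibility in families for polynomials in three variables. PROOF (uses `StmtBN` with `n = 2`). Apply `StmtBN` to `finSuccEquiv R 2 P`, which is natural in `R`
(`MvPolynomial.map φ` corresponds to `Polynomial.map (MvPolynomial.map φ)`, compare both ring homomorphisms on `C`, `X 0`, `X j.succ`);
`Irreducible` is preserved by `finSuccEquiv`. -/
def StmtBN3 : Prop :=
  ∀ (R Ω : Type) [CommRing R] [IsDomain R] [Field Ω] [IsAlgClosed Ω] (ι : R →+* Ω), Function.Injective ι →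
    ∀ P : MvPolynomial (Fin 3) R, (MvPolynomial.finSuccEquiv R 2 P).Monic →
      Irreducible (MvPolynomial.map ι P) →
      ∃ g : R, g ≠ 0 ∧ ∀ (F : Type) [Field F] (φ : R →+* F), φ g ≠ 0 →
        Irreducible (MvPolynomial.map φ P)

end Pool.Agent.Lib.MP_16285c_agS.Bez
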