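import Pool.Agent.Lib.MP_16285c_agZ.Hru.Spec
import Pool.Agent.ZDO.Per
import Pool.Agent.Lib.MP_16285c_agS.Hrx.SpecB

/-!
# Frobenius points of dominant rational self-maps of surfaces in characteristic `p`: statements

Section A of note 4871 on `MP_16285c_ag`. The surface `X` is `P = 0` in affine three-space, `z = X 0`, `x₁ = X 1`, `x₂ = X 2`, `P` irreducible and
monic in `z`. The rational self-map is given by an ambient `f : RM κ 3`, `f_i = num i / den i`, which maps `X` to `X` (`Keeps`). Theorem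
(`StmtHrux`): for `p` large (depending on the degrees) there are points `a` of `X` over the algebraic closure of the prime field with
`f(a) = a ^ q`, outside a given curve, for suitable powers `q` of `p`.

Every lemma is a `Prop` with its proof in the docstring; the files proving them are independent: used statements are
hypotheses (the statements `SDer`, `SSepH`, `SPrd`, `SBd`, `SLoc`, `SPn`, `SRes`, `SFld` of `Pool/Agent/Lib/MP_16285c_agZ/Hru/Spec.lean` are proved in the files beside it: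
`tDer`, `tLoc`, `tPn`, `tRes`, `tFld`, …, they may be imported). Places: `Pool/Agent/Lib/MP_7f581e_Z/Crv` (namespace `MP7Z`), see the header of `Hru/Spec.lean`.
-/

set_option autoImplicit false

namespace Pool.Agent.Lib.MP_16285c_agS.Hrx

open MP7Z MvPolynomial
open scoped IntermediateField
open Pool.Agent.Lib.MP_16285c_ag (RM FrobPt)
open Pool.Agent.Lib.MP_16285c_agZ.Hru (Zn Pn Sit SDer SSepH SPrd SBd SLoc SPn SRes SFld)
open Pool.Agent.ZDO (Wd)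
open Pool.Agent.Lib.MP_16285c_agS.Bez (sp StmtBert3 StmtFib3)

/-- Monic in `z = X 0`. -/
def Mon {R : Type} [CommRing R] (P : MvPolynomial (Fin 3) R) : Prop := (finSuccEquiv R 2 P).Monic

/-- The degree in `z = X 0`. -/
noncomputable def dz {R : Type} [CommRing R] (P : MvPolynomial (Fin 3) R) : ℕ := (finSuccEquiv R 2 P).natDegree

/-- On `X` : `wX P f i j = P_z * den_i ^ 2 * ∂_j (f_i)`, `j = 1, 2`, where `∂_1, ∂_2` are the derivations of the function field extending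
`∂/∂x₁`, `∂/∂x₂`. -/
noncomputable def wX {R : Type} [CommRing R] (P : MvPolynomial (Fin 3) R) (f : RM R 3) (i j : Fin 3) :
    MvPolynomial (Fin 3) R := pderiv 0 P * Wd f i j - Wd f i 0 * pderiv j P

/-- The numerator of the Jacobian determinant on `X`. -/
noncomputable def jX {R : Type} [CommRing R] (P : MvPolynomial (Fin 3) R) (f : RM R 3) :
    MvPolynomial (Fin 3) R := wX P f 1 1 * wX P f 2 2 - wX P f 1 2 * wX P f 2 1

/-- The value of `f_i` at a point. -/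
noncomputable def fv {κ L : Type} [Field κ] [Field L] [Algebra κ L] (f : RM κ 3) (ξ : Fin 3 → L) (i : Fin 3) : L :=
  aeval ξ (f.num i) / aeval ξ (f.den i)

/-- `f` maps the surface `P = 0` to itself. -/
def Keeps {κ : Type} [Field κ] (P : MvPolynomial (Fin 3) κ) (f : RM κ 3) : Prop :=
  ∀ (L : Type) [Field L] [Algebra κ L] (ξ : Fin 3 → L), aeval ξ P = 0 → (∀ i, aeval ξ (f.den i) ≠ 0) →
    aeval (fv f ξ) P = 0

/-- A generic point of `X`. -/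
structure Gen {κ E : Type} [Field κ] [Field E] [Algebra κ E] (P : MvPolynomial (Fin 3) κ) (ξ : Fin 3 → E) : Prop where
  ker : ∀ A : MvPolynomial (Fin 3) κ, aeval ξ A = 0 ↔ P ∣ A
  top : IntermediateField.adjoin κ (Set.range ξ) = ⊤

/-- `κ(x₁)` is algebraically closed in the function field of `X`. -/
def Reg {κ : Type} [Field κ] (P : MvPolynomial (Fin 3) κ) : Prop :=
  ∀ (E : Type) [Field E] [Algebra κ E] (ξ : Fin 3 → E), Gen P ξ →
    ∀ a : E, IsAlgebraic κ⟮ξ 1⟯ a → a ∈ κ⟮ξ 1⟯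

/-- Order of the pole. -/
noncomputable def pl {k E : Type} [Field k] [Field E] [Algebra k E] (v : Place k E) (h : E) : ℤ := max (-(v.oz h)) 0

/-- Order of the zero. -/
noncomputable def zr {k E : Type} [Field k] [Field E] [Algebra k E] (v : Place k E) (h : E) : ℤ := max (v.oz h) 0

/-- The coefficient of `X ^ i Z ^ j` vanishes unless `i + m j ≤ n`. -/
def Wt {R : Type} [CommRing R] (m n : ℕ) (A : Polynomial (Polynomial R)) : Prop :=
  ∀ i j : ℕ, (A.coeff j).coeff i ≠ 0 → i + m * j ≤ n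

/-- The situation on the function field `L` of a curve: a point `ξ` of `X` over `L` with `ξ₁ ^ q = f₁(ξ)`, a tame separating variable `x`. -/
structure Cv (κ L : Type) [Field κ] [Field L] [Algebra κ L] (P : MvPolynomial (Fin 3) κ) (f : RM κ 3) (ξ : Fin 3 → L)
    (x : L) (δ : Derivation κ L L) (q c : ℕ) : Prop where
  sit : Sit κ L x δ
  fin : Module.finrank κ⟮x⟯ L ≤ c
  cas : x = ξ 1 ∨ (x = ξ 2 ∧ ∃ a : κ, ξ 1 = algebraMap κ L a)
  chr : ∀ n : ℕ, 0 < n → n ≤ c → (n : κ) ≠ 0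
  q0 : (q : κ) = 0
  tr : Transcendental κ (ξ 2)
  hP : aeval ξ P = 0
  hz : aeval ξ (pderiv 0 P) ≠ 0
  hden : ∀ i, aeval ξ (f.den i) ≠ 0
  hJ : aeval ξ (jX P f) ≠ 0
  h1 : ξ 1 ^ q * aeval ξ (f.den 1) = aeval ξ (f.num 1)

/-! ## Algebra on the surface -/

/-- (X1) Elimination. PROOF. Let `S = MvPolynomial (Fin 2) κ`, `P♯ = finSuccEquiv κ 2 P ∈ S[Z]`, monic of degree `δ ≥ 1` (`P` is not a unit), `δ ≤ d`, `A♯` likewise. `D = S[Z] ⧸ (P♯)` is free over `S` with basis `1, Z, …, Z^(δ-1)` and a domain (`P` is prime). Let `R` be the determinant of the matrix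
`(a_ij)` of the multiplication by `A♯`, `Z^i A♯ ≡ ∑ a_ij Z^j` (remainder `%ₘ P♯`). `R ≠ 0`: otherwise the multiplication by the class of `A♯` on `D ⊗ Frac S` is not injective, but `A♯ ≠ 0` in the domain `D`. The vector `(1, Z, …, Z^(δ-1))` of `D` is in the kernel of `A♯ • 1 - (a_ij)`, so `det (A♯ - (a_ij)) = 0` in `D` (`Matrix` over the
commutative ring `D`, adjugate), and this determinant is `± R` modulo `A♯`: `R ∈ (P♯, A♯)`. Degrees in `x₂` (`degreeOf 1` of the coefficients): one step of the reduction `Z^δ = -∑ c_j Z^j` raises the degree by at most `d` and lowers the exponent of `Z`; `Z^i A♯` has exponents `≤ 2 d`, so `deg a_ij ≤ d + 2 d * d ≤ 3 d ^ 2` and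
`deg R ≤ δ * 3 d ^ 2 ≤ 3 d ^ 3` (`MvPolynomial.degreeOf_mul_le`, `degreeOf_sum_le`, `Matrix.det_apply`). (b) One direction is clear. If `¬ P ∣ A` take `R` from (a) with `d` large: `R(ξ 1, ξ 2) ≠ 0` by algebraic independence, and `R ∈ (P, A)`, so `A(ξ) ≠ 0`. -/
def StmtElim : Prop :=
  (∀ (κ : Type) [Field κ] (P A : MvPolynomial (Fin 3) κ) (d : ℕ), Irreducible P → Mon P →
    P.totalDegree ≤ d → ¬ P ∣ A → A.degreeOf 2 ≤ d → A.degreeOf 0 ≤ d →
    ∃ R : MvPolynomial (Fin 2) κ, R ≠ 0 ∧ rename Fin.succ R ∈ Ideal.span {P, A} ∧ R.degreeOf 1 ≤ 3 * d ^ 3) ∧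
  ∀ (κ : Type) [Field κ] (P : MvPolynomial (Fin 3) κ), Irreducible P → Mon P →
    ∀ (L : Type) [Field L] [Algebra κ L] (ξ : Fin 3 → L), aeval ξ P = 0 →
    AlgebraicIndependent κ ![ξ 1, ξ 2] → ∀ A : MvPolynomial (Fin 3) κ, aeval ξ A = 0 ↔ P ∣ A

/-- (X2) `f₁`, `f₂` are algebraically independent on `X`. PROOF. Let `N` be the degree of `R` and `W = (den 1 * den 2) ^ N * R(num 1 / den 1, num 2 / den 2) ∈ κ[z,x₁,x₂]` (for a monomial `c X 0 ^ i X 1 ^ j`: `c num1^i num2^j den1^(N-i) den2^(N-j)`); the last claim is clear. Suppose `P ∣ W`. Let `E` be the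
fraction field of `κ[z,x₁,x₂] ⧸ (P)` and `Ξ` the generic point. Then `R(f₁,f₂) = 0` in `E`, `f_i = fv f Ξ i`. Choose `R ≠ 0` with this property of minimal total degree (not a constant). `P_z(Ξ) ≠ 0` (otherwise `P ∣ P_z`, so `P_z = 0` by the degree in `X 0`; then `wX P f i j = - Wd f i 0 * P_j` and `jX = 0`).
There are derivations `∂_1, ∂_2` of `E` over `κ` with `∂_j (A(Ξ)) = (A_j - A_z P_j / P_z)(Ξ)`; (avoid them if you like: differentiate the identity `den^N R(num/den) = P * U` of polynomials with respect to `X j` and `X 0` and combine). `0 = ∂_j R(f₁,f₂) = R_1(f₁,f₂) ∂_j f₁ + R_2(f₁,f₂) ∂_j f₂`, `j = 1, 2`, and the determinant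
`∂_1 f₁ ∂_2 f₂ - ∂_2 f₁ ∂_1 f₂ = jX / (P_z den1 den2) ^ 2 (Ξ) ≠ 0`, so `R_1(f₁,f₂) = R_2(f₁,f₂) = 0`, `R_1 = R_2 = 0` by minimality. So in characteristic `0` `R` is constant, a contradiction; in characteristic `p` all exponents of `R` are divisible by `p`, `R = R' ^ p` (`κ` is perfect, being algebraically closed), `R'(f₁,f₂) = 0`, a contradiction. -/
def StmtDom : Prop :=
  ∀ (κ : Type) [Field κ] [IsAlgClosed κ] (P : MvPolynomial (Fin 3) κ) (f : RM κ 3), Irreducible P →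
    (∀ i, ¬ P ∣ f.den i) → ¬ P ∣ jX P f → ∀ R : MvPolynomial (Fin 2) κ, R ≠ 0 →
    ∃ W : MvPolynomial (Fin 3) κ, ¬ P ∣ W ∧ ∀ (L : Type) [Field L] [Algebra κ L] (ξ : Fin 3 → L),
      (∀ i, aeval ξ (f.den i) ≠ 0) → aeval ξ W ≠ 0 → aeval ![fv f ξ 1, fv f ξ 2] R ≠ 0

/-! ## The curve -/

/-- (X3) A point of `X` over a function field of a curve with `ξ₁ ^ q = f₁(ξ)`. PROOF (uses `StmtElim`, `SDer`, `SPrd`, `SLoc`, `SPn`, `SRes`, `SFld`). `K` = an algebraic closure of the field of fractions of `κ[t]`, `x₂ ∈ K` the image of `t` (transcendental over `κ`, `K` algebraic over `κ(x₂)`). Let `P_K ∈ MvPolynomial (Fin 2) K` be the image of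
`P` under `X 0 ↦ X 1`, `X 1 ↦ X 0`, `X 2 ↦ C x₂`: monic in `X 1` of degree `δ = dz P ≥ 1`. It has an irreducible factor `Q` with `0 < Q.degreeOf 1` (`degreeOf` is additive). `SFld` for `Q ∣ P_K`, `d = δ`: `L'`, `x`, `y` with `IsCurveField K L'`, `[L' : K(x)] ≤ δ < p`. `ξ' = ![y, x, x₂]` is a point of `X` over `L'`; `x`, `x₂` are
algebraically independent over `κ`, so `A(ξ') = 0 ↔ P ∣ A` (`StmtElim` (b)). `SDer`: `L' / K(x)` is separable, `δ'` extends `d/dx`, `δ' x₂ = 0`. `N, D` := values of `f.num 1`, `f.den 1` at `ξ'`, `D ≠ 0`. As `P(ξ') = 0`: `P_1 + P_z δ' y = 0`, so `P_z D ^ 2 δ' (N / D) = wX P f 1 1 (ξ') ≠ 0`. Let `b = B(ξ') D ≠ 0`, `q = p ^ s`, `s ≥ 1`,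
`h = x ^ q - N / D`, `δ' h = - δ' (N / D) ≠ 0` does not depend on `q`. LOCAL: `v h ≤ v (δ' h) + δ` (`v = v.oz`) for every place: if `0 ≤ v x` let `c` be the residue of `x`, `t = x - c`, `δ' t = 1`, `1 ≤ v t ≤ δ` (`SPrd`); if `v x < 0` let `t = x⁻¹`, `e = v t`, `1 ≤ e ≤ δ`, `δ' t = - x⁻²`, `v (δ' t) = 2 e`; `SLoc` (`(e : K) ≠ 0` as `e < p`). Suppose that there
is no place with `0 ≤ v.ord x`, `v.ord b ≤ 0`, `0 < v.ord h`. Then `max (v h) 0 ≤ max (v (δ' h)) 0 + δ (max (- v x) 0 + max (v b) 0)` for all `v`; sum: `Zn h ≤ Zn (δ' h) + δ (Pn x + Zn b)`, and `Zn h = Pn h ≥ Pn (x ^ q) - Pn (N / D) ≥ q - Pn (N / D)` (`SPrd`: `Pn x = [L' : K(x)] ≥ 1`; `x ^ q = h + N / D`): a contradiction if `q ≥ q₀`.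
So let `v` be such a place. `y` is integral over `K[x]` (`P_K` is monic in `X 1`), so `0 ≤ v.ord y`. `SRes`: `a : Fin 2 → K`. `ξ = ![a 1, a 0, x₂]`: for `A ∈ κ[z,x₁,x₂]` one has `A(ξ) = 0 ↔ 0 < v.ord (A(ξ'))`. So `P(ξ) = 0`, `B(ξ) ≠ 0`, `(f.den 1)(ξ) ≠ 0` (`b` is a product of two elements of order `≥ 0`, so both have order `0`), and
`x ^ q D - N = h D` has positive order, so `ξ₁ ^ q D(ξ) = N(ξ)`. Finally replace `K` by `L = κ(ξ)` (as a type), a curve field: finite over `κ(x₂)`, as `ξ 0, ξ 1 ∈ K` are algebraic over `κ(x₂)`. -/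
def StmtCurve : Prop :=
  ∀ (κ : Type) [Field κ] [IsAlgClosed κ] (p : ℕ) [Fact p.Prime] [CharP κ p] (P : MvPolynomial (Fin 3) κ) (f : RM κ 3),
    Irreducible P → Mon P → dz P < p → ¬ P ∣ f.den 1 → ¬ P ∣ wX P f 1 1 →
    ∀ B : MvPolynomial (Fin 3) κ, ¬ P ∣ B → ∃ q₀ : ℕ, ∀ s : ℕ, 1 ≤ s → q₀ ≤ p ^ s →
    ∃ (L : Type) (_ : Field L) (_ : Algebra κ L) (ξ : Fin 3 → L), IsCurveField κ L ∧
      IntermediateField.adjoin κ (Set.range ξ) = ⊤ ∧ Transcendental κ (ξ 2) ∧ aeval ξ P = 0 ∧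
      aeval ξ B ≠ 0 ∧ aeval ξ (f.den 1) ≠ 0 ∧
      ξ 1 ^ p ^ s * aeval ξ (f.den 1) = aeval ξ (f.num 1)

/-- (X4) The degree of the curve over the `x₁`-line is bounded. PROOF (uses `StmtElim`). `G = X 1 ^ q * f.den 1 - f.num 1`. (1) `¬ P ∣ G`: let `D A = P_z A_1 - A_z P_1` (a derivation of `κ[z,x₁,x₂]` with `D P = 0`, so `P ∣ A → P ∣ D A`); `(q : κ) = 0`, so `D (X 1 ^ q) = 0` and `den * D G - G * D den = num * D den - den * D num = - wX P f 1 1`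
(`den = f.den 1`, `num = f.num 1`); so `P ∣ G` would give `P ∣ wX P f 1 1`. (2) Let `ξ 1` be transcendental. `G.degreeOf 2 ≤ d`, `G.degreeOf 0 ≤ d`; `StmtElim` (a) gives `R ≠ 0` with `R(ξ 1, ξ 2) = 0`, `R.degreeOf 1 ≤ 3 d ^ 3`. As a polynomial in the second variable over `κ(ξ 1)` it is not zero (`ξ 1` is transcendental), so
`[κ(ξ 1, ξ 2) : κ(ξ 1)] ≤ 3 d ^ 3`. `ξ 0` is a root of a monic polynomial of degree `dz P ≤ d` over `κ(ξ 1, ξ 2)`, so `[L : κ(ξ 1)] ≤ 3 d ^ 4` (`L = κ(ξ)`; tower, `IntermediateField.adjoin.finrank`, `minpoly` degrees). (3) If `ξ 1` is algebraic over `κ` it is in `κ`, so `L = κ(ξ 2)(ξ 0)`, degree `≤ d`. -/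
def StmtDeg : Prop :=
  ∀ (κ : Type) [Field κ] [IsAlgClosed κ] (P : MvPolynomial (Fin 3) κ) (f : RM κ 3) (d : ℕ), Irreducible P → Mon P →
    P.totalDegree ≤ d → (f.num 1).totalDegree ≤ d → (f.den 1).totalDegree ≤ d → ¬ P ∣ wX P f 1 1 →
    ∀ (L : Type) [Field L] [Algebra κ L] (ξ : Fin 3 → L) (q : ℕ), (q : κ) = 0 →
    IntermediateField.adjoin κ (Set.range ξ) = ⊤ → Transcendental κ (ξ 2) → aeval ξ P = 0 →
    ξ 1 ^ q * aeval ξ (f.den 1) = aeval ξ (f.num 1) →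
    (Transcendental κ (ξ 1) → Module.Finite κ⟮ξ 1⟯ L ∧ Module.finrank κ⟮ξ 1⟯ L ≤ 3 * d ^ 4) ∧
    (¬ Transcendental κ (ξ 1) → (∃ a : κ, ξ 1 = algebraMap κ L a) ∧ Module.Finite κ⟮ξ 2⟯ L ∧
      Module.finrank κ⟮ξ 2⟯ L ≤ d)

/-- (X5) Poles of polynomials. PROOF: as the last claim of `SPn` (`Hru/Pn.lean`), for any number of variables and also for each place. -/
def StmtPnMv : Prop :=
  ∀ (k E : Type) [Field k] [IsAlgClosed k] [Field E] [Algebra k E] [IsCurveField k E] (r : ℕ) (t : Fin r → E)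
    (A : MvPolynomial (Fin r) k), (∀ v : Place k E, pl v (aeval t A) ≤ A.totalDegree * ∑ i, pl v (t i)) ∧
      Pn k (aeval t A) ≤ A.totalDegree * ∑ i, Pn k (t i)

/-- (X6) The local inequality. PROOF (uses `SPrd`, `SLoc`): (2) in the proof of `SCrvA` (`Hru/Spec.lean`), with `n = [L : κ(x)] ≤ c`. If `0 ≤ v x` let `a` be the residue of `x` (`MP7Z.exists_const`), `t = x - a`, `δ t = 1`, `1 ≤ v t ≤ n ≤ c` (`SPrd`), so `(v t : κ) ≠ 0` and `SLoc` gives `v G - v t + 0 ≤ v (δ G)`. If `v x < 0` let `t = x⁻¹`, `e = v t = - v x`,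
`1 ≤ e ≤ n`, `δ t = - x⁻²`, `v (δ t) = 2 e`; `SLoc` gives `v G + e ≤ v (δ G)`. -/
def StmtCvL : Prop :=
  ∀ (κ L : Type) [Field κ] [IsAlgClosed κ] [Field L] [Algebra κ L] [IsCurveField κ L] (x : L) (δ : Derivation κ L L) (c : ℕ),
    Sit κ L x δ → Module.finrank κ⟮x⟯ L ≤ c → (∀ n : ℕ, 0 < n → n ≤ c → (n : κ) ≠ 0) →
    ∀ (v : Place κ L) (G : L), δ G ≠ 0 → v.oz G ≤ v.oz (δ G) + c

/-- (X7) The derivative of `g = ξ₂ ^ q - f₂(ξ)`. PROOF (uses `StmtPnMv`, `SPrd`, `SPn`). `δ (A(ξ)) = ∑ j, A_j(ξ) δ ξ_j` (induction on `A`). `P(ξ) = 0` gives `P_z δ ξ₀ = - P_1 δ ξ₁ - P_2 δ ξ₂` (at `ξ`), so with `w i j = (wX P f i j)(ξ)`: `P_z den_i ^ 2 δ (fv f ξ i) = w i 1 * δ ξ₁ + w i 2 * δ ξ₂`. `fv f ξ 1 = ξ₁ ^ q` has the derivative `0`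
(`(q : κ) = 0`): `w 1 1 δ ξ₁ + w 1 2 δ ξ₂ = 0`. `δ g = - δ (fv f ξ 2)`. Let `U = P_z den_2 ^ 2 (ξ) ≠ 0`, `J = (jX P f)(ξ) ≠ 0`: `w 1 2 * U * δ g = J * δ ξ₁` and `w 1 1 * U * δ g = - J * δ ξ₂` (linear algebra). If `x = ξ₁` then `δ ξ₁ = 1`, so `δ g ≠ 0`, `w 1 2 ≠ 0`, `δ g = J / (w 1 2 * U)`; if `x = ξ₂` then `δ ξ₂ = 1`,
`δ g = - J / (w 1 1 * U)`. `Pn (h⁻¹) = Zn h = Pn h`. So `Pn (δ g) ≤ Pn J + Pn w + Pn P_z + 2 Pn den_2`, each `≤ totalDegree * ∑ Pn ξ_i`. `C` = the sum of the total degrees of `jX P f`, `wX P f 1 1`, `wX P f 1 2`, `pderiv 0 P`, twice `f.den 2`. -/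
def StmtCvD : Prop :=
  ∀ (κ : Type) [Field κ] [IsAlgClosed κ] (P : MvPolynomial (Fin 3) κ) (f : RM κ 3), ∃ C : ℕ,
    ∀ (L : Type) [Field L] [Algebra κ L] [IsCurveField κ L] (ξ : Fin 3 → L) (x : L) (δ : Derivation κ L L) (q c : ℕ),
    Cv κ L P f ξ x δ q c → δ (ξ 2 ^ q - fv f ξ 2) ≠ 0 ∧
      Pn κ (δ (ξ 2 ^ q - fv f ξ 2)) ≤ C * (Pn κ (ξ 0) + Pn κ (ξ 1) + Pn κ (ξ 2))

/-- (X8) Heights. PROOF (uses `StmtPnMv`, `SPrd`, `SPn`). Let `m = P.totalDegree`, `v` a place, `μ = pl v (ξ 1) + pl v (ξ 2)`. CLAIM `pl v (ξ 0) ≤ m μ`. `P(ξ) = 0` reads `ξ₀ ^ n + ∑ j < n, c_j ξ₀ ^ j = 0` (`n = dz P ≥ 1`; otherwise `P = 1`), `c_j` values of polynomials in `X 1, X 2` of total degree `≤ m` (coefficients of `finSuccEquiv κ 2 P`), so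
`v c_j ≥ - m μ`. If `a = pl v (ξ 0) > m μ` (so `a > 0`) then `v (ξ₀ ^ n) = - n a` and `v (c_j ξ₀ ^ j) ≥ - m μ - (n - 1) a > - n a`: a contradiction. Sum: `Pn ξ₀ ≤ m (Pn ξ₁ + Pn ξ₂)`. `q Pn ξ₁ = Pn (ξ₁ ^ q) = Pn (num_1 / den_1) ≤ (deg num_1 + deg den_1) (1 + m) (Pn ξ₁ + Pn ξ₂) =: C₁ (Pn ξ₁ + Pn ξ₂)`. Let `q ≥ 2 C₁ + 1`: `(q - C₁) Pn ξ₁ ≤ C₁ Pn ξ₂`
and so `Pn ξ₁ ≤ Pn ξ₂` and `q Pn ξ₁ ≤ 2 C₁ Pn ξ₂`. If `Pn ξ₂ = 0` then `Pn ξ₁ = 0`, but `Pn x = [L : κ(x)] ≥ 1` for `x = ξ₁` or `ξ₂`. `C = 2 C₁ + 2 m + 1`. -/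
def StmtCvH : Prop :=
  ∀ (κ : Type) [Field κ] [IsAlgClosed κ] (P : MvPolynomial (Fin 3) κ) (f : RM κ 3), Irreducible P → Mon P →
    ∃ C : ℕ, ∀ (L : Type) [Field L] [Algebra κ L] [IsCurveField κ L] (ξ : Fin 3 → L) (x : L) (δ : Derivation κ L L)
      (q c : ℕ), Cv κ L P f ξ x δ q c → C ≤ q →
      (∀ v : Place κ L, pl v (ξ 0) ≤ P.totalDegree * (pl v (ξ 1) + pl v (ξ 2))) ∧ 1 ≤ Pn κ (ξ 2) ∧
      Pn κ (ξ 0) ≤ C * Pn κ (ξ 2) ∧ Pn κ (ξ 1) ≤ Pn κ (ξ 2) ∧ q * Pn κ (ξ 1) ≤ C * Pn κ (ξ 2)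

/-! ## The universal function -/

/-- (X9) The kernel of a matrix is spanned by vectors of minors. PROOF. Let `r` be the rank of `M`; there are injective `I : Fin r → Fin a`, `J : Fin r → Fin b` with `det (M.submatrix I J) ≠ 0` such that the rows `M (I i)` span the row space (`Matrix.rank`; choose `r` linearly independent rows forming a basis of the row space, then `r` independent columns of this
`r × b` matrix). `M v = 0` iff `∑ c, M (I i) c * v c = 0` for all `i`. For every `c` let `w^c` be: `w^c (J j) = - det (M_IJ with the column j replaced by the column (M (I i) c)_i)` for `j : Fin r`, `w^c c` = `w^c c + det M_IJ` (if `c` is in the range of `J` this is the zero vector, drop it), other entries `0`. By Cramer's rule `M w^c = 0`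
(`Matrix.mulVec_cramer`). If `M v = 0` then `v' = det M_IJ • v - ∑ (c ∉ range J), v c • w^c` is in the kernel and supported on the range of `J`, so `v' = 0` (`M_IJ` is invertible). A column replacement is again of the form `M.submatrix I J'`. -/
def StmtMin : Prop :=
  ∀ (L : Type) [Field L] (a b : ℕ) (M : Matrix (Fin a) (Fin b) L) (v : Fin b → L), M.mulVec v = 0 →
    v ∈ Submodule.span L {w : Fin b → L | M.mulVec w = 0 ∧ ∀ i, w i = 0 ∨ ∃ (r : ℕ) (_ : r ≤ a)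
      (I : Fin r → Fin a) (J : Fin r → Fin b), w i = (M.submatrix I J).det ∨ w i = -(M.submatrix I J).det}

/-- (X10) Functions with a pole only at a given point, by dimensions. PROOF. `V` := the space of the `A` with `A.natDegree < e` (or `A = 0`) and `Wt m n A`; `dim V = ∑ j < e, (n - m j + 1) ≥ e (n + 1) - m e ^ 2` (`n ≥ m e`). Let `π = X - x₀ ∈ L[X]`, `R = L[X][Z] ⧸ (Q, C π ^ n)`: as `Q` is monic of degree `e` in `Z`, every class has a unique representative of degree `< e` in `Z` with coefficients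
of degree `< n` in `X`; `dim R = n e`. `Q.map (eval x₀) = (Z - z₀) Q₀`, `Q₀ ∈ L[Z]`, `Q₀(z₀) ≠ 0` (the derivative), so `Q = (Z - z₀) Q₀ + C π * Q₁`. In `L[X][Z]` modulo `Q`: `(Z - z₀) ^ n Q₀ ^ n = ± C π ^ n Q₁ ^ n`. (1) The classes `C c * Q₀ ^ n`, `c ∈ L[X]`, `deg c < n`, are linearly independent in `R`: `Q₀ ^ n %ₘ Q` has a coefficient `u ∈ L[X]` (of some `Z ^ j`)
with `u(x₀) ≠ 0`, because otherwise `Q₀ ^ n` is divisible by `Q.map (eval x₀)`, in particular by `Z - z₀` in `L[Z]`; `C c * Q₀ ^ n = 0` in `R` gives `π ^ n ∣ c u`, `π ^ n ∣ c`, `c = 0`. (2) So the space of the `A ∈ V` whose class in `R` is of this form has dimension `≥ dim V + n - n e ≥ e + n - m e ^ 2 ≥ 2`, so it contains an `A` which is not a multiple of `C π ^ n`. (3) For it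
`A (Z - z₀) ^ n ≡ C c * ((Z - z₀) Q₀) ^ n ≡ 0` modulo `(Q, C π ^ n)`: `A (Z - z₀) ^ n = A'' * C π ^ n + Q * H`. Let `A' = A'' %ₘ Q`. `(A (Z - z₀) ^ n) %ₘ Q = A' * C π ^ n`. The left side is `Wt m (n + m n)` (`Z - z₀` is `Wt m m`): products of `Wt` polynomials add the weights, and the reduction modulo `Q` preserves `Wt m N` because `Q` is weighted: `Wt m (m e) Q`. So `A'` is `Wt m (m n)` (degrees in `X` of the coefficients;
`L[X]` is a domain). -/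
def StmtDim : Prop :=
  ∀ (L : Type) [Field L] (Q : Polynomial (Polynomial L)) (m e n : ℕ) (x₀ z₀ : L), Q.Monic → Q.natDegree = e → 1 ≤ e →
    1 ≤ m → Wt m (m * e) Q → n = m * e ^ 2 + 2 → (Q.map (Polynomial.evalRingHom x₀)).eval z₀ = 0 →
    (Q.map (Polynomial.evalRingHom x₀)).derivative.eval z₀ ≠ 0 →
    ∃ A A' H : Polynomial (Polynomial L), Wt m n A ∧ Wt m (m * n) A' ∧ A.natDegree < e ∧ A'.natDegree < e ∧
      A * (Polynomial.X - Polynomial.C (Polynomial.C z₀)) ^ n -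
        A' * Polynomial.C ((Polynomial.X - Polynomial.C x₀) ^ n) = Q * H ∧
      ∀ c : L, A ≠ Polynomial.C (Polynomial.C c * (Polynomial.X - Polynomial.C x₀) ^ n)

/-- `A` has coefficients which are values of polynomials of degree `≤ C` at `(η, x₀, z₀)`. -/
def Cf {κ L : Type} [Field κ] [Field L] [Algebra κ L] (C : ℕ) (η x₀ z₀ : L) (A : Polynomial (Polynomial L)) : Prop :=
  ∀ i j : ℕ, ∃ a : MvPolynomial (Fin 3) κ, a.totalDegree ≤ C ∧ (A.coeff j).coeff i = aeval ![η, x₀, z₀] a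

/-- (X11) The universal function. PROOF (uses `StmtMin`, `StmtDim`). `m = P.totalDegree ≥ 1`, `e = dz P ≥ 1`, `n = m e ^ 2 + 2`. `Q = sp η P` is monic of degree `e` and `Wt m (m e)` (the coefficient of `Z ^ j` comes from a polynomial of total degree `≤ m`, and for `j < e` `m ≤ m (e - j)`). Index sets `I_N = {(i,j) : j < e, i + m j ≤ N}`. Let `R = MvPolynomial (Fin 3) κ` (variables for
`η, x₀, z₀`), `Q̃ = sp (X 0) P ∈ R[X][Z]` (the same formula over the ring `R`), and consider the `R`-linear map `R^(I_n) × R^(I_(mn)) → R^(I_(n+mn))`, `(a, a') ↦` coefficients of `(a(X,Z) (Z - X 2) ^ n - a'(X,Z) (X - X 1) ^ n) %ₘ Q̃`, with matrix `M̃` over `R`. Let `C` be the maximum of the total degrees of its minors (finitely many). For given `L, η, x₀, z₀` the matrix `M = M̃(η,x₀,z₀)` is the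
matrix of the same map over `L` (`Polynomial.map_modByMonic`). `StmtDim` gives a vector `(a,a')` in the kernel of `M` with `a(X,Z) ≠ c (X - x₀) ^ n` for all `c`. By `StmtMin` it is a combination of vectors of minors in the kernel; the vectors of the kernel with `a(X,Z) ∈ L (X - x₀) ^ n` form a subspace, so one of the vectors of minors is not in it. Its entries are values of
polynomials of total degree `≤ C` (or `0`), and `%ₘ Q = 0` gives `H`. -/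
def StmtUniv : Prop :=
  ∀ (κ : Type) [Field κ] (P : MvPolynomial (Fin 3) κ), Irreducible P → Mon P → ∃ n C : ℕ, 1 ≤ n ∧
    ∀ (L : Type) [Field L] [Algebra κ L] (η x₀ z₀ : L), aeval ![z₀, η, x₀] P = 0 →
    aeval ![z₀, η, x₀] (pderiv 0 P) ≠ 0 →
    ∃ A A' H : Polynomial (Polynomial L), Wt P.totalDegree n A ∧ A.natDegree < dz P ∧ Cf (κ := κ) C η x₀ z₀ A ∧ Cf (κ := κ) C η x₀ z₀ A' ∧
      A * (Polynomial.X - Polynomial.C (Polynomial.C z₀)) ^ n -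
        A' * Polynomial.C ((Polynomial.X - Polynomial.C x₀) ^ n) = sp η P * H ∧
      ∀ c : L, A ≠ Polynomial.C (Polynomial.C c * (Polynomial.X - Polynomial.C x₀) ^ n)

/-- (X12) Poles of a root. PROOF (uses `SPrd` for `Zn = Pn`, any `x`, `δ` with `Sit`). Let `r` be the degree of `ψ` (`r ≥ 1` because `ψ(y) = 0`, `ψ ≠ 0`), `ψ_r ≠ 0`. CLAIM for every place: `pl v y ≤ zr v ψ_r + ∑ i < r, pl v ψ_i`. Let `a = pl v y > 0`. `ψ_r y ^ r = - ∑ i < r, ψ_i y ^ i`, so `v ψ_r - r a ≥ min_i (v ψ_i) - (r - 1) a`, the minimum over the `i < r` with `ψ_i ≠ 0`, and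
`min ≥ - ∑ pl v ψ_i`. Sum over `v`, `Zn ψ_r = Pn ψ_r`. -/
def StmtRoot : Prop :=
  ∀ (k E : Type) [Field k] [IsAlgClosed k] [Field E] [Algebra k E] [IsCurveField k E] (x : E)
    (δ : Derivation k E E), Sit k E x δ → ∀ (ψ : Polynomial E) (y : E), ψ ≠ 0 → ψ.eval y = 0 →
    Pn k y ≤ 2 * ∑ i ∈ Finset.range (ψ.natDegree + 1), Pn k (ψ.coeff i)

/-- (X13) The value of the universal function has many poles. PROOF (uses `StmtRoot`, `StmtPnMv`). `Q = sp η P`, monic of degree `e = dz P ≥ 1` in `Z`, `Bu = A - C (C u * (X - x₀) ^ n)`, of degree `< e` in `Z` and not zero. Let `M` be the `e × e` matrix over `L[X]` with `Z ^ i * Bu %ₘ Q = ∑ j, M i j Z ^ j`, `ψ = det M ∈ L[X]`. (1) `ψ(y) = 0`: at `X = y`, `Z = z₁` one has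
`Q = 0`, `Bu = 0`, so `∑ j, (M i j)(y) z₁ ^ j = z₁ ^ i * 0 = 0` and the vector `(1, z₁, …)` is not zero (`Matrix.exists_mulVec_eq_zero_iff`). (2) `ψ ≠ 0`: otherwise there is a nonzero vector of `L[X]^e` killed by `M` from the left (over the field of fractions, clear denominators): `c ∈ L[X][Z]`, `c ≠ 0`, of degree `< e` with `Q ∣ c * Bu`; `Q` is prime (irreducible in the factorial ring `L[X][Z]`), so
`Q ∣ c` or `Q ∣ Bu`, impossible by degrees. (3) The coefficients of `ψ` are values at `(η, x₀, z₀, u)` of polynomials over `κ` in four variables of total degree `≤ C₁`, and `ψ.natDegree ≤ C₁`, with `C₁` depending only on `κ, P, n, C₀` (the coefficients of `A` are such values of degree `≤ C₀`; `%ₘ Q` for the `e` products needs at most `e` reduction steps each of which adds at most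
`P.totalDegree`; a determinant of size `e`; no estimate is needed if one does the calculation once over a polynomial ring with variables for `η, x₀, z₀, u` and for the coefficients of `A`). So each `Pn (ψ_i) ≤ C₁ (Pn η + Pn x₀ + Pn z₀ + Pn u)` by `StmtPnMv`, and `StmtRoot`. -/
def StmtNrm : Prop :=
  ∀ (κ : Type) [Field κ] [IsAlgClosed κ] (P : MvPolynomial (Fin 3) κ), Irreducible P → Mon P → ∀ n C₀ : ℕ,
    ∃ C : ℕ, ∀ (L : Type) [Field L] [Algebra κ L] [IsCurveField κ L] (x : L) (δ : Derivation κ L L), Sit κ L x δ →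
    ∀ (η x₀ z₀ u y z₁ : L) (A : Polynomial (Polynomial L)), Irreducible (sp η P) → Cf (κ := κ) C₀ η x₀ z₀ A →
    Wt P.totalDegree n A → A.natDegree < dz P →
    (∀ c : L, A ≠ Polynomial.C (Polynomial.C c * (Polynomial.X - Polynomial.C x₀) ^ n)) →
    aeval ![z₁, η, y] P = 0 → (A.map (Polynomial.evalRingHom y)).eval z₁ = u * (y - x₀) ^ n →
    Pn κ y ≤ C * (Pn κ η + Pn κ x₀ + Pn κ z₀ + Pn κ u)

/-! ## The counting argument -/

/-- The weight of the bad places. -/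
noncomputable def om {κ L : Type} [Field κ] [Field L] [Algebra κ L] (f : RM κ 3) (B : MvPolynomial (Fin 3) κ)
    (ξ : Fin 3 → L) (v : Place κ L) : ℤ :=
  pl v (ξ 1) + pl v (ξ 2) + ∑ i, zr v (aeval ξ (f.den i)) + zr v (aeval ξ B)

/-- (X14) The poles of `u = A(s₁) / g ^ n`, place by place. Notation: `η = ξ₁ ^ q`, `x₀ = fv f ξ 2`, `z₀ = fv f ξ 0`, `s₁ = (ξ₂ ^ q, ξ₀ ^ q)`, `g = ξ₂ ^ q - x₀`, `g' = ξ₀ ^ q - z₀`, `A(s₁) = (A.map (evalRingHom (ξ₂ ^ q))).eval (ξ₀ ^ q)`. PROOF (uses `StmtPnMv`, `StmtCvL`). `η = fv f ξ 1`. `m = P.totalDegree`, `μ_i = pl v (ξ i)`, `μ₀ ≤ m (μ₁ + μ₂)`, `Π = pl v η + pl v x₀ + pl v z₀`.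
`P(ξ₀ ^ q, ξ₁ ^ q, ξ₂ ^ q) = 0` is the hypothesis `hF`, so `A(s₁) g' ^ n = A'(s₁) g ^ n`. (a) `ω v = 0`: then `ξ₁, ξ₂, ξ₀` have no poles, `v (den_i(ξ)) = 0` for all `i`, so `η, x₀, z₀` have no poles and all the coefficients of `A`, `A'` have no poles (`Cf`, `StmtPnMv`), `A(s₁)`, `A'(s₁)` neither. If `v g ≤ 0` then `v g = 0` (`g ≠ 0` as `δ g ≠ 0`) and `u = A(s₁) / g ^ n` has no pole. If `v g > 0` then
by hypothesis not `0 < v.ord g'`; `g' ≠ 0`, `v g' = 0`, and `u = A'(s₁) / g' ^ n` has no pole. (b) `ω v ≥ 1`: a term `c X ^ i Z ^ j` of `A` (`i + m j ≤ n`) has at `s₁` a pole of order `≤ C₀ Π + i q μ₂ + j q μ₀ ≤ C₀ Π + n q (μ₁ + μ₂)`; so `- v u ≤ C₀ Π + n q (μ₁ + μ₂) + n v g`. `q μ₁ = pl v η`. CLAIM `q μ₂ + v g ≤ Π + zr v g`: clear if `μ₂ = 0`; if `μ₂ > 0` and `v x₀ > - q μ₂` (or `x₀ = 0`) then `v g = - q μ₂`;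
otherwise `q μ₂ ≤ pl v x₀ ≤ Π`. `zr v g ≤ zr v (δ g) + c` (`StmtCvL`) `≤ zr v (δ g) + c ω v`. Together: `pl v u ≤ (C₀ + n) Π + n pl v η + n zr v (δ g) + n c ω v`. -/
def StmtPt : Prop :=
  ∀ (κ L : Type) [Field κ] [IsAlgClosed κ] [Field L] [Algebra κ L] [IsCurveField κ L] (P B : MvPolynomial (Fin 3) κ)
    (f : RM κ 3) (ξ : Fin 3 → L) (x : L) (δ : Derivation κ L L) (q c n C₀ : ℕ) (A A' H : Polynomial (Polynomial L)),
    Cv κ L P f ξ x δ q c → 1 ≤ q → aeval ξ B ≠ 0 → aeval (fun i => ξ i ^ q) P = 0 →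
    (∀ v : Place κ L, pl v (ξ 0) ≤ P.totalDegree * (pl v (ξ 1) + pl v (ξ 2))) →
    δ (ξ 2 ^ q - fv f ξ 2) ≠ 0 →
    Wt P.totalDegree n A →
    Cf (κ := κ) C₀ (ξ 1 ^ q) (fv f ξ 2) (fv f ξ 0) A → Cf (κ := κ) C₀ (ξ 1 ^ q) (fv f ξ 2) (fv f ξ 0) A' →
    A * (Polynomial.X - Polynomial.C (Polynomial.C (fv f ξ 0))) ^ n -
      A' * Polynomial.C ((Polynomial.X - Polynomial.C (fv f ξ 2)) ^ n) = sp (ξ 1 ^ q) P * H →
    ∀ v : Place κ L, (om f B ξ v = 0 → 0 < v.ord (ξ 2 ^ q - fv f ξ 2) → ¬ 0 < v.ord (ξ 0 ^ q - fv f ξ 0)) →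
      pl v ((A.map (Polynomial.evalRingHom (ξ 2 ^ q))).eval (ξ 0 ^ q) / (ξ 2 ^ q - fv f ξ 2) ^ n) ≤
        (C₀ + n) * (pl v (ξ 1 ^ q) + pl v (fv f ξ 2) + pl v (fv f ξ 0)) + n * pl v (ξ 1 ^ q) +
          n * zr v (δ (ξ 2 ^ q - fv f ξ 2)) + n * c * om f B ξ v

/-- (X15) From a good place to a Frobenius point. PROOF. `0 ≤ v.ord (ξ i)` for all `i` (`om = 0`, all summands are `≥ 0`; `ξ 0` by the bound). Let `a i` be the residue of `ξ i` (`MP7Z.exists_const`). As in `SRes` (`Hru/Res.lean`), for three variables: `A(a) = 0 ↔ 0 < v.ord (A(ξ))`. So `P(a) = 0`; `(f.den i)(a) ≠ 0`, `B(a) ≠ 0` since these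
values at `ξ` are `≠ 0` and have `zr = 0`, so they have order `≤ 0`. `ξ_i ^ q den_i(ξ) - num_i(ξ) = (ξ_i ^ q - fv f ξ i) den_i(ξ)` has positive order for `i = 0, 2` and is `0` for `i = 1`. -/
def StmtGood : Prop :=
  ∀ (κ L : Type) [Field κ] [IsAlgClosed κ] [Field L] [Algebra κ L] [IsCurveField κ L] (P B : MvPolynomial (Fin 3) κ)
    (f : RM κ 3) (ξ : Fin 3 → L) (q : ℕ) (v : Place κ L), aeval ξ P = 0 → (∀ i, aeval ξ (f.den i) ≠ 0) → aeval ξ B ≠ 0 →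
    ξ 1 ^ q * aeval ξ (f.den 1) = aeval ξ (f.num 1) →
    pl v (ξ 0) ≤ P.totalDegree * (pl v (ξ 1) + pl v (ξ 2)) → om f B ξ v = 0 → 0 < v.ord (ξ 2 ^ q - fv f ξ 2) →
    0 < v.ord (ξ 0 ^ q - fv f ξ 0) → ∃ a : Fin 3 → κ, eval a P = 0 ∧ FrobPt f q a ∧ eval a B ≠ 0

/-- (X16) The counting argument. PROOF (uses `StmtPnMv`, `StmtCvL`, `StmtCvD`, `StmtCvH`, `StmtUniv`, `StmtNrm`, `StmtPt`, `StmtGood`, `SPrd`, `SPn`). Suppose that there is no such point `a`. Let `η = ξ₁ ^ q = fv f ξ 1`, `x₀, z₀, g, g'` as in `StmtPt`, `h = Pn ξ₂`. `aeval ![z₀, η, x₀] P = 0` by `Keeps` (`![z₀, η, x₀] = fv f ξ`), the derivative there is `≠ 0` by hypothesis. `n, C₀, A, A', H` from `StmtUniv`,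
`u = A(s₁) / g ^ n`. `aeval (fun i => ξ i ^ q) P = (aeval ξ P) ^ q = 0` because the coefficients of `P` are fixed (`map_iterateFrobenius_expand`, see `h5` in `ZDO/Hru.lean`). By `StmtGood` there is no place with `om = 0`, `0 < v.ord g`, `0 < v.ord g'`, so `StmtPt` holds at all places. Sum over the places (finite supports: `finite_ord_ne`):
`Pn u ≤ (C₀ + n) (Pn η + Pn x₀ + Pn z₀) + n Pn η + n Zn (δ g) + n c (Pn ξ₁ + Pn ξ₂ + ∑ Zn (den_i(ξ)) + Zn (B(ξ)))`. With `C₂` depending only on `κ, P, f, B, c` (not on `L, ξ, q`): all of `Pn ξ_i`, `Zn (den_i ξ) = Pn (den_i ξ)`, `Zn (B ξ)`, `Pn (fv f ξ i)`, `Zn (δ g) = Pn (δ g)` are `≤ C₂ h` by `StmtCvH`, `StmtPnMv`, `StmtCvD`. So `Pn u ≤ C₃ h`.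
`StmtNrm` with `y = ξ₂ ^ q`, `z₁ = ξ₀ ^ q` (`A(s₁) = u g ^ n`): `q h = Pn (ξ₂ ^ q) ≤ C₄ (3 C₂ h + C₃ h)`; as `h ≥ 1` this is a contradiction for `q > C₄ (3 C₂ + C₃)`. -/
def StmtMain : Prop :=
  ∀ (κ : Type) [Field κ] [IsAlgClosed κ] (p : ℕ) [Fact p.Prime] [CharP κ p] (P B : MvPolynomial (Fin 3) κ)
    (f : RM κ 3) (c : ℕ), Irreducible P → Mon P → Keeps P f → ∃ q₀ : ℕ,
    ∀ (L : Type) [Field L] [Algebra κ L] [IsCurveField κ L] (ξ : Fin 3 → L) (x : L) (δ : Derivation κ L L) (s : ℕ),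
    Cv κ L P f ξ x δ (p ^ s) c → aeval ξ B ≠ 0 → aeval (fv f ξ) (pderiv 0 P) ≠ 0 →
    Irreducible (sp (ξ 1 ^ p ^ s) P) → map (iterateFrobenius κ p s) P = P → q₀ ≤ p ^ s →
    ∃ a : Fin 3 → κ, eval a P = 0 ∧ FrobPt f (p ^ s) a ∧ eval a B ≠ 0

/-! ## Coordinates and the theorem -/

/-- The standing assumptions on `P` and `f`. -/
structure Ok {κ : Type} [Field κ] (P : MvPolynomial (Fin 3) κ) (f : RM κ 3) (d : ℕ) : Prop where
  irr : Irreducible P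
  mon : Mon P
  dP : P.totalDegree ≤ d
  dn : ∀ i, (f.num i).totalDegree ≤ d
  dd : ∀ i, (f.den i).totalDegree ≤ d
  den : ∀ i, ¬ P ∣ f.den i
  keeps : Keeps P f
  jac : ¬ P ∣ jX P f

/-- (X17) Shears. Let `i ≠ j` in `{1, 2}` and `t : κ`. New coordinates: `x_i' = x_i + t x_j`, the others unchanged. PROOF. `θ : κ[z,x₁,x₂] → κ[z,x₁,x₂]`, `θ (X i) = X i - C t * X j`, `θ (X l) = X l` otherwise (an automorphism: `P = θ⁻¹(P')`), `P' = θ P`. `f'` : for `l ≠ i` `num' l = θ (num l)`, `den' l = θ (den l)`; `num' i = θ (num i) * θ (den j) + C t * θ (num j) * θ (den i)`, `den' i = θ (den i) * θ (den j)`.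
`θ` does not change the degree in `X 0` and the leading coefficient `1` there, and not total degrees (`≤`, both ways). A point `ξ'` of `P' = 0` corresponds to the point `ξ` of `P = 0` with `ξ i = ξ' i - t ξ' j`, `ξ l = ξ' l` otherwise: `(θ A)(ξ') = A(ξ)`; `fv f' ξ' l = fv f ξ l` for `l ≠ i` and `fv f' ξ' i = fv f ξ i + t fv f ξ j`. So `Keeps P' f'`. Jacobian: on the surface,
`∂'_j = ∂_j - t ∂_i`, `∂'_i = ∂_i` (derivations of the function field), so the determinant of `(∂'_a f'_b)` is that of `(∂_a f_b)`; as polynomials: modulo `P'` `jX P' f'` is `θ (jX P f)` times a product of `θ (den)`s (or check at a generic point: `jX ≠ 0` iff the determinant of the derivatives is `≠ 0`). For (c): given `B` take `B' = θ B`. If `t ^ q = t` and `a'` is a Frobenius point of `f'`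
then `a`, `a i = a' i - t a' j`, is a Frobenius point of `f` (`a i ^ q = a' i ^ q - t a' j ^ q = fv f' a' i - t fv f' a' j`). (d) generic points of `P'` are exactly the `ξ'` with `ξ` generic. (e) `wX` : `wX P' f' 1 1` modulo `P'`: for `i = 2` (`x₂' = x₂ + t x₁`) it is `θ (wX P f 1 1 - t wX P f 1 2)` (`f'_1 = f_1`, `∂'_1 = ∂_1 - t ∂_2`). -/
def StmtShear : Prop :=
  ∀ (κ : Type) [Field κ] (p : ℕ) [Fact p.Prime] [CharP κ p] (P : MvPolynomial (Fin 3) κ) (f : RM κ 3) (d : ℕ), Ok P f d →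
    ∀ (i j : Fin 3), i ≠ 0 → j ≠ 0 → i ≠ j → ∀ t : κ, ∃ (P' : MvPolynomial (Fin 3) κ) (f' : RM κ 3), Ok P' f' (2 * d) ∧
      (∀ B : MvPolynomial (Fin 3) κ, ¬ P ∣ B → ∃ B' : MvPolynomial (Fin 3) κ, ¬ P' ∣ B' ∧ ∀ s : ℕ, t ^ p ^ s = t →
        (∃ a : Fin 3 → κ, eval a P' = 0 ∧ FrobPt f' (p ^ s) a ∧ eval a B' ≠ 0) →
        ∃ a : Fin 3 → κ, eval a P = 0 ∧ FrobPt f (p ^ s) a ∧ eval a B ≠ 0) ∧
      (∀ (E : Type) [Field E] [Algebra κ E] (ξ : Fin 3 → E), Gen P' ξ ↔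
        Gen P (Function.update ξ i (ξ i - algebraMap κ E t * ξ j))) ∧
      (i = 2 → (P' ∣ wX P' f' 1 1 ↔ P ∣ wX P f 1 1 - C t * wX P f 1 2))

/-- (X18) Good coordinates. PROOF (uses `StmtShear`, `Bez.StmtBert3`). `dz P ≤ d < p`, so `¬ P ∣ pderiv 0 P` (smaller degree in `X 0`, and not `0`: leading coefficient `dz P ≠ 0` in `κ`). Let `E = Frac (κ[z,x₁,x₂] ⧸ (P))`, `Ξ` its generic point. `StmtBert3`: the set of bad `t` is finite, `κ` is infinite; choose a good `t` and shear `x₁' = x₁ + t x₂` : `P₁, f₁`. Every generic point `ξ'` of `P₁` comes from a generic point `ξ` of `P` with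
`ξ' 1 = ξ 1 + t ξ 2`, and `κ(Ξ) ≃ κ(ξ)`, so `Reg P₁` (transport along the isomorphism of `Frac (κ[z,x₁,x₂] ⧸ (P))` with the field of `ξ`). Next: not both `P₁ ∣ wX P₁ f₁ 1 1` and `P₁ ∣ wX P₁ f₁ 1 2` (otherwise `P₁ ∣ jX P₁ f₁`), so there is `u : κ` (`0` or `1`) with `¬ P₁ ∣ wX P₁ f₁ 1 1 - C u * wX P₁ f₁ 1 2`. Shear `x₂' = x₂ + u x₁'` : `P₂, f₂`; `ξ 1` does not change, so
`Reg P₂`. Compose the transfers of Frobenius points. -/
def StmtCoord : Prop :=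
  ∀ (κ : Type) [Field κ] [IsAlgClosed κ] (p : ℕ) [Fact p.Prime] [CharP κ p] (P : MvPolynomial (Fin 3) κ) (f : RM κ 3)
    (d : ℕ), d < p → Ok P f d → ∃ (P' : MvPolynomial (Fin 3) κ) (f' : RM κ 3) (t u : κ), Ok P' f' (4 * d) ∧ Reg P' ∧
      ¬ P' ∣ wX P' f' 1 1 ∧
      ∀ B : MvPolynomial (Fin 3) κ, ¬ P ∣ B → ∃ B' : MvPolynomial (Fin 3) κ, ¬ P' ∣ B' ∧ ∀ s : ℕ, t ^ p ^ s = t →
        u ^ p ^ s = u → (∃ a : Fin 3 → κ, eval a P' = 0 ∧ FrobPt f' (p ^ s) a ∧ eval a B' ≠ 0) →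
        ∃ a : Fin 3 → κ, eval a P = 0 ∧ FrobPt f (p ^ s) a ∧ eval a B ≠ 0

/-- (X19) The theorem. PROOF (uses `StmtCoord`, `Bez.StmtFib3`, `StmtElim`, `StmtDom`, `StmtCurve`, `StmtDeg`, `StmtMain`, `SDer`). `p₀ = 3 (4 d) ^ 4 + 1`. `P', f', t, u` from `StmtCoord`, `B'` for `B`; `d' = 4 d`, `c = 3 d' ^ 4 < p`. `dz P' ≤ d' < p`, so `¬ P' ∣ pderiv 0 P'` (its degree in `X 0` is smaller, and it is not `0`: the leading coefficient `dz P' ≠ 0` in `κ`). `h` from `StmtFib3` (for the generic point of `P'`, `Reg P'`). `R` from `StmtElim` for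
`A = pderiv 0 P'` and `W` from `StmtDom` for `R`. `B₁ = B' * f'.den 0 * f'.den 1 * f'.den 2 * pderiv 0 P' * jX P' f' * W * h(X 1)` is not divisible by the prime `P'` (`P'` does not divide the nonzero polynomial `h(X 1)`: it involves `X 0`). Let `q₁` be the bound of `StmtCurve` for `B₁` and `q₂` that of `StmtMain` for `B'`, `c`. Every element of `κ` is fixed by some `x ↦ x ^ p ^ m`; so there is `r ≥ 1` with
`z ^ p ^ r = z` for `z = t, u` and all coefficients of `P'`, `h` (common multiple). `s = s₀ r N` with `N` so large that `p ^ s ≥ q₁, q₂`. `L, ξ` from `StmtCurve`. `StmtDeg` (with `d'`): let `x = ξ 1` if it is transcendental, `x = ξ 2` otherwise; `[L : κ(x)] ≤ c < p`, so `L / κ(x)` is separable and there is `δ` with `δ x = 1` (`SDer`). `Cv κ L P' f' ξ x δ (p ^ s) c` holds. `aeval (fv f' ξ) (pderiv 0 P') ≠ 0`: otherwise,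
as `aeval (fv f' ξ) P' = 0` (`Keeps`) and `R ∈ (P', pderiv 0 P')`, `R(fv f' ξ 1, fv f' ξ 2) = 0`, but `W(ξ) ≠ 0`. `h(ξ₁ ^ q) = h(ξ₁) ^ q ≠ 0` (coefficients fixed), so `sp (ξ₁ ^ q) P'` is irreducible. `StmtMain` gives the Frobenius point of `f'`, the transfer that of `f`. -/
def StmtHrux : Prop :=
  ∀ d : ℕ, ∃ p₀ : ℕ, ∀ (κ : Type) [Field κ] [IsAlgClosed κ] (p : ℕ) [Fact p.Prime] [CharP κ p], p₀ ≤ p →
    (∀ c : κ, ∃ m : ℕ, 1 ≤ m ∧ c ^ p ^ m = c) → ∀ (P : MvPolynomial (Fin 3) κ) (f : RM κ 3), Ok P f d →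
    ∀ B : MvPolynomial (Fin 3) κ, ¬ P ∣ B → ∀ s₀ : ℕ, 1 ≤ s₀ → ∃ s : ℕ, 1 ≤ s ∧ s₀ ∣ s ∧
      ∃ a : Fin 3 → κ, eval a P = 0 ∧ FrobPt f (p ^ s) a ∧ eval a B ≠ 0

end Pool.Agent.Lib.MP_16285c_agS.Hrx
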