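import Pool.Agent.Lib.MP_16285c_agS.Hrx.Spec

/-!
# Polynomials: the exchange of variables for `StmtCurve`
-/

set_option autoImplicit false

namespace Pool.Agent.Lib.MP_16285c_agS.Hrx

open MvPolynomial

namespace CurveM

variable {κ K : Type} [Field κ] [Field K] [Algebra κ K]

/-- `P` over `K`: `X 0 ↦ X 1`, `X 1 ↦ X 0`, `X 2 ↦ x₂`. -/
noncomputable def tr (x₂ : K) : MvPolynomial (Fin 3) κ →ₐ[κ] MvPolynomial (Fin 2) K :=
  aeval ![X 1, X 0, C x₂]

theorem tr_aeval {L : Type} [Field L] [Algebra K L] [Algebra κ L] [IsScalarTower κ K L] (x₂ : K)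
    (x y : L) (A : MvPolynomial (Fin 3) κ) :
    aeval ![x, y] (tr x₂ A) = aeval ![y, x, algebraMap K L x₂] A := by
  have h : ((aeval ![x, y] : MvPolynomial (Fin 2) K →ₐ[K] L).restrictScalars κ).comp (tr x₂) =
      (aeval ![y, x, algebraMap K L x₂] : MvPolynomial (Fin 3) κ →ₐ[κ] L) := by
    refine MvPolynomial.algHom_ext fun i => ?_
    fin_cases i <;> simp [tr, MvPolynomial.algebraMap_eq]
  exact congrArg (fun φ : MvPolynomial (Fin 3) κ →ₐ[κ] L => φ A) h

theorem tr_eval (x₂ : K) (a : Fin 2 → K) (A : MvPolynomial (Fin 3) κ) :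
    eval a (tr x₂ A) = aeval ![a 1, a 0, x₂] A := by
  have h : ((aeval a : MvPolynomial (Fin 2) K →ₐ[K] K).restrictScalars κ).comp (tr x₂) =
      (aeval ![a 1, a 0, x₂] : MvPolynomial (Fin 3) κ →ₐ[κ] K) := by
    refine MvPolynomial.algHom_ext fun i => ?_
    fin_cases i <;> simp [tr]
  have h1 := congrArg (fun φ : MvPolynomial (Fin 3) κ →ₐ[κ] K => φ A) h
  simp only [AlgHom.comp_apply, AlgHom.restrictScalars_apply] at h1
  rw [← h1, MvPolynomial.aeval_eq_eval]

/-- A polynomial in two variables as a polynomial in `Y = X 1` over `K[X]`. -/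
noncomputable def ps : MvPolynomial (Fin 2) K →ₐ[K] Polynomial (Polynomial K) :=
  aeval ![Polynomial.C Polynomial.X, Polynomial.X]

theorem ps_tr (x₂ : K) (A : MvPolynomial (Fin 3) κ) :
    ps (tr x₂ A) = (finSuccEquiv κ 2 A).map
      (aeval ![Polynomial.X, Polynomial.C x₂] : MvPolynomial (Fin 2) κ →ₐ[κ] Polynomial K).toRingHom := by
  have h : (ps : MvPolynomial (Fin 2) K →ₐ[K] _).toRingHom.comp (tr (κ := κ) x₂).toRingHom =
      (Polynomial.mapRingHom (aeval ![Polynomial.X, Polynomial.C x₂] :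
        MvPolynomial (Fin 2) κ →ₐ[κ] Polynomial K).toRingHom).comp
        (finSuccEquiv κ 2).toAlgHom.toRingHom := by
    refine MvPolynomial.ringHom_ext (fun r => ?_) (fun i => ?_)
    · simp [tr, ps, MvPolynomial.finSuccEquiv_apply]
    · fin_cases i
      · simp [tr, ps, MvPolynomial.finSuccEquiv_X_zero]
      · have h1 : (X (1 : Fin 3) : MvPolynomial (Fin 3) κ) = X (Fin.succ (0 : Fin 2)) := rfl
        simp [tr, ps]
        rw [h1, MvPolynomial.finSuccEquiv_X_succ]
        simp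
      · have h1 : (X (2 : Fin 3) : MvPolynomial (Fin 3) κ) = X (Fin.succ (1 : Fin 2)) := rfl
        simp [tr, ps]
        rw [h1, MvPolynomial.finSuccEquiv_X_succ]
        simp
  exact congrArg (fun φ : MvPolynomial (Fin 3) κ →+* Polynomial (Polynomial K) => φ A) h

theorem natDegree_ps_le (A : MvPolynomial (Fin 2) K) : (ps A).natDegree ≤ A.degreeOf 1 := by
  unfold ps
  rw [aeval_def, eval₂_eq']
  refine Polynomial.natDegree_sum_le_of_forall_le _ _ fun m hm => ?_
  rw [Fin.prod_univ_two]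
  have h1 : m 1 ≤ A.degreeOf 1 := le_degreeOf_of_mem_support (i := (1 : Fin 2)) hm
  refine le_trans ?_ h1
  have h2 : (algebraMap K (Polynomial (Polynomial K))) (coeff m A) =
      Polynomial.C (Polynomial.C (coeff m A)) := rfl
  rw [h2]
  simp only [Matrix.cons_val_zero, Matrix.cons_val_one]
  rw [← Polynomial.C_pow, ← mul_assoc, ← Polynomial.C_mul]
  exact Polynomial.natDegree_C_mul_X_pow_le _ _

/-- The degree of `tr x₂ A` in `X 1`. -/
theorem degreeOf_tr_le (x₂ : K) (A : MvPolynomial (Fin 3) κ) :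
    (tr x₂ A).degreeOf 1 ≤ A.degreeOf 0 := by
  unfold tr
  rw [aeval_def, eval₂_eq']
  refine (degreeOf_sum_le _ _ _).trans (Finset.sup_le fun m hm => ?_)
  have h1 : m 0 ≤ A.degreeOf 0 := le_degreeOf_of_mem_support (i := (0 : Fin 3)) hm
  refine le_trans ?_ h1
  rw [Fin.prod_univ_three]
  have h2 : (algebraMap κ (MvPolynomial (Fin 2) K)) (coeff m A) =
      C (algebraMap κ K (coeff m A)) := rfl
  rw [h2]
  simp only [Matrix.cons_val_zero, Matrix.cons_val_one, Matrix.cons_val_two, Matrix.tail_cons,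
    Matrix.head_cons]
  have hX0 : ∀ n : ℕ, ((X 0 : MvPolynomial (Fin 2) K) ^ n).degreeOf 1 = 0 := by
    intro n
    rw [X_pow_eq_monomial, degreeOf_monomial_eq _ _ one_ne_zero]
    simp
  have hX1 : ∀ n : ℕ, ((X 1 : MvPolynomial (Fin 2) K) ^ n).degreeOf 1 = n := by
    intro n
    rw [X_pow_eq_monomial, degreeOf_monomial_eq _ _ one_ne_zero]
    simp
  refine (degreeOf_C_mul_le _ _ _).trans ?_
  refine (degreeOf_mul_le _ _ _).trans ?_
  have h3 : ((C x₂ : MvPolynomial (Fin 2) K) ^ (m 2)).degreeOf 1 = 0 := by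
    rw [← C_pow, degreeOf_C]
  rw [h3, add_zero]
  refine (degreeOf_mul_le _ _ _).trans ?_
  rw [hX0, hX1, add_zero]

theorem dz_eq (P : MvPolynomial (Fin 3) κ) : dz P = P.degreeOf 0 := natDegree_finSuccEquiv P

theorem dz_pos {P : MvPolynomial (Fin 3) κ} (hi : Irreducible P) (hm : Mon P) : 0 < dz P := by
  rcases Nat.eq_zero_or_pos (dz P) with h | h
  · exfalso
    have h1 : finSuccEquiv κ 2 P = 1 := hm.natDegree_eq_zero.1 h
    have h2 : P = 1 := (finSuccEquiv κ 2).injective (by rw [h1, map_one])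
    exact hi.not_isUnit (by rw [h2]; exact isUnit_one)
  · exact h

theorem monic_ps_tr {P : MvPolynomial (Fin 3) κ} (hm : Mon P) (x₂ : K) : (ps (tr x₂ P)).Monic := by
  rw [ps_tr]
  exact hm.map _

theorem natDegree_ps_tr {P : MvPolynomial (Fin 3) κ} (hm : Mon P) (x₂ : K) :
    (ps (tr x₂ P)).natDegree = dz P := by
  rw [ps_tr, hm.natDegree_map]
  rfl

theorem tr_ne_zero {P : MvPolynomial (Fin 3) κ} (hm : Mon P) (x₂ : K) : tr x₂ P ≠ 0 := by
  intro h
  have h1 := monic_ps_tr hm x₂
  rw [h, map_zero] at h1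
  exact h1.ne_zero rfl

theorem degreeOf_tr_pos {P : MvPolynomial (Fin 3) κ} (hi : Irreducible P) (hm : Mon P) (x₂ : K) :
    0 < (tr x₂ P).degreeOf 1 := by
  have h1 := natDegree_ps_le (tr x₂ P)
  rw [natDegree_ps_tr hm] at h1
  exact lt_of_lt_of_le (dz_pos hi hm) h1

section factor

theorem deg_mul {A B : MvPolynomial (Fin 2) K} (hA : A ≠ 0) (hB : B ≠ 0) :
    (A * B).degreeOf 1 = A.degreeOf 1 + B.degreeOf 1 :=
  degreeOf_mul_eq hA hB

theorem deg_unit {u : MvPolynomial (Fin 2) K} (h : IsUnit u) : u.degreeOf 1 = 0 := by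
  obtain ⟨C', hC⟩ := h.dvd (a := (1 : MvPolynomial (Fin 2) K))
  have hu : u ≠ 0 := h.ne_zero
  have hC0 : C' ≠ 0 := by
    rintro rfl
    rw [mul_zero] at hC
    exact one_ne_zero hC
  have h1 := deg_mul hu hC0
  have h2 : (1 : MvPolynomial (Fin 2) K).degreeOf 1 = 0 := by
    rw [← C_1, degreeOf_C]
  rw [← hC, h2] at h1
  omega

/-- An irreducible factor which involves the second variable. -/
theorem factor (F : MvPolynomial (Fin 2) K) :
    F ≠ 0 → 0 < F.degreeOf 1 → ∃ P, Irreducible P ∧ 0 < P.degreeOf 1 ∧ P ∣ F := by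
  induction F using UniqueFactorizationMonoid.induction_on_prime with
  | h₁ => exact fun h => absurd rfl h
  | h₂ u hu => exact fun _ h => absurd (deg_unit hu) (by omega)
  | h₃ a p ha hp ih =>
    intro _ h
    rw [deg_mul hp.ne_zero ha] at h
    by_cases h1 : 0 < p.degreeOf 1
    · exact ⟨p, hp.irreducible, h1, dvd_mul_right _ _⟩
    · obtain ⟨P, h2, h3, h4⟩ := ih ha (by omega)
      exact ⟨P, h2, h3, h4.mul_left _⟩

end factor

/-- `aeval ![x, y]` through `ps`. -/
theorem eval_ps {L : Type} [Field L] [Algebra K L] (x y : L) (A : MvPolynomial (Fin 2) K) :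
    aeval ![x, y] A = ((ps A).map (Polynomial.aeval x : Polynomial K →ₐ[K] L).toRingHom).eval y := by
  have h : (aeval ![x, y] : MvPolynomial (Fin 2) K →ₐ[K] L).toRingHom =
      (Polynomial.evalRingHom y).comp ((Polynomial.mapRingHom
        (Polynomial.aeval x : Polynomial K →ₐ[K] L).toRingHom).comp
        (ps : MvPolynomial (Fin 2) K →ₐ[K] _).toRingHom) := by
    refine MvPolynomial.ringHom_ext (fun r => ?_) (fun i => ?_)
    · have h2 : (algebraMap K (Polynomial (Polynomial K))) r =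
        Polynomial.C (Polynomial.C r) := rfl
      simp [ps, h2]
    · fin_cases i <;> simp [ps]
  exact congrArg (fun φ : MvPolynomial (Fin 2) K →+* L => φ A) h

/-- The chain rule. -/
theorem der_aeval {L σ : Type} [Fintype σ] [Field L] [Algebra κ L] (D : Derivation κ L L) (ξ : σ → L)
    (A : MvPolynomial σ κ) : D (aeval ξ A) = ∑ j, aeval ξ (pderiv j A) * D (ξ j) := by
  classical
  induction A using MvPolynomial.induction_on with
  | C a => simp
  | add p q hp hq =>
    rw [map_add, map_add, hp, hq, ← Finset.sum_add_distrib]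
    refine Finset.sum_congr rfl fun j _ => ?_
    rw [map_add, map_add, add_mul]
  | mul_X p i hp =>
    rw [map_mul, aeval_X, Derivation.leibniz, hp]
    have h1 : ∀ j, aeval ξ (pderiv j (p * X i)) * D (ξ j) =
        ξ i * (aeval ξ (pderiv j p) * D (ξ j)) + (if j = i then aeval ξ p * D (ξ i) else 0) := by
      intro j
      rw [Derivation.leibniz, pderiv_X, smul_eq_mul, smul_eq_mul, map_add, map_mul, map_mul, aeval_X]
      by_cases hji : j = i
      · subst hji
        rw [if_pos rfl, Pi.single_eq_same, map_one]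
        ring
      · rw [if_neg hji, Pi.single_eq_of_ne (Ne.symm hji), map_zero]
        ring
    rw [Finset.sum_congr rfl fun j _ => h1 j, Finset.sum_add_distrib, ← Finset.mul_sum,
      Finset.sum_ite_eq' Finset.univ i, if_pos (Finset.mem_univ i), smul_eq_mul, smul_eq_mul]
    ring

end CurveM

end Pool.Agent.Lib.MP_16285c_agS.Hrx
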