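import Pool.Agent.Lib.MP_16285c_agS.Hrx.CurveA
import Pool.Agent.Lib.MP_16285c_agS.Hrx.CurveB

/-!
# (X3) A point of the surface over a function field of a curve
-/

set_option autoImplicit false

namespace Pool.Agent.Lib.MP_16285c_agS.Hrx

open MP7Z MvPolynomial
open scoped IntermediateField
open Pool.Agent.Lib.MP_16285c_ag (RM FrobPt)
open Pool.Agent.Lib.MP_16285c_agZ.Hru (Zn Pn Sit SDer SSepH SPrd SBd SLoc SPn SRes SFld)
open Pool.Agent.ZDO (Wd)

namespace CurveM

theorem exists_field (κ : Type) [Field κ] : ∃ (K : Type) (_ : Field K) (_ : Algebra κ K) (x₂ : K),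
    IsAlgClosed K ∧ Transcendental κ x₂ ∧ ∀ z : K, ∃ p : Polynomial (Polynomial κ), p ≠ 0 ∧
      (p.map (Polynomial.aeval x₂ : Polynomial κ →ₐ[κ] K).toRingHom).eval z = 0 := by
  refine ⟨AlgebraicClosure (FractionRing (Polynomial κ)), inferInstance, inferInstance,
    algebraMap (Polynomial κ) _ Polynomial.X, inferInstance, ?_, ?_⟩
  · have h1 : Transcendental κ (Polynomial.X : Polynomial κ) := Polynomial.transcendental_X κ
    have hinj : Function.Injective (IsScalarTower.toAlgHom κ (Polynomial κ)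
        (AlgebraicClosure (FractionRing (Polynomial κ)))) := by
      have h2 : (algebraMap (Polynomial κ) (AlgebraicClosure (FractionRing (Polynomial κ)))) =
          (algebraMap (FractionRing (Polynomial κ)) (AlgebraicClosure (FractionRing (Polynomial κ)))).comp
            (algebraMap (Polynomial κ) (FractionRing (Polynomial κ))) :=
        IsScalarTower.algebraMap_eq _ _ _
      have h3 : Function.Injective
          (algebraMap (Polynomial κ) (AlgebraicClosure (FractionRing (Polynomial κ)))) := by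
        rw [h2]
        exact (algebraMap (FractionRing (Polynomial κ))
          (AlgebraicClosure (FractionRing (Polynomial κ)))).injective.comp
          (IsFractionRing.injective (Polynomial κ) (FractionRing (Polynomial κ)))
      exact h3
    exact fun h => h1 ((isAlgebraic_algHom_iff _ hinj).1 h)
  · intro z
    have h1 : IsAlgebraic (FractionRing (Polynomial κ)) z := Algebra.IsAlgebraic.isAlgebraic z
    have h2 : IsAlgebraic (Polynomial κ) z :=
      (IsFractionRing.isAlgebraic_iff (Polynomial κ) (FractionRing (Polynomial κ)) _).2 h1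
    obtain ⟨p, hp, hpz⟩ := h2
    refine ⟨p, hp, ?_⟩
    have h3 : (Polynomial.aeval (algebraMap (Polynomial κ)
        (AlgebraicClosure (FractionRing (Polynomial κ))) Polynomial.X) :
        Polynomial κ →ₐ[κ] _).toRingHom = algebraMap (Polynomial κ) _ := by
      refine Polynomial.ringHom_ext (fun a => ?_) ?_
      · simp only [AlgHom.toRingHom_eq_coe, RingHom.coe_coe, Polynomial.aeval_C]
        rw [IsScalarTower.algebraMap_apply κ (Polynomial κ)]
        rfl
      · simp
    rw [h3, Polynomial.eval_map]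
    exact hpz

theorem sub_field {κ K : Type} [Field κ] [Field K] [Algebra κ K] (x₂ : K) (hx : Transcendental κ x₂)
    (halg : ∀ z : K, ∃ p : Polynomial (Polynomial κ), p ≠ 0 ∧
      (p.map (Polynomial.aeval x₂ : Polynomial κ →ₐ[κ] K).toRingHom).eval z = 0)
    (ξ : Fin 3 → K) (h2 : ξ 2 = x₂) :
    ∃ (L : Type) (_ : Field L) (_ : Algebra κ L) (ξ' : Fin 3 → L) (ι : L →ₐ[κ] K),
      (∀ i, ι (ξ' i) = ξ i) ∧ IsCurveField κ L ∧
      IntermediateField.adjoin κ (Set.range ξ') = ⊤ ∧ Transcendental κ (ξ' 2) := by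
  set F : IntermediateField κ K := IntermediateField.adjoin κ (Set.range ξ) with hF
  have hmem : ∀ i, ξ i ∈ F := fun i => IntermediateField.subset_adjoin κ _ ⟨i, rfl⟩
  set ξ' : Fin 3 → F := fun i => ⟨ξ i, hmem i⟩ with hξ'
  have hadj : IntermediateField.adjoin κ (Set.range ξ') = ⊤ := by
    apply IntermediateField.lift_injective F
    rw [IntermediateField.lift_adjoin, IntermediateField.lift_top, ← Set.range_comp]
    rfl
  have hι : Function.Injective F.val := F.val.injective
  have htr : Transcendental κ (ξ' 2) := by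
    intro h
    apply hx
    have h3 := (isAlgebraic_algHom_iff F.val hι).2 h
    have h4 : F.val (ξ' 2) = x₂ := h2
    rwa [h4] at h3
  refine ⟨F, inferInstance, inferInstance, ξ', F.val, fun i => rfl, ⟨ξ' 2, htr, ?_⟩, hadj, htr⟩
  have hint : ∀ z : F, IsIntegral κ⟮ξ' 2⟯ z := by
    intro z
    obtain ⟨p, hp, hpz⟩ := halg (z : K)
    refine IsAlgebraic.isIntegral ⟨p.map (Polynomial.aeval
      (IntermediateField.AdjoinSimple.gen κ (ξ' 2)) : Polynomial κ →ₐ[κ] κ⟮ξ' 2⟯).toRingHom, ?_, ?_⟩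
    · have hinj : Function.Injective (Polynomial.aeval
          (IntermediateField.AdjoinSimple.gen κ (ξ' 2)) : Polynomial κ →ₐ[κ] κ⟮ξ' 2⟯).toRingHom := by
        have h5 : Transcendental κ (IntermediateField.AdjoinSimple.gen κ (ξ' 2)) := by
          intro h6
          apply htr
          have h7 := (isAlgebraic_algHom_iff κ⟮ξ' 2⟯.val κ⟮ξ' 2⟯.val.injective).2 h6
          exact h7
        exact transcendental_iff_injective.1 h5
      exact (Polynomial.map_ne_zero_iff hinj).2 hp
    · apply hι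
      rw [map_zero, Polynomial.aeval_def, Polynomial.eval₂_map]
      have h8 := Polynomial.hom_eval₂ p ((algebraMap κ⟮ξ' 2⟯ F).comp (Polynomial.aeval
        (IntermediateField.AdjoinSimple.gen κ (ξ' 2)) : Polynomial κ →ₐ[κ] κ⟮ξ' 2⟯).toRingHom)
        F.val.toRingHom z
      have h9 : (F.val.toRingHom).comp ((algebraMap κ⟮ξ' 2⟯ F).comp (Polynomial.aeval
        (IntermediateField.AdjoinSimple.gen κ (ξ' 2)) : Polynomial κ →ₐ[κ] κ⟮ξ' 2⟯).toRingHom) =
        (Polynomial.aeval x₂ : Polynomial κ →ₐ[κ] K).toRingHom := by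
        refine Polynomial.ringHom_ext (fun a => ?_) ?_
        · simp only [AlgHom.toRingHom_eq_coe, RingHom.coe_comp, RingHom.coe_coe,
            Function.comp_apply, Polynomial.aeval_C]
          rfl
        · simp only [AlgHom.toRingHom_eq_coe, RingHom.coe_comp, RingHom.coe_coe,
            Function.comp_apply, Polynomial.aeval_X]
          exact h2
      rw [h9] at h8
      rw [Polynomial.eval_map] at hpz
      exact h8.trans hpz
  have hfd : FiniteDimensional κ⟮ξ' 2⟯ (IntermediateField.adjoin κ⟮ξ' 2⟯ (Set.range ξ')) :=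
    IntermediateField.finiteDimensional_adjoin fun z _ => hint z
  have htop : IntermediateField.adjoin κ⟮ξ' 2⟯ (Set.range ξ') = ⊤ := by
    rw [← IntermediateField.restrictScalars_eq_top_iff (K := κ), eq_top_iff, ← hadj]
    exact IntermediateField.adjoin_le_iff.2 (IntermediateField.subset_adjoin κ⟮ξ' 2⟯ _)
  rw [htop] at hfd
  exact Module.Finite.equiv (IntermediateField.topEquiv (F := κ⟮ξ' 2⟯) (E := F)).toLinearEquiv

theorem algInd {κ K L : Type} [Field κ] [Field K] [Algebra κ K] [Field L] [Algebra K L]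
    [Algebra κ L] [IsScalarTower κ K L] {x₂ : K} (h2 : Transcendental κ x₂) {x : L}
    (hx : Transcendental K x) : AlgebraicIndependent κ ![x, algebraMap K L x₂] := by
  have h3 : AlgebraicIndependent κ (fun _ : Unit => x₂) := algebraicIndependent_unique_type_iff.2 h2
  have h4 : AlgebraicIndependent K (fun _ : Unit => x) := algebraicIndependent_unique_type_iff.2 hx
  have h5 := h3.sumElim_comp h4
  have h6 := h5.comp (fun i : Fin 2 => if i = 0 then Sum.inl () else Sum.inr ()) (by
    intro i j hij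
    fin_cases i <;> fin_cases j <;> simp_all)
  have h7 : (Sum.elim (fun _ : Unit => x) (⇑(algebraMap K L) ∘ fun _ : Unit => x₂)) ∘
      (fun i : Fin 2 => if i = 0 then Sum.inl () else Sum.inr ()) = ![x, algebraMap K L x₂] := by
    funext i
    fin_cases i <;> simp
  rwa [h7] at h6

end CurveM

open CurveM in
/-- (X3) -/
theorem tCurve (h1 : SDer) (h2 : SPrd) (h3 : SLoc) (h4 : SPn) (h5 : SRes) (h6 : SFld)
    (h7 : StmtElim) : StmtCurve := by
  intro κ _ _ p _ _ P f hPi hPm hdp hden hw B hB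
  obtain ⟨K, iK, iA, x₂, hKa, hx₂, halg⟩ := exists_field κ
  have hPK0 : tr x₂ P ≠ 0 := tr_ne_zero hPm x₂
  obtain ⟨Q, hQi, hQd, hQP⟩ := factor (tr x₂ P) hPK0 (degreeOf_tr_pos hPi hPm x₂)
  obtain ⟨E, iE, iKE, x, y, hE, hx, hfin, hrk, hker⟩ := h6 K Q (tr x₂ P) (dz P) hQi hQd hQP hPK0
    ((degreeOf_tr_le x₂ P).trans_eq (dz_eq P).symm)
  letI iκE : Algebra κ E := ((algebraMap K E).comp (algebraMap κ K)).toAlgebra
  haveI iT : IsScalarTower κ K E := IsScalarTower.of_algebraMap_eq fun r => rfl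
  have htrA : ∀ A : MvPolynomial (Fin 3) κ, aeval ![x, y] (tr x₂ A) =
      aeval ![y, x, algebraMap K E x₂] A := tr_aeval x₂ x y
  have hP0 : aeval ![y, x, algebraMap K E x₂] P = 0 := by
    rw [← htrA]
    exact (hker _).2 hQP
  have hdiv : ∀ A : MvPolynomial (Fin 3) κ, aeval ![y, x, algebraMap K E x₂] A = 0 ↔ P ∣ A :=
    h7.2 κ P hPi hPm E ![y, x, algebraMap K E x₂] hP0 (algInd hx₂ hx)
  haveI iC : CharP K p := charP_of_injective_algebraMap (algebraMap κ K).injective p
  have hsep : Algebra.IsSeparable K⟮x⟯ E := h1.1 K E p K⟮x⟯ hfin (lt_of_le_of_lt hrk hdp)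
  obtain ⟨δ, hδ⟩ := h1.2 K E x hx hsep
  have hs : Sit K E x δ := ⟨hx, hsep, hδ⟩
  have hn : ∀ n : ℕ, 0 < n → n ≤ dz P → (n : K) ≠ 0 := by
    intro n hn0 hnd h
    have h8 := Nat.le_of_dvd hn0 ((CharP.cast_eq_zero_iff K p n).1 h)
    omega
  -- the derivative of a polynomial
  have hder : ∀ A : MvPolynomial (Fin 3) κ, δ (aeval ![y, x, algebraMap K E x₂] A) =
      aeval ![y, x, algebraMap K E x₂] (pderiv 0 A) * δ y +
        aeval ![y, x, algebraMap K E x₂] (pderiv 1 A) := by
    intro A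
    have h8 := der_aeval (δ.restrictScalars κ) ![y, x, algebraMap K E x₂] A
    rw [Fin.sum_univ_three] at h8
    have h9 : δ (algebraMap K E x₂) = 0 := Derivation.map_algebraMap _ _
    have h10 : (δ.restrictScalars κ) (aeval ![y, x, algebraMap K E x₂] A) =
      aeval ![y, x, algebraMap K E x₂] (pderiv 0 A) * δ y +
        aeval ![y, x, algebraMap K E x₂] (pderiv 1 A) * δ x +
        aeval ![y, x, algebraMap K E x₂] (pderiv 2 A) * δ (algebraMap K E x₂) := h8
    rw [hδ, h9, mul_one, mul_zero, add_zero] at h10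
    exact h10
  set ev : MvPolynomial (Fin 3) κ →ₐ[κ] E := aeval ![y, x, algebraMap K E x₂] with hev
  have hD0 : ev (f.den 1) ≠ 0 := fun h => hden ((hdiv _).1 h)
  have hB0 : ev B ≠ 0 := fun h => hB ((hdiv _).1 h)
  have hw0 : ev (wX P f 1 1) ≠ 0 := fun h => hw ((hdiv _).1 h)
  have hδw : δ (ev (f.num 1) / ev (f.den 1)) ≠ 0 := by
    intro h
    apply hw0
    have h8 : δ (ev (f.num 1)) = δ (ev (f.num 1) / ev (f.den 1) * ev (f.den 1)) := by
      rw [div_mul_cancel₀ _ hD0]
    rw [Derivation.leibniz, h, smul_zero, add_zero, smul_eq_mul, div_mul_eq_mul_div,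
      eq_div_iff hD0, hder, hder] at h8
    have h9 := hder P
    rw [hP0, map_zero] at h9
    unfold wX Wd
    simp only [map_sub, map_mul]
    linear_combination (ev (pderiv 0 P)) * h8 +
      (ev (pderiv 0 (f.num 1)) * ev (f.den 1) - ev (f.num 1) * ev (pderiv 0 (f.den 1))) * h9
  obtain ⟨q₀, hq₀⟩ := count h2 h3 h4 hs hrk hn (ev (f.num 1) / ev (f.den 1))
    (ev B * ev (f.den 1)) hδw (mul_ne_zero hB0 hD0)
  refine ⟨q₀, fun s hs1 hqs => ?_⟩
  obtain ⟨v, hvx, hvb, hvh⟩ := hq₀ (p ^ s) (by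
    rw [Nat.cast_pow, CharP.cast_eq_zero, zero_pow (by omega)]) hqs
  have hvy : 0 ≤ v.ord y := by
    refine ord_nonneg_of_monic v ((ps (tr x₂ P)).map
      (Polynomial.aeval x : Polynomial K →ₐ[K] E).toRingHom) ((monic_ps_tr hPm x₂).map _)
      (fun i => ?_) ?_
    · rw [Polynomial.coeff_map]
      exact v.ord_aeval_nonneg hvx _
    · rw [← eval_ps, htrA]
      exact hP0
  obtain ⟨a, ha⟩ := resid h5 hvx hvy
  have hres : ∀ A : MvPolynomial (Fin 3) κ, (aeval ![a 1, a 0, x₂] A = 0 ↔ 0 < v.ord (ev A)) ∧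
      0 ≤ v.ord (ev A) := by
    intro A
    have h8 := ha (tr x₂ A)
    rw [tr_eval, htrA] at h8
    exact h8
  obtain ⟨L, iL, iκL, ξ, ι, hι, hLc, hLtop, hLtr⟩ := sub_field x₂ hx₂ halg ![a 1, a 0, x₂] rfl
  have hιA : ∀ A : MvPolynomial (Fin 3) κ, ι (aeval ξ A) = aeval ![a 1, a 0, x₂] A := by
    intro A
    rw [comp_aeval_apply]
    have h8 : (fun i => ι (ξ i)) = ![a 1, a 0, x₂] := funext hι
    rw [h8]
  have hιi : Function.Injective ι := ι.toRingHom.injective
  refine ⟨L, iL, iκL, ξ, hLc, hLtop, hLtr, ?_, ?_, ?_, ?_⟩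
  · apply hιi
    rw [map_zero, hιA, (hres P).1, hP0, AddValuation.map_zero]
    exact WithTop.coe_lt_top 0
  · intro h
    have h8 : aeval ![a 1, a 0, x₂] B = 0 := by rw [← hιA, h, map_zero]
    rw [(hres B).1] at h8
    rw [AddValuation.map_mul] at hvb
    exact absurd hvb (not_le.2 (lt_of_lt_of_le h8 (le_add_of_nonneg_right (hres _).2)))
  · intro h
    have h8 : aeval ![a 1, a 0, x₂] (f.den 1) = 0 := by rw [← hιA, h, map_zero]
    rw [(hres _).1] at h8
    rw [AddValuation.map_mul] at hvb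
    exact absurd hvb (not_le.2 (lt_of_lt_of_le h8 (le_add_of_nonneg_left (hres _).2)))
  · have h8 : aeval ![a 1, a 0, x₂] (X 1 ^ p ^ s * f.den 1 - f.num 1) = 0 := by
      rw [(hres _).1]
      have h9 : ev (X 1 ^ p ^ s * f.den 1 - f.num 1) =
          (x ^ p ^ s - ev (f.num 1) / ev (f.den 1)) * ev (f.den 1) := by
        rw [map_sub, map_mul, map_pow, sub_mul, div_mul_cancel₀ _ hD0, hev, aeval_X]
        rfl
      rw [h9, AddValuation.map_mul]
      exact lt_of_lt_of_le hvh (le_add_of_nonneg_right (hres _).2)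
    rw [← hιA, ← map_zero ι] at h8
    have h10 := hιi h8
    rw [map_sub, map_mul, map_pow, aeval_X] at h10
    exact sub_eq_zero.1 h10

end Pool.Agent.Lib.MP_16285c_agS.Hrx
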