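import Pool.Agent.Lib.MP_16285c_agS.Hrx.Spec

/-!
# The derivative of `g = ξ₂ ^ q - f₂(ξ)` (X7)
-/

set_option autoImplicit false

namespace Pool.Agent.Lib.MP_16285c_agS.Hrx

open MP7Z MvPolynomial
open scoped IntermediateField
open Pool.Agent.Lib.MP_16285c_ag (RM FrobPt)
open Pool.Agent.Lib.MP_16285c_agZ.Hru (Zn Pn Sit SDer SSepH SPrd SBd SLoc SPn SRes SFld)
open Pool.Agent.ZDO (Wd)
open Pool.Agent.Lib.MP_16285c_agS.Bez (sp StmtBert3 StmtFib3)

namespace CvDM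

section

variable {κ L : Type} [Field κ] [Field L] [Algebra κ L]

/-- The derivative of a value. -/
theorem der (δ : Derivation κ L L) (ξ : Fin 3 → L) (A : MvPolynomial (Fin 3) κ) :
    δ (aeval ξ A) = aeval ξ (pderiv 0 A) * δ (ξ 0) + aeval ξ (pderiv 1 A) * δ (ξ 1) +
      aeval ξ (pderiv 2 A) * δ (ξ 2) := by
  induction A using MvPolynomial.induction_on with
  | C a => simp [MvPolynomial.algHom_C]
  | add p q hp hq =>
    rw [map_add, map_add, hp, hq]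
    simp only [map_add]
    ring
  | mul_X p i hp =>
    rw [map_mul, aeval_X, Derivation.leibniz, hp]
    simp only [pderiv_mul, map_add, map_mul, aeval_X, smul_eq_mul]
    fin_cases i
    · simp only [Fin.zero_eta, pderiv_X_self, pderiv_X_of_ne (show (0 : Fin 3) ≠ 1 by decide),
        pderiv_X_of_ne (show (0 : Fin 3) ≠ 2 by decide), map_zero, map_one]
      ring
    · simp only [Fin.mk_one, pderiv_X_self, pderiv_X_of_ne (show (1 : Fin 3) ≠ 0 by decide),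
        pderiv_X_of_ne (show (1 : Fin 3) ≠ 2 by decide), map_zero, map_one]
      ring
    · simp only [Fin.reduceFinMk, pderiv_X_self, pderiv_X_of_ne (show (2 : Fin 3) ≠ 0 by decide),
        pderiv_X_of_ne (show (2 : Fin 3) ≠ 1 by decide), map_zero, map_one]
      ring

/-- The derivative of a coordinate of `f`, without denominators. -/
theorem quo (δ : Derivation κ L L) (ξ : Fin 3 → L) (P : MvPolynomial (Fin 3) κ) (f : RM κ 3)
    (hP : aeval ξ P = 0) (i : Fin 3) :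
    aeval ξ (pderiv 0 P) * (δ (aeval ξ (f.num i)) * aeval ξ (f.den i) -
      aeval ξ (f.num i) * δ (aeval ξ (f.den i))) =
      aeval ξ (wX P f i 1) * δ (ξ 1) + aeval ξ (wX P f i 2) * δ (ξ 2) := by
  have h0 : aeval ξ (pderiv 0 P) * δ (ξ 0) + aeval ξ (pderiv 1 P) * δ (ξ 1) +
      aeval ξ (pderiv 2 P) * δ (ξ 2) = 0 := by
    rw [← der δ ξ P, hP, map_zero]
  rw [der δ ξ (f.num i), der δ ξ (f.den i)]
  simp only [wX, Wd, map_sub, map_mul]
  linear_combination (aeval ξ (pderiv 0 (f.num i)) * aeval ξ (f.den i) -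
    aeval ξ (f.num i) * aeval ξ (pderiv 0 (f.den i))) * h0

/-- The derivative of a quotient. -/
theorem dquo (δ : Derivation κ L L) (N D : L) (hD : D ≠ 0) :
    D ^ 2 * δ (N / D) = δ N * D - N * δ D := by
  have h1 : δ N = δ (N / D) * D + (N / D) * δ D := by
    have h2 : N = N / D * D := by field_simp
    conv_lhs => rw [h2]
    rw [Derivation.leibniz, smul_eq_mul, smul_eq_mul]
    ring
  rw [h1]
  field_simp
  ring

theorem dpow (δ : Derivation κ L L) (u : L) (q : ℕ) (hq : (q : κ) = 0) : δ (u ^ q) = 0 := by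
  have h : (q : L) = 0 := by
    rw [← map_natCast (algebraMap κ L) q, hq, map_zero]
  rw [Derivation.leibniz_pow, ← Nat.cast_smul_eq_nsmul L, h, zero_smul]

end

end CvDM

open CvDM in
theorem tCvD (hPrd : SPrd) (hPn : SPn) (hMv : StmtPnMv) : StmtCvD := by
  intro κ _ _ P f
  refine ⟨(jX P f).totalDegree + (wX P f 1 1).totalDegree + (wX P f 1 2).totalDegree +
    (pderiv 0 P).totalDegree + 2 * (f.den 2).totalDegree, ?_⟩
  intro L _ _ _ ξ x δ q c hC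
  obtain ⟨hadd, hmul, hpow, hinv, hneg, hnn, -⟩ := hPn κ L
  have hZP := (hPrd κ L x δ hC.sit).1
  -- the equations
  have e1 := quo δ ξ P f hC.hP 1
  have e2 := quo δ ξ P f hC.hP 2
  have hn1 : aeval ξ (f.num 1) = ξ 1 ^ q * aeval ξ (f.den 1) := hC.h1.symm
  have e1' : aeval ξ (wX P f 1 1) * δ (ξ 1) + aeval ξ (wX P f 1 2) * δ (ξ 2) = 0 := by
    rw [← e1, hn1, Derivation.leibniz, dpow δ (ξ 1) q hC.q0, smul_eq_mul, smul_eq_mul]
    ring
  have hg : δ (ξ 2 ^ q - fv f ξ 2) = -δ (aeval ξ (f.num 2) / aeval ξ (f.den 2)) := by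
    rw [map_sub, dpow δ (ξ 2) q hC.q0, zero_sub]
    rfl
  have hD2 := hC.hden 2
  have e2' : aeval ξ (pderiv 0 P) * aeval ξ (f.den 2) ^ 2 * δ (ξ 2 ^ q - fv f ξ 2) =
      -(aeval ξ (wX P f 2 1) * δ (ξ 1) + aeval ξ (wX P f 2 2) * δ (ξ 2)) := by
    rw [← e2, hg, ← dquo δ (aeval ξ (f.num 2)) (aeval ξ (f.den 2)) hD2]
    ring
  have hJ : aeval ξ (jX P f) = aeval ξ (wX P f 1 1) * aeval ξ (wX P f 2 2) -
      aeval ξ (wX P f 1 2) * aeval ξ (wX P f 2 1) := by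
    simp only [jX, map_sub, map_mul]
  have a1 : aeval ξ (wX P f 1 2) * (aeval ξ (pderiv 0 P) * aeval ξ (f.den 2) ^ 2 *
      δ (ξ 2 ^ q - fv f ξ 2)) = aeval ξ (jX P f) * δ (ξ 1) := by
    rw [e2', hJ]
    linear_combination (-aeval ξ (wX P f 2 2)) * e1'
  have a2 : aeval ξ (wX P f 1 1) * (aeval ξ (pderiv 0 P) * aeval ξ (f.den 2) ^ 2 *
      δ (ξ 2 ^ q - fv f ξ 2)) = -aeval ξ (jX P f) * δ (ξ 2) := by
    rw [e2', hJ]
    linear_combination (-aeval ξ (wX P f 2 1)) * e1'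
  have hS : ∀ A : MvPolynomial (Fin 3) κ, Pn κ (aeval ξ A) ≤
      A.totalDegree * (Pn κ (ξ 0) + Pn κ (ξ 1) + Pn κ (ξ 2)) := by
    intro A
    have h := (hMv κ L 3 ξ A).2
    rwa [Fin.sum_univ_three] at h
  have hSn : 0 ≤ Pn κ (ξ 0) + Pn κ (ξ 1) + Pn κ (ξ 2) :=
    add_nonneg (add_nonneg (hnn _) (hnn _)) (hnn _)
  -- the general estimate
  have key : ∀ W A : MvPolynomial (Fin 3) κ, aeval ξ A ≠ 0 →
      aeval ξ W * (aeval ξ (pderiv 0 P) * aeval ξ (f.den 2) ^ 2 * δ (ξ 2 ^ q - fv f ξ 2)) =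
        aeval ξ A → δ (ξ 2 ^ q - fv f ξ 2) ≠ 0 ∧
      Pn κ (δ (ξ 2 ^ q - fv f ξ 2)) ≤ ((A.totalDegree + W.totalDegree +
        (pderiv 0 P).totalDegree + 2 * (f.den 2).totalDegree : ℕ) : ℤ) *
          (Pn κ (ξ 0) + Pn κ (ξ 1) + Pn κ (ξ 2)) := by
    intro W A hA h
    have hW : aeval ξ W ≠ 0 := by
      intro h0
      rw [h0, zero_mul] at h
      exact hA h.symm
    have hne : δ (ξ 2 ^ q - fv f ξ 2) ≠ 0 := by
      intro h0
      rw [h0, mul_zero, mul_zero] at h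
      exact hA h.symm
    refine ⟨hne, ?_⟩
    have hz := hC.hz
    have h1 : δ (ξ 2 ^ q - fv f ξ 2) = aeval ξ A * ((aeval ξ W)⁻¹ *
        ((aeval ξ (pderiv 0 P))⁻¹ * (aeval ξ (f.den 2) ^ 2)⁻¹)) := by
      rw [← h]
      field_simp
    have b1 := hmul (aeval ξ A) ((aeval ξ W)⁻¹ *
        ((aeval ξ (pderiv 0 P))⁻¹ * (aeval ξ (f.den 2) ^ 2)⁻¹))
    have b2 := hmul ((aeval ξ W)⁻¹) ((aeval ξ (pderiv 0 P))⁻¹ * (aeval ξ (f.den 2) ^ 2)⁻¹)
    have b3 := hmul ((aeval ξ (pderiv 0 P))⁻¹) ((aeval ξ (f.den 2) ^ 2)⁻¹)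
    rw [hinv, hZP] at b2
    rw [hinv, hZP, hinv, hZP, hpow] at b3
    have c1 := hS A
    have c2 := hS W
    have c3 := hS (pderiv 0 P)
    have c4 := hS (f.den 2)
    rw [h1]
    push_cast at b3 ⊢
    nlinarith [c1, c2, c3, c4, b1, b2, b3]
  rcases hC.cas with hx | ⟨hx, _⟩
  · have hd : δ (ξ 1) = 1 := by
      rw [← hx]
      exact hC.sit.one
    rw [hd, mul_one] at a1
    obtain ⟨k1, k2⟩ := key (wX P f 1 2) (jX P f) hC.hJ a1
    refine ⟨k1, k2.trans ?_⟩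
    refine mul_le_mul_of_nonneg_right ?_ hSn
    push_cast
    linarith [Int.natCast_nonneg (wX P f 1 1).totalDegree]
  · have hd : δ (ξ 2) = 1 := by
      rw [← hx]
      exact hC.sit.one
    rw [hd, mul_one] at a2
    have a3 : aeval ξ (wX P f 1 1) * (aeval ξ (pderiv 0 P) * aeval ξ (f.den 2) ^ 2 *
        δ (ξ 2 ^ q - fv f ξ 2)) = aeval ξ (-(jX P f)) := by
      rw [a2, map_neg]
    obtain ⟨k1, k2⟩ := key (wX P f 1 1) (-(jX P f)) (by rw [map_neg]; exact neg_ne_zero.mpr hC.hJ) a3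
    refine ⟨k1, k2.trans ?_⟩
    rw [totalDegree_neg]
    refine mul_le_mul_of_nonneg_right ?_ hSn
    push_cast
    linarith [Int.natCast_nonneg (wX P f 1 2).totalDegree]

end Pool.Agent.Lib.MP_16285c_agS.Hrx
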