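import Pool.Agent.Lib.MP_16285c_agS.Hrx.Spec

/-!
# Heights on the curve (X8)
-/

set_option autoImplicit false

namespace Pool.Agent.Lib.MP_16285c_agS.Hrx

open MP7Z MvPolynomial
open scoped IntermediateField
open Pool.Agent.Lib.MP_16285c_ag (RM FrobPt)
open Pool.Agent.Lib.MP_16285c_agZ.Hru (Zn Pn Sit SDer SSepH SPrd SBd SLoc SPn SRes SFld)

namespace CvHM

section place

variable {k E : Type} [Field k] [Field E] [Algebra k E]

private theorem oz_zero (v : Place k E) : v.oz (0 : E) = 0 := by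
  unfold Place.oz
  simp

variable [IsAlgClosed k]

private theorem coe_oz_le (v : Place k E) (g : E) : ((v.oz g : ℤ) : WithTop ℤ) ≤ v.ord g := by
  rcases eq_or_ne g 0 with rfl | hg
  · simp
  · rw [v.ord_eq hg]

omit [IsAlgClosed k] in
private theorem pl_nonneg (v : Place k E) (g : E) : 0 ≤ pl v g := le_max_right _ _

omit [IsAlgClosed k] in
private theorem neg_pl_le (v : Place k E) (g : E) : -(pl v g) ≤ v.oz g := by
  have h : -(v.oz g) ≤ pl v g := le_max_left _ _
  omega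

private theorem neg_pl_le_ord (v : Place k E) (g : E) : ((-(pl v g) : ℤ) : WithTop ℤ) ≤ v.ord g :=
  (WithTop.coe_le_coe.2 (neg_pl_le v g)).trans (coe_oz_le v g)

/-- Lower bound for the order of a power. -/
private theorem ord_pow_ge (v : Place k E) (g : E) (j : ℕ) :
    ((-((j : ℤ) * pl v g) : ℤ) : WithTop ℤ) ≤ v.ord (g ^ j) := by
  induction j with
  | zero => simp
  | succ j ih =>
    rw [pow_succ, AddValuation.map_mul]
    have h1 : ((-(((j + 1 : ℕ) : ℤ) * pl v g) : ℤ) : WithTop ℤ) =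
        ((-((j : ℤ) * pl v g) : ℤ) : WithTop ℤ) + ((-(pl v g) : ℤ) : WithTop ℤ) := by
      rw [← WithTop.coe_add]
      congr 1
      push_cast
      ring
    rw [h1]
    exact add_le_add ih (neg_pl_le_ord v g)

/-- The pole of a root of a monic polynomial. -/
private theorem root_pole (v : Place k E) (n : ℕ) (c : ℕ → E) (y : E) (M : ℤ) (hM : 0 ≤ M)
    (hc : ∀ j, pl v (c j) ≤ M) (hy : y ^ n = -∑ j ∈ Finset.range n, c j * y ^ j) : pl v y ≤ M := by
  by_contra hcon
  push Not at hcon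
  set a := pl v y with ha
  have ha0 : 0 < a := by omega
  have hoz : v.oz y = -a := by
    have h1 : a = max (-(v.oz y)) 0 := ha
    omega
  have hy0 : y ≠ 0 := by
    rintro rfl
    rw [oz_zero] at hoz
    omega
  have h1 : v.ord (y ^ n) = (((n : ℤ) * (-a) : ℤ) : WithTop ℤ) := by
    rw [v.ord_eq_pord (pow_ne_zero n hy0), v.pord_pow hy0]
    have : v.pord y = -a := hoz
    rw [this]
  have h2 : ((-(M + ((n : ℤ) - 1) * a) : ℤ) : WithTop ℤ) ≤ v.ord (y ^ n) := by
    rw [hy, AddValuation.map_neg]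
    apply AddValuation.map_le_sum
    intro j hj
    have hj' : (j : ℤ) ≤ (n : ℤ) - 1 := by
      have := Finset.mem_range.1 hj
      omega
    rw [AddValuation.map_mul]
    have h3 : ((-(M + ((n : ℤ) - 1) * a) : ℤ) : WithTop ℤ) ≤
        ((-(pl v (c j)) : ℤ) : WithTop ℤ) + ((-((j : ℤ) * a) : ℤ) : WithTop ℤ) := by
      rw [← WithTop.coe_add]
      apply WithTop.coe_le_coe.2
      have h4 := hc j
      nlinarith
    exact h3.trans (add_le_add (neg_pl_le_ord v (c j)) (ord_pow_ge v y j))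
  rw [h1] at h2
  have h3 := WithTop.coe_le_coe.1 h2
  nlinarith

variable [IsCurveField k E]

private theorem supp_pos (h : E) : (Function.support fun v : Place k E => pl v h).Finite := by
  rcases eq_or_ne h 0 with rfl | h0
  · have : (Function.support fun v : Place k E => pl v (0 : E)) = ∅ := by
      ext v; simp [pl, oz_zero]
    rw [this]; exact Set.finite_empty
  · refine (finite_ord_ne h0).subset ?_
    intro v hv
    rw [Function.mem_support] at hv
    intro h1
    apply hv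
    have h2 : v.oz h = 0 := by
      have h3 := v.ord_eq h0
      rw [h1] at h3
      exact (WithTop.coe_inj.1 h3.symm)
    unfold pl
    rw [h2]; simp

/-- Sum of the local inequalities. -/
private theorem sum_le (g h₁ h₂ : E) (m : ℤ) (hle : ∀ v : Place k E, pl v g ≤ m * (pl v h₁ + pl v h₂)) :
    Pn k g ≤ m * (Pn k h₁ + Pn k h₂) := by
  have h1 : m * (Pn k h₁ + Pn k h₂) = ∑ᶠ v : Place k E, m * (pl v h₁ + pl v h₂) := by
    unfold Pn
    rw [← mul_finsum]
    congr 1
    exact (finsum_add_distrib (supp_pos h₁) (supp_pos h₂)).symm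
  rw [h1]
  refine finsum_le_finsum' (supp_pos g) ?_ hle
  refine ((supp_pos h₁).union (supp_pos h₂)).subset ?_
  intro v hv
  rw [Function.mem_support] at hv
  rw [Set.mem_union, Function.mem_support, Function.mem_support]
  by_contra hcon
  push Not at hcon
  apply hv
  rw [hcon.1, hcon.2]
  simp

end place

/-- The value of a polynomial in terms of its coefficients with respect to the first variable. -/
private theorem aeval_eq {κ L : Type} [Field κ] [Field L] [Algebra κ L] (P : MvPolynomial (Fin 3) κ) (ξ : Fin 3 → L) :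
    aeval ξ P = ∑ j ∈ Finset.range ((finSuccEquiv κ 2 P).natDegree + 1),
      aeval (fun i : Fin 2 => ξ i.succ) ((finSuccEquiv κ 2 P).coeff j) * ξ 0 ^ j := by
  have h1 : aeval ξ P = Polynomial.eval₂ (aeval (fun i : Fin 2 => ξ i.succ) : MvPolynomial (Fin 2) κ →ₐ[κ] L).toRingHom
      (ξ 0) (finSuccEquiv κ 2 P) := by
    have h2 : (aeval ξ : MvPolynomial (Fin 3) κ →ₐ[κ] L).toRingHom =
        (Polynomial.eval₂RingHom (aeval (fun i : Fin 2 => ξ i.succ) : MvPolynomial (Fin 2) κ →ₐ[κ] L).toRingHom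
          (ξ 0)).comp (finSuccEquiv κ 2).toRingEquiv.toRingHom := by
      apply MvPolynomial.ringHom_ext
      · intro r
        simp [finSuccEquiv_apply]
      · intro i
        refine Fin.cases ?_ (fun i => ?_) i
        · simp [finSuccEquiv_X_zero]
        · simp [finSuccEquiv_X_succ]
    exact RingHom.congr_fun h2 P
  rw [h1, Polynomial.eval₂_eq_sum_range]
  rfl

/-- The pole of `ξ 0`. -/
private theorem pole_zero (hPn : StmtPnMv) {κ L : Type} [Field κ] [IsAlgClosed κ] [Field L] [Algebra κ L]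
    [IsCurveField κ L] (P : MvPolynomial (Fin 3) κ) (hmon : Mon P) (ξ : Fin 3 → L)
    (hP : aeval ξ P = 0) (v : Place κ L) :
    pl v (ξ 0) ≤ P.totalDegree * (pl v (ξ 1) + pl v (ξ 2)) := by
  set F := finSuccEquiv κ 2 P with hF
  set t : Fin 2 → L := fun i => ξ i.succ with ht
  have ht2 : ∑ i, pl v (t i) = pl v (ξ 1) + pl v (ξ 2) := by
    rw [Fin.sum_univ_two]
    rfl
  have hS : 0 ≤ pl v (ξ 1) + pl v (ξ 2) := add_nonneg (pl_nonneg v _) (pl_nonneg v _)
  refine root_pole v F.natDegree (fun j => aeval t (F.coeff j)) (ξ 0) _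
    (mul_nonneg (Int.natCast_nonneg _) hS) ?_ ?_
  · intro j
    have h1 := (hPn κ L 2 t (F.coeff j)).1 v
    rw [ht2] at h1
    refine h1.trans (mul_le_mul_of_nonneg_right ?_ hS)
    rcases eq_or_ne (F.coeff j) 0 with h0 | h0
    · rw [h0, totalDegree_zero]
      exact_mod_cast Nat.zero_le _
    · have h2 : (F.coeff j).totalDegree + j ≤ P.totalDegree := totalDegree_coeff_finSuccEquiv_add_le P j h0
      have h3 : (F.coeff j).totalDegree ≤ P.totalDegree := by omega
      exact_mod_cast h3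
  · have h1 := aeval_eq P ξ
    rw [hP, Finset.sum_range_succ] at h1
    have h2 : F.coeff F.natDegree = 1 := hmon
    rw [← hF, h2, map_one, one_mul] at h1
    exact eq_neg_of_add_eq_zero_right h1.symm

end CvHM

open CvHM

theorem tCvH : SPrd → SPn → StmtPnMv → StmtCvH := by
  intro hPrd hSPn hPn κ _ _ P f _ hmon
  set m : ℕ := P.totalDegree with hm
  set C₁ : ℕ := ((f.num 1).totalDegree + (f.den 1).totalDegree) * (1 + m) with hC₁
  refine ⟨2 * C₁ + 2 * m + 1, ?_⟩
  intro L _ _ _ ξ x δ q c hC hq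
  obtain ⟨-, hmul, hpow, hinv, -, hnn, -⟩ := hSPn κ L
  obtain ⟨hZP, hPx, -, -⟩ := hPrd κ L x δ hC.sit
  have hloc : ∀ v : Place κ L, pl v (ξ 0) ≤ P.totalDegree * (pl v (ξ 1) + pl v (ξ 2)) :=
    pole_zero hPn P hmon ξ hC.hP
  have h0 : Pn κ (ξ 0) ≤ (m : ℤ) * (Pn κ (ξ 1) + Pn κ (ξ 2)) := sum_le _ _ _ _ hloc
  have ha : 0 ≤ Pn κ (ξ 1) := hnn _
  have hb : 0 ≤ Pn κ (ξ 2) := hnn _
  -- the equation for `ξ 1`
  have hD := hC.hden 1
  have heq : ξ 1 ^ q = aeval ξ (f.num 1) * (aeval ξ (f.den 1))⁻¹ := by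
    rw [← hC.h1, mul_assoc, mul_inv_cancel₀ hD, mul_one]
  have hs3 : ∑ i, Pn κ (ξ i) = Pn κ (ξ 0) + Pn κ (ξ 1) + Pn κ (ξ 2) := Fin.sum_univ_three _
  have hN := (hPn κ L 3 ξ (f.num 1)).2
  have hDn := (hPn κ L 3 ξ (f.den 1)).2
  rw [hs3] at hN hDn
  have hq1 : (q : ℤ) * Pn κ (ξ 1) ≤ (C₁ : ℤ) * (Pn κ (ξ 1) + Pn κ (ξ 2)) := by
    rw [← hpow, heq]
    refine (hmul _ _).trans ?_
    rw [hinv, hZP]
    refine (add_le_add hN hDn).trans ?_
    rw [← add_mul, hC₁]
    push_cast
    rw [mul_assoc]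
    refine mul_le_mul_of_nonneg_left ?_ (by positivity)
    linarith
  set a := Pn κ (ξ 1) with ha'
  set b := Pn κ (ξ 2) with hb'
  have hqC : (2 * (C₁ : ℤ) + 2 * m + 1) ≤ q := by exact_mod_cast hq
  have hC1 : (0 : ℤ) ≤ C₁ := Int.natCast_nonneg _
  have hm0 : (0 : ℤ) ≤ m := Int.natCast_nonneg _
  have hab : a ≤ b := by
    by_contra hcon
    push Not at hcon
    have h1 : (2 * (C₁ : ℤ) + 2 * m + 1) * a ≤ q * a := mul_le_mul_of_nonneg_right hqC ha
    have h2 : (C₁ : ℤ) * b ≤ C₁ * a := mul_le_mul_of_nonneg_left hcon.le hC1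
    have h3 : 0 ≤ (m : ℤ) * a := mul_nonneg hm0 ha
    have h4 : 0 < a := lt_of_le_of_lt hb hcon
    nlinarith
  have hb1 : 1 ≤ b := by
    have hx1 : 1 ≤ Pn κ x := by
      have := (finite_adjoin hC.sit.tr : Module.Finite κ⟮x⟯ L)
      rw [hPx]
      exact_mod_cast Module.finrank_pos (R := κ⟮x⟯) (M := L)
    rcases hC.cas with h | h
    · rw [h] at hx1
      exact hx1.trans hab
    · rw [h.1] at hx1
      exact hx1
  refine ⟨hloc, hb1, ?_, hab, ?_⟩
  · have h1 : (m : ℤ) * (a + b) ≤ m * (2 * b) := mul_le_mul_of_nonneg_left (by linarith) hm0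
    have h2 : 0 ≤ (C₁ : ℤ) * b := mul_nonneg hC1 hb
    push_cast
    linarith
  · have h1 : (C₁ : ℤ) * (a + b) ≤ C₁ * (2 * b) := mul_le_mul_of_nonneg_left (by linarith) hC1
    have h2 : 0 ≤ (m : ℤ) * b := mul_nonneg hm0 hb
    push_cast
    linarith

end Pool.Agent.Lib.MP_16285c_agS.Hrx
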