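import Pool.Agent.Lib.MP_16285c_agS.Hrx.Spec

set_option autoImplicit false

namespace Pool.Agent.Lib.MP_16285c_agS.Hrx

open MP7Z
open scoped IntermediateField
open Pool.Agent.Lib.MP_16285c_agZ.Hru (Sit SPrd SLoc)

namespace CvLM

private theorem cast_ne {κ : Type} [Field κ] {c : ℕ} (hchar : ∀ n : ℕ, 0 < n → n ≤ c → (n : κ) ≠ 0)
    {e : ℤ} (h1 : 0 < e) (h2 : e ≤ c) : ((e : ℤ) : κ) ≠ 0 := by
  obtain ⟨n, rfl⟩ := Int.eq_ofNat_of_zero_le h1.le
  have := hchar n (by exact_mod_cast h1) (by exact_mod_cast h2)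
  simpa using this

end CvLM

open CvLM in
theorem tCvL : SPrd → SLoc → StmtCvL := by
  intro hPrd hLoc κ L _ _ _ _ _ x δ c hS hc hchar v G hG
  obtain ⟨-, -, hP3, hP4⟩ := hPrd κ L x δ hS
  have hcz : ((Module.finrank κ⟮x⟯ L : ℕ) : ℤ) ≤ (c : ℤ) := by exact_mod_cast hc
  have hxc : ∀ a : κ, x - algebraMap κ L a ≠ 0 := by
    intro a h
    apply hS.tr
    rw [sub_eq_zero.mp h]
    exact isAlgebraic_algebraMap a
  have hx0 : x ≠ 0 := by
    have := hxc 0
    simpa using this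
  by_cases hx : 0 ≤ v.ord x
  · obtain ⟨a, ha⟩ := exists_const v hx
    have h1 : 0 < v.oz (x - algebraMap κ L a) := (v.lt_pord_iff (hxc a) 0).2 ha
    have h2 := hP3 v a
    have h3 : δ (x - algebraMap κ L a) = 1 := by
      rw [map_sub, hS.one, Derivation.map_algebraMap, sub_zero]
    have h4 := hLoc κ L x δ hS v (x - algebraMap κ L a) (cast_ne hchar h1 (h2.trans hcz))
      (by rw [h3]; exact one_ne_zero) G hG
    have h5 : v.oz (δ (x - algebraMap κ L a)) = 0 := by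
      rw [h3]
      exact v.pord_one
    linarith
  · have h1 : v.oz x < 0 := by
      by_contra h
      exact hx ((v.le_pord_iff hx0 0).1 (not_lt.mp h))
    have h2 := hP4 v
    have h3 : v.oz x⁻¹ = - v.oz x := v.pord_inv hx0
    have h4 : δ x⁻¹ = -(x⁻¹ * x⁻¹) := by
      rw [Derivation.leibniz_inv, hS.one, smul_eq_mul, mul_one, sq]
    have h5 : v.oz (δ x⁻¹) = - v.oz x + - v.oz x := by
      rw [h4]
      have h6 : v.oz (-(x⁻¹ * x⁻¹)) = v.oz (x⁻¹ * x⁻¹) := by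
        change (v.ord (-(x⁻¹ * x⁻¹))).untopD 0 = (v.ord (x⁻¹ * x⁻¹)).untopD 0
        rw [AddValuation.map_neg]
      rw [h6]
      have h7 : v.oz (x⁻¹ * x⁻¹) = v.oz x⁻¹ + v.oz x⁻¹ :=
        v.pord_mul (inv_ne_zero hx0) (inv_ne_zero hx0)
      rw [h7, h3]
    have h6 : δ x⁻¹ ≠ 0 := by
      rw [h4]
      exact neg_ne_zero.mpr (mul_ne_zero (inv_ne_zero hx0) (inv_ne_zero hx0))
    have h7 := hLoc κ L x δ hS v x⁻¹ (cast_ne hchar (by rw [h3]; linarith)
      (by rw [h3]; exact h2.trans hcz)) h6 G hG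
    rw [h5, h3] at h7
    have h8 : (0 : ℤ) ≤ (c : ℤ) := Int.natCast_nonneg c
    linarith

end Pool.Agent.Lib.MP_16285c_agS.Hrx
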