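import Pool.Agent.Lib.MP_16285c_agS.Hrx.Spec
import Pool.Agent.Lib.MP_16285c_agZ.Hru.Fld

/-!
# (X4) The degree of the curve over the line
-/

set_option autoImplicit false

namespace Pool.Agent.Lib.MP_16285c_agS.Hrx

open MP7Z MvPolynomial
open scoped IntermediateField
open Pool.Agent.Lib.MP_16285c_ag (RM FrobPt)
open Pool.Agent.ZDO (Wd)

namespace DegM

/-- The derivation `D A = P_z A_1 - A_z P_1` in a multiple of `P`. -/
theorem dvd_wX {κ : Type} [Field κ] (P : MvPolynomial (Fin 3) κ) (f : RM κ 3) (q : ℕ)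
    (hq : (q : κ) = 0) (h : P ∣ X 1 ^ q * f.den 1 - f.num 1) : P ∣ wX P f 1 1 := by
  obtain ⟨U, hU⟩ := h
  have hX : ∀ j : Fin 3, pderiv j (X 1 ^ q : MvPolynomial (Fin 3) κ) = 0 := by
    intro j
    rw [Derivation.leibniz_pow]
    have h1 : ((q : ℕ) : MvPolynomial (Fin 3) κ) = 0 := by
      have h2 := congrArg (C : κ → MvPolynomial (Fin 3) κ) hq
      rwa [map_natCast, map_zero] at h2
    rw [nsmul_eq_mul, h1, zero_mul]
  have hG : ∀ j : Fin 3, pderiv j (X 1 ^ q * f.den 1 - f.num 1) =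
      X 1 ^ q * pderiv j (f.den 1) - pderiv j (f.num 1) := by
    intro j
    rw [map_sub, Derivation.leibniz, hX j, smul_zero, add_zero, smul_eq_mul]
  have hPU : ∀ j : Fin 3, pderiv j (P * U) = P * pderiv j U + U * pderiv j P := by
    intro j
    rw [Derivation.leibniz, smul_eq_mul, smul_eq_mul]
  have e0 := (hG 0).symm.trans ((congrArg (pderiv 0) hU).trans (hPU 0))
  have e1 := (hG 1).symm.trans ((congrArg (pderiv 1) hU).trans (hPU 1))
  refine ⟨U * (pderiv 0 P * pderiv 1 (f.den 1) - pderiv 0 (f.den 1) * pderiv 1 P) -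
    f.den 1 * (pderiv 0 P * pderiv 1 U - pderiv 0 U * pderiv 1 P), ?_⟩
  unfold wX Wd
  linear_combination (pderiv 0 P * pderiv 1 (f.den 1) - pderiv 0 (f.den 1) * pderiv 1 P) * hU -
    f.den 1 * pderiv 0 P * e1 + f.den 1 * pderiv 1 P * e0

/-- A simple extension generated by a root of a polynomial. -/
theorem simple {K E : Type} [Field K] [Field E] [Algebra K E] (a : E) (Q : Polynomial K)
    (hQ : Q ≠ 0) (ha : Polynomial.aeval a Q = 0) :
    Module.Finite K K⟮a⟯ ∧ Module.finrank K K⟮a⟯ ≤ Q.natDegree := by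
  have hint : IsIntegral K a := (show IsAlgebraic K a from ⟨Q, hQ, ha⟩).isIntegral
  refine ⟨IntermediateField.adjoin.finiteDimensional hint, ?_⟩
  rw [IntermediateField.adjoin.finrank hint]
  exact Polynomial.natDegree_le_of_dvd (minpoly.dvd K a ha) hQ

theorem simple_top {K E : Type} [Field K] [Field E] [Algebra K E] (a : E) (Q : Polynomial K)
    (hQ : Q ≠ 0) (ha : Polynomial.aeval a Q = 0) (ht : K⟮a⟯ = ⊤) :
    Module.Finite K E ∧ Module.finrank K E ≤ Q.natDegree := by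
  obtain ⟨h1, h2⟩ := simple a Q hQ ha
  rw [ht] at h1 h2
  rw [IntermediateField.finrank_top'] at h2
  exact ⟨Module.Finite.equiv (IntermediateField.topEquiv (F := K) (E := E)).toLinearEquiv, h2⟩

/-- The polynomial of `ξ 0` over a field containing `ξ 1`, `ξ 2`. -/
theorem poly0 {κ K L : Type} [Field κ] [Field K] [Field L] [Algebra κ K] [Algebra K L]
    [Algebra κ L] [IsScalarTower κ K L] (P : MvPolynomial (Fin 3) κ) (hP : Mon P) (ξ : Fin 3 → L)
    (h0 : aeval ξ P = 0) (u v : K) (hu : algebraMap K L u = ξ 1) (hv : algebraMap K L v = ξ 2) :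
    ∃ Q : Polynomial K, Q ≠ 0 ∧ Q.natDegree ≤ P.totalDegree ∧ Polynomial.aeval (ξ 0) Q = 0 := by
  obtain ⟨φ, hφ⟩ : ∃ φ : MvPolynomial (Fin 2) κ →ₐ[κ] K, φ = aeval ![u, v] := ⟨_, rfl⟩
  refine ⟨(finSuccEquiv κ 2 P).map (φ : MvPolynomial (Fin 2) κ →+* K), ?_, ?_, ?_⟩
  · exact (Polynomial.Monic.map _ hP).ne_zero
  · refine Polynomial.natDegree_map_le.trans ?_
    rw [natDegree_finSuccEquiv]
    exact degreeOf_le_totalDegree _ _
  · rw [Polynomial.aeval_def, Polynomial.eval₂_map]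
    have key : ∀ A : MvPolynomial (Fin 3) κ,
        Polynomial.eval₂ ((algebraMap K L).comp (φ : MvPolynomial (Fin 2) κ →+* K)) (ξ 0)
          (finSuccEquiv κ 2 A) = aeval ξ A := by
      intro A
      induction A using MvPolynomial.induction_on with
      | C c =>
        rw [aeval_C, ← MvPolynomial.algebraMap_eq, (finSuccEquiv κ 2).commutes,
          Polynomial.algebraMap_apply, Polynomial.eval₂_C, RingHom.comp_apply,
          RingHom.coe_coe, φ.commutes, ← IsScalarTower.algebraMap_apply]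
      | add p q hp hq => rw [map_add, Polynomial.eval₂_add, hp, hq, map_add]
      | mul_X p i hp =>
        rw [map_mul, Polynomial.eval₂_mul, hp, map_mul, aeval_X]
        congr 1
        refine Fin.cases ?_ (fun j => ?_) i
        · rw [finSuccEquiv_X_zero, Polynomial.eval₂_X]
        · rw [finSuccEquiv_X_succ, Polynomial.eval₂_C, RingHom.comp_apply, RingHom.coe_coe, hφ,
            aeval_X]
          fin_cases j
          · exact hu
          · exact hv
    rw [key, h0]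

/-- A field containing `κ` and all `ξ i` is everything. -/
theorem eq_top {κ K L : Type} [Field κ] [Field K] [Field L] [Algebra κ K] [Algebra K L]
    [Algebra κ L] [IsScalarTower κ K L] (ξ : Fin 3 → L)
    (ht : IntermediateField.adjoin κ (Set.range ξ) = ⊤) (T : IntermediateField K L)
    (hT : ∀ i, ξ i ∈ T) : T = ⊤ := by
  have h1 : IntermediateField.adjoin κ (Set.range ξ) ≤ T.restrictScalars κ := by
    rw [IntermediateField.adjoin_le_iff]
    rintro _ ⟨i, rfl⟩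
    exact hT i
  rw [ht] at h1
  rw [eq_top_iff]
  intro x _
  exact h1 (IntermediateField.mem_top (F := κ) (x := x))

end DegM

open DegM in
/-- **(X4)** -/
theorem tDeg : StmtElim → StmtDeg := by
  intro hE κ _ _ P f d hP hM hPd hnd hdd hw L _ _ ξ q hq ht htr h0 h1
  have hEa := hE.1
  constructor
  · intro htr1
    obtain ⟨G, hG⟩ : ∃ G : MvPolynomial (Fin 3) κ, G = X 1 ^ q * f.den 1 - f.num 1 := ⟨_, rfl⟩
    have hPG : ¬ P ∣ G := by
      rw [hG]
      exact fun h => hw (dvd_wX P f q hq h)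
    have hdeg : ∀ j : Fin 3, j ≠ 1 → G.degreeOf j ≤ d := by
      intro j hj
      rw [hG]
      refine (degreeOf_sub_le _ _ _).trans (max_le ?_ ((degreeOf_le_totalDegree _ _).trans hnd))
      refine (degreeOf_mul_le _ _ _).trans ?_
      have e1 : (X 1 ^ q : MvPolynomial (Fin 3) κ).degreeOf j = 0 := by
        refine Nat.le_zero.1 ((degreeOf_pow_le _ _ _).trans ?_)
        rw [degreeOf_X_of_ne hj, mul_zero]
      rw [e1, zero_add]
      exact (degreeOf_le_totalDegree _ _).trans hdd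
    obtain ⟨R, hR0, hRm, hRd⟩ := hEa κ P G d hP hM hPd hPG (hdeg 2 (by decide)) (hdeg 0 (by decide))
    have hR : aeval ![ξ 1, ξ 2] R = 0 := by
      obtain ⟨a, b, hab⟩ := Ideal.mem_span_pair.1 hRm
      have h2 := congrArg (aeval ξ) hab
      rw [map_add, map_mul, map_mul, h0, mul_zero, zero_add, hG, map_sub, map_mul, map_pow, aeval_X,
        h1, sub_self, mul_zero, aeval_rename] at h2
      have h3 : ξ ∘ Fin.succ = ![ξ 1, ξ 2] := by
        funext i
        fin_cases i <;> rfl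
      rw [← h3]
      exact h2.symm
    -- the field of `ξ 1`
    obtain ⟨u, hu⟩ : ∃ u : κ⟮ξ 1⟯, algebraMap κ⟮ξ 1⟯ L u = ξ 1 :=
      ⟨IntermediateField.AdjoinSimple.gen κ (ξ 1), IntermediateField.AdjoinSimple.algebraMap_gen κ (ξ 1)⟩
    have hutr : Transcendental κ u := by
      intro hu2
      apply htr1
      rw [← hu]
      exact hu2.algebraMap
    obtain ⟨Q, hQ0, hQd, hQ⟩ := Pool.Agent.Lib.MP_16285c_agZ.Hru.exists_poly u hutr R hR0
    have hQ2 : Polynomial.aeval (ξ 2) Q = 0 := by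
      rw [hQ L (ξ 2), hu, hR]
    obtain ⟨hf1, hd1⟩ := simple (ξ 2) Q hQ0 hQ2
    obtain ⟨K2, hK2⟩ : ∃ K2 : IntermediateField κ⟮ξ 1⟯ L, K2 = κ⟮ξ 1⟯⟮ξ 2⟯ := ⟨_, rfl⟩
    rw [← hK2] at hf1 hd1
    have hm2 : ξ 2 ∈ K2 := by
      rw [hK2]
      exact IntermediateField.mem_adjoin_simple_self _ _
    have hm1 : ξ 1 ∈ K2 := by
      have h3 := K2.algebraMap_mem u
      rw [hu] at h3
      exact h3
    have : IsScalarTower κ K2 L := IsScalarTower.of_algebraMap_eq fun _ => rfl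
    obtain ⟨Q', hQ'0, hQ'd, hQ'⟩ := poly0 (κ := κ) (K := K2) P hM ξ h0 ⟨ξ 1, hm1⟩ ⟨ξ 2, hm2⟩ rfl rfl
    have htop : K2⟮ξ 0⟯ = ⊤ := by
      refine eq_top (κ := κ) ξ ht _ fun i => ?_
      fin_cases i
      · exact IntermediateField.mem_adjoin_simple_self _ _
      · exact IntermediateField.algebraMap_mem (K2⟮ξ 0⟯) (⟨ξ 1, hm1⟩ : K2)
      · exact IntermediateField.algebraMap_mem (K2⟮ξ 0⟯) (⟨ξ 2, hm2⟩ : K2)
    obtain ⟨hf2, hd2⟩ := simple_top (ξ 0) Q' hQ'0 hQ' htop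
    refine ⟨Module.Finite.trans K2 L, ?_⟩
    rw [← Module.finrank_mul_finrank κ⟮ξ 1⟯ K2 L]
    calc Module.finrank κ⟮ξ 1⟯ K2 * Module.finrank K2 L ≤ (3 * d ^ 3) * d :=
          Nat.mul_le_mul (hd1.trans (hQd.trans hRd)) (hd2.trans (hQ'd.trans hPd))
      _ = 3 * d ^ 4 := by ring
  · intro htr1
    have halg : IsAlgebraic κ (ξ 1) := not_not.1 htr1
    have ha : ∃ a : κ, ξ 1 = algebraMap κ L a := by
      have h2 : (minpoly κ (ξ 1)).degree = 1 :=
        IsAlgClosed.degree_eq_one_of_irreducible κ (minpoly.irreducible halg.isIntegral)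
      obtain ⟨a, ha⟩ := minpoly.mem_range_of_degree_eq_one κ (ξ 1) h2
      exact ⟨a, ha.symm⟩
    refine ⟨ha, ?_⟩
    obtain ⟨a, ha⟩ := ha
    obtain ⟨v, hv⟩ : ∃ v : κ⟮ξ 2⟯, algebraMap κ⟮ξ 2⟯ L v = ξ 2 :=
      ⟨IntermediateField.AdjoinSimple.gen κ (ξ 2), IntermediateField.AdjoinSimple.algebraMap_gen κ (ξ 2)⟩
    have hu : algebraMap κ⟮ξ 2⟯ L (algebraMap κ κ⟮ξ 2⟯ a) = ξ 1 := by
      rw [← IsScalarTower.algebraMap_apply, ha]
    obtain ⟨Q, hQ0, hQd, hQ⟩ := poly0 P hM ξ h0 (algebraMap κ κ⟮ξ 2⟯ a) v hu hv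
    have htop : κ⟮ξ 2⟯⟮ξ 0⟯ = ⊤ := by
      refine eq_top (κ := κ) ξ ht _ fun i => ?_
      fin_cases i
      · exact IntermediateField.mem_adjoin_simple_self _ _
      · have h3 := IntermediateField.algebraMap_mem (κ⟮ξ 2⟯⟮ξ 0⟯) (algebraMap κ κ⟮ξ 2⟯ a)
        rw [hu] at h3
        exact h3
      · have h3 := IntermediateField.algebraMap_mem (κ⟮ξ 2⟯⟮ξ 0⟯) v
        rw [hv] at h3
        exact h3
    obtain ⟨hf, hd⟩ := simple_top (ξ 0) Q hQ0 hQ htop
    exact ⟨hf, hd.trans (hQd.trans hPd)⟩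

end Pool.Agent.Lib.MP_16285c_agS.Hrx
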