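import Pool.Agent.Lib.MP_16285c_agS.Hrx.Spec

/-!
# Functions with a pole only at a given point, by dimensions
-/

set_option autoImplicit false

namespace Pool.Agent.Lib.MP_16285c_agS.Hrx

namespace DimM

open Polynomial

variable {L : Type} [Field L]

theorem wt_mul {m a b : ℕ} {A B : Polynomial (Polynomial L)} (hA : Wt m a A) (hB : Wt m b B) :
    Wt m (a + b) (A * B) := by
  intro i j h
  rw [Polynomial.coeff_mul, Polynomial.finsetSum_coeff] at h
  obtain ⟨⟨j1, j2⟩, hj, h1⟩ := Finset.exists_ne_zero_of_sum_ne_zero h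
  rw [Polynomial.coeff_mul] at h1
  obtain ⟨⟨i1, i2⟩, hi, h2⟩ := Finset.exists_ne_zero_of_sum_ne_zero h1
  have h3 := hA i1 j1 (left_ne_zero_of_mul h2)
  have h4 := hB i2 j2 (right_ne_zero_of_mul h2)
  have hj' : j1 + j2 = j := Finset.HasAntidiagonal.mem_antidiagonal.1 hj
  have hi' : i1 + i2 = i := Finset.HasAntidiagonal.mem_antidiagonal.1 hi
  rw [← hj', ← hi', mul_add]
  omega

theorem wt_sub {m a : ℕ} {A B : Polynomial (Polynomial L)} (hA : Wt m a A) (hB : Wt m a B) :
    Wt m a (A - B) := by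
  intro i j h
  rw [Polynomial.coeff_sub, Polynomial.coeff_sub] at h
  by_cases h1 : (A.coeff j).coeff i = 0
  · rw [h1, zero_sub] at h
    exact hB i j (neg_ne_zero.1 h)
  · exact hA i j h1

theorem wt_one (m : ℕ) : Wt m 0 (1 : Polynomial (Polynomial L)) := by
  intro i j h
  rw [Polynomial.coeff_one] at h
  split_ifs at h with h1
  · rw [Polynomial.coeff_one] at h
    split_ifs at h with h2
    · subst h1
      subst h2
      simp
    · exact absurd rfl h
  · exact absurd (Polynomial.coeff_zero i) h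

theorem wt_pow {m a : ℕ} {A : Polynomial (Polynomial L)} (hA : Wt m a A) (k : ℕ) :
    Wt m (a * k) (A ^ k) := by
  induction k with
  | zero =>
    rw [mul_zero, pow_zero]
    exact wt_one m
  | succ k ih =>
    rw [pow_succ, mul_add, mul_one]
    exact wt_mul ih hA

theorem wt_lin (m : ℕ) (z₀ : L) : Wt m m (X - C (C z₀) : Polynomial (Polynomial L)) := by
  refine wt_sub ?_ ?_
  · intro i j h
    rw [Polynomial.coeff_X] at h
    split_ifs at h with h1
    · rw [Polynomial.coeff_one] at h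
      split_ifs at h with h2
      · subst h1
        subst h2
        omega
      · exact absurd rfl h
    · exact absurd (Polynomial.coeff_zero i) h
  · intro i j h
    rw [Polynomial.coeff_C] at h
    split_ifs at h with h1
    · rw [Polynomial.coeff_C] at h
      split_ifs at h with h2
      · subst h1
        subst h2
        omega
      · exact absurd rfl h
    · exact absurd (Polynomial.coeff_zero i) h

/-- Reduction modulo `Q` preserves the weights. -/
theorem red {m e N : ℕ} {Q : Polynomial (Polynomial L)} (hQ : Q.Monic) (hd : Q.natDegree = e)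
    (he : 1 ≤ e) (hW : Wt m (m * e) Q) (k : ℕ) :
    ∀ A : Polynomial (Polynomial L), A.natDegree < k + e → Wt m N A →
      ∃ H, Wt m N (A - Q * H) ∧ (A - Q * H).natDegree < e := by
  induction k with
  | zero =>
    intro A hA hWA
    refine ⟨0, ?_, ?_⟩
    · rw [mul_zero, sub_zero]
      exact hWA
    · rw [mul_zero, sub_zero]
      omega
  | succ k ih =>
    intro A hA hWA
    obtain ⟨a, ha⟩ : ∃ a, a = A.coeff (k + e) := ⟨_, rfl⟩
    have hco : ∀ M, k ≤ M → (Q * (C a * X ^ k)).coeff M = Q.coeff (M - k) * a := by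
      intro M hM
      rw [← mul_assoc, Polynomial.coeff_mul_X_pow', if_pos hM, Polynomial.coeff_mul_C]
    have h1 : (A - Q * (C a * X ^ k)).natDegree < k + e := by
      have h1' : (A - Q * (C a * X ^ k)).natDegree ≤ k + e - 1 := by
        rw [Polynomial.natDegree_le_iff_coeff_eq_zero]
        intro M hM
        rw [Polynomial.coeff_sub, hco M (by omega)]
        rcases Nat.lt_or_ge (k + e) M with h | h
        · rw [Polynomial.coeff_eq_zero_of_natDegree_lt (by omega : A.natDegree < M),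
            Polynomial.coeff_eq_zero_of_natDegree_lt (by omega : Q.natDegree < M - k), zero_mul,
            sub_zero]
        · have hM' : M = k + e := by omega
          have h3 : M - k = Q.natDegree := by omega
          rw [h3, hQ.coeff_natDegree, one_mul, hM', ← ha, sub_self]
      omega
    have h2 : Wt m N (A - Q * (C a * X ^ k)) := by
      refine wt_sub hWA ?_
      by_cases h0 : a = 0
      · rw [h0, map_zero, zero_mul, mul_zero]
        intro i j h
        exact absurd (by simp) h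
      · obtain ⟨i0, hi0⟩ : ∃ i0, a.coeff i0 ≠ 0 := by
          by_contra hcon
          push Not at hcon
          exact h0 (Polynomial.ext (by simpa using hcon))
        have h3 : m * (k + e) ≤ N := by
          have := hWA i0 (k + e) (by rw [← ha]; exact hi0)
          omega
        have h4 : Wt m (N - m * e) (C a * X ^ k : Polynomial (Polynomial L)) := by
          intro i j h
          rw [Polynomial.coeff_C_mul_X_pow] at h
          split_ifs at h with h5
          · subst h5
            have h6 := hWA i (j + e) (by rw [← ha]; exact h)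
            rw [mul_add] at h6
            omega
          · exact absurd (Polynomial.coeff_zero i) h
        have h5 := wt_mul hW h4
        have h6 : m * e + (N - m * e) = N := by
          rw [mul_add] at h3
          omega
        rwa [h6] at h5
    obtain ⟨H, hH1, hH2⟩ := ih _ h1 h2
    refine ⟨C a * X ^ k + H, ?_, ?_⟩
    · rw [mul_add, ← sub_sub]
      exact hH1
    · rw [mul_add, ← sub_sub]
      exact hH2


/-- The polynomials of degree less than `N`. -/
noncomputable def TT (L : Type) [Field L] (N : ℕ) : (Fin N → L) →ₗ[L] Polynomial L :=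
  (degreeLT L N).subtype ∘ₗ (degreeLTEquiv L N).symm.toLinearMap

theorem TT_deg (N : ℕ) (v : Fin N → L) : (TT L N v).degree < N :=
  Polynomial.mem_degreeLT.1 ((degreeLTEquiv L N).symm v).2

theorem TT_inj (N : ℕ) (v : Fin N → L) (h : TT L N v = 0) : v = 0 := by
  have h1 : (degreeLTEquiv L N).symm v = 0 := Subtype.ext h
  exact (LinearEquiv.map_eq_zero_iff _).1 h1

theorem main (Q : Polynomial (Polynomial L)) (m e n : ℕ) (x₀ z₀ : L) (hQ : Q.Monic)
    (hd : Q.natDegree = e) (he : 1 ≤ e) (hW : Wt m (m * e) Q) (hn : n = m * e ^ 2 + 2)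
    (hr : (Q.map (Polynomial.evalRingHom x₀)).eval z₀ = 0)
    (hr' : (Q.map (Polynomial.evalRingHom x₀)).derivative.eval z₀ ≠ 0) :
    ∃ A A' H : Polynomial (Polynomial L), Wt m n A ∧ Wt m (m * n) A' ∧ A.natDegree < e ∧
      A'.natDegree < e ∧
      A * (Polynomial.X - Polynomial.C (Polynomial.C z₀)) ^ n -
        A' * Polynomial.C ((Polynomial.X - Polynomial.C x₀) ^ n) = Q * H ∧
      ∀ c : L, A ≠ Polynomial.C (Polynomial.C c * (Polynomial.X - Polynomial.C x₀) ^ n) := by
  obtain ⟨q, hq⟩ : ∃ q, q = Q.map (Polynomial.evalRingHom x₀) := ⟨_, rfl⟩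
  rw [← hq] at hr hr'
  obtain ⟨Q₀, hQ₀⟩ : X - C z₀ ∣ q := Polynomial.dvd_iff_isRoot.2 hr
  have hQ₀z : Q₀.eval z₀ ≠ 0 := by
    have h1 : q.derivative.eval z₀ = Q₀.eval z₀ := by
      rw [hQ₀, Polynomial.derivative_mul]
      simp
    rwa [← h1]
  obtain ⟨π, hπ⟩ : ∃ π : Polynomial L, π = X - C x₀ := ⟨_, rfl⟩
  have hπm : π.Monic := by
    rw [hπ]
    exact Polynomial.monic_X_sub_C x₀
  have hπnm : (π ^ n).Monic := hπm.pow n
  have hπnd : (π ^ n).natDegree = n := by
    rw [hπm.natDegree_pow, hπ, Polynomial.natDegree_X_sub_C, mul_one]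
  have hπp : Irreducible π := by
    rw [hπ]
    exact Polynomial.irreducible_X_sub_C x₀
  -- `Q = (Z - z₀) Q₀ + π Q₁`
  obtain ⟨q₀, hq₀⟩ : ∃ q₀ : Polynomial (Polynomial L), q₀ = Q₀.map C := ⟨_, rfl⟩
  obtain ⟨Q₁, hQ₁⟩ : C π ∣ Q - (X - C (C z₀)) * q₀ := by
    have h1 : (X - C (C z₀)) * q₀ = q.map C := by
      rw [hQ₀, Polynomial.map_mul, Polynomial.map_sub, Polynomial.map_X, Polynomial.map_C, hq₀]
    rw [h1, Polynomial.C_dvd_iff_dvd_coeff]
    intro j
    rw [Polynomial.coeff_sub, Polynomial.coeff_map, hq, Polynomial.coeff_map, hπ]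
    exact Polynomial.X_sub_C_dvd_sub_C_eval
  -- `U = Q₀ ^ n` modulo `Q`
  obtain ⟨U, hU⟩ : ∃ U, U = q₀ ^ n %ₘ Q := ⟨_, rfl⟩
  have hUd : U.degree < Q.degree := by
    rw [hU]
    exact Polynomial.degree_modByMonic_lt _ hQ
  have hQdeg : Q.degree = (e : WithBot ℕ) := by
    rw [Polynomial.degree_eq_natDegree hQ.ne_zero, hd]
  have hUc : ∀ j, e ≤ j → U.coeff j = 0 := by
    intro j hj
    apply Polynomial.coeff_eq_zero_of_degree_lt
    refine hUd.trans_le ?_
    rw [hQdeg]
    exact_mod_cast hj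
  have hUQ : ∃ D, q₀ ^ n = U + Q * D := ⟨q₀ ^ n /ₘ Q, by
    rw [hU, Polynomial.modByMonic_add_div]⟩
  obtain ⟨D, hD⟩ := hUQ
  have hUx : ∃ j, j < e ∧ (U.coeff j).eval x₀ ≠ 0 := by
    by_contra hcon
    push Not at hcon
    have h1 : U.map (Polynomial.evalRingHom x₀) = 0 := by
      ext j
      rw [Polynomial.coeff_map, Polynomial.coeff_zero]
      rcases Nat.lt_or_ge j e with h | h
      · exact hcon j h
      · rw [hUc j h, map_zero]
    have h2 := congrArg (fun p => (p.map (Polynomial.evalRingHom x₀)).eval z₀) hD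
    simp only [Polynomial.map_add, Polynomial.map_mul, Polynomial.map_pow, h1, ← hq, zero_add,
      Polynomial.eval_mul, hr, zero_mul, Polynomial.eval_pow] at h2
    have h3 : q₀.map (Polynomial.evalRingHom x₀) = Q₀ := by
      rw [hq₀, Polynomial.map_map]
      have h4 : (Polynomial.evalRingHom x₀).comp C = RingHom.id L := by
        ext a
        simp
      rw [h4, Polynomial.map_id]
    rw [h3] at h2
    exact hQ₀z (pow_eq_zero_iff (by omega) |>.1 h2)
  -- the linear system
  obtain ⟨N₁, hN₁⟩ : ∃ N₁, N₁ = n - m * (e - 1) := ⟨_, rfl⟩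
  have hme : m * (e - 1) * e + 2 ≤ n := by
    rw [hn]
    have h1 : m * (e - 1) * e ≤ m * e ^ 2 := by
      rw [mul_assoc, pow_two]
      exact Nat.mul_le_mul_left m (Nat.mul_le_mul_right e (Nat.sub_le _ _))
    omega
  have hme' : m * (e - 1) ≤ m * (e - 1) * e := Nat.le_mul_of_pos_right _ he
  have hN₁n : N₁ + m * (e - 1) = n := by omega
  let Φ : ((Fin e → Fin N₁ → L) × (Fin n → L)) →ₗ[L] (Fin e → Fin n → L) :=
    LinearMap.pi fun j => LinearMap.pi fun k => (Polynomial.lcoeff L (k : ℕ)) ∘ₗ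
      (Polynomial.modByMonicHom (π ^ n)) ∘ₗ
      (TT L N₁ ∘ₗ (LinearMap.proj j) ∘ₗ (LinearMap.fst L (Fin e → Fin N₁ → L) (Fin n → L)) -
        (LinearMap.mulRight L (U.coeff (j : ℕ))) ∘ₗ TT L n ∘ₗ
          (LinearMap.snd L (Fin e → Fin N₁ → L) (Fin n → L)))
  have hΦ : ∀ v (j : Fin e) (k : Fin n), Φ v j k =
      ((TT L N₁ (v.1 j) - TT L n v.2 * U.coeff (j : ℕ)) %ₘ (π ^ n)).coeff (k : ℕ) :=
    fun v j k => rfl
  have hfr : Module.finrank L (Fin e → Fin n → L) <
      Module.finrank L ((Fin e → Fin N₁ → L) × (Fin n → L)) := by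
    simp only [Module.finrank_prod, Module.finrank_pi_fintype, Module.finrank_self,
      Finset.sum_const, Finset.card_univ, Fintype.card_fin, smul_eq_mul, mul_one]
    have h1 : e * n = e * N₁ + m * (e - 1) * e := by
      rw [← hN₁n]
      ring
    omega
  obtain ⟨v, hv, hv0⟩ := Submodule.exists_mem_ne_zero_of_ne_bot
    (LinearMap.ker_ne_bot_of_finrank_lt (f := Φ) hfr)
  have hker : ∀ j : Fin e, π ^ n ∣ TT L N₁ (v.1 j) - TT L n v.2 * U.coeff (j : ℕ) := by
    intro j
    rw [← Polynomial.modByMonic_eq_zero_iff_dvd hπnm]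
    ext k
    rw [Polynomial.coeff_zero]
    rcases Nat.lt_or_ge k n with h | h
    · have h1 := hΦ v j ⟨k, h⟩
      rw [LinearMap.mem_ker.1 hv] at h1
      exact h1.symm
    · apply Polynomial.coeff_eq_zero_of_degree_lt
      refine (Polynomial.degree_modByMonic_lt _ hπnm).trans_le ?_
      rw [Polynomial.degree_eq_natDegree hπnm.ne_zero, hπnd]
      exact_mod_cast h
  obtain ⟨c, hc⟩ : ∃ c, c = TT L n v.2 := ⟨_, rfl⟩
  obtain ⟨A, hA⟩ : ∃ A : Polynomial (Polynomial L), A = ∑ j : Fin e,
      C (TT L N₁ (v.1 j)) * X ^ (j : ℕ) := ⟨_, rfl⟩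
  have hAc : ∀ j (h : j < e), A.coeff j = TT L N₁ (v.1 ⟨j, h⟩) := by
    intro j h
    rw [hA, Polynomial.finsetSum_coeff, Finset.sum_eq_single (⟨j, h⟩ : Fin e)]
    · rw [Polynomial.coeff_C_mul_X_pow, if_pos rfl]
    · intro b _ hb
      rw [Polynomial.coeff_C_mul_X_pow, if_neg]
      intro h1
      exact hb (Fin.ext h1.symm)
    · intro h1
      exact absurd (Finset.mem_univ _) h1
  have hAc' : ∀ j, e ≤ j → A.coeff j = 0 := by
    intro j h
    rw [hA, Polynomial.finsetSum_coeff]
    refine Finset.sum_eq_zero fun b _ => ?_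
    rw [Polynomial.coeff_C_mul_X_pow, if_neg]
    have := b.2
    omega
  have hAd : A.natDegree < e := by
    have h1 : A.natDegree ≤ e - 1 := by
      rw [Polynomial.natDegree_le_iff_coeff_eq_zero]
      intro M hM
      exact hAc' M (by omega)
    omega
  have hAW : Wt m n A := by
    intro i j h
    have hj : j < e := by
      by_contra hcon
      rw [hAc' j (by omega)] at h
      exact h (Polynomial.coeff_zero i)
    rw [hAc j hj] at h
    have hi : i < N₁ := by
      by_contra hcon
      apply h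
      apply Polynomial.coeff_eq_zero_of_degree_lt
      refine (TT_deg N₁ _).trans_le ?_
      exact_mod_cast Nat.le_of_not_lt hcon
    have h2 : m * j ≤ m * (e - 1) := Nat.mul_le_mul_left m (by omega)
    omega
  -- divisibility
  have hB : C (π ^ n) ∣ A - C c * U := by
    rw [Polynomial.C_dvd_iff_dvd_coeff]
    intro j
    rw [Polynomial.coeff_sub, Polynomial.coeff_C_mul]
    rcases Nat.lt_or_ge j e with h | h
    · rw [hAc j h, hc]
      exact hker ⟨j, h⟩
    · rw [hAc' j h, hUc j h, mul_zero, sub_zero]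
      exact dvd_zero _
  obtain ⟨B, hB⟩ := hB
  obtain ⟨D₂, hD₂⟩ : Q ∣ (Q - C π * Q₁) ^ n - (-(C π * Q₁)) ^ n := by
    have h1 := sub_dvd_pow_sub_pow (Q - C π * Q₁) (-(C π * Q₁)) n
    have h2 : Q - C π * Q₁ - -(C π * Q₁) = Q := by ring
    rwa [h2] at h1
  obtain ⟨Z, hZ⟩ : ∃ Z : Polynomial (Polynomial L), Z = X - C (C z₀) := ⟨_, rfl⟩
  rw [← hZ] at hQ₁
  -- `A Z ^ n = A'' π ^ n + Q H'`
  have hkey : A * Z ^ n = (C c * (-Q₁) ^ n + B * Z ^ n) * C (π ^ n) +
      Q * (C c * D₂ - C c * D * Z ^ n) := by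
    have e1 : A = C (π ^ n) * B + C c * U := by rw [← hB]; ring
    have e2 : U = q₀ ^ n - Q * D := by rw [hD]; ring
    have e3 : (Z * q₀) ^ n = (-(C π * Q₁)) ^ n + Q * D₂ := by
      rw [← hD₂]
      have h1 : Z * q₀ = Q - C π * Q₁ := by rw [← hQ₁]; ring
      rw [h1]
      ring
    have e4 : (-(C π * Q₁)) ^ n = C (π ^ n) * (-Q₁) ^ n := by
      rw [map_pow, ← mul_pow]
      congr 1
      ring
    rw [e4, mul_pow] at e3
    rw [e1, e2]
    linear_combination (C c) * e3
  obtain ⟨A'', hA''⟩ : ∃ A'', A'' = C c * (-Q₁) ^ n + B * Z ^ n := ⟨_, rfl⟩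
  rw [← hA''] at hkey
  have hdiv := Polynomial.modByMonic_add_div A'' Q
  obtain ⟨H, hH⟩ : ∃ H, H = (C c * D₂ - C c * D * Z ^ n) + (A'' /ₘ Q) * C (π ^ n) := ⟨_, rfl⟩
  have hfin : A * Z ^ n - (A'' %ₘ Q) * C (π ^ n) = Q * H := by
    rw [hkey, hH]
    linear_combination (-(C (π ^ n))) * hdiv
  have hA'd : (A'' %ₘ Q).natDegree < e := by
    rw [← hd]
    exact Polynomial.natDegree_modByMonic_lt _ hQ (by
      intro h1
      rw [h1, Polynomial.natDegree_one] at hd
      omega)
  -- the weights of `A'`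
  have hA'W : Wt m (m * n) (A'' %ₘ Q) := by
    have h1 : Wt m (n + m * n) (A * Z ^ n) := by
      refine wt_mul hAW ?_
      rw [hZ]
      exact wt_pow (wt_lin m z₀) n
    obtain ⟨H₂, hH₂, hH₂'⟩ := red hQ hd he hW ((A * Z ^ n).natDegree) (A * Z ^ n) (by omega) h1
    have h2 : A * Z ^ n - Q * H₂ = (A'' %ₘ Q) * C (π ^ n) := by
      have h3 : (A * Z ^ n - Q * H₂) - (A'' %ₘ Q) * C (π ^ n) = Q * (H - H₂) := by
        linear_combination hfin
      have h4 : ((A * Z ^ n - Q * H₂) - (A'' %ₘ Q) * C (π ^ n)).natDegree < e := by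
        refine lt_of_le_of_lt (Polynomial.natDegree_sub_le _ _) (max_lt hH₂' ?_)
        exact lt_of_le_of_lt (Polynomial.natDegree_mul_C_le _ _) hA'd
      by_contra hne
      have h5 : H - H₂ ≠ 0 := by
        intro h6
        rw [h6, mul_zero] at h3
        exact hne (sub_eq_zero.1 h3)
      rw [h3, Polynomial.Monic.natDegree_mul' hQ h5, hd] at h4
      omega
    rw [h2] at hH₂
    intro i j h
    have h3 : (A'' %ₘ Q).coeff j ≠ 0 := by
      intro h4
      rw [h4] at h
      exact h (Polynomial.coeff_zero i)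
    have h4 := hH₂ (((A'' %ₘ Q).coeff j).natDegree + n) j (by
      rw [Polynomial.coeff_mul_C]
      have h5 := Polynomial.coeff_mul_degree_add_degree ((A'' %ₘ Q).coeff j) (π ^ n)
      rw [hπnd, hπnm.leadingCoeff, mul_one] at h5
      rw [h5]
      exact Polynomial.leadingCoeff_ne_zero.2 h3)
    have h5 : i ≤ ((A'' %ₘ Q).coeff j).natDegree := Polynomial.le_natDegree_of_ne_zero h
    omega
  refine ⟨A, A'' %ₘ Q, H, hAW, hA'W, hAd, hA'd, ?_, ?_⟩
  · rw [hZ, hπ] at hfin
    exact hfin
  · intro c' hcon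
    rw [← hπ] at hcon
    have h1 : A.coeff 0 = C c' * π ^ n := by
      rw [hcon, Polynomial.coeff_C_zero]
    have h2 : (A.coeff 0).coeff n = 0 := by
      rw [hAc 0 (by omega)]
      apply Polynomial.coeff_eq_zero_of_degree_lt
      refine (TT_deg N₁ _).trans_le ?_
      have : N₁ ≤ n := by omega
      exact_mod_cast this
    have h3 : c' = 0 := by
      rw [h1, Polynomial.coeff_C_mul] at h2
      have h4 : (π ^ n).coeff n = 1 := by
        have h5 := hπnm.coeff_natDegree
        rwa [hπnd] at h5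
      rw [h4, mul_one] at h2
      exact h2
    have h4 : A = 0 := by
      rw [hcon, h3]
      simp
    have h5 : v.1 = 0 := by
      funext j
      apply TT_inj
      rw [← hAc j j.2, h4, Polynomial.coeff_zero]
    have h6 : v.2 = 0 := by
      apply TT_inj
      obtain ⟨j, hj, hj'⟩ := hUx
      have h7 := hker ⟨j, hj⟩
      rw [h5] at h7
      have h8 : π ^ n ∣ TT L n v.2 * U.coeff j := by
        rw [Pi.zero_apply, map_zero, zero_sub, dvd_neg] at h7
        exact h7
      have h9 : IsCoprime (π ^ n) (U.coeff j) := by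
        refine IsCoprime.pow_left ?_
        rw [hπp.coprime_iff_not_dvd, hπ, Polynomial.dvd_iff_isRoot]
        exact hj'
      have h10 := h9.dvd_of_dvd_mul_right h8
      by_contra hne
      have h11 := Polynomial.degree_le_of_dvd h10 hne
      rw [Polynomial.degree_eq_natDegree hπnm.ne_zero, hπnd] at h11
      exact absurd (TT_deg n v.2) (not_lt.2 h11)
    exact hv0 (Prod.ext h5 h6)

end DimM

theorem tDim : StmtDim :=
  fun _ _ Q m e n x₀ z₀ hQ hd he _ hW hn hr hr' => DimM.main Q m e n x₀ z₀ hQ hd he hW hn hr hr'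

end Pool.Agent.Lib.MP_16285c_agS.Hrx
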