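import Pool.Agent.Lib.MP_16285c_agS.Hrx.Spec
import Mathlib.FieldTheory.SeparablyGenerated
import Mathlib.Algebra.DualNumber

/-!
# Algebraic independence of the first two coordinates of a dominant map (X2)
-/

set_option autoImplicit false

namespace Pool.Agent.Lib.MP_16285c_agS.Hrx

open MvPolynomial
open Pool.Agent.Lib.MP_16285c_ag (RM)
open Pool.Agent.ZDO (Wd)

namespace DomM

/-- The universal numerator of `R(f₁, f₂)`. -/
theorem univ {κ : Type} [Field κ] (f : RM κ 3) (R : MvPolynomial (Fin 2) κ) :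
    ∃ (N : ℕ) (W : MvPolynomial (Fin 3) κ), ∀ (B : Type) [CommRing B] [Algebra κ B] (ξ : Fin 3 → B)
      (y : Fin 2 → B), y 0 * aeval ξ (f.den 1) = aeval ξ (f.num 1) →
      y 1 * aeval ξ (f.den 2) = aeval ξ (f.num 2) →
      aeval ξ W = (aeval ξ (f.den 1) * aeval ξ (f.den 2)) ^ N * aeval y R := by
  induction R using MvPolynomial.induction_on with
  | C a =>
    refine ⟨0, C a, fun B _ _ ξ y _ _ => ?_⟩
    rw [pow_zero, one_mul, aeval_C, aeval_C]
  | add p q hp hq =>
    obtain ⟨N1, W1, h1⟩ := hp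
    obtain ⟨N2, W2, h2⟩ := hq
    refine ⟨N1 + N2, W1 * (f.den 1 * f.den 2) ^ N2 + W2 * (f.den 1 * f.den 2) ^ N1,
      fun B _ _ ξ y e1 e2 => ?_⟩
    rw [map_add, map_mul, map_mul, map_pow, map_pow, map_mul, h1 B ξ y e1 e2, h2 B ξ y e1 e2,
      map_add]
    ring
  | mul_X p i hp =>
    obtain ⟨N, W, h⟩ := hp
    refine ⟨N + 1, W * (if i = 0 then f.num 1 * f.den 2 else f.num 2 * f.den 1),
      fun B _ _ ξ y e1 e2 => ?_⟩
    rw [map_mul, h B ξ y e1 e2, map_mul (aeval y), aeval_X]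
    fin_cases i
    · simp only [Fin.zero_eta, Fin.isValue, if_true]
      rw [map_mul, ← e1]
      ring
    · simp only [Fin.mk_one, Fin.isValue, one_ne_zero, if_false]
      rw [map_mul, ← e2]
      ring

/-- The point of the dual numbers. -/
noncomputable def dp {E : Type} [Field E] {n : ℕ} (a v : Fin n → E) (i : Fin n) : DualNumber E :=
  TrivSqZeroExt.inl (a i) + TrivSqZeroExt.inr (v i)

theorem dp_fst {E : Type} [Field E] {n : ℕ} (a v : Fin n → E) (i : Fin n) :
    (dp a v i).fst = a i := by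
  simp [dp]

theorem dp_snd {E : Type} [Field E] {n : ℕ} (a v : Fin n → E) (i : Fin n) :
    (dp a v i).snd = v i := by
  simp [dp]

/-- The values of polynomials at a point of the dual numbers. -/
theorem dual {κ E : Type} [Field κ] [Field E] [Algebra κ E] {n : ℕ} (a v : Fin n → E)
    (A : MvPolynomial (Fin n) κ) :
    (aeval (dp a v) A).fst = aeval a A ∧
      (aeval (dp a v) A).snd = ∑ i, aeval a (pderiv i A) * v i := by
  induction A using MvPolynomial.induction_on with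
  | C c =>
    rw [aeval_C, aeval_C, TrivSqZeroExt.algebraMap_eq_inl']
    refine ⟨rfl, ?_⟩
    rw [TrivSqZeroExt.snd_inl]
    symm
    apply Finset.sum_eq_zero
    intro i _
    rw [pderiv_C, map_zero, zero_mul]
  | add p q hp hq =>
    rw [map_add, TrivSqZeroExt.fst_add, TrivSqZeroExt.snd_add, hp.1, hp.2, hq.1, hq.2, map_add]
    refine ⟨rfl, ?_⟩
    rw [← Finset.sum_add_distrib]
    apply Finset.sum_congr rfl
    intro i _
    rw [map_add, map_add]
    ring
  | mul_X p j hp =>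
    rw [map_mul, aeval_X, TrivSqZeroExt.fst_mul, DualNumber.snd_mul, hp.1, hp.2, dp_fst, dp_snd,
      map_mul, aeval_X]
    refine ⟨rfl, ?_⟩
    have h1 : ∀ i : Fin n, aeval a (pderiv i (p * X j)) * v i =
        aeval a (pderiv i p) * v i * a j + if i = j then aeval a p * v j else 0 := by
      intro i
      rw [pderiv_mul, map_add, map_mul, map_mul, aeval_X]
      by_cases hij : i = j
      · subst hij
        rw [pderiv_X_self, map_one, if_pos rfl]
        ring
      · rw [pderiv_X_of_ne (Ne.symm hij), map_zero, if_neg hij]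
        ring
    rw [Finset.sum_congr rfl fun i _ => h1 i, Finset.sum_add_distrib, Finset.sum_ite_eq',
      if_pos (Finset.mem_univ _), ← Finset.sum_mul]
    ring

/-- A derivative has smaller degree. -/
theorem deg_pderiv {κ : Type} [Field κ] {d : ℕ} (p : MvPolynomial (Fin d) κ) (i : Fin d)
    (h : pderiv i p ≠ 0) : (pderiv i p).totalDegree < p.totalDegree := by
  have key : ∀ m ∈ (pderiv i p).support, (m.sum fun _ e => e) + 1 ≤ p.totalDegree := by
    intro m hm
    rw [mem_support_iff, coeff_pderiv] at hm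
    have h1 : coeff (m + Finsupp.single i 1) p ≠ 0 := left_ne_zero_of_mul hm
    have h2 := le_totalDegree (mem_support_iff.2 h1)
    rw [Finsupp.sum_add_index' (fun _ => rfl) (fun _ _ _ => rfl),
      Finsupp.sum_single_index rfl] at h2
    exact h2
  obtain ⟨m, hm⟩ : (pderiv i p).support.Nonempty :=
    Finset.nonempty_iff_ne_empty.2 fun h' => h (MvPolynomial.support_eq_empty.1 h')
  have h0 : 0 < p.totalDegree := by
    have := key m hm
    omega
  unfold totalDegree at h0 ⊢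
  rw [Finset.sup_lt_iff h0]
  intro m hm
  exact key m hm

/-- A support element with an exponent which is not zero in `κ` gives a nonzero derivative. -/
theorem pderiv_ne {κ : Type} [Field κ] {d : ℕ} (p : MvPolynomial (Fin d) κ) (i : Fin d)
    (m : Fin d →₀ ℕ) (hm : m ∈ p.support) (hi : ((m i : ℕ) : κ) ≠ 0) : pderiv i p ≠ 0 := by
  intro h0
  have hi' : m i ≠ 0 := by
    intro h
    apply hi
    rw [h, Nat.cast_zero]
  have h1 := coeff_pderiv (i := i) p (m - Finsupp.single i 1)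
  rw [h0, coeff_zero, Finsupp.sub_add_single_one_cancel hi'] at h1
  rcases mul_eq_zero.1 h1.symm with h2 | h2
  · exact (mem_support_iff.1 hm) h2
  · apply hi
    rw [← h2, Finsupp.tsub_apply, Finsupp.single_eq_same, ← Nat.cast_succ]
    congr 1
    omega

/-- A minimal relation has a nonzero derivative. -/
theorem exists_pd {κ E : Type} [Field κ] [IsAlgClosed κ] [Field E] [Algebra κ E] {d : ℕ}
    (a : Fin d → E) (R : MvPolynomial (Fin d) κ) (hR : R ≠ 0) (hRa : aeval a R = 0)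
    (hmin : ∀ R' : MvPolynomial (Fin d) κ, R' ≠ 0 → aeval a R' = 0 →
      R.totalDegree ≤ R'.totalDegree) : ∃ i, pderiv i R ≠ 0 := by
  obtain h | ⟨p, hp, hpk⟩ := CharP.exists' κ
  · have hd : R.totalDegree ≠ 0 := by
      intro h1
      rw [totalDegree_eq_zero_iff_eq_C] at h1
      rw [h1, aeval_C] at hRa
      have h2 : coeff 0 R = 0 := by
        have h3 := (algebraMap κ E).injective
        apply h3
        rw [hRa, map_zero]
      rw [h2, map_zero] at h1
      exact hR h1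
    have h1 : ∃ m ∈ R.support, m ≠ 0 := by
      by_contra hcon
      push Not at hcon
      apply hd
      unfold totalDegree
      rw [← Nat.bot_eq_zero, Finset.sup_eq_bot_iff]
      intro m hm
      rw [hcon m hm]
      rfl
    obtain ⟨m, hm, hm0⟩ := h1
    obtain ⟨i, hi⟩ : ∃ i, m i ≠ 0 := by
      by_contra hc
      push Not at hc
      exact hm0 (Finsupp.ext fun i => hc i)
    exact ⟨i, pderiv_ne R i m hm (Nat.cast_ne_zero.mpr hi)⟩
  · have : ExpChar κ p := .prime hp.out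
    have : CharP E p := .of_ringHom_of_ne_zero (algebraMap κ E) p hp.out.ne_zero
    have H : ∀ s : Finset E, LinearIndepOn κ _root_.id (s : Set E) →
        LinearIndepOn κ (· ^ p) (s : Set E) := by
      intro s hs
      refine hs.map_of_injective_injective (frobeniusEquiv κ p).symm
        (frobenius E p).toAddMonoidHom ?_ ?_ ?_
      · intro r hr
        exact (map_eq_zero_iff _ (frobeniusEquiv κ p).symm.injective).mp hr
      · intro m hm
        exact (map_eq_zero_iff (frobenius E p) (frobenius E p).injective).mp hm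
      · intro r m
        change frobenius E p ((frobeniusEquiv κ p).symm r • m) = r • frobenius E p m
        rw [Algebra.smul_def, Algebra.smul_def, map_mul, frobenius_def, ← map_pow,
          frobeniusEquiv_symm_pow_p]
    obtain ⟨i, m, hm, hi⟩ := exists_mem_support_not_dvd_of_forall_totalDegree_le p hp.out H
      hmin hR hRa
    refine ⟨i, pderiv_ne R i m hm ?_⟩
    intro h
    exact hi ((CharP.cast_eq_zero_iff κ p _).mp h)

/-- A generic point. -/
theorem gen {κ : Type} [Field κ] (P : MvPolynomial (Fin 3) κ) (hP : Irreducible P) :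
    ∃ (E : Type) (_ : Field E) (_ : Algebra κ E) (Ξ : Fin 3 → E),
      ∀ A : MvPolynomial (Fin 3) κ, aeval Ξ A = 0 ↔ P ∣ A := by
  have hpr : (Ideal.span {P}).IsPrime := (Ideal.span_singleton_prime hP.ne_zero).mpr hP.prime
  refine ⟨FractionRing (MvPolynomial (Fin 3) κ ⧸ Ideal.span {P}), inferInstance, inferInstance,
    fun i => algebraMap (MvPolynomial (Fin 3) κ ⧸ Ideal.span {P})
      (FractionRing (MvPolynomial (Fin 3) κ ⧸ Ideal.span {P}))
      (Ideal.Quotient.mk (Ideal.span {P}) (X i)), fun A => ?_⟩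
  have h1 : aeval (fun i => algebraMap (MvPolynomial (Fin 3) κ ⧸ Ideal.span {P})
      (FractionRing (MvPolynomial (Fin 3) κ ⧸ Ideal.span {P}))
      (Ideal.Quotient.mk (Ideal.span {P}) (X i))) A =
      algebraMap (MvPolynomial (Fin 3) κ ⧸ Ideal.span {P})
      (FractionRing (MvPolynomial (Fin 3) κ ⧸ Ideal.span {P}))
      (Ideal.Quotient.mk (Ideal.span {P}) A) := by
    induction A using MvPolynomial.induction_on with
    | C c => 
      rw [aeval_C]
      rfl
    | add p q hp hq => rw [map_add, hp, hq, map_add, map_add]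
    | mul_X p i hp => rw [map_mul, hp, aeval_X, map_mul, map_mul]
  rw [h1, map_eq_zero_iff _ (IsFractionRing.injective (MvPolynomial (Fin 3) κ ⧸ Ideal.span {P})
      (FractionRing (MvPolynomial (Fin 3) κ ⧸ Ideal.span {P}))), Ideal.Quotient.eq_zero_iff_mem,
      Ideal.mem_span_singleton]

/-- `f₁`, `f₂` are algebraically independent at the generic point. -/
theorem indep {κ E : Type} [Field κ] [IsAlgClosed κ] [Field E] [Algebra κ E]
    (P : MvPolynomial (Fin 3) κ) (f : RM κ 3) (Ξ : Fin 3 → E)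
    (hker : ∀ A : MvPolynomial (Fin 3) κ, aeval Ξ A = 0 ↔ P ∣ A)
    (hden : ∀ i, ¬ P ∣ f.den i) (hJ : ¬ P ∣ jX P f) (R₀ : MvPolynomial (Fin 2) κ) (hR₀ : R₀ ≠ 0) :
    aeval ![fv f Ξ 1, fv f Ξ 2] R₀ ≠ 0 := by
  intro hR₀0
  obtain ⟨R, ⟨hR, hR0⟩, hmin⟩ := (measure (totalDegree (σ := Fin 2) (R := κ))).wf.has_min
    {R : MvPolynomial (Fin 2) κ | R ≠ 0 ∧ aeval ![fv f Ξ 1, fv f Ξ 2] R = 0}
    ⟨R₀, hR₀, hR₀0⟩
  have hmin' : ∀ R' : MvPolynomial (Fin 2) κ, R' ≠ 0 →
      aeval ![fv f Ξ 1, fv f Ξ 2] R' = 0 → R.totalDegree ≤ R'.totalDegree := by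
    intro R' h1 h2
    exact not_lt.mp (hmin R' ⟨h1, h2⟩)
  have hd : ∀ i, aeval Ξ (f.den i) ≠ 0 := fun i h => hden i ((hker _).mp h)
  obtain ⟨N, W, hW⟩ := univ f R
  have hWP : P ∣ W := by
    rw [← hker, hW E Ξ ![fv f Ξ 1, fv f Ξ 2], hR0, mul_zero]
    · exact div_mul_cancel₀ _ (hd 1)
    · exact div_mul_cancel₀ _ (hd 2)
  have hPP : aeval Ξ P = 0 := (hker P).mpr dvd_rfl
  -- the relation given by a tangent vector
  have tan : ∀ v : Fin 3 → E, ∑ i, aeval Ξ (pderiv i P) * v i = 0 →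
      ∑ i : Fin 2, aeval ![fv f Ξ 1, fv f Ξ 2] (pderiv i R) *
        (![(∑ j, aeval Ξ (Wd f 1 j) * v j) / aeval Ξ (f.den 1) ^ 2,
          (∑ j, aeval Ξ (Wd f 2 j) * v j) / aeval Ξ (f.den 2) ^ 2] : Fin 2 → E) i = 0 := by
    intro v hv
    set g : Fin 2 → E := ![fv f Ξ 1, fv f Ξ 2] with hg
    set w : Fin 2 → E := ![(∑ j, aeval Ξ (Wd f 1 j) * v j) / aeval Ξ (f.den 1) ^ 2,
          (∑ j, aeval Ξ (Wd f 2 j) * v j) / aeval Ξ (f.den 2) ^ 2] with hw
    have hP0 : aeval (dp Ξ v) P = 0 := by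
      apply TrivSqZeroExt.ext
      · rw [(dual Ξ v P).1, hPP, TrivSqZeroExt.fst_zero]
      · rw [(dual Ξ v P).2, hv, TrivSqZeroExt.snd_zero]
    have hW0 : aeval (dp Ξ v) W = 0 := by
      obtain ⟨Q, hQ⟩ := hWP
      rw [hQ, map_mul, hP0, zero_mul]
    have hstep : ∀ (i : Fin 3) (s : Fin 2), g s = fv f Ξ i →
        w s = (∑ j, aeval Ξ (Wd f i j) * v j) / aeval Ξ (f.den i) ^ 2 →
        dp g w s * aeval (dp Ξ v) (f.den i) = aeval (dp Ξ v) (f.num i) := by
      intro i s hgs hws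
      have hdi := hd i
      apply TrivSqZeroExt.ext
      · rw [TrivSqZeroExt.fst_mul, (dual Ξ v _).1, (dual Ξ v _).1, dp_fst, hgs]
        exact div_mul_cancel₀ _ hdi
      · rw [DualNumber.snd_mul, (dual Ξ v _).1, (dual Ξ v _).2, (dual Ξ v _).2, dp_fst, dp_snd,
          hgs, hws]
        have h1 : ∑ j, aeval Ξ (Wd f i j) * v j =
            (∑ j, aeval Ξ (pderiv j (f.num i)) * v j) * aeval Ξ (f.den i) -
              aeval Ξ (f.num i) * ∑ j, aeval Ξ (pderiv j (f.den i)) * v j := by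
          rw [Finset.sum_mul, Finset.mul_sum, ← Finset.sum_sub_distrib]
          apply Finset.sum_congr rfl
          intro j _
          unfold Wd
          rw [map_sub, map_mul, map_mul]
          ring
        rw [h1]
        unfold fv
        field_simp
        ring
    have h2 := hW (DualNumber E) (dp Ξ v) (dp g w) (hstep 1 0 rfl rfl) (hstep 2 1 rfl rfl)
    rw [hW0] at h2
    have h3 := congrArg TrivSqZeroExt.snd h2
    rw [DualNumber.snd_mul, (dual g w R).1, (dual g w R).2, hR0, mul_zero, add_zero,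
      TrivSqZeroExt.snd_zero] at h3
    have h4 : ((aeval (dp Ξ v) (f.den 1) * aeval (dp Ξ v) (f.den 2)) ^ N).fst ≠ 0 := by
      rw [TrivSqZeroExt.fst_pow, TrivSqZeroExt.fst_mul, (dual Ξ v _).1, (dual Ξ v _).1]
      exact pow_ne_zero _ (mul_ne_zero (hd 1) (hd 2))
    exact (mul_eq_zero.mp h3.symm).resolve_left h4
  have ht1 := tan ![-aeval Ξ (pderiv 1 P), aeval Ξ (pderiv 0 P), 0] (by
    rw [Fin.sum_univ_three]
    simp only [Matrix.cons_val_zero, Matrix.cons_val_one, Matrix.cons_val]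
    ring)
  have ht2 := tan ![-aeval Ξ (pderiv 2 P), 0, aeval Ξ (pderiv 0 P)] (by
    rw [Fin.sum_univ_three]
    simp only [Matrix.cons_val_zero, Matrix.cons_val_one, Matrix.cons_val]
    ring)
  set a : E := aeval ![fv f Ξ 1, fv f Ξ 2] (pderiv 0 R) with ha
  set b : E := aeval ![fv f Ξ 1, fv f Ξ 2] (pderiv 1 R) with hb
  rw [Fin.sum_univ_two, ← ha, ← hb] at ht1 ht2
  simp only [Fin.sum_univ_three, Matrix.cons_val_zero, Matrix.cons_val_one, Matrix.cons_val]
    at ht1 ht2
  have hwX : ∀ i j : Fin 3, aeval Ξ (wX P f i j) = aeval Ξ (pderiv 0 P) * aeval Ξ (Wd f i j) -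
      aeval Ξ (Wd f i 0) * aeval Ξ (pderiv j P) := by
    intro i j
    unfold wX
    rw [map_sub, map_mul, map_mul]
  have hJ' : aeval Ξ (wX P f 1 1) * aeval Ξ (wX P f 2 2) -
      aeval Ξ (wX P f 1 2) * aeval Ξ (wX P f 2 1) ≠ 0 := by
    intro h
    apply hJ
    rw [← hker]
    unfold jX
    rw [map_sub, map_mul, map_mul]
    exact h
  have hd1 := hd 1
  have hd2 := hd 2
  have e1 : a / aeval Ξ (f.den 1) ^ 2 * aeval Ξ (wX P f 1 1) +
      b / aeval Ξ (f.den 2) ^ 2 * aeval Ξ (wX P f 2 1) = 0 := by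
    rw [hwX, hwX, ← ht1]
    ring
  have e2 : a / aeval Ξ (f.den 1) ^ 2 * aeval Ξ (wX P f 1 2) +
      b / aeval Ξ (f.den 2) ^ 2 * aeval Ξ (wX P f 2 2) = 0 := by
    rw [hwX, hwX, ← ht2]
    ring
  have ha0 : a = 0 := by
    have h5 : a / aeval Ξ (f.den 1) ^ 2 * (aeval Ξ (wX P f 1 1) * aeval Ξ (wX P f 2 2) -
      aeval Ξ (wX P f 1 2) * aeval Ξ (wX P f 2 1)) = 0 := by
      linear_combination aeval Ξ (wX P f 2 2) * e1 - aeval Ξ (wX P f 2 1) * e2
    have h6 := (mul_eq_zero.mp h5).resolve_right hJ'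
    exact (div_eq_zero_iff.mp h6).resolve_right (pow_ne_zero _ hd1)
  have hb0 : b = 0 := by
    have h5 : b / aeval Ξ (f.den 2) ^ 2 * (aeval Ξ (wX P f 1 1) * aeval Ξ (wX P f 2 2) -
      aeval Ξ (wX P f 1 2) * aeval Ξ (wX P f 2 1)) = 0 := by
      linear_combination aeval Ξ (wX P f 1 1) * e2 - aeval Ξ (wX P f 1 2) * e1
    have h6 := (mul_eq_zero.mp h5).resolve_right hJ'
    exact (div_eq_zero_iff.mp h6).resolve_right (pow_ne_zero _ hd2)
  obtain ⟨i, hi⟩ := exists_pd ![fv f Ξ 1, fv f Ξ 2] R hR hR0 hmin'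
  have h7 := hmin' _ hi (by
    fin_cases i
    · exact ha0
    · exact hb0)
  exact absurd (deg_pderiv R i hi) (not_lt.mpr h7)

end DomM

/-- (X2) -/
theorem tDom : StmtDom := by
  intro κ _ _ P f hP hden hJ R hR
  obtain ⟨E, _, _, Ξ, hker⟩ := DomM.gen P hP
  obtain ⟨N, W, hW⟩ := DomM.univ f R
  have hd : ∀ i, aeval Ξ (f.den i) ≠ 0 := fun i h => hden i ((hker _).mp h)
  refine ⟨W, ?_, ?_⟩
  · rw [← hker, hW E Ξ ![fv f Ξ 1, fv f Ξ 2] (div_mul_cancel₀ _ (hd 1))
      (div_mul_cancel₀ _ (hd 2))]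
    exact mul_ne_zero (pow_ne_zero _ (mul_ne_zero (hd 1) (hd 2)))
      (DomM.indep P f Ξ hker hden hJ R hR)
  · intro L _ _ ξ hξ hWξ h0
    apply hWξ
    rw [hW L ξ ![fv f ξ 1, fv f ξ 2] (div_mul_cancel₀ _ (hξ 1)) (div_mul_cancel₀ _ (hξ 2)), h0,
      mul_zero]

end Pool.Agent.Lib.MP_16285c_agS.Hrx
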