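import Pool.Agent.Lib.MP_16285c_agS.Hrx.Spec
import Mathlib.RingTheory.Polynomial.Resultant.Basic
import Mathlib.RingTheory.Polynomial.GaussLemma

/-!
# MP_16285c_ag, Hrx: elimination (X1)
-/

set_option autoImplicit false

namespace Pool.Agent.Lib.MP_16285c_agS.Hrx

open MvPolynomial

namespace ElimM

theorem fin_rename {κ : Type} [Field κ] (R : MvPolynomial (Fin 2) κ) :
    finSuccEquiv κ 2 (rename Fin.succ R) = Polynomial.C R := by
  induction R using MvPolynomial.induction_on with
  | C a => simp [finSuccEquiv_apply]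
  | add p q hp hq => rw [map_add, map_add, hp, hq, map_add]
  | mul_X p i hp => rw [map_mul, map_mul, hp, rename_X, finSuccEquiv_X_succ, map_mul]

/-- degrees of a determinant -/
theorem degreeOf_det_le {κ : Type} [Field κ] {N d : ℕ} (M : Matrix (Fin N) (Fin N) (MvPolynomial (Fin 2) κ))
    (h : ∀ i j, (M i j).degreeOf 1 ≤ d) : M.det.degreeOf 1 ≤ N * d := by
  rw [Matrix.det_apply]
  refine (degreeOf_sum_le _ _ _).trans (Finset.sup_le fun σ _ => ?_)
  have h1 : ∀ (u : ℤˣ) (p : MvPolynomial (Fin 2) κ), (u • p).degreeOf 1 = p.degreeOf 1 := by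
    intro u p
    rcases Int.units_eq_one_or u with rfl | rfl
    · rw [one_smul]
    · rw [Units.neg_smul, one_smul, degreeOf_neg]
  rw [h1]
  refine (degreeOf_prod_le _ _ _).trans ?_
  refine (Finset.sum_le_card_nsmul _ _ d fun i _ => h _ _).trans ?_
  rw [Finset.card_univ, Fintype.card_fin, smul_eq_mul]

theorem partA (κ : Type) [Field κ] (P A : MvPolynomial (Fin 3) κ) (d : ℕ) (hP : Irreducible P)
    (hM : Mon P) (hd : P.totalDegree ≤ d) (hA : ¬ P ∣ A) (h2 : A.degreeOf 2 ≤ d)
    (h0 : A.degreeOf 0 ≤ d) :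
    ∃ R : MvPolynomial (Fin 2) κ, R ≠ 0 ∧ rename Fin.succ R ∈ Ideal.span {P, A} ∧
      R.degreeOf 1 ≤ 3 * d ^ 3 := by
  set p := finSuccEquiv κ 2 P with hp
  set a := finSuccEquiv κ 2 A with ha
  have hpm : p.Monic := hM
  have hpi : Irreducible p := (MulEquiv.irreducible_iff (finSuccEquiv κ 2)).2 hP
  have hδ : p.natDegree ≠ 0 := by
    intro h
    have h1 := Polynomial.eq_one_of_monic_natDegree_zero hpm h
    rw [h1] at hpi
    exact hpi.1 isUnit_one
  have hpa : ¬ p ∣ a := fun h => hA ((map_dvd_iff (finSuccEquiv κ 2)).1 h)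
  have hm : p.natDegree ≤ d := by
    rw [hp, natDegree_finSuccEquiv]
    exact (degreeOf_le_totalDegree _ _).trans hd
  have hn : a.natDegree ≤ d := by
    rw [ha, natDegree_finSuccEquiv]
    exact h0
  have hd1 : 1 ≤ d := by omega
  refine ⟨Polynomial.resultant p a, ?_, ?_, ?_⟩
  · intro hR
    set K := FractionRing (MvPolynomial (Fin 2) κ)
    set φ := algebraMap (MvPolynomial (Fin 2) κ) K
    have hφ : Function.Injective φ := IsFractionRing.injective _ _
    have h3 : Irreducible (p.map φ) := (hpm.irreducible_iff_irreducible_map_fraction_map).1 hpi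
    have h4 : ¬ p.map φ ∣ a.map φ := fun h =>
      hpa ((Polynomial.map_dvd_map φ hφ hpm).1 h)
    have h5 : IsCoprime (p.map φ) (a.map φ) := (h3.coprime_iff_not_dvd).2 h4
    have h6 := Polynomial.resultant_ne_zero _ _ h5
    rw [Polynomial.natDegree_map_eq_of_injective hφ, Polynomial.natDegree_map_eq_of_injective hφ,
      Polynomial.resultant_map_map, hR, map_zero] at h6
    exact h6 rfl
  · obtain ⟨u, v, -, -, h3⟩ := Polynomial.exists_mul_add_mul_eq_C_resultant p a le_rfl le_rfl
      (Or.inl hδ)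
    rw [Ideal.mem_span_pair]
    refine ⟨(finSuccEquiv κ 2).symm u, (finSuccEquiv κ 2).symm v, ?_⟩
    apply (finSuccEquiv κ 2).injective
    rw [fin_rename, map_add, map_mul, map_mul, AlgEquiv.apply_symm_apply,
      AlgEquiv.apply_symm_apply, ← h3, mul_comm u, mul_comm v]
  · have h3 : ∀ i j, ((Polynomial.sylvester p a p.natDegree a.natDegree) i j).degreeOf 1 ≤ d := by
      intro i j
      rw [Polynomial.sylvester, Matrix.of_apply]
      induction j using Fin.addCases with
      | left j =>
        rw [Fin.addCases_left]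
        split_ifs
        · exact (degreeOf_coeff_finSuccEquiv A 1 _).trans h2
        · simp
      | right j =>
        rw [Fin.addCases_right]
        split_ifs
        · exact ((degreeOf_coeff_finSuccEquiv P 1 _).trans (degreeOf_le_totalDegree _ _)).trans hd
        · simp
    have h4 := degreeOf_det_le _ h3
    rw [Polynomial.resultant]
    refine h4.trans ?_
    have h5 : (p.natDegree + a.natDegree) * d ≤ (2 * d) * d := Nat.mul_le_mul_right _ (by omega)
    have h6 : (2 * d) * d ≤ 3 * d ^ 3 := by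
      have : d ^ 2 ≤ d ^ 3 := Nat.pow_le_pow_right hd1 (by norm_num)
      nlinarith
    exact h5.trans h6

end ElimM

/-- **X1**, elimination. -/
theorem tElim : StmtElim := by
  refine ⟨fun κ _ P A d => ElimM.partA κ P A d, ?_⟩
  intro κ _ P hP hM L _ _ ξ hξ hind A
  constructor
  · intro hA
    by_contra hPA
    obtain ⟨R, hR0, hR, -⟩ := ElimM.partA κ P A
      (max P.totalDegree (max (A.degreeOf 2) (A.degreeOf 0))) hP hM (le_max_left _ _) hPA
      ((le_max_left _ _).trans (le_max_right _ _)) ((le_max_right _ _).trans (le_max_right _ _))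
    obtain ⟨u, v, huv⟩ := Ideal.mem_span_pair.1 hR
    have h1 : aeval ξ (rename Fin.succ R) = 0 := by
      rw [← huv, map_add, map_mul, map_mul, hξ, hA, mul_zero, mul_zero, add_zero]
    rw [aeval_rename] at h1
    have h2 : ξ ∘ Fin.succ = ![ξ 1, ξ 2] := by
      funext i
      fin_cases i <;> rfl
    rw [h2] at h1
    exact hR0 (hind (by rw [h1, map_zero]))
  · rintro ⟨B, rfl⟩
    rw [map_mul, hξ, zero_mul]

end Pool.Agent.Lib.MP_16285c_agS.Hrx
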