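import Pool.Agent.Lib.MP_16285c_agS.Hrx.Spec
import Pool.Agent.Lib.MP_7f581e_Z.Crv.Places

/-!
# (X15) From a good place to a Frobenius point
-/

set_option autoImplicit false

namespace Pool.Agent.Lib.MP_16285c_agS.Hrx

open MP7Z MvPolynomial
open Pool.Agent.Lib.MP_16285c_ag (RM FrobPt)

namespace GoodM

variable {k E : Type} [Field k] [IsAlgClosed k] [Field E] [Algebra k E]

/-- Residues of the values of the polynomials at a point without poles. -/
theorem key {n : ℕ} (v : Place k E) (ξ : Fin n → E) (a : Fin n → k)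
    (h0 : ∀ i, 0 ≤ v.ord (ξ i)) (h1 : ∀ i, 0 < v.ord (ξ i - algebraMap k E (a i)))
    (A : MvPolynomial (Fin n) k) : 0 ≤ v.ord (aeval ξ A) ∧
      0 < v.ord (aeval ξ A - algebraMap k E (eval a A)) := by
  induction A using MvPolynomial.induction_on with
  | C c =>
    rw [aeval_C, eval_C, sub_self, AddValuation.map_zero]
    exact ⟨v.const c, WithTop.coe_lt_top 0⟩
  | add p q hp hq =>
    have e1 : aeval ξ (p + q) = aeval ξ p + aeval ξ q := map_add _ _ _
    have e2 : algebraMap k E (eval a (p + q)) =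
        algebraMap k E (eval a p) + algebraMap k E (eval a q) := by
      rw [← map_add, map_add]
    rw [e1, e2]
    refine ⟨le_trans (le_min hp.1 hq.1) (v.ord.map_add _ _), ?_⟩
    have e : aeval ξ p + aeval ξ q - (algebraMap k E (eval a p) + algebraMap k E (eval a q)) =
        (aeval ξ p - algebraMap k E (eval a p)) + (aeval ξ q - algebraMap k E (eval a q)) := by
      ring
    rw [e]
    exact lt_of_lt_of_le (lt_min hp.2 hq.2) (v.ord.map_add _ _)
  | mul_X p i hp =>
    have e1 : aeval ξ (p * X i) = aeval ξ p * ξ i := by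
      rw [map_mul, aeval_X]
    have e2 : algebraMap k E (eval a (p * X i)) =
        algebraMap k E (eval a p) * algebraMap k E (a i) := by
      rw [← map_mul, eval_mul, eval_X]
    rw [e1, e2]
    refine ⟨?_, ?_⟩
    · rw [AddValuation.map_mul]
      exact add_nonneg hp.1 (h0 i)
    have e : aeval ξ p * ξ i - algebraMap k E (eval a p) * algebraMap k E (a i) =
        (aeval ξ p - algebraMap k E (eval a p)) * ξ i + algebraMap k E (eval a p) *
          (ξ i - algebraMap k E (a i)) := by
      ring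
    rw [e]
    refine lt_of_lt_of_le (lt_min ?_ ?_) (v.ord.map_add _ _)
    · rw [AddValuation.map_mul]
      exact add_pos_of_pos_of_nonneg hp.2 (h0 i)
    · rw [AddValuation.map_mul, add_comm]
      exact add_pos_of_pos_of_nonneg (h1 i) (v.const _)

theorem zero_iff {n : ℕ} (v : Place k E) (ξ : Fin n → E) (a : Fin n → k)
    (h0 : ∀ i, 0 ≤ v.ord (ξ i)) (h1 : ∀ i, 0 < v.ord (ξ i - algebraMap k E (a i)))
    (A : MvPolynomial (Fin n) k) : eval a A = 0 ↔ 0 < v.ord (aeval ξ A) := by
  have hk := key v ξ a h0 h1 A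
  constructor
  · intro hA
    have h2 := hk.2
    rwa [hA, map_zero, sub_zero] at h2
  · intro hA
    by_contra hne
    have h2 := v.ord_const hne
    have e : algebraMap k E (eval a A) =
        aeval ξ A + -(aeval ξ A - algebraMap k E (eval a A)) := by
      ring
    rw [e] at h2
    have h3 : 0 < v.ord (aeval ξ A + -(aeval ξ A - algebraMap k E (eval a A))) := by
      refine lt_of_lt_of_le (lt_min hA ?_) (v.ord.map_add _ _)
      rw [AddValuation.map_neg]
      exact hk.2
    rw [h2] at h3
    exact lt_irrefl _ h3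

theorem pl_nonneg (v : Place k E) (h : E) : 0 ≤ pl v h := le_max_right _ _

theorem zr_nonneg (v : Place k E) (h : E) : 0 ≤ zr v h := le_max_right _ _

theorem ord_of_pl (v : Place k E) (h : E) (hp : pl v h ≤ 0) : 0 ≤ v.ord h := by
  rcases eq_or_ne h 0 with rfl | h0
  · rw [AddValuation.map_zero]
    exact le_top
  · rw [v.nonneg_iff h0]
    have h1 : -(v.oz h) ≤ pl v h := le_max_left _ _
    linarith

theorem ord_of_zr (v : Place k E) (h : E) (h0 : h ≠ 0) (hp : zr v h ≤ 0) : ¬ 0 < v.ord h := by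
  rw [v.pos_iff h0]
  have h1 : v.oz h ≤ zr v h := le_max_left _ _
  linarith

end GoodM

open GoodM

/-- (X15) From a good place to a Frobenius point. -/
theorem tGood : StmtGood := by
  intro κ L _ _ _ _ _ P B f ξ q v hP hden hB h1 hpl hom hg2 hg0
  have hs0 : 0 ≤ ∑ i, zr v (aeval ξ (f.den i)) := Finset.sum_nonneg fun i _ => zr_nonneg v _
  have hp1 := pl_nonneg v (ξ 1)
  have hp2 := pl_nonneg v (ξ 2)
  have hzB := zr_nonneg v (aeval ξ B)
  have hom' : pl v (ξ 1) + pl v (ξ 2) + ∑ i, zr v (aeval ξ (f.den i)) + zr v (aeval ξ B) = 0 := hom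
  have hq1 : pl v (ξ 1) = 0 := by linarith
  have hq2 : pl v (ξ 2) = 0 := by linarith
  have hqB : zr v (aeval ξ B) = 0 := by linarith
  have hqs : ∑ i, zr v (aeval ξ (f.den i)) = 0 := by linarith
  have hqd : ∀ i, zr v (aeval ξ (f.den i)) = 0 := fun i =>
    (Finset.sum_eq_zero_iff_of_nonneg fun i _ => zr_nonneg v _).1 hqs i (Finset.mem_univ i)
  have hq0 : pl v (ξ 0) ≤ 0 := by
    rw [hq1, hq2, add_zero, mul_zero] at hpl
    exact hpl
  have h0 : ∀ i, 0 ≤ v.ord (ξ i) := by
    intro i
    fin_cases i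
    · exact ord_of_pl v _ hq0
    · exact ord_of_pl v _ hq1.le
    · exact ord_of_pl v _ hq2.le
  choose a ha using fun i => MP7Z.exists_const v (h0 i)
  have hz := zero_iff v ξ a h0 ha
  refine ⟨a, ?_, ?_, ?_⟩
  · rw [hz, hP, AddValuation.map_zero]
    exact WithTop.coe_lt_top 0
  · intro i
    refine ⟨fun h => ord_of_zr v _ (hden i) (hqd i).le ((hz _).1 h), ?_⟩
    have hval : aeval ξ (X i ^ q * f.den i - f.num i) =
        ξ i ^ q * aeval ξ (f.den i) - aeval ξ (f.num i) := by
      rw [map_sub, map_mul, map_pow, aeval_X]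
    have hfac : ξ i ^ q * aeval ξ (f.den i) - aeval ξ (f.num i) =
        (ξ i ^ q - fv f ξ i) * aeval ξ (f.den i) := by
      rw [fv, sub_mul, div_mul_cancel₀ _ (hden i)]
    have hmain : eval a (X i ^ q * f.den i - f.num i) = 0 := by
      rw [hz, hval]
      have hcase : ∀ j, 0 < v.ord (ξ j ^ q - fv f ξ j) → 0 < v.ord ((ξ j ^ q - fv f ξ j) *
          aeval ξ (f.den j)) := by
        intro j hj
        rw [AddValuation.map_mul]
        exact add_pos_of_pos_of_nonneg hj (key v ξ a h0 ha (f.den j)).1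
      fin_cases i
      · rw [hfac]
        exact hcase 0 hg0
      · have e : ξ 1 ^ q * aeval ξ (f.den 1) - aeval ξ (f.num 1) = 0 := by
          rw [h1, sub_self]
        show 0 < v.ord (ξ 1 ^ q * aeval ξ (f.den 1) - aeval ξ (f.num 1))
        rw [e, AddValuation.map_zero]
        exact WithTop.coe_lt_top 0
      · rw [hfac]
        exact hcase 2 hg2
    rw [map_sub, map_mul, map_pow, eval_X, sub_eq_zero] at hmain
    exact hmain
  · exact fun h => ord_of_zr v _ hB hqB.le ((hz _).1 h)

end Pool.Agent.Lib.MP_16285c_agS.Hrx
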