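import Pool.Agent.Lib.MP_16285c_agS.Hrx.Spec

/-!
# The counting argument (X16)
-/

set_option autoImplicit false

namespace Pool.Agent.Lib.MP_16285c_agS.Hrx

open MP7Z MvPolynomial
open scoped IntermediateField
open Pool.Agent.Lib.MP_16285c_ag (RM FrobPt)
open Pool.Agent.Lib.MP_16285c_agZ.Hru (Zn Pn Sit SDer SSepH SPrd SBd SLoc SPn SRes SFld)
open Pool.Agent.Lib.MP_16285c_agS.Bez (sp StmtBert3 StmtFib3)

namespace MainM

section

variable {k E : Type} [Field k] [Field E] [Algebra k E]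

private theorem oz_zero (v : Place k E) : v.oz (0 : E) = 0 := by
  unfold Place.oz
  simp

variable [IsAlgClosed k] [IsCurveField k E]

private theorem supp_oz (h : E) : {v : Place k E | v.oz h ≠ 0}.Finite := by
  rcases eq_or_ne h 0 with rfl | h0
  · have : {v : Place k E | v.oz (0 : E) ≠ 0} = ∅ := by
      ext v
      simp [oz_zero]
    rw [this]
    exact Set.finite_empty
  · refine (finite_ord_ne h0).subset ?_
    intro v hv h1
    apply hv
    have h3 := v.ord_eq h0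
    rw [h1] at h3
    exact (WithTop.coe_inj.1 h3.symm)

/-- All the numbers of zeros and poles of finitely many functions are sums over one finite set of places. -/
private theorem exists_fin (l : Finset E) : ∃ T : Finset (Place k E), ∀ h ∈ l,
    Pn k h = ∑ v ∈ T, pl v h ∧ Zn k h = ∑ v ∈ T, zr v h := by
  classical
  have hfin : (⋃ h ∈ l, {v : Place k E | v.oz h ≠ 0}).Finite :=
    l.finite_toSet.biUnion fun h _ => supp_oz h
  refine ⟨hfin.toFinset, fun h hh => ?_⟩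
  have hsub : ∀ v : Place k E, v.oz h ≠ 0 → v ∈ (hfin.toFinset : Set (Place k E)) := by
    intro v hv
    rw [Set.Finite.coe_toFinset]
    exact Set.mem_biUnion (Finset.mem_coe.2 hh) hv
  constructor
  · unfold Pn
    refine finsum_eq_sum_of_support_subset _ ?_
    intro v hv
    rw [Function.mem_support] at hv
    refine hsub v fun h0 => hv ?_
    rw [h0]
    simp
  · unfold Zn
    refine finsum_eq_sum_of_support_subset _ ?_
    intro v hv
    rw [Function.mem_support] at hv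
    refine hsub v fun h0 => hv ?_
    rw [h0]
    simp

end

/-- The values at the point `ξ ^ q`. -/
private theorem aeval_pow {κ L : Type} [Field κ] [Field L] [Algebra κ L] (p : ℕ) [Fact p.Prime] [CharP κ p]
    (P : MvPolynomial (Fin 3) κ) (ξ : Fin 3 → L) (s : ℕ) (hP : map (iterateFrobenius κ p s) P = P) :
    aeval (fun i => ξ i ^ p ^ s) P = (aeval ξ P) ^ p ^ s := by
  have h5 : P ^ p ^ s = bind₁ (fun i => X i ^ p ^ s) P := by
    have h6 := map_iterateFrobenius_expand p P s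
    rw [map_expand, hP] at h6
    rw [← h6, expand]
  rw [← map_pow, h5, aeval_bind₁]
  congr 2
  funext i
  rw [map_pow, aeval_X]

end MainM

open MainM in
/-- (X16) -/
theorem tMain : SPrd → SPn → StmtPnMv → StmtCvL → StmtCvD → StmtCvH → StmtUniv → StmtNrm → StmtPt → StmtGood →
    StmtMain := by
  intro hPrd hSPn hPn _ hCvD hCvH hUniv hNrm hPt hGood κ _ _ p _ _ P B f c hirr hmon hkeep
  obtain ⟨n, CU, -, hU⟩ := hUniv κ P hirr hmon
  obtain ⟨CD, hD⟩ := hCvD κ P f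
  obtain ⟨CH, hH⟩ := hCvH κ P f hirr hmon
  obtain ⟨CN, hN⟩ := hNrm κ P hirr hmon n CU
  set D : ℕ := (f.num 0).totalDegree + (f.num 2).totalDegree +
    (f.den 0).totalDegree + (f.den 1).totalDegree + (f.den 2).totalDegree + B.totalDegree + CD + 1 with hDdef
  set K : ℕ := D * (CH + 2) with hK
  set C₃ : ℕ := (CU + n) * (3 * K) + 2 * (n * K) + n * c * (4 * K) with hC₃
  refine ⟨CH + CN * (3 * K + C₃) + 1, ?_⟩
  intro L _ _ _ ξ x δ s hCv hB hder hirrS hfix hq
  by_contra hcon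
  set q : ℕ := p ^ s with hqdef
  have hq1 : 1 ≤ q := by omega
  obtain ⟨hadd, hmul, hpow, hinv, -, hnn, -⟩ := hSPn κ L
  have hZP := (hPrd κ L x δ hCv.sit).1
  obtain ⟨hδ, hδle⟩ := hD L ξ x δ q c hCv
  obtain ⟨hloc, hh1, hP0, hP1, hqP1⟩ := hH L ξ x δ q c hCv (by omega)
  have hη : ξ 1 ^ q = fv f ξ 1 := by
    unfold fv
    rw [← hCv.h1, mul_div_assoc, div_self (hCv.hden 1), mul_one]
  have hvec : (![fv f ξ 0, ξ 1 ^ q, fv f ξ 2] : Fin 3 → L) = fv f ξ := by
    funext i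
    fin_cases i
    · rfl
    · exact hη
    · rfl
  have hkp : aeval (fv f ξ) P = 0 := hkeep L ξ hCv.hP hCv.hden
  obtain ⟨A, A', H, hWt, hdeg, hCf, hCf', hEq, hnc⟩ := hU L (ξ 1 ^ q) (fv f ξ 2) (fv f ξ 0)
    (by rw [hvec]; exact hkp) (by rw [hvec]; exact hder)
  have hF : aeval (fun i => ξ i ^ q) P = 0 := by
    rw [hqdef, aeval_pow p P ξ s hfix, hCv.hP, zero_pow]
    exact (pow_pos (Fact.out : p.Prime).pos s).ne'
  set g : L := ξ 2 ^ q - fv f ξ 2 with hg
  have hg0 : g ≠ 0 := by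
    intro h
    rw [h, map_zero] at hδ
    exact hδ rfl
  set W : L := (A.map (Polynomial.evalRingHom (ξ 2 ^ q))).eval (ξ 0 ^ q) with hW
  -- the local estimate
  have hlocal : ∀ v : Place κ L, pl v (W / g ^ n) ≤
        (CU + n) * (pl v (ξ 1 ^ q) + pl v (fv f ξ 2) + pl v (fv f ξ 0)) + n * pl v (ξ 1 ^ q) +
          n * zr v (δ g) + n * c * om f B ξ v := by
    intro v
    refine hPt κ L P B f ξ x δ q c n CU A A' H hCv hq1 hB hF hloc hδ hWt hCf hCf' hEq v ?_
    intro hom hv hv'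
    exact hcon (hGood κ L P B f ξ q v hCv.hP hCv.hden hB hCv.h1 (hloc v) hom hv hv')
  -- the sum
  classical
  obtain ⟨T, hT⟩ := exists_fin (k := κ) ({W / g ^ n, ξ 1 ^ q, fv f ξ 2, fv f ξ 0, δ g, ξ 1, ξ 2,
    aeval ξ (f.den 0), aeval ξ (f.den 1), aeval ξ (f.den 2), aeval ξ B} : Finset L)
  have hTu := (hT (W / g ^ n) (by simp)).1
  have hTη := (hT (ξ 1 ^ q) (by simp)).1
  have hTx := (hT (fv f ξ 2) (by simp)).1
  have hTz := (hT (fv f ξ 0) (by simp)).1
  have hTd := (hT (δ g) (by simp)).2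
  have hT1 := (hT (ξ 1) (by simp)).1
  have hT2 := (hT (ξ 2) (by simp)).1
  have hTd0 := (hT (aeval ξ (f.den 0)) (by simp)).2
  have hTd1 := (hT (aeval ξ (f.den 1)) (by simp)).2
  have hTd2 := (hT (aeval ξ (f.den 2)) (by simp)).2
  have hTB := (hT (aeval ξ B) (by simp)).2
  have hsum : Pn κ (W / g ^ n) ≤
      (CU + n) * (Pn κ (ξ 1 ^ q) + Pn κ (fv f ξ 2) + Pn κ (fv f ξ 0)) + n * Pn κ (ξ 1 ^ q) +
        n * Zn κ (δ g) + n * c * (Pn κ (ξ 1) + Pn κ (ξ 2) + (Zn κ (aeval ξ (f.den 0)) +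
          Zn κ (aeval ξ (f.den 1)) + Zn κ (aeval ξ (f.den 2))) + Zn κ (aeval ξ B)) := by
    rw [hTu, hTη, hTx, hTz, hTd, hT1, hT2, hTd0, hTd1, hTd2, hTB]
    refine (Finset.sum_le_sum fun v _ => hlocal v).trans (le_of_eq ?_)
    simp only [om, Fin.sum_univ_three, Finset.sum_add_distrib, ← Finset.mul_sum]
  -- the bounds
  set h : ℤ := Pn κ (ξ 2) with hh
  have hh0 : 0 ≤ h := by omega
  have hS : Pn κ (ξ 0) + Pn κ (ξ 1) + Pn κ (ξ 2) ≤ (CH + 2) * h := by
    have e : ((CH : ℤ) + 2) * h = CH * h + h + h := by ring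
    rw [e]
    exact add_le_add (add_le_add hP0 hP1) le_rfl
  have hSA : ∀ A : MvPolynomial (Fin 3) κ, Pn κ (aeval ξ A) ≤ A.totalDegree * ((CH + 2) * h) := by
    intro A
    have h1 := (hPn κ L 3 ξ A).2
    rw [Fin.sum_univ_three] at h1
    exact h1.trans (mul_le_mul_of_nonneg_left hS (Int.natCast_nonneg _))
  have hfv : ∀ i, Pn κ (fv f ξ i) ≤ ((f.num i).totalDegree + (f.den i).totalDegree) * ((CH + 2) * h) := by
    intro i
    unfold fv
    rw [div_eq_mul_inv]
    refine (hmul _ _).trans ?_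
    rw [hinv, hZP, add_mul]
    exact add_le_add (hSA _) (hSA _)
  have hbase : 0 ≤ ((CH : ℤ) + 2) * h := mul_nonneg (by positivity) hh0
  have hKh : ((K : ℤ)) * h = D * ((CH + 2) * h) := by
    rw [hK]
    push_cast
    ring
  have hDcast : (D : ℤ) = (f.num 0).totalDegree + (f.num 2).totalDegree +
    (f.den 0).totalDegree + (f.den 1).totalDegree + (f.den 2).totalDegree + B.totalDegree + CD + 1 := by
    rw [hDdef]
    push_cast
    ring
  have hle : ∀ m : ℤ, m ≤ D → m * ((CH + 2) * h) ≤ K * h := by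
    intro m hm
    rw [hKh]
    exact mul_le_mul_of_nonneg_right hm hbase
  have n1 : (0 : ℤ) ≤ (f.num 0).totalDegree := Int.natCast_nonneg _
  have n2 : (0 : ℤ) ≤ (f.num 2).totalDegree := Int.natCast_nonneg _
  have n3 : (0 : ℤ) ≤ (f.den 0).totalDegree := Int.natCast_nonneg _
  have n4 : (0 : ℤ) ≤ (f.den 1).totalDegree := Int.natCast_nonneg _
  have n5 : (0 : ℤ) ≤ (f.den 2).totalDegree := Int.natCast_nonneg _
  have n6 : (0 : ℤ) ≤ B.totalDegree := Int.natCast_nonneg _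
  have n7 : (0 : ℤ) ≤ CD := Int.natCast_nonneg _
  have n8 : (0 : ℤ) ≤ (CH : ℤ) * h := mul_nonneg (Int.natCast_nonneg _) hh0
  have hCHh : ((CH : ℤ) + 2) * h ≤ K * h := by
    have h1 := hle 1 (by linarith only [hDcast, n1, n2, n3, n4, n5, n6, n7])
    rwa [one_mul] at h1
  have hexp : ((CH : ℤ) + 2) * h = CH * h + 2 * h := by ring
  have b1 : Pn κ (ξ 1 ^ q) ≤ K * h := by
    rw [hpow]
    refine hqP1.trans ?_
    linarith only [hCHh, hexp, hh0]
  have b2 : Pn κ (fv f ξ 2) ≤ K * h := (hfv 2).trans (hle _ (by linarith only [hDcast, n1, n2, n3, n4, n5, n6, n7]))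
  have b3 : Pn κ (fv f ξ 0) ≤ K * h := (hfv 0).trans (hle _ (by linarith only [hDcast, n1, n2, n3, n4, n5, n6, n7]))
  have b4 : Zn κ (δ g) ≤ K * h := by
    rw [hZP]
    refine hδle.trans ?_
    refine (mul_le_mul_of_nonneg_left hS (Int.natCast_nonneg _)).trans ?_
    exact hle _ (by linarith only [hDcast, n1, n2, n3, n4, n5, n6, n7])
  have b5 : Pn κ (ξ 1) ≤ K * h := by
    refine hP1.trans ?_
    linarith only [hCHh, hexp, hh0, n8]
  have b6 : h ≤ K * h := by linarith only [hCHh, hexp, hh0, n8]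
  have b7 : Zn κ (aeval ξ (f.den 0)) + Zn κ (aeval ξ (f.den 1)) + Zn κ (aeval ξ (f.den 2)) ≤ K * h := by
    rw [hZP, hZP, hZP]
    have h1 := hSA (f.den 0)
    have h2 := hSA (f.den 1)
    have h3 := hSA (f.den 2)
    have h4 := hle ((f.den 0).totalDegree + (f.den 1).totalDegree + (f.den 2).totalDegree)
      (by linarith only [hDcast, n1, n2, n3, n4, n5, n6, n7])
    linarith only [h1, h2, h3, h4]
  have b8 : Zn κ (aeval ξ B) ≤ K * h := by
    rw [hZP]
    exact (hSA B).trans (hle _ (by linarith only [hDcast, n1, n2, n3, n4, n5, n6, n7]))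
  have hu : Pn κ (W / g ^ n) ≤ C₃ * h := by
    refine hsum.trans ?_
    have e1 : ((CU : ℤ) + n) * (Pn κ (ξ 1 ^ q) + Pn κ (fv f ξ 2) + Pn κ (fv f ξ 0)) ≤
        (CU + n) * (3 * (K * h)) := mul_le_mul_of_nonneg_left (by linarith only [b1, b2, b3]) (by positivity)
    have e2 : (n : ℤ) * Pn κ (ξ 1 ^ q) ≤ n * (K * h) := mul_le_mul_of_nonneg_left b1 (by positivity)
    have e3 : (n : ℤ) * Zn κ (δ g) ≤ n * (K * h) := mul_le_mul_of_nonneg_left b4 (by positivity)
    have e4 : (n : ℤ) * c * (Pn κ (ξ 1) + h + (Zn κ (aeval ξ (f.den 0)) +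
          Zn κ (aeval ξ (f.den 1)) + Zn κ (aeval ξ (f.den 2))) + Zn κ (aeval ξ B)) ≤
        n * c * (4 * (K * h)) := mul_le_mul_of_nonneg_left (by linarith only [b5, b6, b7, b8]) (by positivity)
    have e5 : (C₃ : ℤ) * h = (CU + n) * (3 * (K * h)) + 2 * (n * (K * h)) + n * c * (4 * (K * h)) := by
      rw [hC₃]
      push_cast
      ring
    linarith only [e1, e2, e3, e4, e5]
  have hfin := hN L x δ hCv.sit (ξ 1 ^ q) (fv f ξ 2) (fv f ξ 0) (W / g ^ n) (ξ 2 ^ q) (ξ 0 ^ q) A hirrS hCf hWt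
    hdeg hnc (by
      have e2 : (![ξ 0 ^ q, ξ 1 ^ q, ξ 2 ^ q] : Fin 3 → L) = fun i => ξ i ^ q := by
        funext i
        fin_cases i <;> rfl
      rw [e2]
      exact hF) (by
      rw [div_mul_cancel₀ _ (pow_ne_zero n hg0)])
  rw [hpow] at hfin
  have h1 : (q : ℤ) * h ≤ CN * (3 * K + C₃) * h := by
    refine hfin.trans ?_
    have h2 : Pn κ (ξ 1 ^ q) + Pn κ (fv f ξ 2) + Pn κ (fv f ξ 0) + Pn κ (W / g ^ n) ≤ (3 * K + C₃) * h := by
      have e6 : (3 * (K : ℤ) + C₃) * h = 3 * (K * h) + C₃ * h := by ring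
      linarith only [b1, b2, b3, hu, e6]
    refine (mul_le_mul_of_nonneg_left h2 (Int.natCast_nonneg _)).trans (le_of_eq (by ring))
  have h2 : ((CH + CN * (3 * K + C₃) + 1 : ℕ) : ℤ) ≤ q := by exact_mod_cast hq
  push_cast at h2
  have h3 : (((CH : ℤ) + CN * (3 * K + C₃) + 1)) * h ≤ q * h := mul_le_mul_of_nonneg_right h2 hh0
  have h5 : (((CH : ℤ) + CN * (3 * K + C₃) + 1)) * h = CH * h + CN * (3 * K + C₃) * h + h := by ring
  linarith only [h1, h3, h5, n8, hh1]

end Pool.Agent.Lib.MP_16285c_agS.Hrx
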