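import Pool.Agent.Lib.MP_16285c_agS.Hrx.Spec

/-!
# (X9): the kernel of a matrix is spanned by vectors of minors
-/

set_option autoImplicit false

namespace Pool.Agent.Lib.MP_16285c_agS.Hrx

namespace MinM

open Matrix

variable {L : Type} [Field L] {a b : ℕ} (M : Matrix (Fin a) (Fin b) L)

/-- There is a nonzero minor of size `r`. -/
def Nz (r : ℕ) : Prop :=
  ∃ (I : Fin r → Fin a) (J : Fin r → Fin b), (M.submatrix I J).det ≠ 0

theorem inj_row {r : ℕ} {I : Fin r → Fin a} {J : Fin r → Fin b} (h : (M.submatrix I J).det ≠ 0) :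
    Function.Injective I := by
  intro x y hxy
  by_contra hne
  exact h (Matrix.det_zero_of_row_eq hne (by ext k; simp only [Matrix.submatrix_apply, hxy]))

theorem inj_col {r : ℕ} {I : Fin r → Fin a} {J : Fin r → Fin b} (h : (M.submatrix I J).det ≠ 0) :
    Function.Injective J := by
  intro x y hxy
  by_contra hne
  exact h (Matrix.det_zero_of_column_eq hne (by intro k; simp only [Matrix.submatrix_apply, hxy]))

theorem nz_le {r : ℕ} (h : Nz M r) : r ≤ a := by
  obtain ⟨I, J, hd⟩ := h
  have := Fintype.card_le_of_injective I (inj_row M hd)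
  simpa only [Fintype.card_fin] using this

theorem nz_zero : Nz M 0 := by
  refine ⟨fun x => x.elim0, fun x => x.elim0, ?_⟩
  rw [Matrix.det_fin_zero]
  exact one_ne_zero

/-- The bordered determinant. -/
theorem border {r : ℕ} {I : Fin r → Fin a} {J : Fin r → Fin b} (h : (M.submatrix I J).det ≠ 0)
    (hn : ¬ Nz M (r + 1)) (i : Fin a) (c : Fin b) :
    M i c * (M.submatrix I J).det =
      ∑ j, M i (J j) * Matrix.cramer (M.submatrix I J) (fun k => M (I k) c) j := by
  set A : Matrix (Fin r) (Fin r) L := M.submatrix I J with hA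
  have hu : IsUnit A.det := isUnit_iff_ne_zero.mpr h
  let _ : Invertible A := Matrix.invertibleOfIsUnitDet A hu
  let B : Matrix (Fin r) (Fin 1) L := Matrix.of fun k _ => M (I k) c
  let C : Matrix (Fin 1) (Fin r) L := Matrix.of fun _ j => M i (J j)
  let D : Matrix (Fin 1) (Fin 1) L := Matrix.of fun _ _ => M i c
  have h1 : (Matrix.fromBlocks A B C D).det = 0 := by
    have h2 : Matrix.fromBlocks A B C D =
        M.submatrix (Sum.elim I fun _ : Fin 1 => i) (Sum.elim J fun _ : Fin 1 => c) := by
      ext x y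
      rcases x with x | x <;> rcases y with y | y <;> rfl
    rw [h2, ← Matrix.det_submatrix_equiv_self (finSumFinEquiv (m := r) (n := 1)).symm]
    by_contra hne
    exact hn ⟨(Sum.elim I fun _ : Fin 1 => i) ∘ (finSumFinEquiv (m := r) (n := 1)).symm,
      (Sum.elim J fun _ : Fin 1 => c) ∘ (finSumFinEquiv (m := r) (n := 1)).symm, hne⟩
  rw [Matrix.det_fromBlocks₁₁] at h1
  have h3 : (D - C * ⅟A * B).det = 0 := (mul_eq_zero.mp h1).resolve_left h
  rw [Matrix.det_fin_one, Matrix.sub_apply, sub_eq_zero, Matrix.mul_assoc, Matrix.mul_apply] at h3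
  have h4 : Matrix.cramer A (fun k => M (I k) c) = A.det • (⅟A *ᵥ fun k => M (I k) c) := by
    have h5 := Matrix.mulVec_cramer A (fun k => M (I k) c)
    have h6 : ⅟A *ᵥ (A *ᵥ Matrix.cramer A (fun k => M (I k) c)) =
        ⅟A *ᵥ (A.det • fun k => M (I k) c) := by rw [h5]
    rw [Matrix.mulVec_mulVec, invOf_mul_self, Matrix.one_mulVec, Matrix.mulVec_smul] at h6
    exact h6
  have h7 : M i c = ∑ j, M i (J j) * (⅟A *ᵥ fun k => M (I k) c) j := h3
  rw [h4, h7, Finset.sum_mul]
  refine Finset.sum_congr rfl fun j _ => ?_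
  rw [Pi.smul_apply, smul_eq_mul]
  ring

/-- The vector of minors belonging to the column `c`. -/
noncomputable def wv {r : ℕ} (I : Fin r → Fin a) (J : Fin r → Fin b) (c : Fin b) : Fin b → L :=
  fun k => (if k = c then (M.submatrix I J).det else 0) -
    ∑ j, if k = J j then Matrix.cramer (M.submatrix I J) (fun l => M (I l) c) j else 0

theorem wv_ker {r : ℕ} {I : Fin r → Fin a} {J : Fin r → Fin b} (h : (M.submatrix I J).det ≠ 0)
    (hn : ¬ Nz M (r + 1)) (c : Fin b) : M *ᵥ wv M I J c = 0 := by
  ext i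
  rw [Matrix.mulVec, dotProduct, Pi.zero_apply]
  simp only [wv, mul_sub, Finset.sum_sub_distrib, mul_ite, mul_zero, Finset.mul_sum]
  rw [Finset.sum_ite_eq' Finset.univ c, if_pos (Finset.mem_univ _), border M h hn i c, sub_eq_zero,
    Finset.sum_comm]
  refine Finset.sum_congr rfl fun j _ => ?_
  rw [Finset.sum_ite_eq' Finset.univ (J j), if_pos (Finset.mem_univ _)]

theorem wv_off {r : ℕ} {I : Fin r → Fin a} {J : Fin r → Fin b} (c k : Fin b)
    (hk : k ∉ Set.range J) : wv M I J c k = if k = c then (M.submatrix I J).det else 0 := by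
  have h0 : ∑ j, (if k = J j then Matrix.cramer (M.submatrix I J) (fun l => M (I l) c) j else 0) = 0 :=
    Finset.sum_eq_zero fun j _ => if_neg fun h => hk ⟨j, h.symm⟩
  rw [wv, h0, sub_zero]

theorem wv_on {r : ℕ} {I : Fin r → Fin a} {J : Fin r → Fin b} (h : (M.submatrix I J).det ≠ 0)
    (c : Fin b) (hc : c ∉ Set.range J) (j : Fin r) :
    wv M I J c (J j) = -(M.submatrix I (Function.update J j c)).det := by
  have h0 : (if J j = c then (M.submatrix I J).det else 0) = 0 := if_neg fun h => hc ⟨j, h⟩
  have h1 : ∑ j', (if J j = J j' then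
      Matrix.cramer (M.submatrix I J) (fun l => M (I l) c) j' else 0) =
      Matrix.cramer (M.submatrix I J) (fun l => M (I l) c) j := by
    have h2 : ∀ j', (if J j = J j' then
        Matrix.cramer (M.submatrix I J) (fun l => M (I l) c) j' else 0) =
        if j = j' then Matrix.cramer (M.submatrix I J) (fun l => M (I l) c) j' else 0 := by
      intro j'
      by_cases hj : j = j'
      · rw [if_pos hj, if_pos (congrArg J hj)]
      · rw [if_neg hj, if_neg fun h' => hj (inj_col M h h')]
    rw [Finset.sum_congr rfl fun j' _ => h2 j', Finset.sum_ite_eq, if_pos (Finset.mem_univ _)]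
  rw [wv, h0, h1, zero_sub, Matrix.cramer_apply]
  congr 2
  ext x y
  by_cases hy : y = j
  · subst hy
    rw [Matrix.updateCol_self, Matrix.submatrix_apply, Function.update_self]
  · rw [Matrix.updateCol_ne hy, Matrix.submatrix_apply, Matrix.submatrix_apply,
      Function.update_of_ne hy]

end MinM

open MinM Matrix

/-- (X9): the kernel of a matrix is spanned by vectors of minors. -/
theorem tMin : StmtMin := by
  intro L _ a b M v hv
  classical
  have hz : Nz M (Nat.findGreatest (Nz M) a) := Nat.findGreatest_spec (Nat.zero_le a) (nz_zero M)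
  have hmax : ¬ Nz M (Nat.findGreatest (Nz M) a + 1) := fun h =>
    Nat.findGreatest_is_greatest (Nat.lt_succ_self _) (nz_le M h) h
  generalize Nat.findGreatest (Nz M) a = r at hz hmax
  have hra : r ≤ a := nz_le M hz
  obtain ⟨I, J, hD⟩ := hz
  set S : Submodule L (Fin b → L) := Submodule.span L {w : Fin b → L | M.mulVec w = 0 ∧
    ∀ i, w i = 0 ∨ ∃ (r : ℕ) (_ : r ≤ a) (I : Fin r → Fin a) (J : Fin r → Fin b),
      w i = (M.submatrix I J).det ∨ w i = -(M.submatrix I J).det} with hS
  have hw : ∀ c : Fin b, c ∉ Set.range J → wv M I J c ∈ S := by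
    intro c hc
    refine Submodule.subset_span ⟨wv_ker M hD hmax c, fun k => ?_⟩
    by_cases hk : k ∈ Set.range J
    · obtain ⟨j, rfl⟩ := hk
      exact Or.inr ⟨r, hra, I, Function.update J j c, Or.inr (wv_on M hD c hc j)⟩
    · rw [wv_off M c k hk]
      by_cases hkc : k = c
      · rw [if_pos hkc]
        exact Or.inr ⟨r, hra, I, J, Or.inl rfl⟩
      · rw [if_neg hkc]
        exact Or.inl rfl
  set u : Fin b → L := ∑ c ∈ Finset.univ.filter (fun c => c ∉ Set.range J),
    (v c / (M.submatrix I J).det) • wv M I J c with hu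
  have huS : u ∈ S := Submodule.sum_mem _ fun c hc =>
    Submodule.smul_mem _ _ (hw c (Finset.mem_filter.mp hc).2)
  have huk : M *ᵥ u = 0 := by
    rw [hu, Matrix.mulVec_sum]
    refine Finset.sum_eq_zero fun c _ => ?_
    rw [Matrix.mulVec_smul, wv_ker M hD hmax c, smul_zero]
  have hoff : ∀ k, k ∉ Set.range J → (v - u) k = 0 := by
    intro k hk
    have h1 : u k = v k := by
      rw [hu, Finset.sum_apply]
      rw [Finset.sum_eq_single k]
      · rw [Pi.smul_apply, wv_off M k k hk, if_pos rfl, smul_eq_mul, div_mul_cancel₀ _ hD]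
      · intro c _ hck
        rw [Pi.smul_apply, wv_off M c k hk, if_neg (Ne.symm hck), smul_zero]
      · intro h
        refine absurd ?_ h
        rw [Finset.mem_filter]
        exact ⟨Finset.mem_univ _, hk⟩
    rw [Pi.sub_apply, h1, sub_self]
  have hker : M *ᵥ (v - u) = 0 := by
    rw [Matrix.mulVec_sub, huk, sub_zero]
    exact hv
  have hy : (fun j => (v - u) (J j)) = 0 := by
    refine Matrix.eq_zero_of_mulVec_eq_zero hD ?_
    ext i
    have h1 := congrFun hker (I i)
    rw [Matrix.mulVec, dotProduct, Pi.zero_apply] at h1 ⊢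
    rw [← h1]
    have h2 : ∑ k ∈ Finset.univ.image J, M (I i) k * (v - u) k = ∑ k, M (I i) k * (v - u) k := by
      refine Finset.sum_subset (Finset.subset_univ _) fun k _ hk => ?_
      rw [hoff k, mul_zero]
      rintro ⟨j, rfl⟩
      exact hk (Finset.mem_image_of_mem _ (Finset.mem_univ _))
    rw [← h2, Finset.sum_image fun x _ y _ h => inj_col M hD h]
    rfl
  have hfin : v - u = 0 := by
    ext k
    by_cases hk : k ∈ Set.range J
    · obtain ⟨j, rfl⟩ := hk
      exact congrFun hy j
    · exact hoff k hk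
  rw [sub_eq_zero.mp hfin]
  exact huS

end Pool.Agent.Lib.MP_16285c_agS.Hrx
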