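import Pool.Agent.Lib.MP_16285c_agS.Hrx.Spec

/-!
# Hrx/Nrm: the value of the universal function has many poles
-/

set_option autoImplicit false

namespace Pool.Agent.Lib.MP_16285c_agS.Hrx

open MP7Z MvPolynomial
open Pool.Agent.Lib.MP_16285c_agZ.Hru (Zn Pn Sit)
open Pool.Agent.Lib.MP_16285c_agS.Bez (sp)

namespace NrmM

/-- the fibre over a commutative ring -/
noncomputable def spR {κ R : Type} [Field κ] [CommRing R] [Algebra κ R] (η : R)
    (P : MvPolynomial (Fin 3) κ) : Polynomial (Polynomial R) :=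
  MvPolynomial.aeval ![Polynomial.X, Polynomial.C (Polynomial.C η), Polynomial.C Polynomial.X] P

/-- the matrix of the multiplication -/
noncomputable def MM {R : Type} [CommRing R] (e : ℕ) (Q B : Polynomial (Polynomial R)) :
    Matrix (Fin e) (Fin e) (Polynomial R) :=
  Matrix.of fun i j => ((Polynomial.X ^ (i : ℕ) * B) %ₘ Q).coeff j

theorem spR_eq {κ R : Type} [Field κ] [CommRing R] [Algebra κ R] (η : R)
    (P : MvPolynomial (Fin 3) κ) : spR η P = (finSuccEquiv κ 2 P).map
      ((MvPolynomial.aeval ![Polynomial.C η, Polynomial.X] :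
        MvPolynomial (Fin 2) κ →ₐ[κ] Polynomial R) : MvPolynomial (Fin 2) κ →+* Polynomial R) := by
  have h : (MvPolynomial.aeval ![Polynomial.X, Polynomial.C (Polynomial.C η),
      Polynomial.C Polynomial.X] : MvPolynomial (Fin 3) κ →ₐ[κ] Polynomial (Polynomial R)) =
      (Polynomial.mapAlgHom (MvPolynomial.aeval ![Polynomial.C η, Polynomial.X] :
        MvPolynomial (Fin 2) κ →ₐ[κ] Polynomial R)).comp
        ((finSuccEquiv κ 2 : MvPolynomial (Fin 3) κ →ₐ[κ] Polynomial (MvPolynomial (Fin 2) κ))) := by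
    refine MvPolynomial.algHom_ext fun i => ?_
    rw [aeval_X]
    refine Fin.cases ?_ (fun j => ?_) i
    · change Polynomial.X = Polynomial.map _ (finSuccEquiv κ 2 (X 0))
      rw [finSuccEquiv_X_zero, Polynomial.map_X]
    · change _ = Polynomial.map _ (finSuccEquiv κ 2 (X j.succ))
      rw [finSuccEquiv_X_succ, Polynomial.map_C, AlgHom.toRingHom_eq_coe, RingHom.coe_coe, aeval_X]
      fin_cases j
      · rfl
      · rfl
  have h3 := DFunLike.congr_fun h P
  exact h3

theorem spR_monic {κ R : Type} [Field κ] [CommRing R] [Algebra κ R] (η : R)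
    {P : MvPolynomial (Fin 3) κ} (hP : Mon P) : (spR η P).Monic := by
  rw [spR_eq]
  exact Polynomial.Monic.map _ hP

theorem spR_deg {κ R : Type} [Field κ] [CommRing R] [Nontrivial R] [Algebra κ R] (η : R)
    {P : MvPolynomial (Fin 3) κ} (hP : Mon P) : (spR η P).natDegree = dz P := by
  rw [spR_eq]
  exact Polynomial.Monic.natDegree_map hP _

theorem spR_map {κ R R' : Type} [Field κ] [CommRing R] [Algebra κ R] [CommRing R'] [Algebra κ R']
    (θ : R →ₐ[κ] R') (η : R) (P : MvPolynomial (Fin 3) κ) :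
    (spR η P).map (Polynomial.mapRingHom (θ : R →+* R')) = spR (θ η) P := by
  have h : (Polynomial.mapAlgHom (Polynomial.mapAlgHom θ)).comp
      (MvPolynomial.aeval ![Polynomial.X, Polynomial.C (Polynomial.C η),
      Polynomial.C Polynomial.X] : MvPolynomial (Fin 3) κ →ₐ[κ] Polynomial (Polynomial R)) =
      (MvPolynomial.aeval ![Polynomial.X, Polynomial.C (Polynomial.C (θ η)),
      Polynomial.C Polynomial.X] : MvPolynomial (Fin 3) κ →ₐ[κ] Polynomial (Polynomial R')) := by
    refine MvPolynomial.algHom_ext fun i => ?_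
    rw [AlgHom.comp_apply, aeval_X, aeval_X]
    fin_cases i
    · simp
    · simp
    · simp
  exact DFunLike.congr_fun h P

theorem MM_map {R R' : Type} [CommRing R] [CommRing R'] (θ : R →+* R') (e : ℕ)
    {Q : Polynomial (Polynomial R)} (hQ : Q.Monic) (B : Polynomial (Polynomial R)) :
    (Polynomial.mapRingHom θ).mapMatrix (MM e Q B) =
      MM e (Q.map (Polynomial.mapRingHom θ)) (B.map (Polynomial.mapRingHom θ)) := by
  ext1 i j
  unfold MM
  rw [RingHom.mapMatrix_apply, Matrix.map_apply, Matrix.of_apply, Matrix.of_apply,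
    ← Polynomial.coeff_map, Polynomial.map_modByMonic _ hQ, Polynomial.map_mul,
    Polynomial.map_pow, Polynomial.map_X]

theorem det_zero {L : Type} [Field L] {Q B : Polynomial (Polynomial L)} {e : ℕ} (hQ : Q.Monic)
    (he : Q.natDegree = e) (he1 : 1 ≤ e) (y z : L)
    (hQ0 : (Q.map (Polynomial.evalRingHom y)).eval z = 0)
    (hB0 : (B.map (Polynomial.evalRingHom y)).eval z = 0) : (MM e Q B).det.eval y = 0 := by
  have h1 : (MM e Q B).det.eval y = ((Polynomial.evalRingHom y).mapMatrix (MM e Q B)).det := by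
    rw [← RingHom.map_det]
    rfl
  rw [h1]
  refine Matrix.exists_mulVec_eq_zero_iff.1 ⟨fun j => z ^ (j : ℕ), ?_, ?_⟩
  · intro h
    have h2 := congrFun h ⟨0, by omega⟩
    simp at h2
  · funext i
    have hdeg : ((Polynomial.X ^ (i : ℕ) * B) %ₘ Q).natDegree < e := by
      refine lt_of_lt_of_le (Polynomial.natDegree_modByMonic_lt _ hQ ?_) he.le
      intro h
      rw [h, Polynomial.natDegree_one] at he
      omega
    have h2 : (((Polynomial.X ^ (i : ℕ) * B) %ₘ Q).map (Polynomial.evalRingHom y)).eval z = 0 := by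
      rw [Polynomial.modByMonic_eq_sub_mul_div, Polynomial.map_sub, Polynomial.map_mul,
        Polynomial.map_mul, Polynomial.eval_sub, Polynomial.eval_mul, Polynomial.eval_mul, hQ0,
        hB0, mul_zero, zero_mul, sub_zero]
    rw [Polynomial.eval_eq_sum_range' (lt_of_le_of_lt Polynomial.natDegree_map_le hdeg),
      Finset.sum_range] at h2
    rw [Matrix.mulVec, dotProduct]
    simp only [RingHom.mapMatrix_apply, Matrix.map_apply, MM, Matrix.of_apply, Pi.zero_apply]
    simpa only [Polynomial.coeff_map] using h2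

theorem det_ne {L : Type} [Field L] {Q B : Polynomial (Polynomial L)} {e : ℕ} (hQ : Q.Monic)
    (he : Q.natDegree = e) (he1 : 1 ≤ e) (hirr : Irreducible Q) (hB : B ≠ 0)
    (hBe : B.natDegree < e) : (MM e Q B).det ≠ 0 := by
  intro h0
  obtain ⟨v, hv, hvM⟩ := Matrix.exists_vecMul_eq_zero_iff.2 h0
  have hc : (∑ i : Fin e, Polynomial.C (v i) * Polynomial.X ^ (i : ℕ)).degree < (e : WithBot ℕ) :=
    Polynomial.degree_sum_fin_lt v
  obtain ⟨c, hcd⟩ : ∃ c, c = ∑ i : Fin e, Polynomial.C (v i) * Polynomial.X ^ (i : ℕ) := ⟨_, rfl⟩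
  rw [← hcd] at hc
  have hc0 : c ≠ 0 := by
    intro h
    apply hv
    funext i
    have h2 : c.coeff i = v i := by
      rw [hcd, Polynomial.finsetSum_coeff]
      rw [Finset.sum_eq_single i]
      · rw [Polynomial.coeff_C_mul, Polynomial.coeff_X_pow, if_pos rfl, mul_one]
      · intro j _ hj
        rw [Polynomial.coeff_C_mul, Polynomial.coeff_X_pow, if_neg, mul_zero]
        intro h3
        exact hj (Fin.ext h3.symm)
      · intro h3
        exact absurd (Finset.mem_univ _) h3
    rw [h, Polynomial.coeff_zero] at h2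
    exact h2.symm
  have hlin : (c * B) %ₘ Q = ∑ i : Fin e, v i • ((Polynomial.X ^ (i : ℕ) * B) %ₘ Q) := by
    have h2 : c * B = ∑ i : Fin e, v i • (Polynomial.X ^ (i : ℕ) * B) := by
      rw [hcd, Finset.sum_mul]
      refine Finset.sum_congr rfl fun i _ => ?_
      rw [Polynomial.smul_eq_C_mul, mul_assoc]
    have h3 := congrArg (Polynomial.modByMonicHom Q) h2
    rw [map_sum] at h3
    simpa only [map_smul, Polynomial.modByMonicHom_apply] using h3
  have hne1 : Q ≠ 1 := by
    intro h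
    rw [h, Polynomial.natDegree_one] at he
    omega
  have hz : (c * B) %ₘ Q = 0 := by
    ext1 j
    rw [Polynomial.coeff_zero]
    by_cases hj : j < e
    · rw [hlin, Polynomial.finsetSum_coeff]
      have h2 := congrFun hvM ⟨j, hj⟩
      rw [Matrix.vecMul, dotProduct] at h2
      simp only [MM, Matrix.of_apply, Pi.zero_apply] at h2
      rw [← h2]
      refine Finset.sum_congr rfl fun i _ => ?_
      rw [Polynomial.coeff_smul, smul_eq_mul]
    · refine Polynomial.coeff_eq_zero_of_natDegree_lt ?_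
      have := Polynomial.natDegree_modByMonic_lt (c * B) hQ hne1
      omega
  have hdvd : Q ∣ c * B := (Polynomial.modByMonic_eq_zero_iff_dvd hQ).1 hz
  rcases (UniqueFactorizationMonoid.irreducible_iff_prime.1 hirr).dvd_or_dvd hdvd with h | h
  · refine Polynomial.Monic.not_dvd_of_degree_lt hQ hc0 ?_ h
    rw [Polynomial.degree_eq_natDegree hQ.ne_zero, he]
    exact hc
  · refine Polynomial.Monic.not_dvd_of_natDegree_lt hQ hB ?_ h
    rw [he]
    exact hBe

theorem Pn_nonneg {k E : Type} [Field k] [Field E] [Algebra k E] (h : E) : 0 ≤ Pn k h :=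
  finsum_nonneg fun _ => le_max_right _ _

/-- variables -/
abbrev Io (n e : ℕ) : Type := Fin 4 ⊕ (Fin (n + 1) × Fin e)

/-- the general `A` -/
noncomputable def At (κ : Type) [Field κ] (n e : ℕ) :
    Polynomial (Polynomial (MvPolynomial (Io n e) κ)) :=
  ∑ j : Fin e, Polynomial.C (∑ i : Fin (n + 1), Polynomial.C (X (Sum.inr (i, j))) *
    Polynomial.X ^ (i : ℕ)) * Polynomial.X ^ (j : ℕ)

/-- the general `B` -/
noncomputable def Bt (κ : Type) [Field κ] (n e : ℕ) :
    Polynomial (Polynomial (MvPolynomial (Io n e) κ)) :=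
  At κ n e - Polynomial.C (Polynomial.C (X (Sum.inl 3)) *
    (Polynomial.X - Polynomial.C (X (Sum.inl 1))) ^ n)

/-- the general determinant -/
noncomputable def ps {κ : Type} [Field κ] (P : MvPolynomial (Fin 3) κ) (n : ℕ) :
    Polynomial (MvPolynomial (Io n (dz P)) κ) :=
  (MM (dz P) (spR (X (Sum.inl 0)) P) (Bt κ n (dz P))).det

/-- values of the variables -/
noncomputable def tv {L : Type} [Field L] (n e : ℕ) (η x₀ z₀ u : L)
    (A : Polynomial (Polynomial L)) : Io n e → L :=
  Sum.elim ![η, x₀, z₀, u] fun q => (A.coeff q.2).coeff q.1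

theorem At_map {κ L : Type} [Field κ] [Field L] [Algebra κ L] (n e m : ℕ) (η x₀ z₀ u : L)
    (A : Polynomial (Polynomial L)) (hW : Wt m n A) (hd : A.natDegree < e) :
    (At κ n e).map (Polynomial.mapRingHom ((MvPolynomial.aeval (tv n e η x₀ z₀ u A) :
      MvPolynomial (Io n e) κ →ₐ[κ] L) : MvPolynomial (Io n e) κ →+* L)) = A := by
  unfold At
  rw [Polynomial.map_sum]
  have h1 : ∀ j : Fin e, (Polynomial.C (∑ i : Fin (n + 1), Polynomial.C
      (X (Sum.inr (i, j)) : MvPolynomial (Io n e) κ) * Polynomial.X ^ (i : ℕ)) *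
        Polynomial.X ^ (j : ℕ)).map (Polynomial.mapRingHom
        ((MvPolynomial.aeval (tv n e η x₀ z₀ u A) :
      MvPolynomial (Io n e) κ →ₐ[κ] L) : MvPolynomial (Io n e) κ →+* L)) =
      Polynomial.C (A.coeff j) * Polynomial.X ^ (j : ℕ) := by
    intro j
    rw [Polynomial.map_mul, Polynomial.map_pow, Polynomial.map_X, Polynomial.map_C]
    congr 2
    rw [Polynomial.coe_mapRingHom, Polynomial.map_sum]
    have h2 : (A.coeff j).natDegree < n + 1 := by
      by_contra h
      have h3 : (A.coeff j).coeff (A.coeff j).natDegree ≠ 0 := by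
        intro h4
        have h5 := Polynomial.leadingCoeff_eq_zero.1 h4
        rw [h5, Polynomial.natDegree_zero] at h
        omega
      have := hW _ _ h3
      omega
    conv_rhs => rw [Polynomial.as_sum_range' _ _ h2, Finset.sum_range]
    refine Finset.sum_congr rfl fun i _ => ?_
    rw [Polynomial.map_mul, Polynomial.map_pow, Polynomial.map_X, Polynomial.map_C,
      ← Polynomial.C_mul_X_pow_eq_monomial]
    congr 2
    rw [RingHom.coe_coe, aeval_X]
    rfl
  rw [Finset.sum_congr rfl fun j _ => h1 j]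
  conv_rhs => rw [Polynomial.as_sum_range' _ _ hd, Finset.sum_range]
  refine Finset.sum_congr rfl fun i _ => ?_
  rw [Polynomial.C_mul_X_pow_eq_monomial]

theorem ev_sp {κ L : Type} [Field κ] [Field L] [Algebra κ L] (η y z : L)
    (P : MvPolynomial (Fin 3) κ) :
    ((spR η P).map (Polynomial.evalRingHom y)).eval z = aeval ![z, η, y] P := by
  have h : ((Polynomial.evalRingHom z).comp (Polynomial.mapRingHom (Polynomial.evalRingHom y))).comp
      ((MvPolynomial.aeval ![Polynomial.X, Polynomial.C (Polynomial.C η),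
      Polynomial.C Polynomial.X] : MvPolynomial (Fin 3) κ →ₐ[κ] Polynomial (Polynomial L)) :
        MvPolynomial (Fin 3) κ →+* Polynomial (Polynomial L)) =
      ((aeval ![z, η, y] : MvPolynomial (Fin 3) κ →ₐ[κ] L) : MvPolynomial (Fin 3) κ →+* L) := by
    refine MvPolynomial.ringHom_ext (fun c => ?_) fun i => ?_
    · simp [MvPolynomial.algHom_C, Polynomial.algebraMap_apply]
    · simp only [RingHom.comp_apply, RingHom.coe_coe, aeval_X]
      fin_cases i
      · simp
      · simp
      · simp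
  exact DFunLike.congr_fun h P

end NrmM

open NrmM in
theorem tNrm : StmtRoot → StmtPnMv → StmtNrm := by
  intro hRoot hPn κ _ _ P hirr hmon n C₀
  refine ⟨2 * (∑ i ∈ Finset.range ((ps P n).natDegree + 1), ((ps P n).coeff i).totalDegree) *
    (1 + (n + 1) * dz P * C₀), ?_⟩
  intro L _ _ _ x δ hS η x₀ z₀ u y z₁ A hQirr hCf hW hAd hA hP0 hA0
  have he1 : 1 ≤ dz P := by omega
  obtain ⟨θ, hθ⟩ : ∃ θ : MvPolynomial (Io n (dz P)) κ →ₐ[κ] L,
      θ = MvPolynomial.aeval (tv n (dz P) η x₀ z₀ u A) := ⟨_, rfl⟩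
  have hQm : (spR η P).Monic := spR_monic η hmon
  have hQd : (spR η P).natDegree = dz P := spR_deg η hmon
  obtain ⟨B, hB⟩ : ∃ B : Polynomial (Polynomial L), B = A - Polynomial.C (Polynomial.C u *
    (Polynomial.X - Polynomial.C x₀) ^ n) := ⟨_, rfl⟩
  have hBmap : (Bt κ n (dz P)).map (Polynomial.mapRingHom (θ : MvPolynomial (Io n (dz P)) κ →+* L)) =
      B := by
    unfold Bt
    rw [Polynomial.map_sub, hθ, At_map n (dz P) _ η x₀ z₀ u A hW hAd, hB, Polynomial.map_C]
    congr 2
    simp [tv]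
  have hps : (ps P n).map (θ : MvPolynomial (Io n (dz P)) κ →+* L) = (MM (dz P) (spR η P) B).det := by
    have h1 := RingHom.map_det (Polynomial.mapRingHom (θ : MvPolynomial (Io n (dz P)) κ →+* L))
      (MM (dz P) (spR (X (Sum.inl 0)) P) (Bt κ n (dz P)))
    rw [MM_map _ _ (spR_monic _ hmon), hBmap, spR_map] at h1
    have h2 : θ (X (Sum.inl 0)) = η := by
      rw [hθ, aeval_X]
      rfl
    rw [h2] at h1
    exact h1
  have hBne : B ≠ 0 := by
    intro h
    rw [hB] at h
    exact hA u (sub_eq_zero.1 h)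
  have hBd : B.natDegree < dz P := by
    rw [hB]
    refine lt_of_le_of_lt (Polynomial.natDegree_sub_le _ _) (max_lt hAd ?_)
    rw [Polynomial.natDegree_C]
    omega
  have hB0 : (B.map (Polynomial.evalRingHom y)).eval z₁ = 0 := by
    rw [hB, Polynomial.map_sub, Polynomial.eval_sub, hA0, Polynomial.map_C, Polynomial.eval_C]
    simp
  have hψ0 : (ps P n).map (θ : MvPolynomial (Io n (dz P)) κ →+* L) ≠ 0 := by
    rw [hps]
    exact det_ne hQm hQd he1 hQirr hBne hBd
  have hψy : ((ps P n).map (θ : MvPolynomial (Io n (dz P)) κ →+* L)).eval y = 0 := by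
    rw [hps]
    exact det_zero hQm hQd he1 y z₁ (by rw [ev_sp]; exact hP0) hB0
  have h1 := hRoot κ L x δ hS _ y hψ0 hψy
  obtain ⟨Hh, hHh⟩ : ∃ Hh : ℤ, Hh = Pn κ η + Pn κ x₀ + Pn κ z₀ + Pn κ u := ⟨_, rfl⟩
  have n1 := Pn_nonneg (k := κ) η
  have n2 := Pn_nonneg (k := κ) x₀
  have n3 := Pn_nonneg (k := κ) z₀
  have n4 := Pn_nonneg (k := κ) u
  have hcoef : ∀ i j : ℕ, Pn κ ((A.coeff j).coeff i) ≤ (C₀ : ℤ) * Hh := by
    intro i j
    obtain ⟨a, ha, hav⟩ := hCf i j
    rw [hav]
    have h2 := (hPn κ L 3 ![η, x₀, z₀] a).2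
    rw [Fin.sum_univ_three] at h2
    refine h2.trans ?_
    have h3 : (a.totalDegree : ℤ) ≤ C₀ := by exact_mod_cast ha
    change (a.totalDegree : ℤ) * (Pn κ η + Pn κ x₀ + Pn κ z₀) ≤ _
    rw [hHh]
    have h4 : (0 : ℤ) ≤ (a.totalDegree : ℤ) := Int.natCast_nonneg _
    nlinarith [mul_nonneg (sub_nonneg.2 h3) (add_nonneg (add_nonneg n1 n2) n3),
      mul_nonneg (h4.trans h3) n4]
  have hsum : ∑ k : Io n (dz P), Pn κ (tv n (dz P) η x₀ z₀ u A k) ≤
      (1 + (n + 1) * dz P * C₀ : ℤ) * Hh := by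
    rw [Fintype.sum_sum_type]
    have e1 : ∑ k : Fin 4, Pn κ (tv n (dz P) η x₀ z₀ u A (Sum.inl k)) = Hh := by
      rw [Fin.sum_univ_four, hHh]
      rfl
    have e2 : ∑ q : Fin (n + 1) × Fin (dz P), Pn κ (tv n (dz P) η x₀ z₀ u A (Sum.inr q)) ≤
        ∑ q : Fin (n + 1) × Fin (dz P), (C₀ : ℤ) * Hh :=
      Finset.sum_le_sum fun q _ => hcoef q.1 q.2
    rw [Finset.sum_const, Finset.card_univ, Fintype.card_prod, Fintype.card_fin, Fintype.card_fin,
      nsmul_eq_mul] at e2
    rw [e1]
    push_cast at e2 ⊢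
    linarith
  have hθc : ∀ s : MvPolynomial (Io n (dz P)) κ, Pn κ (θ s) ≤
      (s.totalDegree : ℤ) * ((1 + (n + 1) * dz P * C₀ : ℤ) * Hh) := by
    intro s
    obtain ⟨r, hr⟩ : ∃ r, r = Fintype.card (Io n (dz P)) := ⟨_, rfl⟩
    let eq := Fintype.equivFin (Io n (dz P))
    have h2 := (hPn κ L _ (fun i => tv n (dz P) η x₀ z₀ u A (eq.symm i)) (rename eq s)).2
    rw [aeval_rename] at h2
    have h3 : ((fun i => tv n (dz P) η x₀ z₀ u A (eq.symm i)) ∘ eq) = tv n (dz P) η x₀ z₀ u A := by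
      funext k
      simp
    rw [h3, ← hθ] at h2
    have h4 : ∑ i, Pn κ (tv n (dz P) η x₀ z₀ u A (eq.symm i)) =
        ∑ k, Pn κ (tv n (dz P) η x₀ z₀ u A k) :=
      Equiv.sum_comp eq.symm fun k => Pn κ (tv n (dz P) η x₀ z₀ u A k)
    rw [h4] at h2
    refine h2.trans ?_
    have h5 : ((rename eq s).totalDegree : ℤ) ≤ s.totalDegree := by
      exact_mod_cast totalDegree_rename_le _ _
    have h6 : (0 : ℤ) ≤ ∑ k, Pn κ (tv n (dz P) η x₀ z₀ u A k) :=
      Finset.sum_nonneg fun k _ => Pn_nonneg _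
    exact mul_le_mul h5 hsum h6 (Int.natCast_nonneg _)
  refine h1.trans ?_
  rw [← hHh]
  have hle : ∑ i ∈ Finset.range (((ps P n).map (θ : MvPolynomial (Io n (dz P)) κ →+* L)).natDegree + 1),
      Pn κ (((ps P n).map (θ : MvPolynomial (Io n (dz P)) κ →+* L)).coeff i) ≤
      ∑ i ∈ Finset.range ((ps P n).natDegree + 1),
        (((ps P n).coeff i).totalDegree : ℤ) * ((1 + (n + 1) * dz P * C₀ : ℤ) * Hh) := by
    refine (Finset.sum_le_sum_of_subset_of_nonneg (Finset.range_mono ?_)
      fun i _ _ => Pn_nonneg _).trans (Finset.sum_le_sum fun i _ => ?_)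
    · exact Nat.succ_le_succ Polynomial.natDegree_map_le
    · rw [Polynomial.coeff_map]
      exact hθc _
  rw [← Finset.sum_mul] at hle
  push_cast
  nlinarith [hle]

end Pool.Agent.Lib.MP_16285c_agS.Hrx
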