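import Pool.Agent.Lib.MP_16285c_agS.Hrx.Spec

/-!
# Poles of polynomials (X5)
-/

set_option autoImplicit false

namespace Pool.Agent.Lib.MP_16285c_agS.Hrx

open MP7Z MvPolynomial
open Pool.Agent.Lib.MP_16285c_agZ.Hru (Pn)

namespace PnMvM

variable {k E : Type} [Field k] [IsAlgClosed k] [Field E] [Algebra k E]

theorem oz_zero (v : Place k E) : v.oz (0 : E) = 0 := by
  unfold Place.oz
  simp

/-- A lower bound for the order gives a lower bound for the integral order if the bound is not positive. -/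
theorem le_oz_of_le_ord (v : Place k E) {g : E} {m : ℤ} (h : ((m : ℤ) : WithTop ℤ) ≤ v.ord g) :
    min m 0 ≤ v.oz g := by
  rcases eq_or_ne g 0 with rfl | hg
  · rw [oz_zero]; exact min_le_right _ _
  · rw [v.ord_eq hg] at h
    exact (min_le_left _ _).trans (WithTop.coe_le_coe.1 h)

/-- The converse. -/
theorem coe_oz_le (v : Place k E) (g : E) : ((v.oz g : ℤ) : WithTop ℤ) ≤ v.ord g := by
  rcases eq_or_ne g 0 with rfl | hg
  · simp
  · rw [v.ord_eq hg]

theorem supp_pos [IsCurveField k E] (h : E) :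
    (Function.support fun v : Place k E => pl v h).Finite := by
  rcases eq_or_ne h 0 with rfl | h0
  · have : (Function.support fun v : Place k E => pl v (0 : E)) = ∅ := by
      ext v; simp [pl, oz_zero]
    rw [this]; exact Set.finite_empty
  · refine (finite_ord_ne h0).subset ?_
    intro v hv
    rw [Function.mem_support] at hv
    intro h1
    apply hv
    have h2 : v.oz h = 0 := by
      have h3 := v.ord_eq h0
      rw [h1] at h3
      exact (WithTop.coe_inj.1 h3.symm)
    unfold pl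
    rw [h2]; simp

/-- Lower bound for the order of a polynomial. -/
theorem ord_aeval (v : Place k E) {r : ℕ} (t : Fin r → E) (A : MvPolynomial (Fin r) k) (m : ℤ)
    (hm : 0 ≤ m) (ht : ∀ i, -m ≤ v.oz (t i)) :
    ((-((A.totalDegree : ℤ) * m) : ℤ) : WithTop ℤ) ≤ v.ord (MvPolynomial.aeval t A) := by
  have hc : ∀ i : Fin r, ((-m : ℤ) : WithTop ℤ) ≤ v.ord (t i) := fun i =>
    (WithTop.coe_le_coe.2 (ht i)).trans (coe_oz_le v (t i))
  have hpow : ∀ (i : Fin r) (n : ℕ), ((-((n : ℤ) * m) : ℤ) : WithTop ℤ) ≤ v.ord (t i ^ n) := by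
    intro i n
    induction n with
    | zero => simp
    | succ n ih =>
      rw [pow_succ, AddValuation.map_mul]
      have h1 : ((-(((n + 1 : ℕ) : ℤ) * m) : ℤ) : WithTop ℤ) =
          ((-((n : ℤ) * m) : ℤ) : WithTop ℤ) + ((-m : ℤ) : WithTop ℤ) := by
        rw [← WithTop.coe_add]
        congr 1
        push_cast
        ring
      rw [h1]
      exact add_le_add ih (hc i)
  rw [MvPolynomial.aeval_def, MvPolynomial.eval₂_eq]
  apply AddValuation.map_le_sum
  intro s hs
  have hdeg : (s.sum fun _ e => e) ≤ A.totalDegree := MvPolynomial.le_totalDegree hs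
  rw [AddValuation.map_mul]
  have hprod : ((-(((s.sum fun _ e => e : ℕ) : ℤ) * m) : ℤ) : WithTop ℤ) ≤
      v.ord (∏ i ∈ s.support, t i ^ s i) := by
    have h2 : ∀ u : Finset (Fin r), ((-(((∑ i ∈ u, s i : ℕ) : ℤ) * m) : ℤ) : WithTop ℤ) ≤
        v.ord (∏ i ∈ u, t i ^ s i) := by
      intro u
      induction u using Finset.induction_on with
      | empty => simp
      | insert i u hi ih =>
        rw [Finset.sum_insert hi, Finset.prod_insert hi, AddValuation.map_mul]
        have h1 : ((-(((s i + ∑ j ∈ u, s j : ℕ) : ℤ) * m) : ℤ) : WithTop ℤ) =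
            ((-((s i : ℤ) * m) : ℤ) : WithTop ℤ) +
              ((-(((∑ j ∈ u, s j : ℕ) : ℤ) * m) : ℤ) : WithTop ℤ) := by
          rw [← WithTop.coe_add]
          congr 1
          push_cast
          ring
        rw [h1]
        exact add_le_add (hpow i (s i)) ih
    exact h2 s.support
  have h3 : ((-((A.totalDegree : ℤ) * m) : ℤ) : WithTop ℤ) ≤
      ((-(((s.sum fun _ e => e : ℕ) : ℤ) * m) : ℤ) : WithTop ℤ) := by
    apply WithTop.coe_le_coe.2
    have h4 : ((s.sum fun _ e => e : ℕ) : ℤ) ≤ (A.totalDegree : ℤ) := by exact_mod_cast hdeg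
    nlinarith
  calc ((-((A.totalDegree : ℤ) * m) : ℤ) : WithTop ℤ)
      ≤ ((-(((s.sum fun _ e => e : ℕ) : ℤ) * m) : ℤ) : WithTop ℤ) := h3
    _ = 0 + ((-(((s.sum fun _ e => e : ℕ) : ℤ) * m) : ℤ) : WithTop ℤ) := (zero_add _).symm
    _ ≤ _ := add_le_add (v.const _) hprod

end PnMvM

open PnMvM

/-- (X5) -/
theorem tPnMv : StmtPnMv := by
  intro k E _ _ _ _ _ r t A
  have hv : ∀ v : Place k E, pl v (aeval t A) ≤ A.totalDegree * ∑ i, pl v (t i) := by
    intro v
    have hpl : ∀ i, 0 ≤ pl v (t i) := fun i => le_max_right _ _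
    have hm0 : 0 ≤ ∑ i, pl v (t i) := Finset.sum_nonneg fun i _ => hpl i
    have h1 := ord_aeval v t A _ hm0 (fun i => by
      have h2 : pl v (t i) ≤ ∑ i, pl v (t i) :=
        Finset.single_le_sum (f := fun i => pl v (t i)) (fun j _ => hpl j) (Finset.mem_univ i)
      have h3 : -(v.oz (t i)) ≤ pl v (t i) := le_max_left _ _
      omega)
    have h2 := le_oz_of_le_ord v h1
    have h3 : 0 ≤ (A.totalDegree : ℤ) * ∑ i, pl v (t i) := mul_nonneg (Int.natCast_nonneg _) hm0
    unfold pl at h2 h3 ⊢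
    omega
  refine ⟨hv, ?_⟩
  have hsum : ∑ i, Pn k (t i) = ∑ᶠ v : Place k E, ∑ i, pl v (t i) :=
    (finsum_sum_comm Finset.univ (fun (v : Place k E) i => pl v (t i))
      fun i _ => supp_pos (t i)).symm
  rw [hsum, mul_finsum]
  refine finsum_le_finsum' (supp_pos (aeval t A)) ?_ hv
  refine (Set.finite_iUnion fun i : Fin r => supp_pos (k := k) (t i)).subset ?_
  intro v hv'
  rw [Function.mem_support] at hv'
  rw [Set.mem_iUnion]
  by_contra hn
  push Not at hn
  apply hv'
  have h4 : ∑ i, pl v (t i) = 0 := Finset.sum_eq_zero fun i _ => by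
    have h5 := hn i
    rw [Function.mem_support, not_not] at h5
    exact h5
  rw [h4, mul_zero]

end Pool.Agent.Lib.MP_16285c_agS.Hrx
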