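import Pool.Agent.Lib.MP_16285c_agS.Hrx.Spec

/-!
# The poles of the universal function, place by place (X14)
-/

set_option autoImplicit false
set_option linter.unusedSectionVars false

namespace Pool.Agent.Lib.MP_16285c_agS.Hrx

open MP7Z MvPolynomial
open scoped IntermediateField
open Pool.Agent.Lib.MP_16285c_ag (RM FrobPt)
open Pool.Agent.Lib.MP_16285c_agZ.Hru (Zn Pn Sit SDer SSepH SPrd SBd SLoc SPn SRes SFld)
open Pool.Agent.Lib.MP_16285c_agS.Bez (sp)

namespace PtM

section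

variable {k E : Type} [Field k] [IsAlgClosed k] [Field E] [Algebra k E]

theorem oz_zero (v : Place k E) : v.oz (0 : E) = 0 := by
  unfold Place.oz
  simp

theorem coe_oz_le (v : Place k E) (g : E) : ((v.oz g : ℤ) : WithTop ℤ) ≤ v.ord g := by
  rcases eq_or_ne g 0 with rfl | hg
  · simp
  · rw [v.ord_eq hg]

theorem pl_nonneg (v : Place k E) (g : E) : 0 ≤ pl v g := le_max_right _ _

theorem zr_nonneg (v : Place k E) (g : E) : 0 ≤ zr v g := le_max_right _ _

theorem pl_zero (v : Place k E) : pl v (0 : E) = 0 := by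
  unfold pl
  rw [oz_zero]
  simp

theorem neg_pl_le (v : Place k E) (g : E) : ((-(pl v g) : ℤ) : WithTop ℤ) ≤ v.ord g := by
  refine le_trans (WithTop.coe_le_coe.2 ?_) (coe_oz_le v g)
  unfold pl
  omega

theorem pl_le_of (v : Place k E) {g : E} {N : ℤ} (hN : 0 ≤ N)
    (h : ((-N : ℤ) : WithTop ℤ) ≤ v.ord g) : pl v g ≤ N := by
  rcases eq_or_ne g 0 with rfl | hg
  · rw [pl_zero]; exact hN
  · rw [v.ord_eq hg] at h
    have h' := WithTop.coe_le_coe.1 h
    unfold pl
    omega

theorem oz_pow (v : Place k E) (g : E) (n : ℕ) (hg : g ≠ 0) : v.oz (g ^ n) = n * v.oz g :=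
  v.pord_pow hg n

theorem pl_pow (v : Place k E) (g : E) (n : ℕ) (hn : 1 ≤ n) : pl v (g ^ n) = n * pl v g := by
  rcases eq_or_ne g 0 with rfl | hg
  · rw [zero_pow (by omega), pl_zero, mul_zero]
  · unfold pl
    rw [oz_pow v g n hg, mul_max_of_nonneg _ _ (Int.natCast_nonneg n), mul_zero, mul_neg]

/-- Lower bound for the order of a power. -/
theorem ord_pow_ge (v : Place k E) (g : E) (n : ℕ) :
    ((-(n * pl v g) : ℤ) : WithTop ℤ) ≤ v.ord (g ^ n) := by
  rcases Nat.eq_zero_or_pos n with rfl | hn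
  · simp
  · rw [← pl_pow v g n hn]
    exact neg_pl_le v _

/-- Lower bound for the order of the value of a polynomial in two variables. -/
theorem ord_eval_ge (v : Place k E) (A : Polynomial (Polynomial E)) (y z : E) (N : ℤ)
    (h : ∀ i j : ℕ, (A.coeff j).coeff i ≠ 0 →
      pl v ((A.coeff j).coeff i) + i * pl v y + j * pl v z ≤ N) :
    ((-N : ℤ) : WithTop ℤ) ≤ v.ord ((A.map (Polynomial.evalRingHom y)).eval z) := by
  have hmul : ∀ a b c : E, ∀ i j : ℕ, ((-(pl v a + i * pl v b + j * pl v c) : ℤ) : WithTop ℤ) ≤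
      v.ord (a * b ^ i * c ^ j) := by
    intro a b c i j
    rw [AddValuation.map_mul, AddValuation.map_mul]
    have e : ((-(pl v a + i * pl v b + j * pl v c) : ℤ) : WithTop ℤ) =
        ((-(pl v a) : ℤ) : WithTop ℤ) + ((-(i * pl v b) : ℤ) : WithTop ℤ) +
          ((-(j * pl v c) : ℤ) : WithTop ℤ) := by
      rw [← WithTop.coe_add, ← WithTop.coe_add]
      congr 1
      ring
    rw [e]
    exact add_le_add (add_le_add (neg_pl_le v a) (ord_pow_ge v b i)) (ord_pow_ge v c j)
  rw [Polynomial.eval_map, Polynomial.eval₂_eq_sum_range]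
  apply AddValuation.map_le_sum
  intro j _
  rw [Polynomial.coe_evalRingHom, Polynomial.eval_eq_sum_range, Finset.sum_mul]
  apply AddValuation.map_le_sum
  intro i _
  by_cases h0 : (A.coeff j).coeff i = 0
  · rw [h0]
    simp
  · refine le_trans (WithTop.coe_le_coe.2 ?_) (hmul ((A.coeff j).coeff i) y z i j)
    have := h i j h0
    omega

/-- Evaluation at `X = y`, `Z = z`. -/
noncomputable def Ph (y z : E) : Polynomial (Polynomial E) →+* E :=
  (Polynomial.evalRingHom z).comp (Polynomial.mapRingHom (Polynomial.evalRingHom y))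

theorem Ph_apply (y z : E) (A : Polynomial (Polynomial E)) :
    Ph y z A = (A.map (Polynomial.evalRingHom y)).eval z := rfl

theorem Ph_sp (η y z : E) (P : MvPolynomial (Fin 3) k) :
    Ph y z (sp η P) = aeval ![z, η, y] P := by
  unfold sp
  rw [MvPolynomial.map_aeval, MvPolynomial.aeval_def]
  have e1 : (Ph y z).comp (algebraMap k (Polynomial (Polynomial E))) = algebraMap k E := by
    ext c
    rw [RingHom.comp_apply, Ph_apply, Polynomial.algebraMap_apply, Polynomial.algebraMap_apply]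
    simp
  rw [e1]
  change eval₂ _ _ P = _
  congr 1
  funext i
  fin_cases i <;> simp [Ph_apply]

end

end PtM

open PtM

theorem tPt : StmtPnMv → StmtCvL → StmtPt := by
  intro hPn hCvL κ L _ _ _ _ _ P B f ξ x δ q c n C₀ A A' H hCv hq hB hF h0 hδ hWt hCf hCf' hEq v hv
  -- abbreviations
  set η : L := ξ 1 ^ q with hη
  set x₀ : L := fv f ξ 2 with hx₀
  set z₀ : L := fv f ξ 0 with hz₀
  set g : L := ξ 2 ^ q - x₀ with hg
  set g' : L := ξ 0 ^ q - z₀ with hg'
  have hg0 : g ≠ 0 := by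
    intro h
    rw [h, map_zero] at hδ
    exact hδ rfl
  -- the identity
  have key : Ph (ξ 2 ^ q) (ξ 0 ^ q) A * g' ^ n = Ph (ξ 2 ^ q) (ξ 0 ^ q) A' * g ^ n := by
    have h1 := congrArg (Ph (ξ 2 ^ q) (ξ 0 ^ q)) hEq
    have e2 : (![ξ 0 ^ q, ξ 1 ^ q, ξ 2 ^ q] : Fin 3 → L) = fun i => ξ i ^ q := by
      funext i
      fin_cases i <;> rfl
    rw [map_sub, map_mul, map_mul, map_mul, map_pow, map_sub, Ph_sp, hη, e2, hF, zero_mul,
      sub_eq_zero] at h1
    have e3 : Ph (ξ 2 ^ q) (ξ 0 ^ q) Polynomial.X = ξ 0 ^ q := by simp [Ph_apply]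
    have e4 : Ph (ξ 2 ^ q) (ξ 0 ^ q) (Polynomial.C (Polynomial.C z₀)) = z₀ := by simp [Ph_apply]
    have e5 : Ph (ξ 2 ^ q) (ξ 0 ^ q) (Polynomial.C ((Polynomial.X - Polynomial.C x₀) ^ n)) =
        g ^ n := by simp [Ph_apply, hg]
    rw [e3, e4, e5] at h1
    exact h1
  rw [← Ph_apply]
  -- coefficients
  have hcoef : ∀ A₁ : Polynomial (Polynomial L), Cf (κ := κ) C₀ η x₀ z₀ A₁ → ∀ i j : ℕ,
      pl v ((A₁.coeff j).coeff i) ≤ C₀ * (pl v η + pl v x₀ + pl v z₀) := by
    intro A₁ hA₁ i j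
    obtain ⟨a, ha, hae⟩ := hA₁ i j
    rw [hae]
    refine ((hPn κ L 3 ![η, x₀, z₀] a).1 v).trans ?_
    have e : ∑ i, pl v ((![η, x₀, z₀] : Fin 3 → L) i) = pl v η + pl v x₀ + pl v z₀ := by
      rw [Fin.sum_univ_three]
      rfl
    rw [e]
    have h1 := pl_nonneg v η
    have h2 := pl_nonneg v x₀
    have h3 := pl_nonneg v z₀
    have h4 : (a.totalDegree : ℤ) ≤ C₀ := by exact_mod_cast ha
    exact mul_le_mul_of_nonneg_right h4 (by omega)
  have p1 := pl_nonneg v η
  have p2 := pl_nonneg v x₀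
  have p3 := pl_nonneg v z₀
  have p4 := zr_nonneg v (δ g)
  have p5 := pl_nonneg v (ξ 1)
  have p6 := pl_nonneg v (ξ 2)
  have p7 := pl_nonneg v (ξ 0)
  have p8 := zr_nonneg v (aeval ξ B)
  have p9 : ∀ i, 0 ≤ zr v (aeval ξ (f.den i)) := fun i => zr_nonneg v _
  have p10 : 0 ≤ ∑ i, zr v (aeval ξ (f.den i)) := Finset.sum_nonneg fun i _ => p9 i
  have hom0 : 0 ≤ om f B ξ v := by
    unfold om
    omega
  have m0 : (0 : ℤ) ≤ P.totalDegree := Int.natCast_nonneg _
  have n0 : (0 : ℤ) ≤ n := Int.natCast_nonneg _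
  have c0 : (0 : ℤ) ≤ c := Int.natCast_nonneg _
  have C00 : (0 : ℤ) ≤ C₀ := Int.natCast_nonneg _
  have q0 : (1 : ℤ) ≤ q := by exact_mod_cast hq
  have hη' : pl v η = q * pl v (ξ 1) := pl_pow v _ _ hq
  have hRHS : 0 ≤ (C₀ + n) * (pl v η + pl v x₀ + pl v z₀) + n * pl v η + n * zr v (δ g) +
      n * c * om f B ξ v := by positivity
  rcases hom0.eq_or_lt with hz | hpos
  · -- no bad contribution
    have hz' : om f B ξ v = 0 := hz.symm
    refine le_trans ?_ hRHS
    have hz2 := hz'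
    unfold om at hz2
    have a1 : pl v (ξ 1) = 0 := by omega
    have a2 : pl v (ξ 2) = 0 := by omega
    have a3 : ∑ i, zr v (aeval ξ (f.den i)) = 0 := by omega
    have a0 : pl v (ξ 0) = 0 := by
      have := h0 v
      rw [a1, a2] at this
      simp only [add_zero, mul_zero] at this
      omega
    have a4 : ∀ i, zr v (aeval ξ (f.den i)) = 0 := fun i =>
      (Finset.sum_eq_zero_iff_of_nonneg fun i _ => p9 i).1 a3 i (Finset.mem_univ i)
    have a5 : ∀ N : MvPolynomial (Fin 3) κ, pl v (aeval ξ N) = 0 := by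
      intro N
      have h1 := (hPn κ L 3 ξ N).1 v
      rw [Fin.sum_univ_three, a0, a1, a2] at h1
      simp only [add_zero, mul_zero] at h1
      exact le_antisymm h1 (pl_nonneg v _)
    have a6 : ∀ i, pl v (fv f ξ i) = 0 := by
      intro i
      rcases eq_or_ne (aeval ξ (f.num i)) 0 with h1 | h1
      · unfold fv
        rw [h1, zero_div, pl_zero]
      · have h2 := a5 (f.num i)
        have h3 := a4 i
        have h4 : v.oz (fv f ξ i) = v.oz (aeval ξ (f.num i)) - v.oz (aeval ξ (f.den i)) :=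
          v.pord_div h1 (hCv.hden i)
        unfold pl at h2 ⊢
        unfold zr at h3
        omega
    have a7 : pl v η = 0 := by rw [hη', a1, mul_zero]
    have a8 : pl v x₀ = 0 := a6 2
    have a9 : pl v z₀ = 0 := a6 0
    have a10 : ∀ A₁ : Polynomial (Polynomial L), Cf (κ := κ) C₀ η x₀ z₀ A₁ →
        0 ≤ v.ord (Ph (ξ 2 ^ q) (ξ 0 ^ q) A₁) := by
      intro A₁ hA₁
      have h1 := ord_eval_ge v A₁ (ξ 2 ^ q) (ξ 0 ^ q) 0 (by
        intro i j _
        have h2 := hcoef A₁ hA₁ i j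
        rw [a7, a8, a9] at h2
        simp only [add_zero, mul_zero] at h2
        rw [pl_pow v _ _ hq, pl_pow v _ _ hq, a2, a0]
        simp only [mul_zero, add_zero]
        exact h2)
      simpa [Ph_apply] using h1
    have hge : ∀ a b : L, pl v a = 0 → pl v b = 0 → 0 ≤ v.ord (a ^ q - b) := by
      intro a b ha hb
      have h1 := ord_pow_ge v a q
      rw [ha, mul_zero] at h1
      have h2 := neg_pl_le v b
      rw [hb] at h2
      have h3 := v.ord.map_sub (a ^ q) b
      refine le_trans (le_min ?_ ?_) h3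
      · simpa using h1
      · simpa using h2
    have b1 : 0 ≤ v.ord g := hge _ _ a2 a8
    have b2 : 0 ≤ v.ord g' := hge _ _ a0 a9
    by_cases hgp : 0 < v.ord g
    · have hgp' := hv hz' hgp
      have hg'0 : g' ≠ 0 := by
        intro h
        apply hgp'
        rw [h]
        simp
      have hg'1 : v.ord g' = 0 := le_antisymm (not_lt.1 hgp') b2
      have e1 : Ph (ξ 2 ^ q) (ξ 0 ^ q) A / g ^ n * g' ^ n = Ph (ξ 2 ^ q) (ξ 0 ^ q) A' := by
        rw [div_mul_eq_mul_div, key, mul_div_assoc, div_self (pow_ne_zero _ hg0), mul_one]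
      have e2 := congrArg v.ord e1
      rw [AddValuation.map_mul, AddValuation.map_pow, hg'1, smul_zero, add_zero] at e2
      refine pl_le_of v le_rfl ?_
      rw [e2]
      simpa using a10 A' hCf'
    · have hg1 : v.ord g = 0 := le_antisymm (not_lt.1 hgp) b1
      have e1 : Ph (ξ 2 ^ q) (ξ 0 ^ q) A / g ^ n * g ^ n = Ph (ξ 2 ^ q) (ξ 0 ^ q) A :=
        div_mul_cancel₀ _ (pow_ne_zero _ hg0)
      have e2 := congrArg v.ord e1
      rw [AddValuation.map_mul, AddValuation.map_pow, hg1, smul_zero, add_zero] at e2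
      refine pl_le_of v le_rfl ?_
      rw [e2]
      simpa using a10 A hCf
  · -- bad places
    rcases eq_or_ne (Ph (ξ 2 ^ q) (ξ 0 ^ q) A) 0 with hA0 | hA0
    · rw [hA0, zero_div, pl_zero]
      exact hRHS
    have b1 : ((-(C₀ * (pl v η + pl v x₀ + pl v z₀) + q * (n * (pl v (ξ 1) + pl v (ξ 2)))) : ℤ) :
        WithTop ℤ) ≤ v.ord (Ph (ξ 2 ^ q) (ξ 0 ^ q) A) := by
      refine ord_eval_ge v A (ξ 2 ^ q) (ξ 0 ^ q) _ ?_
      intro i j hij
      have h1 := hcoef A hCf i j
      have h2 := hWt i j hij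
      have h3 : (i : ℤ) + P.totalDegree * j ≤ n := by exact_mod_cast h2
      rw [pl_pow v _ _ hq, pl_pow v _ _ hq]
      have h4 := h0 v
      have i0 : (0 : ℤ) ≤ i := Int.natCast_nonneg _
      have j0 : (0 : ℤ) ≤ j := Int.natCast_nonneg _
      have h5 : (j : ℤ) * pl v (ξ 0) ≤ j * (P.totalDegree * (pl v (ξ 1) + pl v (ξ 2))) :=
        mul_le_mul_of_nonneg_left h4 j0
      have h6 : (i : ℤ) * pl v (ξ 2) ≤ i * (pl v (ξ 1) + pl v (ξ 2)) :=
        mul_le_mul_of_nonneg_left (by omega) i0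
      have h7 : ((i : ℤ) + P.totalDegree * j) * (pl v (ξ 1) + pl v (ξ 2)) ≤
          n * (pl v (ξ 1) + pl v (ξ 2)) := mul_le_mul_of_nonneg_right h3 (by omega)
      have h8 : (i : ℤ) * pl v (ξ 2) + j * pl v (ξ 0) ≤ n * (pl v (ξ 1) + pl v (ξ 2)) := by
        nlinarith
      have h9 : (q : ℤ) * ((i : ℤ) * pl v (ξ 2) + j * pl v (ξ 0)) ≤
          q * (n * (pl v (ξ 1) + pl v (ξ 2))) := mul_le_mul_of_nonneg_left h8 (by omega)
      nlinarith
    rw [v.ord_eq hA0] at b1
    have b2 := WithTop.coe_le_coe.1 b1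
    have b3 : v.oz (Ph (ξ 2 ^ q) (ξ 0 ^ q) A / g ^ n) =
        v.oz (Ph (ξ 2 ^ q) (ξ 0 ^ q) A) - n * v.oz g := by
      have := v.pord_div hA0 (pow_ne_zero n hg0)
      rw [v.pord_pow hg0 n] at this
      exact this
    -- the claim
    have b4 : q * pl v (ξ 2) + v.oz g ≤ pl v x₀ + zr v g := by
      have hzg : v.oz g ≤ zr v g := le_max_left _ _
      have hzg0 := zr_nonneg v g
      rcases p6.eq_or_lt with h1 | h1
      · rw [← h1, mul_zero]
        omega
      · have h2 : ξ 2 ≠ 0 := by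
          intro h
          rw [h, pl_zero] at h1
          exact lt_irrefl _ h1
        have h3 : v.oz (ξ 2 ^ q) = q * v.oz (ξ 2) := oz_pow v _ _ h2
        have h4 : pl v (ξ 2) = - v.oz (ξ 2) := by
          unfold pl at h1 ⊢
          omega
        have h5 : v.oz (ξ 2 ^ q) = -(q * pl v (ξ 2)) := by rw [h3, h4]; ring
        have h6 : 0 < q * pl v (ξ 2) := by positivity
        rcases eq_or_ne x₀ 0 with h7 | h7
        · have h8 : v.oz g = -(q * pl v (ξ 2)) := by
            rw [hg, h7, sub_zero, h5]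
          omega
        · by_cases h8 : v.oz x₀ ≤ -(q * pl v (ξ 2))
          · have h9 : q * pl v (ξ 2) ≤ pl v x₀ := by
              have : -(v.oz x₀) ≤ pl v x₀ := le_max_left _ _
              omega
            omega
          · have h9 : v.oz (ξ 2 ^ q) < v.oz (-x₀) := by
              have : v.oz (-x₀) = v.oz x₀ := by
                unfold Place.oz
                rw [AddValuation.map_neg]
              rw [this, h5]
              omega
            have h10 := (v.pord_add (pow_ne_zero q h2) (neg_ne_zero.2 h7) h9).2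
            have h11 : v.oz g = v.oz (ξ 2 ^ q) := by
              rw [hg, sub_eq_add_neg]
              exact h10
            omega
    have b5 : zr v g ≤ zr v (δ g) + c := by
      have h1 := hCvL κ L x δ c hCv.sit hCv.fin hCv.chr v g hδ
      have h2 : v.oz (δ g) ≤ zr v (δ g) := le_max_left _ _
      unfold zr at h2 ⊢
      omega
    have b6 : (c : ℤ) ≤ c * om f B ξ v := by nlinarith
    have b7 : q * pl v (ξ 2) + v.oz g ≤ (pl v η + pl v x₀ + pl v z₀) + zr v (δ g) +
        c * om f B ξ v := by omega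
    have b8 : (n : ℤ) * (q * pl v (ξ 2) + v.oz g) ≤
        n * ((pl v η + pl v x₀ + pl v z₀) + zr v (δ g) + c * om f B ξ v) :=
      mul_le_mul_of_nonneg_left b7 n0
    have b9 : -(v.oz (Ph (ξ 2 ^ q) (ξ 0 ^ q) A / g ^ n)) ≤
        (C₀ + n) * (pl v η + pl v x₀ + pl v z₀) + n * pl v η + n * zr v (δ g) +
          n * c * om f B ξ v := by
      rw [b3, hη'] at *
      nlinarith
    exact max_le b9 hRHS

end Pool.Agent.Lib.MP_16285c_agS.Hrx
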