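import Pool.Agent.Lib.MP_16285c_agS.Hrx.Spec
import Pool.Agent.Lib.MP_16285c_agZ.Hru.Pn

/-!
# Poles of a root of a polynomial (X12)
-/

set_option autoImplicit false

namespace Pool.Agent.Lib.MP_16285c_agS.Hrx

open MP7Z
open Pool.Agent.Lib.MP_16285c_agZ.Hru (Zn Pn Sit SPrd)
open Pool.Agent.Lib.MP_16285c_agZ.Hru.PnAux

namespace RootM

variable {k E : Type} [Field k] [IsAlgClosed k] [Field E] [Algebra k E]

private theorem pl_nonneg (v : Place k E) (h : E) : 0 ≤ pl v h := le_max_right _ _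

private theorem zr_supp [IsCurveField k E] {h : E} (h0 : h ≠ 0) :
    (Function.support fun v : Place k E => zr v h).Finite := by
  refine (finite_ord_ne h0).subset ?_
  intro v hv
  rw [Function.mem_support] at hv
  intro h1
  apply hv
  have h2 : v.oz h = 0 := by
    have h3 := v.ord_eq h0
    rw [h1] at h3
    exact (WithTop.coe_inj.1 h3.symm)
  unfold zr
  rw [h2]
  simp

/-- The inequality at one place. -/
private theorem loc (v : Place k E) (ψ : Polynomial E) (y : E) (hψ : ψ ≠ 0) (hy : ψ.eval y = 0) :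
    pl v y ≤ zr v ψ.leadingCoeff + ∑ i ∈ Finset.range ψ.natDegree, pl v (ψ.coeff i) := by
  have hS : 0 ≤ ∑ i ∈ Finset.range ψ.natDegree, pl v (ψ.coeff i) :=
    Finset.sum_nonneg fun i _ => pl_nonneg v _
  have hZ : v.oz ψ.leadingCoeff ≤ zr v ψ.leadingCoeff := le_max_left _ _
  have hZ0 : 0 ≤ zr v ψ.leadingCoeff := le_max_right _ _
  set S := ∑ i ∈ Finset.range ψ.natDegree, pl v (ψ.coeff i) with hSd
  set r := ψ.natDegree with hr
  rcases le_or_gt 0 (v.oz y) with h0 | h0
  · have h1 : pl v y = 0 := by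
      unfold pl
      rw [max_eq_right]
      linarith
    rw [h1]
    linarith
  · have hy0 : y ≠ 0 := by
      intro h
      rw [h, oz_zero] at h0
      exact lt_irrefl _ h0
    have h1 : pl v y = -(v.oz y) := by
      unfold pl
      rw [max_eq_left]
      linarith
    have hpow : ∀ i : ℕ, v.ord (y ^ i) = (((i : ℤ) * v.oz y : ℤ) : WithTop ℤ) := by
      intro i
      rw [v.ord_eq_pord (pow_ne_zero i hy0), v.pord_pow hy0]
      rfl
    have hlc : ψ.leadingCoeff ≠ 0 := Polynomial.leadingCoeff_ne_zero.2 hψ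
    have hsum : ψ.leadingCoeff * y ^ r = -∑ i ∈ Finset.range r, ψ.coeff i * y ^ i := by
      rw [Polynomial.eval_eq_sum_range, Finset.sum_range_succ] at hy
      rw [Polynomial.leadingCoeff]
      linear_combination hy
    have h2 : ((-S + ((r : ℤ) - 1) * v.oz y : ℤ) : WithTop ℤ) ≤ v.ord (ψ.leadingCoeff * y ^ r) := by
      rw [hsum, AddValuation.map_neg]
      refine AddValuation.map_le_sum _ fun i hi => ?_
      rw [AddValuation.map_mul, hpow i]
      have hc : ((-S : ℤ) : WithTop ℤ) ≤ v.ord (ψ.coeff i) := by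
        refine le_trans ?_ (coe_oz_le v _)
        apply WithTop.coe_le_coe.2
        have h3 : pl v (ψ.coeff i) ≤ S := by
          rw [hSd]
          exact Finset.single_le_sum (f := fun i => pl v (ψ.coeff i)) (fun i _ => pl_nonneg v _) hi
        have h4 : -(v.oz (ψ.coeff i)) ≤ pl v (ψ.coeff i) := le_max_left _ _
        linarith
      have hi' : (i : ℤ) ≤ (r : ℤ) - 1 := by
        have := Finset.mem_range.1 hi
        omega
      calc ((-S + ((r : ℤ) - 1) * v.oz y : ℤ) : WithTop ℤ)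
          ≤ ((-S + (i : ℤ) * v.oz y : ℤ) : WithTop ℤ) := by
            apply WithTop.coe_le_coe.2
            nlinarith
        _ = ((-S : ℤ) : WithTop ℤ) + (((i : ℤ) * v.oz y : ℤ) : WithTop ℤ) := WithTop.coe_add _ _
        _ ≤ _ := add_le_add hc le_rfl
    rw [AddValuation.map_mul, hpow r, v.ord_eq hlc, ← WithTop.coe_add] at h2
    have h3 := WithTop.coe_le_coe.1 h2
    rw [h1]
    nlinarith

end RootM

open RootM

theorem tRoot : SPrd → StmtRoot := by
  intro hPrd k E _ _ _ _ _ x δ hS ψ y hψ hy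
  have hlc : ψ.leadingCoeff ≠ 0 := Polynomial.leadingCoeff_ne_zero.2 hψ
  have hs1 := zr_supp (k := k) hlc
  have hs2 : ∀ i : ℕ, (Function.support fun v : Place k E => pl v (ψ.coeff i)).Finite := fun i =>
    supp_pos _
  have hs3 : (Function.support fun v : Place k E =>
      ∑ i ∈ Finset.range ψ.natDegree, pl v (ψ.coeff i)).Finite := by
    refine ((Finset.range ψ.natDegree).finite_toSet.biUnion fun i _ => hs2 i).subset ?_
    intro v hv
    rw [Function.mem_support] at hv
    obtain ⟨i, hi, hne⟩ := Finset.exists_ne_zero_of_sum_ne_zero hv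
    simp only [Set.mem_iUnion]
    exact ⟨i, hi, hne⟩
  have h1 : Pn k y ≤ ∑ᶠ v : Place k E, (zr v ψ.leadingCoeff +
      ∑ i ∈ Finset.range ψ.natDegree, pl v (ψ.coeff i)) := by
    refine le_sum ((hs1.union hs3).subset (Function.support_add _ _)) fun v => ?_
    exact loc v ψ y hψ hy
  have h2 : ∑ᶠ v : Place k E, (zr v ψ.leadingCoeff +
      ∑ i ∈ Finset.range ψ.natDegree, pl v (ψ.coeff i)) =
      Zn k ψ.leadingCoeff + ∑ i ∈ Finset.range ψ.natDegree, Pn k (ψ.coeff i) := by
    rw [finsum_add_distrib hs1 hs3, finsum_sum_comm _ _ fun i _ => hs2 i]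
    rfl
  have h3 : Zn k ψ.leadingCoeff = Pn k ψ.leadingCoeff := (hPrd k E x δ hS).1 _
  have h4 : 0 ≤ ∑ i ∈ Finset.range (ψ.natDegree + 1), Pn k (ψ.coeff i) :=
    Finset.sum_nonneg fun i _ => pn_nonneg _
  rw [h2, h3] at h1
  rw [Finset.sum_range_succ] at h4 ⊢
  rw [Polynomial.leadingCoeff] at h1
  linarith

end Pool.Agent.Lib.MP_16285c_agS.Hrx
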