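import Pool.Agent.Lib.MP_16285c_agS.Hrx.Spec

/-!
# Shears of the coordinates
-/

set_option autoImplicit false

namespace Pool.Agent.Lib.MP_16285c_agS.Hrx

open MvPolynomial
open Pool.Agent.Lib.MP_16285c_ag (RM FrobPt)
open Pool.Agent.ZDO (Wd)

namespace ShearM

section

variable {κ : Type} [Field κ] {i j : Fin 3} {t : κ}

/-- The shear of points. -/
def sg {L : Type} [Field L] [Algebra κ L] (i j : Fin 3) (t : κ) (ξ : Fin 3 → L) : Fin 3 → L :=
  Function.update ξ i (ξ i - algebraMap κ L t * ξ j)

/-- The shear of polynomials. -/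
@[irreducible] noncomputable def th (i j : Fin 3) (t : κ) : MvPolynomial (Fin 3) κ →ₐ[κ] MvPolynomial (Fin 3) κ :=
  aeval (Function.update X i (X i - C t * X j))

theorem th_X_self : th i j t (X i) = X i - C t * X j := by
  rw [th, aeval_X, Function.update_self]

theorem th_X_ne {l : Fin 3} (h : l ≠ i) : th i j t (X l) = X l := by
  rw [th, aeval_X, Function.update_of_ne h]

theorem th_C (c : κ) : th i j t (C c) = C c := (th i j t).commutes c

theorem aeval_th {L : Type} [Field L] [Algebra κ L] (ξ : Fin 3 → L) (A : MvPolynomial (Fin 3) κ) :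
    aeval ξ (th i j t A) = aeval (sg i j t ξ) A := by
  induction A using MvPolynomial.induction_on with
  | C a => rw [th_C, aeval_C, aeval_C]
  | add p q hp hq => rw [map_add, map_add, map_add, hp, hq]
  | mul_X p l hp =>
    rw [map_mul, map_mul, map_mul, hp, aeval_X]
    congr 1
    by_cases h : l = i
    · rw [h, th_X_self, sg, Function.update_self, map_sub, map_mul, aeval_X, aeval_X, aeval_C]
    · rw [th_X_ne h, aeval_X, sg, Function.update_of_ne h]

theorem th_th (hij : i ≠ j) (A : MvPolynomial (Fin 3) κ) : th i j (-t) (th i j t A) = A := by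
  induction A using MvPolynomial.induction_on with
  | C a => rw [th_C, th_C]
  | add p q hp hq => rw [map_add, map_add, hp, hq]
  | mul_X p l hp =>
    rw [map_mul, map_mul, hp]
    congr 1
    by_cases h : l = i
    · rw [h, th_X_self, map_sub, map_mul, th_C, th_X_self, th_X_ne hij.symm, C_neg]
      ring
    · rw [th_X_ne h, th_X_ne h]

theorem th_th' (hij : i ≠ j) (A : MvPolynomial (Fin 3) κ) : th i j t (th i j (-t) A) = A := by
  have h := th_th (t := -t) hij A
  rwa [neg_neg] at h

theorem th_dvd (hij : i ≠ j) (A B : MvPolynomial (Fin 3) κ) : th i j t A ∣ th i j t B ↔ A ∣ B := by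
  constructor
  · rintro ⟨c, hc⟩
    refine ⟨th i j (-t) c, ?_⟩
    rw [← th_th hij B, hc, map_mul, th_th hij]
  · rintro ⟨c, hc⟩
    exact ⟨th i j t c, by rw [hc, map_mul]⟩

/-- The automorphism. -/
noncomputable def te (hij : i ≠ j) (t : κ) : MvPolynomial (Fin 3) κ ≃ₐ[κ] MvPolynomial (Fin 3) κ :=
  AlgEquiv.ofAlgHom (th i j t) (th i j (-t))
    (AlgHom.ext fun A => by rw [AlgHom.comp_apply, AlgHom.id_apply]; exact th_th' hij A)
    (AlgHom.ext fun A => by rw [AlgHom.comp_apply, AlgHom.id_apply]; exact th_th hij A)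

theorem th_irr (hij : i ≠ j) {P : MvPolynomial (Fin 3) κ} (hP : Irreducible P) :
    Irreducible (th i j t P) :=
  (MulEquiv.irreducible_iff (te hij t).toMulEquiv).2 hP

theorem th_deg (A : MvPolynomial (Fin 3) κ) : (th i j t A).totalDegree ≤ A.totalDegree := by
  have hφ : ∀ l, (Function.update X i (X i - C t * X j) l : MvPolynomial (Fin 3) κ).totalDegree ≤ 1 := by
    intro l
    by_cases h : l = i
    · rw [h, Function.update_self]
      refine (totalDegree_sub _ _).trans (max_le ?_ ?_)
      · exact (totalDegree_X _).le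
      · refine (totalDegree_mul _ _).trans ?_
        rw [totalDegree_C, totalDegree_X]
    · rw [Function.update_of_ne h]
      exact (totalDegree_X _).le
  rw [th, aeval_def, eval₂_eq]
  apply totalDegree_finsetSum_le
  intro d hd
  refine (totalDegree_mul _ _).trans ?_
  have h1 : (algebraMap κ (MvPolynomial (Fin 3) κ) (coeff d A)).totalDegree = 0 := by
    rw [algebraMap_eq]; exact totalDegree_C _
  rw [h1, zero_add]
  refine (totalDegree_finsetProd _ _).trans ?_
  refine le_trans ?_ (le_totalDegree hd)
  rw [Finsupp.sum]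
  apply Finset.sum_le_sum
  intro l _
  refine (totalDegree_pow _ _).trans ?_
  calc d l * (Function.update X i (X i - C t * X j) l : MvPolynomial (Fin 3) κ).totalDegree
      ≤ d l * 1 := Nat.mul_le_mul_left _ (hφ l)
    _ = d l := mul_one _

theorem fse_C (c : κ) : finSuccEquiv κ 2 (C c) = Polynomial.C (C c) := by
  exact (finSuccEquiv κ 2).commutes c

theorem th_mon (hi : i ≠ 0) (hj : j ≠ 0) {P : MvPolynomial (Fin 3) κ} (hP : Mon P) :
    Mon (th i j t P) := by
  obtain ⟨i', rfl⟩ := Fin.exists_succ_eq.2 hi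
  obtain ⟨j', rfl⟩ := Fin.exists_succ_eq.2 hj
  let th2 : MvPolynomial (Fin 2) κ →ₐ[κ] MvPolynomial (Fin 2) κ :=
    aeval (Function.update X i' (X i' - C t * X j'))
  have h1 : ∀ A : MvPolynomial (Fin 3) κ,
      finSuccEquiv κ 2 (th i'.succ j'.succ t A) = (finSuccEquiv κ 2 A).map th2.toRingHom := by
    intro A
    induction A using MvPolynomial.induction_on with
    | C a =>
      rw [th_C, fse_C, Polynomial.map_C]
      exact congrArg Polynomial.C (th2.commutes a).symm
    | add p q hp hq => rw [map_add, map_add, map_add, hp, hq, Polynomial.map_add]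
    | mul_X p l hp =>
      rw [map_mul, map_mul, map_mul, hp, Polynomial.map_mul]
      refine congrArg (((finSuccEquiv κ 2) p).map th2.toRingHom * ·) ?_
      refine Fin.cases ?_ (fun l' => ?_) l
      · rw [th_X_ne (Fin.succ_ne_zero i').symm, finSuccEquiv_X_zero, Polynomial.map_X]
      · rw [finSuccEquiv_X_succ, Polynomial.map_C]
        change _ = Polynomial.C (th2 (X l'))
        by_cases h : l' = i'
        · subst h
          rw [th_X_self, map_sub, map_mul, finSuccEquiv_X_succ, finSuccEquiv_X_succ, fse_C]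
          change _ = Polynomial.C (aeval _ (X l'))
          rw [aeval_X, Function.update_self, Polynomial.C_sub, Polynomial.C_mul]
        · rw [th_X_ne (fun h' => h (Fin.succ_injective _ h')), finSuccEquiv_X_succ]
          change _ = Polynomial.C (aeval _ (X l'))
          rw [aeval_X, Function.update_of_ne h]
  unfold Mon
  rw [h1]
  exact hP.map _

/-- The coefficient in the chain rule. -/
noncomputable def cc (j : Fin 3) (t : κ) (b : Fin 3) : MvPolynomial (Fin 3) κ := if b = j then -C t else 0

theorem th_pd (hij : i ≠ j) (b : Fin 3) (A : MvPolynomial (Fin 3) κ) :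
    pderiv b (th i j t A) = th i j t (pderiv b A) + cc j t b * th i j t (pderiv i A) := by
  induction A using MvPolynomial.induction_on with
  | C a => rw [th_C, pderiv_C, pderiv_C, map_zero, mul_zero, add_zero]
  | add p q hp hq => simp only [map_add, hp, hq]; ring
  | mul_X p l hp =>
    have h1 : pderiv b (th i j t (X l)) = th i j t (pderiv b (X l)) + cc j t b * th i j t (pderiv i (X l)) := by
      by_cases h : l = i
      · subst h
        rw [th_X_self, map_sub, pderiv_C_mul, pderiv_X_self, map_one]
        by_cases hb : b = l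
        · subst hb
          rw [pderiv_X_self, pderiv_X_of_ne hij.symm, cc, if_neg hij, map_one, mul_zero, zero_mul]
          ring
        · rw [pderiv_X_of_ne (Ne.symm hb), map_zero]
          by_cases hbj : b = j
          · subst hbj
            rw [pderiv_X_self, cc, if_pos rfl]
            ring
          · rw [pderiv_X_of_ne (Ne.symm hbj), cc, if_neg hbj]
            ring
      · rw [th_X_ne h, pderiv_X_of_ne h, map_zero, mul_zero, add_zero]
        by_cases hb : b = l
        · subst hb
          rw [pderiv_X_self, map_one]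
        · rw [pderiv_X_of_ne (Ne.symm hb), map_zero]
    rw [map_mul, Derivation.leibniz, Derivation.leibniz, Derivation.leibniz, hp, h1]
    simp only [smul_eq_mul, map_add, map_mul]
    ring

theorem cc_ne {b : Fin 3} (h : b ≠ j) : cc j t b = 0 := if_neg h

theorem cc_self : cc j t j = -C t := if_pos rfl

/-- The sheared map. -/
noncomputable def fs (i j : Fin 3) (t : κ) (f : RM κ 3) : RM κ 3 where
  num l := if l = i then th i j t (f.num i) * th i j t (f.den j) + C t * th i j t (f.num j) * th i j t (f.den i)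
    else th i j t (f.num l)
  den l := if l = i then th i j t (f.den i) * th i j t (f.den j) else th i j t (f.den l)

variable {f : RM κ 3} {P : MvPolynomial (Fin 3) κ}

theorem num_self : (fs i j t f).num i =
    th i j t (f.num i) * th i j t (f.den j) + C t * th i j t (f.num j) * th i j t (f.den i) := if_pos rfl

theorem den_self : (fs i j t f).den i = th i j t (f.den i) * th i j t (f.den j) := if_pos rfl

theorem num_ne {l : Fin 3} (h : l ≠ i) : (fs i j t f).num l = th i j t (f.num l) := if_neg h

theorem den_ne {l : Fin 3} (h : l ≠ i) : (fs i j t f).den l = th i j t (f.den l) := if_neg h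

theorem Wd_ne (hij : i ≠ j) {l : Fin 3} (h : l ≠ i) (b : Fin 3) :
    Wd (fs i j t f) l b = th i j t (Wd f l b) + cc j t b * th i j t (Wd f l i) := by
  unfold Wd
  rw [num_ne h, den_ne h, th_pd hij, th_pd hij]
  simp only [map_sub, map_mul]
  ring

theorem Wd_self (hij : i ≠ j) (b : Fin 3) :
    Wd (fs i j t f) i b = (th i j t (Wd f i b) + cc j t b * th i j t (Wd f i i)) * th i j t (f.den j) ^ 2 +
      C t * (th i j t (Wd f j b) + cc j t b * th i j t (Wd f j i)) * th i j t (f.den i) ^ 2 := by
  unfold Wd
  rw [num_self, den_self]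
  simp only [map_add, Derivation.leibniz, smul_eq_mul, th_pd hij, pderiv_C, map_sub, map_mul]
  ring

theorem wX_ne (hij : i ≠ j) (hj : j ≠ 0) {l : Fin 3} (h : l ≠ i) (b : Fin 3) :
    wX (th i j t P) (fs i j t f) l b = th i j t (wX P f l b) + cc j t b * th i j t (wX P f l i) := by
  unfold wX
  rw [Wd_ne hij h, Wd_ne hij h, th_pd hij, th_pd hij, cc_ne hj.symm]
  simp only [map_sub, map_mul]
  ring

theorem wX_self (hij : i ≠ j) (hj : j ≠ 0) (b : Fin 3) :
    wX (th i j t P) (fs i j t f) i b =
      (th i j t (wX P f i b) + cc j t b * th i j t (wX P f i i)) * th i j t (f.den j) ^ 2 +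
      C t * (th i j t (wX P f j b) + cc j t b * th i j t (wX P f j i)) * th i j t (f.den i) ^ 2 := by
  unfold wX
  rw [Wd_self hij, Wd_self hij, th_pd hij, th_pd hij, cc_ne hj.symm]
  simp only [map_sub, map_mul]
  ring

theorem jX_eq (hij : i ≠ j) (hi : i ≠ 0) (hj : j ≠ 0) :
    jX (th i j t P) (fs i j t f) = th i j t (f.den j) ^ 2 * th i j t (jX P f) := by
  have h12 : (i = 1 ∧ j = 2) ∨ (i = 2 ∧ j = 1) := by
    fin_cases i <;> fin_cases j <;> simp_all
  unfold jX
  rcases h12 with ⟨rfl, rfl⟩ | ⟨rfl, rfl⟩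
  · rw [wX_self hij hj, wX_self hij hj, wX_ne hij hj hij.symm, wX_ne hij hj hij.symm, cc_self, cc_ne hij]
    simp only [map_sub, map_mul]
    ring
  · rw [wX_self hij hj, wX_self hij hj, wX_ne hij hj hij.symm, wX_ne hij hj hij.symm, cc_self, cc_ne hij]
    simp only [map_sub, map_mul]
    ring

theorem sg_ne {L : Type} [Field L] [Algebra κ L] {ξ : Fin 3 → L} {l : Fin 3} (h : l ≠ i) :
    sg i j t ξ l = ξ l := by
  rw [sg, Function.update_of_ne h]

theorem sg_self {L : Type} [Field L] [Algebra κ L] {ξ : Fin 3 → L} :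
    sg i j t ξ i = ξ i - algebraMap κ L t * ξ j := by
  rw [sg, Function.update_self]

theorem den_iff {L : Type} [Field L] [Algebra κ L] (ξ : Fin 3 → L)
    (h : ∀ l, aeval ξ ((fs i j t f).den l) ≠ 0) (l : Fin 3) : aeval (sg i j t ξ) (f.den l) ≠ 0 := by
  by_cases hl : l = i
  · have h1 := h i
    rw [den_self, map_mul, aeval_th, aeval_th] at h1
    rw [hl]
    exact left_ne_zero_of_mul h1
  · have h1 := h l
    rwa [den_ne hl, aeval_th] at h1

theorem fv_ne {L : Type} [Field L] [Algebra κ L] (ξ : Fin 3 → L) {l : Fin 3} (hl : l ≠ i) :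
    fv (fs i j t f) ξ l = fv f (sg i j t ξ) l := by
  unfold fv
  rw [num_ne hl, den_ne hl, aeval_th, aeval_th]

theorem fv_self {L : Type} [Field L] [Algebra κ L] (ξ : Fin 3 → L)
    (h : ∀ l, aeval (sg i j t ξ) (f.den l) ≠ 0) :
    fv (fs i j t f) ξ i = fv f (sg i j t ξ) i + algebraMap κ L t * fv f (sg i j t ξ) j := by
  unfold fv
  rw [num_self, den_self]
  simp only [map_add, map_mul, aeval_th, aeval_C]
  have h1 := h i
  have h2 := h j
  field_simp

theorem sg_fv (hij : i ≠ j) {L : Type} [Field L] [Algebra κ L] (ξ : Fin 3 → L)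
    (h : ∀ l, aeval (sg i j t ξ) (f.den l) ≠ 0) :
    sg i j t (fv (fs i j t f) ξ) = fv f (sg i j t ξ) := by
  funext l
  by_cases hl : l = i
  · rw [hl, sg_self, fv_self ξ h, fv_ne ξ hij.symm]
    ring
  · rw [sg_ne hl, fv_ne ξ hl]

theorem keeps (hij : i ≠ j) (hk : Keeps P f) : Keeps (th i j t P) (fs i j t f) := by
  intro L _ _ ξ hξ hden
  have h1 := den_iff ξ hden
  rw [aeval_th] at hξ
  rw [aeval_th, sg_fv hij ξ h1]
  exact hk L (sg i j t ξ) hξ h1

theorem eval_th (ξ : Fin 3 → κ) (A : MvPolynomial (Fin 3) κ) :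
    eval ξ (th i j t A) = eval (sg i j t ξ) A := by
  have h := aeval_th (i := i) (j := j) (t := t) ξ A
  exact h

theorem ok (hij : i ≠ j) (hi : i ≠ 0) (hj : j ≠ 0) {d : ℕ} (h : Ok P f d) :
    Ok (th i j t P) (fs i j t f) (2 * d) where
  irr := th_irr hij h.irr
  mon := th_mon hi hj h.mon
  dP := (th_deg P).trans (h.dP.trans (by omega))
  dn := by
    intro l
    by_cases hl : l = i
    · rw [hl, num_self]
      refine (totalDegree_add _ _).trans (max_le ?_ ?_)
      · refine (totalDegree_mul _ _).trans ?_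
        have h1 := (th_deg (i := i) (j := j) (t := t) (f.num i)).trans (h.dn i)
        have h2 := (th_deg (i := i) (j := j) (t := t) (f.den j)).trans (h.dd j)
        omega
      · refine (totalDegree_mul _ _).trans ?_
        have h0 := totalDegree_mul (C t) (th i j t (f.num j))
        rw [totalDegree_C, zero_add] at h0
        have h1 := (th_deg (i := i) (j := j) (t := t) (f.num j)).trans (h.dn j)
        have h2 := (th_deg (i := i) (j := j) (t := t) (f.den i)).trans (h.dd i)
        omega
    · rw [num_ne hl]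
      exact (th_deg _).trans ((h.dn l).trans (by omega))
  dd := by
    intro l
    by_cases hl : l = i
    · rw [hl, den_self]
      refine (totalDegree_mul _ _).trans ?_
      have h1 := (th_deg (i := i) (j := j) (t := t) (f.den i)).trans (h.dd i)
      have h2 := (th_deg (i := i) (j := j) (t := t) (f.den j)).trans (h.dd j)
      omega
    · rw [den_ne hl]
      exact (th_deg _).trans ((h.dd l).trans (by omega))
  den := by
    intro l hd
    have hp : Prime (th i j t P) := (th_irr hij h.irr).prime
    by_cases hl : l = i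
    · rw [hl, den_self] at hd
      rcases hp.dvd_or_dvd hd with h1 | h1
      · exact h.den i ((th_dvd hij _ _).1 h1)
      · exact h.den j ((th_dvd hij _ _).1 h1)
    · rw [den_ne hl] at hd
      exact h.den l ((th_dvd hij _ _).1 hd)
  keeps := keeps hij h.keeps
  jac := by
    intro hd
    have hp : Prime (th i j t P) := (th_irr hij h.irr).prime
    rw [jX_eq hij hi hj] at hd
    rcases hp.dvd_or_dvd hd with h1 | h1
    · exact h.den j ((th_dvd hij _ _).1 (hp.dvd_of_dvd_pow h1))
    · exact h.jac ((th_dvd hij _ _).1 h1)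

theorem gen (hij : i ≠ j) {E : Type} [Field E] [Algebra κ E] (ξ : Fin 3 → E) :
    Gen (th i j t P) ξ ↔ Gen P (sg i j t ξ) := by
  have h1 : (∀ A : MvPolynomial (Fin 3) κ, aeval ξ A = 0 ↔ th i j t P ∣ A) ↔
      ∀ A : MvPolynomial (Fin 3) κ, aeval (sg i j t ξ) A = 0 ↔ P ∣ A := by
    constructor
    · intro h A
      rw [← aeval_th, h, th_dvd hij]
    · intro h A
      have h2 := h (th i j (-t) A)
      rw [← aeval_th, th_th' hij, ← th_dvd (t := t) hij, th_th' hij] at h2
      exact h2
  have h2 : IntermediateField.adjoin κ (Set.range ξ) =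
      IntermediateField.adjoin κ (Set.range (sg i j t ξ)) := by
    apply le_antisymm
    · rw [IntermediateField.adjoin_le_iff]
      rintro _ ⟨l, rfl⟩
      have h3 : ∀ m, sg i j t ξ m ∈ IntermediateField.adjoin κ (Set.range (sg i j t ξ)) := fun m =>
        IntermediateField.subset_adjoin _ _ ⟨m, rfl⟩
      by_cases hl : l = i
      · have h4 : ξ l = sg i j t ξ i + algebraMap κ E t * sg i j t ξ j := by
          rw [hl, sg_self, sg_ne hij.symm]
          ring
        rw [h4]
        exact add_mem (h3 i) (mul_mem (IntermediateField.algebraMap_mem _ _) (h3 j))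
      · rw [← sg_ne (i := i) (j := j) (t := t) (ξ := ξ) hl]
        exact h3 l
    · rw [IntermediateField.adjoin_le_iff]
      rintro _ ⟨l, rfl⟩
      have h3 : ∀ m, ξ m ∈ IntermediateField.adjoin κ (Set.range ξ) := fun m =>
        IntermediateField.subset_adjoin _ _ ⟨m, rfl⟩
      by_cases hl : l = i
      · rw [hl, sg_self]
        exact sub_mem (h3 i) (mul_mem (IntermediateField.algebraMap_mem _ _) (h3 j))
      · rw [sg_ne hl]
        exact h3 l
  constructor
  · rintro ⟨ha, hb⟩
    exact ⟨h1.1 ha, by rw [← h2]; exact hb⟩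
  · rintro ⟨ha, hb⟩
    exact ⟨h1.2 ha, by rw [h2]; exact hb⟩

theorem frob (hij : i ≠ j) {p : ℕ} [Fact p.Prime] [CharP κ p] {s : ℕ} (ht : t ^ p ^ s = t) {a : Fin 3 → κ}
    (ha : FrobPt (fs i j t f) (p ^ s) a) : FrobPt f (p ^ s) (sg i j t a) := by
  have hi := ha i
  have hj := ha j
  rw [den_self, num_self] at hi
  rw [den_ne hij.symm, num_ne hij.symm] at hj
  simp only [map_add, map_mul, eval_th, eval_C] at hi hj
  intro l
  by_cases hl : l = i
  · rw [hl]
    refine ⟨left_ne_zero_of_mul hi.1, ?_⟩
    have h1 : sg i j t a i ^ p ^ s = a i ^ p ^ s - t * a j ^ p ^ s := by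
      rw [sg_self, sub_pow_char_pow, mul_pow]
      congr 2
    have h2 : eval (sg i j t a) (f.den j) ≠ 0 := hj.1
    apply mul_right_cancel₀ h2
    rw [h1]
    linear_combination hi.2 - t * eval (sg i j t a) (f.den i) * hj.2
  · have h1 := ha l
    rw [den_ne hl, num_ne hl, eval_th, eval_th] at h1
    rw [sg_ne hl]
    exact h1

end

end ShearM

open ShearM in
theorem tShear : StmtShear := by
  intro κ _ p _ _ P f d hok i j hi hj hij t
  refine ⟨th i j t P, fs i j t f, ok hij hi hj hok, ?_, ?_, ?_⟩
  · intro B hB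
    refine ⟨th i j t B, fun h => hB ((th_dvd hij _ _).1 h), ?_⟩
    rintro s ht ⟨a, ha1, ha2, ha3⟩
    rw [eval_th] at ha1 ha3
    exact ⟨sg i j t a, ha1, frob hij ht ha2, ha3⟩
  · intro E _ _ ξ
    exact gen hij ξ
  · intro h2
    have h1 : j = 1 := by
      subst h2
      fin_cases j
      · exact absurd rfl hj
      · rfl
      · exact absurd rfl hij
    subst h1
    rw [wX_ne hij hj hij.symm, cc_self]
    have h3 : th i 1 t (wX P f 1 1) + -C t * th i 1 t (wX P f 1 i) =
        th i 1 t (wX P f 1 1 - C t * wX P f 1 2) := by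
      rw [map_sub, map_mul, th_C, h2]
      ring
    rw [h3, th_dvd hij]

end Pool.Agent.Lib.MP_16285c_agS.Hrx
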