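import Pool.Agent.Lib.MP_16285c_agS.Hrx.Spec

/-!
# The universal function with a pole only at a given point
-/

set_option autoImplicit false

namespace Pool.Agent.Lib.MP_16285c_agS.Hrx

open MvPolynomial
open Pool.Agent.Lib.MP_16285c_agS.Bez (sp)

namespace UnivM

/-! ### The fibre over a general base -/

section part1

variable {κ R : Type} [Field κ] [CommRing R] [Algebra κ R]

/-- the fibre over a general base -/
noncomputable def spg (ρ : R) (P : MvPolynomial (Fin 3) κ) : Polynomial (Polynomial R) :=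
  aeval ![Polynomial.X, Polynomial.C (Polynomial.C ρ), Polynomial.C Polynomial.X] P

theorem spg_C (ρ : R) (a : κ) :
    spg ρ (C a) = Polynomial.C (Polynomial.C (algebraMap κ R a)) := by
  unfold spg
  rw [aeval_C]
  rfl

theorem spg_add (ρ : R) (p q : MvPolynomial (Fin 3) κ) : spg ρ (p + q) = spg ρ p + spg ρ q :=
  map_add _ _ _

theorem spg_mul (ρ : R) (p q : MvPolynomial (Fin 3) κ) : spg ρ (p * q) = spg ρ p * spg ρ q :=
  map_mul _ _ _

theorem spg_X0 (ρ : R) : spg ρ (X 0 : MvPolynomial (Fin 3) κ) = Polynomial.X := by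
  unfold spg
  rw [aeval_X]
  rfl

theorem spg_X1 (ρ : R) : spg ρ (X 1 : MvPolynomial (Fin 3) κ) = Polynomial.C (Polynomial.C ρ) := by
  unfold spg
  rw [aeval_X]
  rfl

theorem spg_X2 (ρ : R) : spg ρ (X 2 : MvPolynomial (Fin 3) κ) = Polynomial.C Polynomial.X := by
  unfold spg
  rw [aeval_X]
  rfl

theorem fse_C (c : κ) :
    finSuccEquiv κ 2 (C c) = Polynomial.C (C c : MvPolynomial (Fin 2) κ) :=
  (finSuccEquiv κ 2).commutes c

theorem map_spg (ρ : R) (P : MvPolynomial (Fin 3) κ) :
    (finSuccEquiv κ 2 P).map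
      (aeval ![Polynomial.C ρ, Polynomial.X] : MvPolynomial (Fin 2) κ →ₐ[κ] Polynomial R).toRingHom =
      spg ρ P := by
  induction P using MvPolynomial.induction_on with
  | C a =>
    rw [fse_C, Polynomial.map_C, spg_C]
    congr 1
    exact aeval_C _ _
  | add p q hp hq => rw [map_add, Polynomial.map_add, spg_add, hp, hq]
  | mul_X p i hp =>
    rw [map_mul, Polynomial.map_mul, spg_mul, hp]
    congr 1
    fin_cases i
    · refine (congrArg _ (finSuccEquiv_X_zero (R := κ) (n := 2))).trans ((Polynomial.map_X _).trans ?_)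
      exact (spg_X0 ρ).symm
    · refine (congrArg _ (finSuccEquiv_X_succ (R := κ) (n := 2) (j := 0))).trans ?_
      refine (Polynomial.map_C _).trans (Eq.trans ?_ (spg_X1 ρ).symm)
      congr 1
      exact aeval_X _ _
    · refine (congrArg _ (finSuccEquiv_X_succ (R := κ) (n := 2) (j := 1))).trans ?_
      refine (Polynomial.map_C _).trans (Eq.trans ?_ (spg_X2 ρ).symm)
      congr 1
      exact aeval_X _ _

theorem spg_monic [Nontrivial R] (ρ : R) {P : MvPolynomial (Fin 3) κ} (hm : Mon P) :
    (spg ρ P).Monic ∧ (spg ρ P).natDegree = dz P := by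
  rw [← map_spg]
  exact ⟨Polynomial.Monic.map _ hm, Polynomial.Monic.natDegree_map hm _⟩

theorem spg_map {L : Type} [CommRing L] [Algebra κ L] (φ : R →ₐ[κ] L) (ρ : R)
    (P : MvPolynomial (Fin 3) κ) :
    (spg ρ P).map (Polynomial.mapRingHom (φ : R →+* L)) = spg (φ ρ) P := by
  induction P using MvPolynomial.induction_on with
  | C a =>
    rw [spg_C, spg_C, Polynomial.map_C, Polynomial.coe_mapRingHom, Polynomial.map_C]
    congr 2
    exact φ.commutes a
  | add p q hp hq => rw [spg_add, spg_add, Polynomial.map_add, hp, hq]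
  | mul_X p i hp =>
    rw [spg_mul, spg_mul, Polynomial.map_mul, hp]
    congr 1
    fin_cases i
    · refine (congrArg _ (spg_X0 ρ)).trans ((Polynomial.map_X _).trans (spg_X0 _).symm)
    · refine (congrArg _ (spg_X1 ρ)).trans (Eq.trans ?_ (spg_X1 _).symm)
      rw [Polynomial.map_C, Polynomial.coe_mapRingHom, Polynomial.map_C]
      rfl
    · refine (congrArg _ (spg_X2 ρ)).trans (Eq.trans ?_ (spg_X2 _).symm)
      rw [Polynomial.map_C, Polynomial.coe_mapRingHom, Polynomial.map_X]

theorem spg_eval (ρ x₀ z₀ : R) (P : MvPolynomial (Fin 3) κ) :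
    ((spg ρ P).map (Polynomial.evalRingHom x₀)).eval z₀ = aeval ![z₀, ρ, x₀] P := by
  induction P using MvPolynomial.induction_on with
  | C a => rw [spg_C, Polynomial.map_C, Polynomial.eval_C, Polynomial.coe_evalRingHom,
      Polynomial.eval_C, aeval_C]
  | add p q hp hq => rw [spg_add, Polynomial.map_add, Polynomial.eval_add, map_add, hp, hq]
  | mul_X p i hp =>
    rw [spg_mul, Polynomial.map_mul, Polynomial.eval_mul, map_mul, hp, aeval_X]
    congr 1
    fin_cases i
    · have h := spg_X0 (κ := κ) ρ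
      refine (congrArg (fun Q => (Polynomial.map (Polynomial.evalRingHom x₀) Q).eval z₀) h).trans ?_
      dsimp only
      rw [Polynomial.map_X, Polynomial.eval_X]
      rfl
    · have h := spg_X1 (κ := κ) ρ
      refine (congrArg (fun Q => (Polynomial.map (Polynomial.evalRingHom x₀) Q).eval z₀) h).trans ?_
      dsimp only
      rw [Polynomial.map_C, Polynomial.eval_C, Polynomial.coe_evalRingHom, Polynomial.eval_C]
      rfl
    · have h := spg_X2 (κ := κ) ρ
      refine (congrArg (fun Q => (Polynomial.map (Polynomial.evalRingHom x₀) Q).eval z₀) h).trans ?_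
      dsimp only
      rw [Polynomial.map_C, Polynomial.eval_C, Polynomial.coe_evalRingHom, Polynomial.eval_X]
      rfl

theorem spg_deriv (ρ : R) (P : MvPolynomial (Fin 3) κ) :
    Polynomial.derivative (spg ρ P) = spg ρ (pderiv 0 P) := by
  induction P using MvPolynomial.induction_on with
  | C a =>
    rw [spg_C, Polynomial.derivative_C, pderiv_C]
    exact (map_zero _).symm
  | add p q hp hq => rw [spg_add, Polynomial.derivative_add, map_add, spg_add, hp, hq]
  | mul_X p i hp =>
    have hX : Polynomial.derivative (spg ρ (X i : MvPolynomial (Fin 3) κ)) =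
        spg ρ (pderiv 0 (X i : MvPolynomial (Fin 3) κ)) := by
      fin_cases i
      · refine (congrArg _ (spg_X0 ρ)).trans ?_
        rw [Polynomial.derivative_X]
        refine Eq.trans ?_ (congrArg (spg ρ) (pderiv_X_self (R := κ) (0 : Fin 3))).symm
        exact (map_one _).symm
      · refine (congrArg _ (spg_X1 ρ)).trans ?_
        rw [Polynomial.derivative_C]
        refine Eq.trans ?_ (congrArg (spg ρ) (pderiv_X_of_ne (R := κ) (i := (0 : Fin 3)) (j := 1)
          (by decide))).symm
        exact (map_zero _).symm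
      · refine (congrArg _ (spg_X2 ρ)).trans ?_
        rw [Polynomial.derivative_C]
        refine Eq.trans ?_ (congrArg (spg ρ) (pderiv_X_of_ne (R := κ) (i := (0 : Fin 3)) (j := 2)
          (by decide))).symm
        exact (map_zero _).symm
    rw [spg_mul, Polynomial.derivative_mul, hp, hX, Derivation.leibniz, spg_add, smul_eq_mul,
      smul_eq_mul, spg_mul, spg_mul]
    ring

end part1

/-! ### Weights -/

theorem deg_le {κ : Type} [Field κ] (P : MvPolynomial (Fin 3) κ) : dz P ≤ P.totalDegree := by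
  unfold dz
  rw [natDegree_finSuccEquiv]
  exact degreeOf_le_totalDegree P 0

theorem deg_pos {κ : Type} [Field κ] {P : MvPolynomial (Fin 3) κ} (hP : Irreducible P) (hm : Mon P) :
    1 ≤ dz P := by
  by_contra h
  have h0 : (finSuccEquiv κ 2 P).natDegree = 0 := by
    unfold dz at h
    omega
  have h1 : finSuccEquiv κ 2 P = 1 := Polynomial.eq_one_of_monic_natDegree_zero hm h0
  have h2 : P = 1 := by
    rw [← map_one (finSuccEquiv κ 2)] at h1
    exact (finSuccEquiv κ 2).injective h1
  exact hP.not_isUnit (h2 ▸ isUnit_one)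

theorem totalDegree_map {κ L σ : Type} [Field κ] [Field L] (f : κ →+* L) (p : MvPolynomial σ κ) :
    (map f p).totalDegree ≤ p.totalDegree := by
  unfold totalDegree
  exact Finset.sup_mono (support_map_subset f p)

theorem spg_wt {κ L : Type} [Field κ] [Field L] [Algebra κ L] (η : L) {P : MvPolynomial (Fin 3) κ}
    (hm : Mon P) : Wt P.totalDegree (P.totalDegree * dz P) (spg η P) := by
  intro i j hij
  have hj0 : (spg η P).coeff j ≠ 0 := by
    intro h
    rw [h, Polynomial.coeff_zero] at hij
    exact hij rfl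
  have hj : j ≤ dz P := by
    rw [← (spg_monic η hm).2]
    exact Polynomial.le_natDegree_of_ne_zero hj0
  have e1 : (spg η P).coeff j = aeval ![Polynomial.C η, Polynomial.X] ((finSuccEquiv κ 2 P).coeff j) := by
    rw [← map_spg, Polynomial.coeff_map]
    rfl
  have hc0 : (finSuccEquiv κ 2 P).coeff j ≠ 0 := by
    intro h
    rw [e1, h, map_zero] at hj0
    exact hj0 rfl
  have h1 := totalDegree_coeff_finSuccEquiv_add_le P j hc0
  have h2 : i ≤ ((finSuccEquiv κ 2 P).coeff j).totalDegree := by
    have h3 := aeval_natDegree_le (m := ((finSuccEquiv κ 2 P).coeff j).totalDegree) (n := 1)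
      (map (algebraMap κ L) ((finSuccEquiv κ 2 P).coeff j)) (totalDegree_map _ _)
      (![Polynomial.C η, Polynomial.X] : Fin 2 → Polynomial L)
      (by
        intro l
        fin_cases l
        · simp
        · simp)
    rw [aeval_map_algebraMap, ← e1, mul_one] at h3
    exact (Polynomial.le_natDegree_of_ne_zero hij).trans h3
  rcases Nat.lt_or_ge j (dz P) with hlt | hge
  · have h4 : P.totalDegree * (j + 1) ≤ P.totalDegree * dz P := Nat.mul_le_mul_left _ hlt
    rw [Nat.mul_add, Nat.mul_one] at h4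
    omega
  · have hje : j = dz P := le_antisymm hj hge
    have h5 : (finSuccEquiv κ 2 P).coeff j = 1 := by
      rw [hje]
      exact hm
    rw [h5, totalDegree_one] at h2
    rw [hje]
    omega

/-! ### Coefficient vectors -/

section part2

/-- the polynomial with given coefficients -/
noncomputable def pol {L : Type} [CommRing L] (T : Finset (ℕ × ℕ)) (v : T → L) :
    Polynomial (Polynomial L) :=
  ∑ u : T, Polynomial.monomial u.1.2 (Polynomial.monomial u.1.1 (v u))

theorem pol_coeff {L : Type} [CommRing L] (T : Finset (ℕ × ℕ)) (v : T → L) (i j : ℕ) :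
    ((pol T v).coeff j).coeff i = if h : (i, j) ∈ T then v ⟨(i, j), h⟩ else 0 := by
  unfold pol
  rw [Polynomial.finset_sum_coeff, Polynomial.finset_sum_coeff]
  have h1 : ∀ u : T, ((Polynomial.monomial u.1.2 (Polynomial.monomial u.1.1 (v u))).coeff j).coeff i =
      if u.1 = (i, j) then v u else 0 := by
    intro u
    rw [Polynomial.coeff_monomial]
    by_cases hj : u.1.2 = j
    · rw [if_pos hj, Polynomial.coeff_monomial]
      by_cases hi : u.1.1 = i
      · rw [if_pos hi, if_pos (Prod.ext hi hj)]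
      · rw [if_neg hi, if_neg]
        intro h
        exact hi (congrArg Prod.fst h)
    · rw [if_neg hj, Polynomial.coeff_zero, if_neg]
      intro h
      exact hj (congrArg Prod.snd h)
  rw [Finset.sum_congr rfl fun u _ => h1 u]
  split_ifs with h
  · rw [Finset.sum_eq_single (⟨(i, j), h⟩ : T)]
    · rw [if_pos rfl]
    · intro u _ hu
      rw [if_neg]
      intro h'
      exact hu (Subtype.ext h')
    · intro h'
      exact absurd (Finset.mem_univ _) h'
  · refine Finset.sum_eq_zero fun u _ => ?_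
    rw [if_neg]
    intro h'
    exact h (h' ▸ u.2)

theorem ext2 {L : Type} [CommRing L] {A B : Polynomial (Polynomial L)}
    (h : ∀ i j, (A.coeff j).coeff i = (B.coeff j).coeff i) : A = B :=
  Polynomial.ext fun j => Polynomial.ext fun i => h i j

theorem pol_eq {L : Type} [CommRing L] (T : Finset (ℕ × ℕ)) (A : Polynomial (Polynomial L))
    (h : ∀ i j, (i, j) ∉ T → (A.coeff j).coeff i = 0) :
    pol T (fun u => (A.coeff u.1.2).coeff u.1.1) = A := by
  refine ext2 fun i j => ?_
  rw [pol_coeff]
  split_ifs with h1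
  · rfl
  · exact (h i j h1).symm

theorem pol_zero {L : Type} [CommRing L] (T : Finset (ℕ × ℕ)) : pol T (fun _ => (0 : L)) = 0 := by
  refine ext2 fun i j => ?_
  rw [pol_coeff, Polynomial.coeff_zero, Polynomial.coeff_zero]
  split_ifs <;> rfl

theorem pol_add {L : Type} [CommRing L] (T : Finset (ℕ × ℕ)) (v w : T → L) :
    pol T (fun u => v u + w u) = pol T v + pol T w := by
  refine ext2 fun i j => ?_
  rw [Polynomial.coeff_add, Polynomial.coeff_add, pol_coeff, pol_coeff, pol_coeff]
  split_ifs
  · rfl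
  · rw [add_zero]

theorem pol_smul {L : Type} [CommRing L] (T : Finset (ℕ × ℕ)) (c : L) (v : T → L) :
    pol T (fun u => c * v u) = Polynomial.C (Polynomial.C c) * pol T v := by
  refine ext2 fun i j => ?_
  rw [Polynomial.coeff_C_mul, Polynomial.coeff_C_mul, pol_coeff, pol_coeff]
  split_ifs
  · rfl
  · rw [mul_zero]

/-- divisibility by a monic polynomial is a linear system -/
theorem ker {R : Type} [CommRing R] [Nontrivial R] (b : ℕ) (B : Fin b → Polynomial (Polynomial R))
    (Q : Polynomial (Polynomial R)) (hQ : Q.Monic) :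
    ∃ (a : ℕ) (M : Matrix (Fin a) (Fin b) R), ∀ (L : Type) [Field L] (φ : R →+* L) (v : Fin b → L),
      (M.map φ).mulVec v = 0 ↔ Q.map (Polynomial.mapRingHom φ) ∣
        ∑ u, Polynomial.C (Polynomial.C (v u)) * (B u).map (Polynomial.mapRingHom φ) := by
  classical
  set G : Fin b → Polynomial (Polynomial R) := fun u => B u %ₘ Q with hG
  set T : Finset (ℕ × ℕ) := Finset.univ.biUnion fun u => (G u).support.biUnion fun j =>
    ((G u).coeff j).support.image fun i => (i, j) with hT
  have hmem : ∀ u i j, ((G u).coeff j).coeff i ≠ 0 → (i, j) ∈ T := by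
    intro u i j h
    rw [hT, Finset.mem_biUnion]
    refine ⟨u, Finset.mem_univ _, ?_⟩
    rw [Finset.mem_biUnion]
    refine ⟨j, ?_, ?_⟩
    · rw [Polynomial.mem_support_iff]
      intro h0
      rw [h0, Polynomial.coeff_zero] at h
      exact h rfl
    · rw [Finset.mem_image]
      exact ⟨i, Polynomial.mem_support_iff.2 h, rfl⟩
  set ε := T.equivFin with hε
  refine ⟨T.card, Matrix.of fun k u => ((G u).coeff (ε.symm k).1.2).coeff (ε.symm k).1.1,
    fun L _ φ v => ?_⟩
  set S : Polynomial (Polynomial L) :=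
    ∑ u, Polynomial.C (Polynomial.C (v u)) * (G u).map (Polynomial.mapRingHom φ) with hS
  have hco : ∀ i j, (S.coeff j).coeff i = ∑ u, v u * φ (((G u).coeff j).coeff i) := by
    intro i j
    rw [hS, Polynomial.finset_sum_coeff, Polynomial.finset_sum_coeff]
    refine Finset.sum_congr rfl fun u _ => ?_
    rw [Polynomial.coeff_C_mul, Polynomial.coeff_C_mul, Polynomial.coeff_map,
      Polynomial.coe_mapRingHom, Polynomial.coeff_map]
  have hmv : ∀ k, ((Matrix.of fun (k : Fin T.card) u =>
      ((G u).coeff (ε.symm k).1.2).coeff (ε.symm k).1.1).map φ).mulVec v k =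
      (S.coeff (ε.symm k).1.2).coeff (ε.symm k).1.1 := by
    intro k
    rw [hco, Matrix.mulVec, dotProduct]
    refine Finset.sum_congr rfl fun u _ => ?_
    rw [Matrix.map_apply, Matrix.of_apply, mul_comm]
  have h0 : ((Matrix.of fun (k : Fin T.card) u =>
      ((G u).coeff (ε.symm k).1.2).coeff (ε.symm k).1.1).map φ).mulVec v = 0 ↔ S = 0 := by
    constructor
    · intro h
      refine ext2 fun i j => ?_
      rw [Polynomial.coeff_zero, Polynomial.coeff_zero]
      by_cases hij : (i, j) ∈ T
      · have h1 := hmv (ε ⟨(i, j), hij⟩)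
        rw [h, Equiv.symm_apply_apply] at h1
        exact h1.symm
      · rw [hco]
        refine Finset.sum_eq_zero fun u _ => ?_
        have h1 : ((G u).coeff j).coeff i = 0 := by
          by_contra h2
          exact hij (hmem u i j h2)
        rw [h1, map_zero, mul_zero]
    · intro h
      funext k
      rw [hmv, h, Polynomial.coeff_zero, Polynomial.coeff_zero]
      rfl
  rw [h0]
  have hdec : ∑ u, Polynomial.C (Polynomial.C (v u)) * (B u).map (Polynomial.mapRingHom φ) =
      S + Q.map (Polynomial.mapRingHom φ) * ∑ u, Polynomial.C (Polynomial.C (v u)) *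
        (B u /ₘ Q).map (Polynomial.mapRingHom φ) := by
    rw [hS, Finset.mul_sum, ← Finset.sum_add_distrib]
    refine Finset.sum_congr rfl fun u _ => ?_
    have h1 := congrArg (fun F => F.map (Polynomial.mapRingHom φ)) (Polynomial.modByMonic_add_div (B u) Q)
    simp only [Polynomial.map_add, Polynomial.map_mul] at h1
    rw [← h1, hG]
    ring
  rw [hdec]
  constructor
  · intro h
    rw [h, zero_add]
    exact dvd_mul_right _ _
  · intro h
    have h1 : Q.map (Polynomial.mapRingHom φ) ∣ S := (dvd_add_left (dvd_mul_right _ _)).1 h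
    refine Polynomial.eq_zero_of_dvd_of_degree_lt h1 ?_
    rw [hS]
    have hQd : (Q.map (Polynomial.mapRingHom φ)).degree = Q.degree :=
      hQ.degree_map _
    refine lt_of_le_of_lt (Polynomial.degree_sum_le _ _) ?_
    rw [hQd, Finset.sup_lt_iff]
    · intro u _
      refine lt_of_le_of_lt (Polynomial.degree_mul_le _ _) ?_
      have h2 : ((G u).map (Polynomial.mapRingHom φ)).degree < Q.degree :=
        lt_of_le_of_lt Polynomial.degree_map_le (Polynomial.degree_modByMonic_lt _ hQ)
      calc (Polynomial.C (Polynomial.C (v u))).degree + ((G u).map (Polynomial.mapRingHom φ)).degree ≤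
            0 + ((G u).map (Polynomial.mapRingHom φ)).degree :=
            add_le_add_left Polynomial.degree_C_le _
        _ = ((G u).map (Polynomial.mapRingHom φ)).degree := zero_add _
        _ < Q.degree := h2
    · exact bot_lt_iff_ne_bot.2 (by
        rw [Ne, Polynomial.degree_eq_bot]
        exact hQ.ne_zero)

/-- the solutions are combinations of solutions of bounded degree -/
theorem gen (hMin : StmtMin) {κ : Type} [Field κ] (b : ℕ)
    (B : Fin b → Polynomial (Polynomial (MvPolynomial (Fin 3) κ)))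
    (Q : Polynomial (Polynomial (MvPolynomial (Fin 3) κ))) (hQ : Q.Monic) :
    ∃ C : ℕ, ∀ (L : Type) [Field L] [Algebra κ L] (x : Fin 3 → L) (v : Fin b → L),
      Q.map (Polynomial.mapRingHom (aeval x : MvPolynomial (Fin 3) κ →ₐ[κ] L).toRingHom) ∣
        ∑ u, Polynomial.C (Polynomial.C (v u)) *
          (B u).map (Polynomial.mapRingHom (aeval x : MvPolynomial (Fin 3) κ →ₐ[κ] L).toRingHom) →
      v ∈ Submodule.span L {w : Fin b → L |
        Q.map (Polynomial.mapRingHom (aeval x : MvPolynomial (Fin 3) κ →ₐ[κ] L).toRingHom) ∣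
        ∑ u, Polynomial.C (Polynomial.C (w u)) *
          (B u).map (Polynomial.mapRingHom (aeval x : MvPolynomial (Fin 3) κ →ₐ[κ] L).toRingHom) ∧
        ∀ u, ∃ a : MvPolynomial (Fin 3) κ, a.totalDegree ≤ C ∧ w u = aeval x a} := by
  classical
  obtain ⟨a, M, hM⟩ := ker b B Q hQ
  set C : ℕ := ∑ r ∈ Finset.range (a + 1), ∑ I : Fin r → Fin a, ∑ J : Fin r → Fin b,
    (M.submatrix I J).det.totalDegree with hC
  have hle : ∀ (r : ℕ) (_ : r ≤ a) (I : Fin r → Fin a) (J : Fin r → Fin b),
      (M.submatrix I J).det.totalDegree ≤ C := by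
    intro r hr I J
    rw [hC]
    calc (M.submatrix I J).det.totalDegree ≤ ∑ J : Fin r → Fin b, (M.submatrix I J).det.totalDegree :=
          Finset.single_le_sum (f := fun J : Fin r → Fin b => (M.submatrix I J).det.totalDegree)
            (fun _ _ => Nat.zero_le _) (Finset.mem_univ J)
      _ ≤ ∑ I : Fin r → Fin a, ∑ J : Fin r → Fin b, (M.submatrix I J).det.totalDegree :=
          Finset.single_le_sum
            (f := fun I : Fin r → Fin a => ∑ J : Fin r → Fin b, (M.submatrix I J).det.totalDegree)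
            (fun _ _ => Nat.zero_le _) (Finset.mem_univ I)
      _ ≤ _ :=
          Finset.single_le_sum
            (f := fun r => ∑ I : Fin r → Fin a, ∑ J : Fin r → Fin b, (M.submatrix I J).det.totalDegree)
            (fun _ _ => Nat.zero_le _) (Finset.mem_range.2 (Nat.lt_succ_of_le hr))
  refine ⟨C, fun L _ _ x v hv => ?_⟩
  set φ : MvPolynomial (Fin 3) κ →+* L := (aeval x : MvPolynomial (Fin 3) κ →ₐ[κ] L).toRingHom with hφ
  have hdet : ∀ (r : ℕ) (I : Fin r → Fin a) (J : Fin r → Fin b),
      ((M.map φ).submatrix I J).det = aeval x (M.submatrix I J).det := by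
    intro r I J
    exact (RingHom.map_det φ (M.submatrix I J)).symm
  refine Submodule.span_mono ?_ (hMin L a b (M.map φ) v ((hM L φ v).2 hv))
  rintro w ⟨hw1, hw2⟩
  refine ⟨(hM L φ w).1 hw1, fun u => ?_⟩
  rcases hw2 u with h | ⟨r, hr, I, J, h | h⟩
  · exact ⟨0, by rw [totalDegree_zero]; exact Nat.zero_le _, by rw [h, map_zero]⟩
  · exact ⟨(M.submatrix I J).det, hle r hr I J, by rw [h, hdet]⟩
  · exact ⟨-(M.submatrix I J).det, by rw [totalDegree_neg]; exact hle r hr I J,
      by rw [h, hdet, map_neg]⟩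

end part2

end UnivM

theorem tUniv (hMin : StmtMin) (hDim : StmtDim) : StmtUniv := by
  classical
  intro κ _ P hP hm
  obtain ⟨m, hmd⟩ : ∃ m, m = P.totalDegree := ⟨_, rfl⟩
  obtain ⟨e, hed⟩ : ∃ e, e = dz P := ⟨_, rfl⟩
  have he1 : 1 ≤ e := hed ▸ UnivM.deg_pos hP hm
  have hm1 : 1 ≤ m := by
    have h := UnivM.deg_le P
    omega
  obtain ⟨n, hn⟩ : ∃ n, n = m * e ^ 2 + 2 := ⟨_, rfl⟩
  set T₁ : Finset (ℕ × ℕ) :=
    ((Finset.range (n + 1)) ×ˢ (Finset.range e)).filter fun p => p.1 + m * p.2 ≤ n with hT₁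
  set T₂ : Finset (ℕ × ℕ) := (Finset.range (m * n + 1)) ×ˢ (Finset.range e) with hT₂
  set ε : (T₁ ⊕ T₂) ≃ Fin (Fintype.card (T₁ ⊕ T₂)) := Fintype.equivFin (T₁ ⊕ T₂) with hε
  set Bu : (T₁ ⊕ T₂) → Polynomial (Polynomial (MvPolynomial (Fin 3) κ)) :=
    Sum.elim
      (fun t => Polynomial.monomial t.1.2 (Polynomial.monomial t.1.1 1) *
        (Polynomial.X - Polynomial.C (Polynomial.C (X 2))) ^ n)
      (fun t => Polynomial.monomial t.1.2 (Polynomial.monomial t.1.1 1) *
        Polynomial.C ((Polynomial.X - Polynomial.C (X 1)) ^ n)) with hBu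
  obtain ⟨C, hC⟩ := UnivM.gen hMin (Fintype.card (T₁ ⊕ T₂)) (fun k => Bu (ε.symm k))
    (UnivM.spg (X 0 : MvPolynomial (Fin 3) κ) P) (UnivM.spg_monic _ hm).1
  refine ⟨n, C, by omega, fun L _ _ η x₀ z₀ hz hz' => ?_⟩
  set φ : MvPolynomial (Fin 3) κ →ₐ[κ] L := aeval ![η, x₀, z₀] with hφ
  have hQ : (UnivM.spg (X 0 : MvPolynomial (Fin 3) κ) P).map (Polynomial.mapRingHom φ.toRingHom) =
      sp η P := by
    refine (UnivM.spg_map φ _ P).trans ?_
    rw [hφ, aeval_X]
    rfl
  have hφ1 : φ (X 1) = x₀ := by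
    rw [hφ, aeval_X]
    rfl
  have hφ2 : φ (X 2) = z₀ := by
    rw [hφ, aeval_X]
    rfl
  have hsum : ∀ v : Fin (Fintype.card (T₁ ⊕ T₂)) → L,
      ∑ k, Polynomial.C (Polynomial.C (v k)) *
        (Bu (ε.symm k)).map (Polynomial.mapRingHom φ.toRingHom) =
      UnivM.pol T₁ (fun t => v (ε (Sum.inl t))) *
        (Polynomial.X - Polynomial.C (Polynomial.C z₀)) ^ n +
      UnivM.pol T₂ (fun t => v (ε (Sum.inr t))) *
        Polynomial.C ((Polynomial.X - Polynomial.C x₀) ^ n) := by
    intro v
    have h1 : ∑ k, Polynomial.C (Polynomial.C (v k)) *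
        (Bu (ε.symm k)).map (Polynomial.mapRingHom φ.toRingHom) =
        ∑ u : T₁ ⊕ T₂, Polynomial.C (Polynomial.C (v (ε u))) *
          (Bu u).map (Polynomial.mapRingHom φ.toRingHom) := by
      refine (Fintype.sum_equiv ε _ _ fun u => ?_).symm
      rw [Equiv.symm_apply_apply]
    rw [h1, Fintype.sum_sum_type]
    congr 1
    · unfold UnivM.pol
      rw [Finset.sum_mul]
      refine Finset.sum_congr rfl fun t _ => ?_
      rw [hBu, Sum.elim_inl, Polynomial.map_mul, Polynomial.map_pow, Polynomial.map_sub,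
        Polynomial.map_X, Polynomial.map_C, Polynomial.map_monomial, Polynomial.coe_mapRingHom,
        Polynomial.map_C, Polynomial.map_monomial, ← mul_assoc, Polynomial.C_mul_monomial,
        Polynomial.C_mul_monomial, map_one, mul_one]
      congr 4
      exact congrArg _ hφ2
    · unfold UnivM.pol
      rw [Finset.sum_mul]
      refine Finset.sum_congr rfl fun t _ => ?_
      rw [hBu, Sum.elim_inr, Polynomial.map_mul, Polynomial.map_C,
        Polynomial.map_monomial, Polynomial.coe_mapRingHom, Polynomial.map_pow, Polynomial.map_sub,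
        Polynomial.map_X, Polynomial.map_C, Polynomial.map_monomial, ← mul_assoc,
        Polynomial.C_mul_monomial, Polynomial.C_mul_monomial, map_one, mul_one]
      congr 4
      exact congrArg _ hφ1
  obtain ⟨hQm, hQd⟩ := UnivM.spg_monic η hm (R := L)
  have hwt : Wt m (m * e) (sp η P) := by
    rw [hmd, hed]
    exact UnivM.spg_wt η hm
  obtain ⟨A, A', H, hA1, hA'1, hA2, hA'2, hH, hne⟩ := hDim L (sp η P) m e n x₀ z₀ hQm
    (hQd.trans hed.symm) he1 hm1 hwt hn ((UnivM.spg_eval η x₀ z₀ P).trans hz) (by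
      intro h2
      apply hz'
      rw [← UnivM.spg_eval η x₀ z₀, ← UnivM.spg_deriv, ← Polynomial.derivative_map]
      exact h2)
  have hpA : UnivM.pol T₁ (fun t => (A.coeff t.1.2).coeff t.1.1) = A := by
    refine UnivM.pol_eq T₁ A fun i j hij => ?_
    by_contra h
    have h1 := hA1 i j h
    apply hij
    have h2 : j < e := by
      refine lt_of_le_of_lt (Polynomial.le_natDegree_of_ne_zero (n := j) (p := A) ?_) hA2
      intro h3
      rw [h3, Polynomial.coeff_zero] at h
      exact h rfl
    rw [hT₁, Finset.mem_filter, Finset.mem_product, Finset.mem_range, Finset.mem_range]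
    dsimp only
    exact ⟨⟨by omega, h2⟩, h1⟩
  have hpA' : UnivM.pol T₂ (fun t => ((-A').coeff t.1.2).coeff t.1.1) = -A' := by
    refine UnivM.pol_eq T₂ (-A') fun i j hij => ?_
    by_contra h
    rw [Polynomial.coeff_neg, Polynomial.coeff_neg, neg_eq_zero] at h
    have h1 := hA'1 i j h
    apply hij
    have h2 : j < e := by
      refine lt_of_le_of_lt (Polynomial.le_natDegree_of_ne_zero (n := j) (p := A') ?_) hA'2
      intro h3
      rw [h3, Polynomial.coeff_zero] at h
      exact h rfl
    rw [hT₂, Finset.mem_product, Finset.mem_range, Finset.mem_range]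
    dsimp only
    exact ⟨by omega, h2⟩
  set v : Fin (Fintype.card (T₁ ⊕ T₂)) → L := fun k =>
    Sum.elim (fun t : T₁ => (A.coeff t.1.2).coeff t.1.1)
      (fun t : T₂ => ((-A').coeff t.1.2).coeff t.1.1) (ε.symm k) with hv
  have hv1 : UnivM.pol T₁ (fun t => v (ε (Sum.inl t))) = A := by
    refine Eq.trans ?_ hpA
    congr 1
    funext t
    rw [hv]
    dsimp only
    rw [Equiv.symm_apply_apply, Sum.elim_inl]
  have hv2 : UnivM.pol T₂ (fun t => v (ε (Sum.inr t))) = -A' := by
    refine Eq.trans ?_ hpA'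
    congr 1
    funext t
    rw [hv]
    dsimp only
    rw [Equiv.symm_apply_apply, Sum.elim_inr]
  have hdvd : (UnivM.spg (X 0 : MvPolynomial (Fin 3) κ) P).map
      (Polynomial.mapRingHom φ.toRingHom) ∣ ∑ k, Polynomial.C (Polynomial.C (v k)) *
        (Bu (ε.symm k)).map (Polynomial.mapRingHom φ.toRingHom) := by
    rw [hQ, hsum v, hv1, hv2]
    refine Dvd.intro H (hH.symm.trans ?_)
    ring
  have hspan := hC L ![η, x₀, z₀] v hdvd
  have hex : ∃ w : Fin (Fintype.card (T₁ ⊕ T₂)) → L,
      ((UnivM.spg (X 0 : MvPolynomial (Fin 3) κ) P).map (Polynomial.mapRingHom φ.toRingHom) ∣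
        ∑ k, Polynomial.C (Polynomial.C (w k)) *
          (Bu (ε.symm k)).map (Polynomial.mapRingHom φ.toRingHom)) ∧
      (∀ u, ∃ a : MvPolynomial (Fin 3) κ, a.totalDegree ≤ C ∧ w u = aeval ![η, x₀, z₀] a) ∧
      ∀ c : L, UnivM.pol T₁ (fun t => w (ε (Sum.inl t))) ≠
        Polynomial.C (Polynomial.C c * (Polynomial.X - Polynomial.C x₀) ^ n) := by
    by_contra hcon
    push Not at hcon
    let W : Submodule L (Fin (Fintype.card (T₁ ⊕ T₂)) → L) :=
      { carrier := {w | ∃ c : L, UnivM.pol T₁ (fun t => w (ε (Sum.inl t))) =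
          Polynomial.C (Polynomial.C c * (Polynomial.X - Polynomial.C x₀) ^ n)}
        add_mem' := by
          rintro a b ⟨c, hc⟩ ⟨d, hd⟩
          refine ⟨c + d, ?_⟩
          have h := UnivM.pol_add T₁ (fun t => a (ε (Sum.inl t))) (fun t => b (ε (Sum.inl t)))
          rw [hc, hd] at h
          refine h.trans ?_
          rw [← Polynomial.C_add, ← add_mul, ← Polynomial.C_add]
        zero_mem' := ⟨0, by
          rw [Polynomial.C_0, zero_mul, Polynomial.C_0]
          exact UnivM.pol_zero T₁⟩
        smul_mem' := by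
          rintro r a ⟨c, hc⟩
          refine ⟨r * c, ?_⟩
          have h := UnivM.pol_smul T₁ r (fun t => a (ε (Sum.inl t)))
          rw [hc] at h
          refine h.trans ?_
          rw [← Polynomial.C_mul, ← mul_assoc, ← Polynomial.C_mul] }
    have hle : Submodule.span L {w : Fin (Fintype.card (T₁ ⊕ T₂)) → L |
        (UnivM.spg (X 0 : MvPolynomial (Fin 3) κ) P).map (Polynomial.mapRingHom φ.toRingHom) ∣
        ∑ k, Polynomial.C (Polynomial.C (w k)) *
          (Bu (ε.symm k)).map (Polynomial.mapRingHom φ.toRingHom) ∧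
        ∀ u, ∃ a : MvPolynomial (Fin 3) κ, a.totalDegree ≤ C ∧ w u = aeval ![η, x₀, z₀] a} ≤ W := by
      rw [Submodule.span_le]
      rintro w ⟨hw1, hw2⟩
      exact hcon w hw1 hw2
    obtain ⟨c, hc⟩ := hle hspan
    rw [hv1] at hc
    exact hne c hc
  obtain ⟨w, hw1, hw2, hw3⟩ := hex
  rw [hQ, hsum w] at hw1
  obtain ⟨H', hH'⟩ := hw1
  have hmem : ∀ i j, (i, j) ∈ T₁ → j < e ∧ i + m * j ≤ n := by
    intro i j h
    rw [hT₁, Finset.mem_filter, Finset.mem_product, Finset.mem_range, Finset.mem_range] at h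
    exact ⟨h.1.2, h.2⟩
  refine ⟨UnivM.pol T₁ (fun t => w (ε (Sum.inl t))), -UnivM.pol T₂ (fun t => w (ε (Sum.inr t))), H',
    ?_, ?_, ?_, ?_, ?_, hw3⟩
  · intro i j hij
    rw [UnivM.pol_coeff] at hij
    split_ifs at hij with h
    · rw [← hmd]
      exact (hmem i j h).2
    · exact absurd rfl hij
  · rw [← hed]
    by_contra hcon
    have h0 : UnivM.pol T₁ (fun t => w (ε (Sum.inl t))) ≠ 0 := by
      intro h
      rw [h, Polynomial.natDegree_zero] at hcon
      omega
    have h1 : (UnivM.pol T₁ (fun t => w (ε (Sum.inl t)))).coeff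
        (UnivM.pol T₁ (fun t => w (ε (Sum.inl t)))).natDegree ≠ 0 := by
      rw [Polynomial.coeff_natDegree]
      exact Polynomial.leadingCoeff_ne_zero.2 h0
    apply h1
    ext i
    rw [UnivM.pol_coeff, dif_neg, Polynomial.coeff_zero]
    intro h
    exact hcon (hmem _ _ h).1
  · intro i j
    rw [UnivM.pol_coeff]
    split_ifs with h
    · exact hw2 _
    · exact ⟨0, by rw [totalDegree_zero]; exact Nat.zero_le _, by rw [map_zero]⟩
  · intro i j
    rw [Polynomial.coeff_neg, Polynomial.coeff_neg, UnivM.pol_coeff]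
    split_ifs with h
    · obtain ⟨a, ha1, ha2⟩ := hw2 (ε (Sum.inr ⟨(i, j), h⟩))
      exact ⟨-a, by rw [totalDegree_neg]; exact ha1, by rw [ha2, map_neg]⟩
    · exact ⟨0, by rw [totalDegree_zero]; exact Nat.zero_le _, by rw [map_zero, neg_zero]⟩
  · rw [← hH']
    ring

end Pool.Agent.Lib.MP_16285c_agS.Hrx
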