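import Pool.Agent.Lib.MP_16285c_agS.Hrx.Spec

/-!
# Good coordinates
-/

set_option autoImplicit false

namespace Pool.Agent.Lib.MP_16285c_agS.Hrx

open MvPolynomial
open scoped IntermediateField
open Pool.Agent.Lib.MP_16285c_ag (RM FrobPt)
open Pool.Agent.ZDO (Wd)
open Pool.Agent.Lib.MP_16285c_agS.Bez (StmtBert3)

namespace CoordM

theorem fse_C {κ : Type} [Field κ] (c : κ) : finSuccEquiv κ 2 (C c) = Polynomial.C (C c) := by
  exact (finSuccEquiv κ 2).commutes c

theorem fse_pderiv {κ : Type} [Field κ] (G : MvPolynomial (Fin 3) κ) :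
    finSuccEquiv κ 2 (pderiv 0 G) = Polynomial.derivative (finSuccEquiv κ 2 G) := by
  induction G using MvPolynomial.induction_on with
  | C a => rw [pderiv_C, map_zero, fse_C, Polynomial.derivative_C]
  | add p q hp hq => simp only [map_add, hp, hq]
  | mul_X p i hp =>
    have key : finSuccEquiv κ 2 (pderiv 0 (X i)) = Polynomial.derivative (finSuccEquiv κ 2 (X i)) := by
      refine Fin.cases ?_ (fun j => ?_) i
      · rw [pderiv_X_self, map_one, finSuccEquiv_X_zero, Polynomial.derivative_X]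
      · rw [pderiv_X_of_ne (Fin.succ_ne_zero j), map_zero, finSuccEquiv_X_succ,
          Polynomial.derivative_C]
    rw [Derivation.leibniz, map_add, smul_eq_mul, smul_eq_mul, map_mul, map_mul, map_mul,
      Polynomial.derivative_mul, hp, key]
    ring

/-- The derivative is not divisible by `P`. -/
theorem not_dvd {κ : Type} [Field κ] (p : ℕ) [Fact p.Prime] [CharP κ p] {P : MvPolynomial (Fin 3) κ}
    (hP : Irreducible P) (hm : Mon P) (hd : P.totalDegree < p) : ¬ P ∣ pderiv 0 P := by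
  intro h
  have hm' : (finSuccEquiv κ 2 P).Monic := hm
  have hirr : Irreducible (finSuccEquiv κ 2 P) :=
    (MulEquiv.irreducible_iff (finSuccEquiv κ 2).toMulEquiv).2 hP
  have hpos : 0 < (finSuccEquiv κ 2 P).natDegree := by
    rw [Nat.pos_iff_ne_zero]
    intro h0
    rw [(Polynomial.Monic.natDegree_eq_zero hm').1 h0] at hirr
    exact hirr.1 isUnit_one
  have hlt : (finSuccEquiv κ 2 P).natDegree < p := by
    rw [natDegree_finSuccEquiv]
    exact (degreeOf_le_totalDegree P 0).trans_lt hd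
  have h1 : finSuccEquiv κ 2 P ∣ Polynomial.derivative (finSuccEquiv κ 2 P) := by
    rw [← fse_pderiv]
    exact (map_dvd (finSuccEquiv κ 2) h)
  have h2 : Polynomial.derivative (finSuccEquiv κ 2 P) = 0 := by
    by_contra h0
    have h3 := Polynomial.natDegree_le_of_dvd h1 h0
    have h4 := Polynomial.natDegree_derivative_lt hpos.ne'
    omega
  have h3 : (Polynomial.derivative (finSuccEquiv κ 2 P)).coeff ((finSuccEquiv κ 2 P).natDegree - 1) = 0 := by
    rw [h2, Polynomial.coeff_zero]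
  rw [Polynomial.coeff_derivative, Nat.sub_add_cancel hpos, hm'.coeff_natDegree, one_mul] at h3
  have h4 : (((finSuccEquiv κ 2 P).natDegree : ℕ) : MvPolynomial (Fin 2) κ) = 0 := by
    rw [← h3, ← Nat.cast_one (R := MvPolynomial (Fin 2) κ), ← Nat.cast_add, Nat.sub_add_cancel hpos]
  have h5 : (((finSuccEquiv κ 2 P).natDegree : ℕ) : κ) = 0 := by
    have h6 : (C (((finSuccEquiv κ 2 P).natDegree : ℕ) : κ) : MvPolynomial (Fin 2) κ) = 0 := by
      rw [← h4]
      exact map_natCast C _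
    exact (C_eq_zero).1 h6
  rw [CharP.cast_eq_zero_iff κ p] at h5
  exact absurd (Nat.le_of_dvd hpos h5) (not_le.2 hlt)

/-- Transport of the statement along an isomorphism. -/
theorem transport {κ E E' : Type} [Field κ] [Field E] [Field E'] [Algebra κ E] [Algebra κ E']
    (e : E ≃ₐ[κ] E') (l : E) (h : ∀ α : E, IsAlgebraic κ⟮l⟯ α → α ∈ κ⟮l⟯) :
    ∀ α : E', IsAlgebraic κ⟮e l⟯ α → α ∈ κ⟮e l⟯ := by
  intro α hα
  have h1 : κ⟮e l⟯ = (κ⟮l⟯).map e.toAlgHom := by
    rw [IntermediateField.adjoin_map, Set.image_singleton]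
    rfl
  obtain ⟨β, rfl⟩ := e.surjective α
  rw [h1] at hα ⊢
  have h2 : IsAlgebraic κ⟮l⟯ β :=
    IsAlgebraic.of_ringHom_of_comp_eq (f := IntermediateField.intermediateFieldMap e κ⟮l⟯) (g := e) hα
      (IntermediateField.intermediateFieldMap e κ⟮l⟯).surjective e.injective
      (RingHom.ext fun x => rfl)
  exact ⟨β, h β h2, rfl⟩

section

variable {κ : Type} [Field κ] {P : MvPolynomial (Fin 3) κ}

/-- The function field. -/
theorem exists_gen (hP : Irreducible P) : ∃ (E : Type) (_ : Field E) (_ : Algebra κ E) (Ξ : Fin 3 → E),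
    Gen P Ξ ∧ ∀ (E' : Type) [Field E'] [Algebra κ E'] (ξ : Fin 3 → E'), Gen P ξ →
      ∃ e : E ≃ₐ[κ] E', ∀ l, e (Ξ l) = ξ l := by
  have hprime : (Ideal.span {P}).IsPrime := (Ideal.span_singleton_prime hP.ne_zero).2 hP.prime
  let A := MvPolynomial (Fin 3) κ ⧸ Ideal.span {P}
  let E := FractionRing A
  let Ξ : Fin 3 → E := fun l => algebraMap A E (Ideal.Quotient.mk _ (X l))
  have hΞ : ∀ B : MvPolynomial (Fin 3) κ, aeval Ξ B = algebraMap A E (Ideal.Quotient.mk _ B) := by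
    intro B
    have h1 : (aeval Ξ : MvPolynomial (Fin 3) κ →ₐ[κ] E) =
        (IsScalarTower.toAlgHom κ A E).comp (Ideal.Quotient.mkₐ κ (Ideal.span {P})) := by
      apply MvPolynomial.algHom_ext
      intro l
      rw [aeval_X]
      rfl
    rw [h1]
    rfl
  have hker : ∀ B : MvPolynomial (Fin 3) κ, aeval Ξ B = 0 ↔ P ∣ B := by
    intro B
    rw [hΞ, map_eq_zero_iff _ (IsFractionRing.injective A E), Ideal.Quotient.eq_zero_iff_mem,
      Ideal.mem_span_singleton]
  have htop : IntermediateField.adjoin κ (Set.range Ξ) = ⊤ := by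
    rw [eq_top_iff]
    intro x _
    have hmem : ∀ a : A, algebraMap A E a ∈ IntermediateField.adjoin κ (Set.range Ξ) := by
      intro a
      obtain ⟨B, rfl⟩ := Ideal.Quotient.mk_surjective a
      rw [← hΞ]
      exact IntermediateField.algebra_adjoin_le_adjoin κ _
        (by rw [Algebra.adjoin_range_eq_range_aeval]; exact ⟨B, rfl⟩)
    obtain ⟨a, b, -, rfl⟩ := IsFractionRing.div_surjective (A := A) x
    exact div_mem (hmem a) (hmem b)
  refine ⟨E, inferInstance, inferInstance, Ξ, ⟨hker, htop⟩, ?_⟩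
  intro E' _ _ ξ hξ
  let φ : A →ₐ[κ] E' := Ideal.Quotient.liftₐ (Ideal.span {P}) (aeval ξ) (by
    intro a ha
    rw [Ideal.mem_span_singleton] at ha
    exact (hξ.ker a).2 ha)
  have hφ : ∀ B : MvPolynomial (Fin 3) κ, φ (Ideal.Quotient.mk _ B) = aeval ξ B := fun B => rfl
  have hinj : Function.Injective φ := by
    rw [injective_iff_map_eq_zero]
    intro a ha
    obtain ⟨B, rfl⟩ := Ideal.Quotient.mk_surjective a
    rw [hφ, hξ.ker] at ha
    rw [Ideal.Quotient.eq_zero_iff_mem, Ideal.mem_span_singleton]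
    exact ha
  let ψ : E →ₐ[κ] E' := IsFractionRing.liftAlgHom (K := E) hinj
  have hψ : ∀ a : A, ψ (algebraMap A E a) = φ a := fun a =>
    IsFractionRing.lift_algebraMap (K := E) hinj a
  have hψΞ : ∀ l, ψ (Ξ l) = ξ l := by
    intro l
    change ψ (algebraMap A E (Ideal.Quotient.mk _ (X l))) = ξ l
    rw [hψ, hφ, aeval_X]
  have hsurj : Function.Surjective ψ := by
    rw [← AlgHom.fieldRange_eq_top, eq_top_iff, ← hξ.top, IntermediateField.adjoin_le_iff]
    rintro _ ⟨l, rfl⟩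
    exact ⟨Ξ l, hψΞ l⟩
  exact ⟨AlgEquiv.ofBijective ψ ⟨ψ.toRingHom.injective, hsurj⟩, hψΞ⟩

end

end CoordM

open CoordM in
theorem tCoord : StmtBert3 → StmtShear → StmtCoord := by
  intro hB hS κ _ _ p _ _ P f d hdp hok
  obtain ⟨E, hE1, hE2, Ξ, hΞ, hiso⟩ := exists_gen hok.irr
  have hnd : ¬ P ∣ pderiv 0 P := not_dvd p hok.irr hok.mon (hok.dP.trans_lt hdp)
  obtain ⟨t, ht⟩ := (hB κ E P hok.irr hok.mon hnd Ξ hΞ.ker hΞ.top).exists_notMem
  rw [Set.mem_ofPred_eq, not_not] at ht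
  obtain ⟨P₁, f₁, hok₁, htr₁, hgen₁, -⟩ := hS κ p P f d hok 1 2 (by decide) (by decide) (by decide) t
  have hreg₁ : Reg P₁ := by
    intro E' _ _ ξ' hξ' a ha
    have h1 := (hgen₁ E' ξ').1 hξ'
    obtain ⟨e, he⟩ := hiso E' _ h1
    have h2 := transport e _ ht
    have h3 : e (Ξ 1 + algebraMap κ E t * Ξ 2) = ξ' 1 := by
      rw [map_add, map_mul, he, he, AlgEquiv.commutes, Function.update_self,
        Function.update_of_ne (by decide)]
      ring
    rw [h3] at h2
    exact h2 a ha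
  have hu : ∃ u : κ, ¬ P₁ ∣ wX P₁ f₁ 1 1 - C u * wX P₁ f₁ 1 2 := by
    by_cases h1 : P₁ ∣ wX P₁ f₁ 1 1
    · refine ⟨1, fun h2 => hok₁.jac ?_⟩
      rw [C_1, one_mul] at h2
      have h3 := (dvd_sub_right h1).1 h2
      exact dvd_sub (Dvd.dvd.mul_right h1 _) (Dvd.dvd.mul_right h3 _)
    · refine ⟨0, ?_⟩
      rwa [C_0, zero_mul, sub_zero]
  obtain ⟨u, hu⟩ := hu
  obtain ⟨P₂, f₂, hok₂, htr₂, hgen₂, hw⟩ :=
    hS κ p P₁ f₁ (2 * d) hok₁ 2 1 (by decide) (by decide) (by decide) u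
  refine ⟨P₂, f₂, t, u, ?_, ?_, ?_, ?_⟩
  · have h4 : 2 * (2 * d) = 4 * d := by ring
    rw [← h4]
    exact hok₂
  · intro E' _ _ ξ' hξ' a ha
    have h1 := (hgen₂ E' ξ').1 hξ'
    have h2 := hreg₁ E' _ h1 a
    rw [Function.update_of_ne (by decide)] at h2
    exact h2 ha
  · rwa [hw rfl]
  · intro B hB'
    obtain ⟨B₁, hB₁, h1⟩ := htr₁ B hB'
    obtain ⟨B₂, hB₂, h2⟩ := htr₂ B₁ hB₁
    exact ⟨B₂, hB₂, fun s hst hsu ha => h1 s hst (h2 s hsu ha)⟩

end Pool.Agent.Lib.MP_16285c_agS.Hrx
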