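import Pool.Agent.Lib.MP_16285c_agS.Hrx.Spec
import Pool.Agent.Lib.MP_16285c_agZ.Hru.Pn

/-!
# Places: the counting argument for `StmtCurve`
-/

set_option autoImplicit false

namespace Pool.Agent.Lib.MP_16285c_agS.Hrx

open MP7Z
open scoped IntermediateField
open Pool.Agent.Lib.MP_16285c_agZ.Hru (Zn Pn Sit SDer SSepH SPrd SBd SLoc SPn SRes SFld)

namespace CurveM

variable {k E : Type} [Field k] [IsAlgClosed k] [Field E] [Algebra k E]

theorem oz_neg (v : Place k E) (g : E) : v.oz (-g) = v.oz g := by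
  unfold Place.oz
  rw [AddValuation.map_neg]

theorem oz_const (v : Place k E) : v.oz (1 : E) = 0 := v.oz_one

/-- The local inequality. -/
theorem local_ineq [IsCurveField k E] (hP : SPrd) (hL : SLoc) {x : E} {δ : Derivation k E E}
    (hs : Sit k E x δ) {d : ℕ} (hd : Module.finrank k⟮x⟯ E ≤ d)
    (hn : ∀ n : ℕ, 0 < n → n ≤ d → (n : k) ≠ 0) (v : Place k E) {g : E} (hg : δ g ≠ 0) :
    v.oz g ≤ v.oz (δ g) + d := by
  obtain ⟨-, -, hP3, hP4⟩ := hP k E x δ hs
  have hcast : ∀ e : ℤ, 0 < e → e ≤ Module.finrank k⟮x⟯ E → ((e : ℤ) : k) ≠ 0 := by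
    intro e he1 he2
    obtain ⟨n, rfl⟩ := Int.eq_ofNat_of_zero_le he1.le
    rw [Int.cast_natCast]
    exact hn n (by omega) (by omega)
  by_cases hx : 0 ≤ v.ord x
  · obtain ⟨c, hc⟩ := exists_const v hx
    have hδt : δ (x - algebraMap k E c) = 1 := by
      rw [map_sub, Derivation.map_algebraMap, sub_zero, hs.one]
    have ht0 : x - algebraMap k E c ≠ 0 := by
      intro h
      rw [h, map_zero] at hδt
      exact zero_ne_one hδt
    have h1 : 0 < v.oz (x - algebraMap k E c) := (v.pos_iff ht0).1 hc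
    have h2 := hP3 v c
    have h3 := hL k E x δ hs v (x - algebraMap k E c) (hcast _ h1 h2) (by rw [hδt]; exact one_ne_zero)
      g hg
    rw [hδt, v.oz_one] at h3
    omega
  · have hx0 : x ≠ 0 := by
      rintro rfl
      apply hx
      rw [AddValuation.map_zero]
      exact le_top
    have h1 : v.oz x < 0 := by
      by_contra h
      exact hx ((v.nonneg_iff hx0).2 (by omega))
    have hinv : v.oz x⁻¹ = -v.oz x := v.oz_inv hx0
    have hδt : δ x⁻¹ = -(x⁻¹ * x⁻¹) := by
      rw [Derivation.leibniz_inv, hs.one, smul_eq_mul, mul_one, sq]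
    have hi0 : x⁻¹ ≠ 0 := inv_ne_zero hx0
    have hδ0 : δ x⁻¹ ≠ 0 := by
      rw [hδt]
      exact neg_ne_zero.2 (mul_ne_zero hi0 hi0)
    have h2 := hP4 v
    have h3 := hL k E x δ hs v x⁻¹ (by rw [hinv]; exact hcast _ (by omega) h2) hδ0 g hg
    rw [hδt, oz_neg, v.oz_mul hi0 hi0, hinv] at h3
    omega

theorem supp_zero [IsCurveField k E] (h : E) :
    (Function.support fun v : Place k E => max (v.oz h) 0).Finite := by
  rcases eq_or_ne h 0 with rfl | h0
  · have : (Function.support fun v : Place k E => max (v.oz (0 : E)) 0) = ∅ := by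
      ext v
      simp [Pool.Agent.Lib.MP_16285c_agZ.Hru.PnAux.oz_zero]
    rw [this]
    exact Set.finite_empty
  · refine (finite_ord_ne h0).subset ?_
    intro v hv
    rw [Function.mem_support] at hv
    intro h1
    apply hv
    have h2 : v.oz h = 0 := by
      have h3 := v.ord_eq h0
      rw [h1] at h3
      exact (WithTop.coe_inj.1 h3.symm)
    rw [h2]
    simp

/-- The counting argument. -/
theorem count [IsCurveField k E] (hP : SPrd) (hL : SLoc) (hN : SPn) {x : E} {δ : Derivation k E E}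
    (hs : Sit k E x δ) {d : ℕ} (hd : Module.finrank k⟮x⟯ E ≤ d)
    (hn : ∀ n : ℕ, 0 < n → n ≤ d → (n : k) ≠ 0) (w b : E) (hw : δ w ≠ 0) (hb : b ≠ 0) :
    ∃ q₀ : ℕ, ∀ q : ℕ, (q : k) = 0 → q₀ ≤ q →
      ∃ v : Place k E, 0 ≤ v.ord x ∧ v.ord b ≤ 0 ∧ 0 < v.ord (x ^ q - w) := by
  refine ⟨(Zn k (δ w) + d * (Pn k x + Zn k b) + Pn k w).toNat + 1, fun q hq hqq => ?_⟩
  by_contra hcon
  push Not at hcon
  have hfin : Module.Finite k⟮x⟯ E := finite_adjoin hs.tr
  obtain ⟨hP1, hP2, -, -⟩ := hP k E x δ hs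
  obtain ⟨hN1, -, hN3, -, hN5, hN6, -⟩ := hN k E
  have hx0 : x ≠ 0 := by
    rintro rfl
    have := hs.one
    rw [map_zero] at this
    exact zero_ne_one this
  have hδq : δ (x ^ q) = 0 := by
    rw [Derivation.leibniz_pow, ← Nat.cast_smul_eq_nsmul k, hq, zero_smul]
  have hδh : δ (x ^ q - w) = -δ w := by
    rw [map_sub, hδq, zero_sub]
  have hδh0 : δ (x ^ q - w) ≠ 0 := by
    rw [hδh]
    exact neg_ne_zero.2 hw
  have hh0 : x ^ q - w ≠ 0 := by
    intro h
    rw [h, map_zero] at hδh0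
    exact hδh0 rfl
  have hle : ∀ v : Place k E, max (v.oz (x ^ q - w)) 0 ≤
      max (v.oz (δ w)) 0 + (d : ℤ) * (max (-(v.oz x)) 0 + max (v.oz b) 0) := by
    intro v
    have hA : 0 ≤ (d : ℤ) * (max (-(v.oz x)) 0 + max (v.oz b) 0) := by positivity
    have hB : 0 ≤ max (v.oz (δ w)) 0 := le_max_right _ _
    by_cases hpos : 0 < v.oz (x ^ q - w)
    · have hloc := local_ineq hP hL hs hd hn v hδh0
      rw [hδh, oz_neg] at hloc
      have h1 : 1 ≤ max (-(v.oz x)) 0 + max (v.oz b) 0 := by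
        have hC : 0 ≤ max (-(v.oz x)) 0 := le_max_right _ _
        have hD : 0 ≤ max (v.oz b) 0 := le_max_right _ _
        by_cases hvx : 0 ≤ v.ord x
        · by_cases hvb : v.ord b ≤ 0
          · exact absurd ((v.pos_iff hh0).2 hpos) (not_lt.2 (hcon v hvx hvb))
          · have h2 : 0 < v.oz b := (v.pos_iff hb).1 (not_le.1 hvb)
            have h3 : v.oz b ≤ max (v.oz b) 0 := le_max_left _ _
            omega
        · have h2 : v.oz x < 0 := by
            by_contra h
            exact hvx ((v.nonneg_iff hx0).2 (by omega))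
          have h3 : -(v.oz x) ≤ max (-(v.oz x)) 0 := le_max_left _ _
          omega
      have h2 : (d : ℤ) ≤ (d : ℤ) * (max (-(v.oz x)) 0 + max (v.oz b) 0) := by
        have hd0 : (0 : ℤ) ≤ d := Int.natCast_nonneg d
        nlinarith
      have h3 : v.oz (δ w) ≤ max (v.oz (δ w)) 0 := le_max_left _ _
      rw [max_eq_left hpos.le]
      omega
    · rw [max_eq_right (not_lt.1 hpos)]
      exact add_nonneg hB hA
  have hs1 := supp_zero (k := k) (δ w)
  have hs2 := Pool.Agent.Lib.MP_16285c_agZ.Hru.PnAux.supp_pos (k := k) x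
  have hs3 := supp_zero (k := k) b
  have hs23 : (Function.support fun v : Place k E =>
      max (-(v.oz x)) 0 + max (v.oz b) 0).Finite :=
    (hs2.union hs3).subset (Function.support_add _ _)
  have hs4 : (Function.support fun v : Place k E =>
      (d : ℤ) * (max (-(v.oz x)) 0 + max (v.oz b) 0)).Finite := by
    refine hs23.subset fun v hv => ?_
    rw [Function.mem_support] at hv ⊢
    intro h
    apply hv
    rw [h, mul_zero]
  have hsF : (Function.support fun v : Place k E => max (v.oz (δ w)) 0 +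
      (d : ℤ) * (max (-(v.oz x)) 0 + max (v.oz b) 0)).Finite :=
    (hs1.union hs4).subset (Function.support_add _ _)
  have hsum : Zn k (x ^ q - w) ≤ Zn k (δ w) + d * (Pn k x + Zn k b) := by
    calc Zn k (x ^ q - w) ≤ ∑ᶠ v : Place k E, (max (v.oz (δ w)) 0 +
          (d : ℤ) * (max (-(v.oz x)) 0 + max (v.oz b) 0)) :=
        finsum_le_finsum' (supp_zero _) hsF hle
      _ = Zn k (δ w) + d * (Pn k x + Zn k b) := by
        rw [finsum_add_distrib hs1 hs4, ← mul_finsum, finsum_add_distrib hs2 hs3]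
        rfl
  have hPx : Pn k (x ^ q) ≤ Pn k (x ^ q - w) + Pn k w := by
    have h := hN1 (x ^ q - w) w
    rwa [sub_add_cancel] at h
  rw [hN3, ← hP1 (x ^ q - w)] at hPx
  have hPn1 : 1 ≤ Pn k x := by
    rw [hP2]
    have : 0 < Module.finrank k⟮x⟯ E := Module.finrank_pos
    exact_mod_cast this
  have h5 : (q : ℤ) ≤ (q : ℤ) * Pn k x := by
    have hq0 : (0 : ℤ) ≤ q := Int.natCast_nonneg q
    nlinarith
  omega

/-- Residues: the order of a polynomial in `x`, `y` is nonnegative. -/
theorem resid [IsCurveField k E] (hR : SRes) {x y : E} {v : Place k E} (hx : 0 ≤ v.ord x)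
    (hy : 0 ≤ v.ord y) : ∃ a : Fin 2 → k, ∀ A : MvPolynomial (Fin 2) k,
      (MvPolynomial.eval a A = 0 ↔ 0 < v.ord (MvPolynomial.aeval ![x, y] A)) ∧
      0 ≤ v.ord (MvPolynomial.aeval ![x, y] A) := by
  obtain ⟨a, ha⟩ := hR k E x y v hx hy
  refine ⟨a, fun A => ⟨ha A, ?_⟩⟩
  have h1 : MvPolynomial.eval a (A - MvPolynomial.C (MvPolynomial.eval a A)) = 0 := by
    rw [map_sub, MvPolynomial.eval_C, sub_self]
  rw [ha, map_sub, MvPolynomial.aeval_C] at h1
  have h2 := v.ord.map_add (MvPolynomial.aeval ![x, y] A -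
    algebraMap k E (MvPolynomial.eval a A)) (algebraMap k E (MvPolynomial.eval a A))
  rw [sub_add_cancel] at h2
  exact le_trans (le_min h1.le (v.const _)) h2

/-- A root of a monic polynomial with integral coefficients is integral. -/
theorem ord_nonneg_of_monic (v : Place k E) {y : E} (F : Polynomial E) (hF : F.Monic)
    (hc : ∀ i, 0 ≤ v.ord (F.coeff i)) (hy : F.eval y = 0) : 0 ≤ v.ord y := by
  by_contra hneg
  have hy0 : y ≠ 0 := by
    rintro rfl
    apply hneg
    rw [AddValuation.map_zero]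
    exact le_top
  have hyn : v.oz y < 0 := by
    by_contra h
    exact hneg ((v.nonneg_iff hy0).2 (by omega))
  have hi0 : y⁻¹ ≠ 0 := inv_ne_zero hy0
  have hipos : 0 ≤ v.ord y⁻¹ := by
    rw [v.nonneg_iff hi0, v.oz_inv hy0]
    omega
  obtain ⟨n, hn⟩ : ∃ n, F.natDegree = n + 1 := by
    refine Nat.exists_eq_succ_of_ne_zero fun h => ?_
    rw [hF.natDegree_eq_zero.1 h, Polynomial.eval_one] at hy
    exact one_ne_zero hy
  rw [Polynomial.eval_eq_sum_range, hn, Finset.sum_range_succ, ← hn, hF.coeff_natDegree, one_mul,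
    hn] at hy
  have h1 : y = -∑ i ∈ Finset.range (n + 1), F.coeff i * (y⁻¹) ^ (n - i) := by
    have h2 : y ^ (n + 1) = -∑ i ∈ Finset.range (n + 1), F.coeff i * y ^ i := by
      rw [eq_neg_iff_add_eq_zero, add_comm]
      exact hy
    have h3 : y = y ^ (n + 1) * (y⁻¹) ^ n := by
      rw [pow_succ, inv_pow]
      field_simp
    calc y = y ^ (n + 1) * (y⁻¹) ^ n := h3
      _ = -∑ i ∈ Finset.range (n + 1), F.coeff i * (y⁻¹) ^ (n - i) := by
        rw [h2, neg_mul, Finset.sum_mul]
        congr 1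
        refine Finset.sum_congr rfl fun i hi => ?_
        have hin : i ≤ n := by
          have := Finset.mem_range.1 hi
          omega
        obtain ⟨j, rfl⟩ := Nat.exists_eq_add_of_le hin
        rw [Nat.add_sub_cancel_left, pow_add, mul_assoc, ← mul_assoc (y ^ i), ← mul_pow,
          mul_inv_cancel₀ hy0, one_pow, one_mul]
  apply hneg
  rw [h1, AddValuation.map_neg]
  refine AddValuation.map_le_sum v.ord fun i _ => ?_
  rw [AddValuation.map_mul, AddValuation.map_pow]
  exact add_nonneg (hc i) (nsmul_nonneg hipos _)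

end CurveM

end Pool.Agent.Lib.MP_16285c_agS.Hrx
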