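import Pool.Agent.Lib.MP_16285c_agS.Hrx.Spec

/-!
# Frobenius points of dominant rational self-maps of surfaces in characteristic `p`: the theorem
-/

set_option autoImplicit false

namespace Pool.Agent.Lib.MP_16285c_agS.Hrx

open MP7Z MvPolynomial
open scoped IntermediateField
open Pool.Agent.Lib.MP_16285c_ag (RM FrobPt)
open Pool.Agent.Lib.MP_16285c_agZ.Hru (Zn Pn Sit SDer SSepH SPrd SBd SLoc SPn SRes SFld)
open Pool.Agent.ZDO (Wd)
open Pool.Agent.Lib.MP_16285c_agS.Bez (sp StmtBert3 StmtFib3)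

namespace HruxM

section ring

variable {F : Type} [CommRing F] {r : ℕ}

theorem fse_C (c : F) : finSuccEquiv F r (C c) = Polynomial.C (C c) := by
  exact (finSuccEquiv F r).commutes c

theorem fse_pderiv (G : MvPolynomial (Fin (r + 1)) F) :
    finSuccEquiv F r (pderiv 0 G) = Polynomial.derivative (finSuccEquiv F r G) := by
  induction G using MvPolynomial.induction_on with
  | C a => rw [pderiv_C, map_zero, fse_C, Polynomial.derivative_C]
  | add p q hp hq => simp only [map_add, hp, hq]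
  | mul_X p i hp =>
    rw [Derivation.leibniz, map_add, map_mul, Polynomial.derivative_mul, smul_eq_mul, smul_eq_mul,
      map_mul, map_mul, hp, mul_comm (finSuccEquiv F r (X i)), add_comm]
    congr 2
    refine Fin.cases ?_ (fun j => ?_) i
    · rw [pderiv_X_self, map_one, finSuccEquiv_X_zero, Polynomial.derivative_X]
    · rw [pderiv_X_of_ne (Fin.succ_ne_zero j), map_zero, finSuccEquiv_X_succ,
        Polynomial.derivative_C]

theorem irr_fse (G : MvPolynomial (Fin (r + 1)) F) :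
    Irreducible (finSuccEquiv F r G) ↔ Irreducible G :=
  MulEquiv.irreducible_iff (finSuccEquiv F r).toMulEquiv

end ring

variable {κ : Type} [Field κ]

theorem deg_pos {P : MvPolynomial (Fin 3) κ} (hP : Irreducible P) (hm : Mon P) : 0 < dz P := by
  rw [Nat.pos_iff_ne_zero]
  intro h0
  have h1 := (Polynomial.Monic.natDegree_eq_zero hm).1 h0
  have h2 := (irr_fse P).2 hP
  rw [h1] at h2
  exact h2.1 isUnit_one

/-- `P` does not divide its derivative. -/
theorem not_dvd_der {P : MvPolynomial (Fin 3) κ} (hP : Irreducible P) (hm : Mon P) (p : ℕ)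
    [CharP κ p] (hp : dz P < p) : ¬ P ∣ pderiv 0 P := by
  rintro ⟨S, hS⟩
  have h1 : finSuccEquiv κ 2 P ∣ Polynomial.derivative (finSuccEquiv κ 2 P) := by
    refine ⟨finSuccEquiv κ 2 S, ?_⟩
    rw [← fse_pderiv, hS, map_mul]
  have hpos := deg_pos hP hm
  have hne : Polynomial.derivative (finSuccEquiv κ 2 P) ≠ 0 := by
    intro h0
    have h2 := congrArg (fun Q => Polynomial.coeff Q (dz P - 1)) h0
    simp only [Polynomial.coeff_derivative, Polynomial.coeff_zero] at h2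
    have h3 : dz P - 1 + 1 = dz P := by omega
    rw [h3] at h2
    have h4 : (finSuccEquiv κ 2 P).coeff (dz P) = 1 := hm
    rw [h4, one_mul] at h2
    have h5 : ((dz P : ℕ) : MvPolynomial (Fin 2) κ) = 0 := by
      have h6 : (((dz P - 1 : ℕ) : MvPolynomial (Fin 2) κ) + 1) = ((dz P : ℕ) : MvPolynomial (Fin 2) κ) := by
        rw [← Nat.cast_succ, Nat.succ_eq_add_one, h3]
      rw [← h6]
      exact h2
    have h7 : ((dz P : ℕ) : κ) = 0 := by
      have h8 : C (σ := Fin 2) ((dz P : ℕ) : κ) = 0 := by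
        rw [map_natCast]
        exact h5
      exact (C_eq_zero).1 h8
    rw [CharP.cast_eq_zero_iff κ p] at h7
    exact absurd (Nat.le_of_dvd hpos h7) (by omega)
  have h9 := Polynomial.natDegree_le_of_dvd h1 hne
  have h10 : (Polynomial.derivative (finSuccEquiv κ 2 P)).natDegree <
      (finSuccEquiv κ 2 P).natDegree := Polynomial.natDegree_derivative_lt hpos.ne'
  omega

/-- `P` does not divide a nonzero polynomial in `X 1`. -/
theorem not_dvd_X1 {P : MvPolynomial (Fin 3) κ} (hP : Irreducible P) (hm : Mon P)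
    (h : Polynomial κ) (hh : h ≠ 0) :
    ¬ P ∣ (Polynomial.aeval (X 1 : MvPolynomial (Fin 3) κ) h) := by
  rintro ⟨S, hS⟩
  have h0 : finSuccEquiv κ 2 (Polynomial.aeval (X 1 : MvPolynomial (Fin 3) κ) h) =
      Polynomial.C (Polynomial.aeval (X 0 : MvPolynomial (Fin 2) κ) h) := by
    have h1 : finSuccEquiv κ 2 (Polynomial.aeval (X 1 : MvPolynomial (Fin 3) κ) h) =
        Polynomial.aeval (finSuccEquiv κ 2 (X 1)) h :=
      (Polynomial.aeval_algHom_apply (finSuccEquiv κ 2).toAlgHom (X 1) h).symm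
    have h2 : finSuccEquiv κ 2 (X 1) = Polynomial.C (X 0 : MvPolynomial (Fin 2) κ) :=
      finSuccEquiv_X_succ (R := κ) (n := 2) (j := 0)
    rw [h1, h2]
    have h3 := Polynomial.aeval_algHom_apply
      (IsScalarTower.toAlgHom κ (MvPolynomial (Fin 2) κ) (Polynomial (MvPolynomial (Fin 2) κ)))
      (X 0 : MvPolynomial (Fin 2) κ) h
    exact h3
  have hinj : Polynomial.aeval (X 0 : MvPolynomial (Fin 2) κ) h ≠ 0 := by
    have ht : Transcendental κ (X 0 : MvPolynomial (Fin 2) κ) := transcendental_X κ 0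
    exact fun h4 => hh ((transcendental_iff.1 ht) h h4)
  have h5 : finSuccEquiv κ 2 P ∣ Polynomial.C (Polynomial.aeval (X 0 : MvPolynomial (Fin 2) κ) h) := by
    refine ⟨finSuccEquiv κ 2 S, ?_⟩
    rw [← h0, hS, map_mul]
  have h6 : Polynomial.C (Polynomial.aeval (X 0 : MvPolynomial (Fin 2) κ) h) ≠ 0 := by
    rwa [Ne, Polynomial.C_eq_zero]
  have h7 := Polynomial.natDegree_le_of_dvd h5 h6
  rw [Polynomial.natDegree_C] at h7
  have h8 := deg_pos hP hm
  unfold dz at h8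
  omega

/-- A generic point exists. -/
theorem exists_gen {P : MvPolynomial (Fin 3) κ} (hP : Irreducible P) :
    ∃ (E : Type) (_ : Field E) (_ : Algebra κ E) (ξ : Fin 3 → E), Gen P ξ := by
  have hprime : (Ideal.span {P} : Ideal (MvPolynomial (Fin 3) κ)).IsPrime :=
    (Ideal.span_singleton_prime hP.ne_zero).2 hP.prime
  set 𝔓 : Ideal (MvPolynomial (Fin 3) κ) := Ideal.span {P} with h𝔓
  have hev : ∀ q : MvPolynomial (Fin 3) κ,
      aeval (fun v : Fin 3 => algebraMap (MvPolynomial (Fin 3) κ ⧸ 𝔓)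
        (FractionRing (MvPolynomial (Fin 3) κ ⧸ 𝔓)) (Ideal.Quotient.mk 𝔓 (X v))) q =
      algebraMap (MvPolynomial (Fin 3) κ ⧸ 𝔓) (FractionRing (MvPolynomial (Fin 3) κ ⧸ 𝔓))
        (Ideal.Quotient.mk 𝔓 q) := by
    intro q
    have h2 := comp_aeval_apply (f := fun v : Fin 3 => (X v : MvPolynomial (Fin 3) κ))
      ((IsScalarTower.toAlgHom κ (MvPolynomial (Fin 3) κ ⧸ 𝔓)
        (FractionRing (MvPolynomial (Fin 3) κ ⧸ 𝔓))).comp (Ideal.Quotient.mkₐ κ 𝔓)) q
    rw [aeval_X_left_apply] at h2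
    exact h2.symm
  refine ⟨FractionRing (MvPolynomial (Fin 3) κ ⧸ 𝔓), inferInstance, inferInstance,
    fun v => algebraMap (MvPolynomial (Fin 3) κ ⧸ 𝔓)
      (FractionRing (MvPolynomial (Fin 3) κ ⧸ 𝔓)) (Ideal.Quotient.mk 𝔓 (X v)), ⟨?_, ?_⟩⟩
  · intro q
    rw [hev, map_eq_zero_iff _ (IsFractionRing.injective _ _), Ideal.Quotient.eq_zero_iff_mem,
      h𝔓, Ideal.mem_span_singleton]
  · rw [eq_top_iff]
    intro x _
    have hmem : ∀ q : MvPolynomial (Fin 3) κ,
        algebraMap (MvPolynomial (Fin 3) κ ⧸ 𝔓) (FractionRing (MvPolynomial (Fin 3) κ ⧸ 𝔓))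
          (Ideal.Quotient.mk 𝔓 q) ∈ IntermediateField.adjoin κ (Set.range fun v : Fin 3 =>
            algebraMap (MvPolynomial (Fin 3) κ ⧸ 𝔓)
              (FractionRing (MvPolynomial (Fin 3) κ ⧸ 𝔓)) (Ideal.Quotient.mk 𝔓 (X v))) := by
      intro q
      rw [← hev q]
      apply IntermediateField.algebra_adjoin_le_adjoin
      rw [Algebra.adjoin_range_eq_range_aeval]
      exact ⟨q, rfl⟩
    obtain ⟨a, b, -, hab⟩ := IsFractionRing.div_surjective (A := MvPolynomial (Fin 3) κ ⧸ 𝔓) x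
    obtain ⟨a', rfl⟩ := Ideal.Quotient.mk_surjective a
    obtain ⟨b', rfl⟩ := Ideal.Quotient.mk_surjective b
    rw [← hab]
    exact div_mem (hmem a') (hmem b')

/-- A common exponent fixing finitely many elements. -/
theorem exists_fix (p : ℕ) (hfix : ∀ c : κ, ∃ m : ℕ, 1 ≤ m ∧ c ^ p ^ m = c) (S : Finset κ) :
    ∃ r : ℕ, 1 ≤ r ∧ ∀ c ∈ S, ∀ s : ℕ, r ∣ s → c ^ p ^ s = c := by
  choose m hm1 hm2 using hfix
  refine ⟨∏ c ∈ S, m c, Finset.one_le_prod' fun c _ => hm1 c, ?_⟩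
  intro c hc s hs
  have hd : m c ∣ s := (Finset.dvd_prod_of_mem m hc).trans hs
  obtain ⟨k, rfl⟩ := hd
  induction k with
  | zero => simp
  | succ k ih =>
    have hk : (∀ k : ℕ, c ^ p ^ (m c * k) = c) := by
      intro k
      induction k with
      | zero => simp
      | succ k ih => rw [mul_add, mul_one, pow_add, pow_mul, ih, hm2]
    exact hk (k + 1)

theorem le_pow_of (p s N : ℕ) (hp : 2 ≤ p) (hN : N ≤ s) : N ≤ p ^ s :=
  hN.trans ((Nat.lt_pow_self (by omega : 1 < p)).le)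

end HruxM

open HruxM

theorem tHrux : SDer → StmtFib3 → StmtElim → StmtDom → StmtCurve → StmtDeg → StmtCoord →
    StmtMain → StmtHrux := by
  intro hDer hFib hElim hDom hCurve hDeg hCoord hMain d
  refine ⟨3 * (4 * d) ^ 4 + 1, ?_⟩
  intro κ _ _ p hpF _ hp hfix P f hOk B hB s₀ hs₀
  have hp2 : 2 ≤ p := hpF.out.two_le
  have hpow : ∀ x : ℕ, x ≤ 3 * x ^ 4 := by
    intro x
    rcases Nat.eq_zero_or_pos x with rfl | hx
    · simp
    · have : x ^ 1 ≤ x ^ 4 := Nat.pow_le_pow_right hx (by norm_num)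
      rw [pow_one] at this
      omega
  have h4d : 4 * d ≤ 3 * (4 * d) ^ 4 := hpow (4 * d)
  obtain ⟨P', f', t, u, hOk', hReg, hwX, hT⟩ := hCoord κ p P f d (by omega) hOk
  obtain ⟨B', hB', hTr⟩ := hT B hB
  have hirr := hOk'.irr
  have hmon := hOk'.mon
  have hprime : Prime P' := hirr.prime
  have hdz : dz P' ≤ 4 * d := by
    unfold dz
    rw [natDegree_finSuccEquiv]
    exact (degreeOf_le_totalDegree P' 0).trans hOk'.dP
  have hdzp : dz P' < p := by omega
  have hPz : ¬ P' ∣ pderiv 0 P' := not_dvd_der hirr hmon p hdzp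
  obtain ⟨E, iE, iA, Ξ, hΞ⟩ := exists_gen hirr
  obtain ⟨h, hh0, hhirr⟩ := hFib κ E P' hirr hmon hPz Ξ hΞ.ker (hReg E Ξ hΞ)
  obtain ⟨R, hR0, hRmem, -⟩ := hElim.1 κ P' (pderiv 0 P')
    (max P'.totalDegree (pderiv 0 P').totalDegree) hirr hmon (le_max_left _ _) hPz
    ((degreeOf_le_totalDegree _ 2).trans (le_max_right _ _))
    ((degreeOf_le_totalDegree _ 0).trans (le_max_right _ _))
  obtain ⟨W, hW, hWR⟩ := hDom κ P' f' hirr hOk'.den hOk'.jac R hR0
  set hX : MvPolynomial (Fin 3) κ := Polynomial.aeval (X 1 : MvPolynomial (Fin 3) κ) h with hhX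
  have hhXn : ¬ P' ∣ hX := not_dvd_X1 hirr hmon h hh0
  set B₁ : MvPolynomial (Fin 3) κ := B' * f'.den 0 * f'.den 1 * f'.den 2 * pderiv 0 P' *
    jX P' f' * W * hX with hB₁
  have hB₁n : ¬ P' ∣ B₁ := by
    intro hd
    rcases hprime.dvd_or_dvd hd with hd | hd
    · rcases hprime.dvd_or_dvd hd with hd | hd
      · rcases hprime.dvd_or_dvd hd with hd | hd
        · rcases hprime.dvd_or_dvd hd with hd | hd
          · rcases hprime.dvd_or_dvd hd with hd | hd
            · rcases hprime.dvd_or_dvd hd with hd | hd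
              · rcases hprime.dvd_or_dvd hd with hd | hd
                · exact hB' hd
                · exact hOk'.den 0 hd
              · exact hOk'.den 1 hd
            · exact hOk'.den 2 hd
          · exact hPz hd
        · exact hOk'.jac hd
      · exact hW hd
    · exact hhXn hd
  obtain ⟨q₁, hq₁⟩ := hCurve κ p P' f' hirr hmon hdzp (hOk'.den 1) hwX B₁ hB₁n
  obtain ⟨q₂, hq₂⟩ := hMain κ p P' B' f' (3 * (4 * d) ^ 4) hirr hmon hOk'.keeps
  classical
  obtain ⟨r, hr1, hr⟩ := exists_fix p hfix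
    (insert t (insert u (P'.support.image (fun e => P'.coeff e) ∪ h.support.image h.coeff)))
  set N : ℕ := max q₁ q₂ + 1 with hN
  set s : ℕ := s₀ * r * N with hs
  have hNs : N ≤ s := by
    have h1 : 1 ≤ s₀ * r := Nat.one_le_iff_ne_zero.2 (by positivity)
    calc N = 1 * N := (one_mul N).symm
      _ ≤ s₀ * r * N := Nat.mul_le_mul_right N h1
  have hs1 : 1 ≤ s := by omega
  have hrs : r ∣ s := ⟨s₀ * N, by rw [hs]; ring⟩
  have hs₀s : s₀ ∣ s := ⟨r * N, by rw [hs]; ring⟩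
  have hNp : N ≤ p ^ s := le_pow_of p s N hp2 hNs
  have ht : t ^ p ^ s = t := hr t (Finset.mem_insert_self _ _) s hrs
  have hu : u ^ p ^ s = u :=
    hr u (Finset.mem_insert_of_mem (Finset.mem_insert_self _ _)) s hrs
  have hPc : ∀ e, (P'.coeff e) ^ p ^ s = P'.coeff e := by
    intro e
    by_cases he : e ∈ P'.support
    · refine hr _ (Finset.mem_insert_of_mem (Finset.mem_insert_of_mem (Finset.mem_union_left _ ?_))) s hrs
      exact Finset.mem_image_of_mem _ he
    · rw [notMem_support_iff.1 he, zero_pow (by positivity)]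
  have hhc : ∀ e, (h.coeff e) ^ p ^ s = h.coeff e := by
    intro e
    by_cases he : e ∈ h.support
    · refine hr _ (Finset.mem_insert_of_mem (Finset.mem_insert_of_mem (Finset.mem_union_right _ ?_))) s hrs
      exact Finset.mem_image_of_mem _ he
    · rw [Polynomial.notMem_support_iff.1 he, zero_pow (by positivity)]
  refine ⟨s, hs1, hs₀s, hTr s ht hu ?_⟩
  obtain ⟨L, iL, iAL, ξ, hcf, htop, htr2, hP0, hB₁0, hden1, heq⟩ := hq₁ s hs1 (by omega)
  rw [hB₁] at hB₁0
  simp only [map_mul, mul_ne_zero_iff] at hB₁0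
  obtain ⟨⟨⟨⟨⟨⟨⟨hB'0, hd0⟩, hd1⟩, hd2⟩, hPz0⟩, hJ0⟩, hW0⟩, hhX0⟩ := hB₁0
  have hden : ∀ i, aeval ξ (f'.den i) ≠ 0 := by
    intro i
    fin_cases i
    · exact hd0
    · exact hd1
    · exact hd2
  have hqκ : ((p ^ s : ℕ) : κ) = 0 := by
    rw [Nat.cast_pow, CharP.cast_eq_zero, zero_pow (by omega)]
  have hdeg := hDeg κ P' f' (4 * d) hirr hmon hOk'.dP (hOk'.dn 1) (hOk'.dd 1) hwX L ξ (p ^ s) hqκ
    htop htr2 hP0 heq
  have hexists : ∃ x : L, (x = ξ 1 ∨ (x = ξ 2 ∧ ∃ a : κ, ξ 1 = algebraMap κ L a)) ∧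
      Transcendental κ x ∧ Module.Finite κ⟮x⟯ L ∧ Module.finrank κ⟮x⟯ L ≤ 3 * (4 * d) ^ 4 := by
    by_cases htr1 : Transcendental κ (ξ 1)
    · exact ⟨ξ 1, Or.inl rfl, htr1, (hdeg.1 htr1).1, (hdeg.1 htr1).2⟩
    · obtain ⟨ha, hf2, hr2⟩ := hdeg.2 htr1
      exact ⟨ξ 2, Or.inr ⟨rfl, ha⟩, htr2, hf2, hr2.trans h4d⟩
  obtain ⟨x, hcas, htrx, hfx, hrx⟩ := hexists
  have hsep : Algebra.IsSeparable κ⟮x⟯ L := hDer.1 κ L p κ⟮x⟯ hfx (by omega)
  obtain ⟨δ, hδ⟩ := hDer.2 κ L x htrx hsep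
  have hCv : Cv κ L P' f' ξ x δ (p ^ s) (3 * (4 * d) ^ 4) := by
    refine ⟨⟨htrx, hsep, hδ⟩, hrx, hcas, ?_, hqκ, htr2, hP0, hPz0, hden, hJ0, heq⟩
    intro n hn0 hnc h0
    rw [CharP.cast_eq_zero_iff κ p] at h0
    exact absurd (Nat.le_of_dvd hn0 h0) (by omega)
  have hfv : aeval (fv f' ξ) (pderiv 0 P') ≠ 0 := by
    intro h0
    have hk : aeval (fv f' ξ) P' = 0 := hOk'.keeps L ξ hP0 hden
    have h1 : aeval (fv f' ξ) (rename Fin.succ R) = 0 := by
      rw [Ideal.mem_span_pair] at hRmem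
      obtain ⟨a, b, hab⟩ := hRmem
      rw [← hab, map_add, map_mul, map_mul, hk, h0, mul_zero, mul_zero, add_zero]
    rw [aeval_rename] at h1
    have h2 : (fv f' ξ) ∘ Fin.succ = ![fv f' ξ 1, fv f' ξ 2] := by
      funext i
      fin_cases i
      · rfl
      · rfl
    rw [h2] at h1
    exact hWR L ξ hden hW0 h1
  have hchar : CharP L p := charP_of_injective_algebraMap (algebraMap κ L).injective p
  have hmaph : h.map (iterateFrobenius κ p s) = h := by
    ext e
    rw [Polynomial.coeff_map, iterateFrobenius_def, hhc]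
  have hirrsp : Irreducible (sp (ξ 1 ^ p ^ s) P') := by
    apply hhirr L (ξ 1 ^ p ^ s)
    have h1 : Polynomial.aeval (ξ 1 ^ p ^ s) h = (Polynomial.aeval (ξ 1) h) ^ p ^ s := by
      have h2 : (iterateFrobenius L p s) (Polynomial.aeval (ξ 1) h) =
          Polynomial.aeval (ξ 1 ^ p ^ s) h := by
        rw [Polynomial.aeval_def, Polynomial.hom_eval₂, iterateFrobenius_def]
        have h3 : (iterateFrobenius L p s).comp (algebraMap κ L) =
            (algebraMap κ L).comp (iterateFrobenius κ p s) := by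
          ext c
          simp [iterateFrobenius_def]
        rw [h3, ← Polynomial.eval₂_map, hmaph, ← Polynomial.aeval_def]
      rw [← h2, iterateFrobenius_def]
    rw [h1]
    apply pow_ne_zero
    have h4 : aeval ξ hX = Polynomial.aeval (ξ 1) h := by
      rw [hhX]
      have h5 := Polynomial.aeval_algHom_apply (aeval ξ : MvPolynomial (Fin 3) κ →ₐ[κ] L)
        (X 1 : MvPolynomial (Fin 3) κ) h
      rw [aeval_X] at h5
      exact h5.symm
    rw [← h4]
    exact hhX0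
  have hmapP : map (iterateFrobenius κ p s) P' = P' := by
    ext e
    rw [coeff_map, iterateFrobenius_def, hPc]
  exact hq₂ L ξ x δ s hCv hB'0 hfv hirrsp hmapP (by omega)

end Pool.Agent.Lib.MP_16285c_agS.Hrx
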